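import Mathlib

/-!
Task A of the disproof of MP_cc389e_ag: polynomials with an Appell property.
-/

open scoped ContDiff

namespace Pool.Agent.Lib.MP_cc389e_ag

namespace Appell

/-- Arrays of coefficients. -/
abbrev Arr := ℕ → ℕ → ℕ → ℂ

/-- The derivation `∂_A + ∂_B + ∂_C` on coefficients. -/
def ee (φ : Arr) : Arr := fun i j k =>
  ((i : ℂ) + 1) * φ (i + 1) j k + ((j : ℂ) + 1) * φ i (j + 1) k + ((k : ℂ) + 1) * φ i j (k + 1)

/-- Lowering an index, with value zero at index zero. -/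
def lo (p : ℕ) (g : ℕ → ℂ) (i : ℕ) : ℂ := if i = 0 then 0 else ((p : ℂ) - ((i - 1 : ℕ) : ℂ)) * g (i - 1)

lemma lo_zero (p : ℕ) (g : ℕ → ℂ) : lo p g 0 = 0 := by simp [lo]

lemma lo_succ (p : ℕ) (g : ℕ → ℂ) (i : ℕ) : lo p g (i + 1) = ((p : ℂ) - i) * g i := by
  simp [lo]

/-- The raising operator. -/
def ff (p q r : ℕ) (φ : Arr) : Arr := fun i j k =>
  lo p (fun i' => φ i' j k) i + lo q (fun j' => φ i j' k) j + lo r (fun k' => φ i j k') k

lemma comm (p q r : ℕ) (φ : Arr) (i j k : ℕ) :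
    ee (ff p q r φ) i j k = ff p q r (ee φ) i j k +
      (((p : ℂ) - 2 * i) + ((q : ℂ) - 2 * j) + ((r : ℂ) - 2 * k)) * φ i j k := by
  rcases i with _ | i <;> rcases j with _ | j <;> rcases k with _ | k <;>
    simp only [ee, ff, lo_zero, lo_succ, Nat.zero_add] <;> push_cast <;> ring

/-- Arrays supported on the part of degree `n` of a box. -/
def UU (p q r n : ℕ) (φ : Arr) : Prop :=
  ∀ i j k, φ i j k ≠ 0 → i + j + k = n ∧ i ≤ p ∧ j ≤ q ∧ k ≤ r

lemma UU.ee {p q r n : ℕ} {φ : Arr} (h : UU p q r (n + 1) φ) : UU p q r n (ee φ) := by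
  intro i j k hne
  have h1 : φ (i + 1) j k ≠ 0 ∨ φ i (j + 1) k ≠ 0 ∨ φ i j (k + 1) ≠ 0 := by
    by_contra hc
    push Not at hc
    apply hne
    simp [Appell.ee, hc.1, hc.2.1, hc.2.2]
  rcases h1 with h1 | h1 | h1
  · have := h _ _ _ h1; omega
  · have := h _ _ _ h1; omega
  · have := h _ _ _ h1; omega

lemma ee_zero {p q r : ℕ} {φ : Arr} (h : UU p q r 0 φ) : ee φ = 0 := by
  funext i j k
  have h1 : φ (i + 1) j k = 0 := by
    by_contra hc; have := h _ _ _ hc; omega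
  have h2 : φ i (j + 1) k = 0 := by
    by_contra hc; have := h _ _ _ hc; omega
  have h3 : φ i j (k + 1) = 0 := by
    by_contra hc; have := h _ _ _ hc; omega
  simp [ee, h1, h2, h3]

lemma lo_ne {p : ℕ} {g : ℕ → ℂ} {i : ℕ} (h : lo p g i ≠ 0) :
    ∃ i', i = i' + 1 ∧ i' ≠ p ∧ g i' ≠ 0 := by
  rcases i with _ | i
  · exact absurd (lo_zero p g) h
  · rw [lo_succ] at h
    refine ⟨i, rfl, ?_, right_ne_zero_of_mul h⟩
    rintro rfl
    simp at h

lemma UU.ff {p q r n : ℕ} {φ : Arr} (h : UU p q r n φ) : UU p q r (n + 1) (ff p q r φ) := by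
  intro i j k hne
  have h1 : lo p (fun i' => φ i' j k) i ≠ 0 ∨ lo q (fun j' => φ i j' k) j ≠ 0 ∨
      lo r (fun k' => φ i j k') k ≠ 0 := by
    by_contra hc
    push Not at hc
    apply hne
    simp [Appell.ff, hc.1, hc.2.1, hc.2.2]
  rcases h1 with h1 | h1 | h1
  · obtain ⟨i', rfl, h2, h3⟩ := lo_ne h1
    have := h _ _ _ h3; omega
  · obtain ⟨i', rfl, h2, h3⟩ := lo_ne h1
    have := h _ _ _ h3; omega
  · obtain ⟨i', rfl, h2, h3⟩ := lo_ne h1
    have := h _ _ _ h3; omega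

lemma comm' {p q r n : ℕ} {φ : Arr} (h : UU p q r n φ) :
    ee (ff p q r φ) = ff p q r (ee φ) + ((p : ℂ) + q + r - 2 * n) • φ := by
  funext i j k
  rw [comm]
  simp only [Pi.add_apply, Pi.smul_apply, smul_eq_mul]
  congr 1
  by_cases h0 : φ i j k = 0
  · rw [h0, mul_zero, mul_zero]
  · have := (h i j k h0).1
    subst this
    push_cast
    ring

lemma ff_add (p q r : ℕ) (φ ψ : Arr) : ff p q r (φ + ψ) = ff p q r φ + ff p q r ψ := by
  funext i j k
  rcases i with _ | i <;> rcases j with _ | j <;> rcases k with _ | k <;>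
    simp only [ff, lo_zero, lo_succ, Pi.add_apply] <;> ring

lemma ff_smul (p q r : ℕ) (c : ℂ) (φ : Arr) : ff p q r (c • φ) = c • ff p q r φ := by
  funext i j k
  rcases i with _ | i <;> rcases j with _ | j <;> rcases k with _ | k <;>
    simp only [ff, lo_zero, lo_succ, Pi.smul_apply, smul_eq_mul] <;> ring

lemma ee_sub_smul (c : ℂ) (φ ψ : Arr) : ee (c • (φ - ψ)) = c • (ee φ - ee ψ) := by
  funext i j k
  simp only [ee, Pi.sub_apply, Pi.smul_apply, smul_eq_mul]
  ring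

lemma UU.iterate {p q r n : ℕ} {φ : Arr} (h : UU p q r n φ) (s : ℕ) :
    UU p q r (n + s) ((Appell.ff p q r)^[s] φ) := by
  induction s with
  | zero => exact h
  | succ s ih =>
    rw [Function.iterate_succ_apply']
    exact ih.ff

lemma ee_iterate {p q r n : ℕ} {φ : Arr} (h : UU p q r n φ) (s : ℕ) :
    ee ((ff p q r)^[s + 1] φ) = (ff p q r)^[s + 1] (ee φ) +
      (((s : ℂ) + 1) * ((p : ℂ) + q + r - 2 * n - s)) • (ff p q r)^[s] φ := by
  induction s with
  | zero =>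
    simp only [Function.iterate_succ, Function.iterate_zero, Function.comp_apply, id]
    rw [comm' h]
    congr 2
    push_cast; ring
  | succ s ih =>
    rw [Function.iterate_succ_apply' (ff p q r) (s + 1) φ, comm' (h.iterate (s + 1)), ih, ff_add,
      ff_smul, ← Function.iterate_succ_apply' (ff p q r) s φ,
      ← Function.iterate_succ_apply' (ff p q r) (s + 1) (ee φ), add_assoc, ← add_smul]
    congr 2
    push_cast; ring

lemma solve (p q r : ℕ) : ∀ (m s : ℕ) (x : Arr), UU p q r m x → 2 * m + s + 1 ≤ p + q + r →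
    ∃ φ, UU p q r (m + s + 1) φ ∧ ee φ = (ff p q r)^[s] x := by
  intro m
  induction m with
  | zero =>
    intro s x hx hs
    have hne : ((s : ℂ) + 1) * ((p : ℂ) + q + r - 2 * (0 : ℕ) - s) ≠ 0 := by
      apply mul_ne_zero
      · exact_mod_cast Nat.succ_ne_zero s
      · intro h
        have h1 : ((p + q + r : ℕ) : ℂ) = (s : ℕ) := by push_cast at h ⊢; linear_combination h
        have h2 : p + q + r = s := by exact_mod_cast h1
        omega
    refine ⟨(((s : ℂ) + 1) * ((p : ℂ) + q + r - 2 * (0 : ℕ) - s))⁻¹ •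
      ((ff p q r)^[s + 1] x - 0), ?_, ?_⟩
    · intro i j k h
      have h1 := hx.iterate (s + 1)
      have h2 : (ff p q r)^[s + 1] x i j k ≠ 0 := by
        intro h3
        apply h
        simp only [sub_zero, Pi.smul_apply, h3, smul_eq_mul, mul_zero]
      have := h1 i j k h2
      omega
    · rw [ee_sub_smul, ee_iterate hx, ee_zero hx]
      have h0 : ∀ s : ℕ, (ff p q r)^[s] 0 = 0 := by
        intro s
        induction s with
        | zero => rfl
        | succ s ih =>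
          rw [Function.iterate_succ_apply', ih]
          have := ff_smul p q r 0 0
          simpa using this
      have h1 : ee 0 = 0 := by
        funext i j k; simp [ee]
      rw [h0, h1, sub_zero, zero_add, smul_smul, inv_mul_cancel₀ hne, one_smul]
  | succ m ih =>
    intro s x hx hs
    obtain ⟨φ', h1, h2⟩ := ih (s + 1) (ee x) hx.ee (by omega)
    have hne : ((s : ℂ) + 1) * ((p : ℂ) + q + r - 2 * (m + 1 : ℕ) - s) ≠ 0 := by
      apply mul_ne_zero
      · exact_mod_cast Nat.succ_ne_zero s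
      · intro h
        have h1 : ((p + q + r : ℕ) : ℂ) = (2 * (m + 1) + s : ℕ) := by
          push_cast at h ⊢; linear_combination h
        have h2 : p + q + r = 2 * (m + 1) + s := by exact_mod_cast h1
        omega
    refine ⟨(((s : ℂ) + 1) * ((p : ℂ) + q + r - 2 * (m + 1 : ℕ) - s))⁻¹ •
      ((ff p q r)^[s + 1] x - φ'), ?_, ?_⟩
    · intro i j k h
      have h3 := hx.iterate (s + 1)
      have h4 : (ff p q r)^[s + 1] x i j k ≠ 0 ∨ φ' i j k ≠ 0 := by
        by_contra hc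
        push Not at hc
        apply h
        simp only [Pi.smul_apply, Pi.sub_apply, hc.1, hc.2, smul_eq_mul, sub_zero, mul_zero]
      rcases h4 with h4 | h4
      · have := h3 i j k h4; omega
      · have := h1 i j k h4; omega
    · rw [ee_sub_smul, ee_iterate hx, h2, add_sub_cancel_left, smul_smul, inv_mul_cancel₀ hne,
        one_smul]

/-- The boxes. -/
def bx (n : ℕ) : ℕ := (2 * n + 1) / 3
def by' (n : ℕ) : ℕ := (2 * n) / 3

lemma next (n : ℕ) (x : Arr) (hx : UU (bx n) (by' n) (by' n) n x) :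
    ∃ φ, UU (bx (n + 1)) (by' (n + 1)) (by' (n + 1)) (n + 1) φ ∧ ee φ = ((n : ℂ) + 1) • x := by
  have h1 : UU (bx (n + 1)) (by' (n + 1)) (by' (n + 1)) n (((n : ℂ) + 1) • x) := by
    intro i j k h
    have h2 : x i j k ≠ 0 := by
      intro h3; apply h; simp [h3]
    have h4 := hx i j k h2
    unfold bx by' at *
    omega
  obtain ⟨φ, h2, h3⟩ := solve _ _ _ n 0 _ h1 (by unfold bx by'; omega)
  exact ⟨φ, by simpa using h2, by simpa using h3⟩

def base : Arr := fun i j k => if i = 0 ∧ j = 0 ∧ k = 0 then 1 else 0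

lemma base_UU : UU (bx 0) (by' 0) (by' 0) 0 base := by
  intro i j k h
  unfold base at h
  split_ifs at h with h1
  · obtain ⟨rfl, rfl, rfl⟩ := h1
    simp
  · exact absurd rfl h

/-- The sequence of arrays. -/
noncomputable def gam : (n : ℕ) → {φ : Arr // UU (bx n) (by' n) (by' n) n φ}
  | 0 => ⟨base, base_UU⟩
  | n + 1 => ⟨Classical.choose (next n (gam n).1 (gam n).2),
      (Classical.choose_spec (next n (gam n).1 (gam n).2)).1⟩

lemma gam_succ (n : ℕ) : ee (gam (n + 1)).1 = ((n : ℂ) + 1) • (gam n).1 :=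
  (Classical.choose_spec (next n (gam n).1 (gam n).2)).2

lemma gam_rec (n i j k : ℕ) :
    ((i : ℂ) + 1) * (gam (n + 1)).1 (i + 1) j k + ((j : ℂ) + 1) * (gam (n + 1)).1 i (j + 1) k +
      ((k : ℂ) + 1) * (gam (n + 1)).1 i j (k + 1) = ((n : ℂ) + 1) * (gam n).1 i j k := by
  have := congrFun (congrFun (congrFun (gam_succ n) i) j) k
  simpa [ee] using this

/-- Evaluation of a truncated array. -/
noncomputable def PP (N : ℕ) (φ : Arr) (x y z : ℂ) : ℂ :=
  ∑ i ∈ Finset.range N, ∑ j ∈ Finset.range N, ∑ k ∈ Finset.range N, φ i j k * (x ^ i * (y ^ j * z ^ k))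

lemma PP_trunc {p q r n : ℕ} {φ : Arr} (h : UU p q r n φ) {N N' : ℕ} (hN : n < N) (hN' : N ≤ N')
    (x y z : ℂ) : PP N' φ x y z = PP N φ x y z := by
  have hsub : Finset.range N ⊆ Finset.range N' := Finset.range_mono hN'
  have hz : ∀ i j k, N ≤ i ∨ N ≤ j ∨ N ≤ k → φ i j k = 0 := by
    intro i j k hh
    by_contra hc
    have := h i j k hc
    omega
  unfold PP
  symm
  rw [Finset.sum_subset hsub]
  · refine Finset.sum_congr rfl fun i _ => ?_
    rw [Finset.sum_subset hsub]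
    · refine Finset.sum_congr rfl fun j _ => ?_
      rw [Finset.sum_subset hsub]
      intro k _ hk
      rw [Finset.mem_range, not_lt] at hk
      rw [hz i j k (Or.inr (Or.inr hk)), zero_mul]
    · intro j _ hj
      rw [Finset.mem_range, not_lt] at hj
      exact Finset.sum_eq_zero fun k _ => by rw [hz i j k (Or.inr (Or.inl hj)), zero_mul]
  · intro i _ hi
    rw [Finset.mem_range, not_lt] at hi
    exact Finset.sum_eq_zero fun j _ => Finset.sum_eq_zero fun k _ => by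
      rw [hz i j k (Or.inl hi), zero_mul]

lemma shift (g : ℕ → ℂ) (N : ℕ) (hN : g N = 0) (X : ℂ) :
    ∑ i ∈ Finset.range N, g i * ((i : ℂ) * X ^ (i - 1)) =
      ∑ i ∈ Finset.range N, (((i : ℂ) + 1) * g (i + 1)) * X ^ i := by
  have h1 : ∑ i ∈ Finset.range (N + 1), g i * ((i : ℂ) * X ^ (i - 1)) =
      ∑ i ∈ Finset.range N, g i * ((i : ℂ) * X ^ (i - 1)) := by
    rw [Finset.sum_range_succ, hN, zero_mul, add_zero]
  rw [← h1, Finset.sum_range_succ']
  simp only [Nat.cast_zero, zero_mul, mul_zero, add_zero, Nat.add_sub_cancel]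
  refine Finset.sum_congr rfl fun i _ => ?_
  push_cast; ring

lemma hasDerivAt_PP {p q r n N : ℕ} {φ : Arr} (h : UU p q r n φ) (hN : n < N) (x y z κ : ℂ) :
    HasDerivAt (fun κ => PP N φ (x + κ) (y + κ) (z + κ)) (PP N (ee φ) (x + κ) (y + κ) (z + κ)) κ := by
  have hz : ∀ i j k, N ≤ i ∨ N ≤ j ∨ N ≤ k → φ i j k = 0 := by
    intro i j k hh
    by_contra hc
    have := h i j k hc
    omega
  have hp : ∀ (x : ℂ) (i : ℕ), HasDerivAt (fun κ : ℂ => (x + κ) ^ i)
      ((i : ℂ) * (x + κ) ^ (i - 1)) κ := by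
    intro x i
    have h1 : HasDerivAt (fun κ : ℂ => x + κ) 1 κ := (hasDerivAt_id κ).const_add x
    simpa using h1.fun_pow i
  have h1 : HasDerivAt (fun κ => PP N φ (x + κ) (y + κ) (z + κ))
      (∑ i ∈ Finset.range N, ∑ j ∈ Finset.range N, ∑ k ∈ Finset.range N,
        φ i j k * (((i : ℂ) * (x + κ) ^ (i - 1)) * ((y + κ) ^ j * (z + κ) ^ k) +
          (x + κ) ^ i * (((j : ℂ) * (y + κ) ^ (j - 1)) * (z + κ) ^ k +
            (y + κ) ^ j * ((k : ℂ) * (z + κ) ^ (k - 1))))) κ := by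
    unfold PP
    refine HasDerivAt.fun_sum fun i _ => HasDerivAt.fun_sum fun j _ => HasDerivAt.fun_sum fun k _ => ?_
    exact ((hp x i).mul ((hp y j).mul (hp z k))).const_mul (φ i j k)
  convert h1 using 1
  set X := x + κ
  set Y := y + κ
  set Z := z + κ
  have e1 : ∑ i ∈ Finset.range N, ∑ j ∈ Finset.range N, ∑ k ∈ Finset.range N,
        φ i j k * (((i : ℂ) * X ^ (i - 1)) * (Y ^ j * Z ^ k)) =
      ∑ i ∈ Finset.range N, ∑ j ∈ Finset.range N, ∑ k ∈ Finset.range N,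
        (((i : ℂ) + 1) * φ (i + 1) j k) * (X ^ i * (Y ^ j * Z ^ k)) := by
    have := shift (fun i => ∑ j ∈ Finset.range N, ∑ k ∈ Finset.range N,
      φ i j k * (Y ^ j * Z ^ k)) N (Finset.sum_eq_zero fun j _ => Finset.sum_eq_zero fun k _ => by
        rw [hz N j k (Or.inl le_rfl), zero_mul]) X
    refine Eq.trans ?_ (this.trans ?_)
    · refine Finset.sum_congr rfl fun i _ => ?_
      rw [Finset.sum_mul]
      refine Finset.sum_congr rfl fun j _ => ?_
      rw [Finset.sum_mul]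
      refine Finset.sum_congr rfl fun k _ => ?_
      ring
    · refine Finset.sum_congr rfl fun i _ => ?_
      rw [Finset.mul_sum, Finset.sum_mul]
      refine Finset.sum_congr rfl fun j _ => ?_
      rw [Finset.mul_sum, Finset.sum_mul]
      refine Finset.sum_congr rfl fun k _ => ?_
      ring
  have e2 : ∑ i ∈ Finset.range N, ∑ j ∈ Finset.range N, ∑ k ∈ Finset.range N,
        φ i j k * (X ^ i * (((j : ℂ) * Y ^ (j - 1)) * Z ^ k)) =
      ∑ i ∈ Finset.range N, ∑ j ∈ Finset.range N, ∑ k ∈ Finset.range N,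
        (((j : ℂ) + 1) * φ i (j + 1) k) * (X ^ i * (Y ^ j * Z ^ k)) := by
    refine Finset.sum_congr rfl fun i _ => ?_
    have := shift (fun j => ∑ k ∈ Finset.range N,
      φ i j k * (X ^ i * Z ^ k)) N (Finset.sum_eq_zero fun k _ => by
        rw [hz i N k (Or.inr (Or.inl le_rfl)), zero_mul]) Y
    refine Eq.trans ?_ (this.trans ?_)
    · refine Finset.sum_congr rfl fun j _ => ?_
      rw [Finset.sum_mul]
      refine Finset.sum_congr rfl fun k _ => ?_
      ring
    · refine Finset.sum_congr rfl fun j _ => ?_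
      rw [Finset.mul_sum, Finset.sum_mul]
      refine Finset.sum_congr rfl fun k _ => ?_
      ring
  have e3 : ∑ i ∈ Finset.range N, ∑ j ∈ Finset.range N, ∑ k ∈ Finset.range N,
        φ i j k * (X ^ i * (Y ^ j * ((k : ℂ) * Z ^ (k - 1)))) =
      ∑ i ∈ Finset.range N, ∑ j ∈ Finset.range N, ∑ k ∈ Finset.range N,
        (((k : ℂ) + 1) * φ i j (k + 1)) * (X ^ i * (Y ^ j * Z ^ k)) := by
    refine Finset.sum_congr rfl fun i _ => Finset.sum_congr rfl fun j _ => ?_
    have := shift (fun k => φ i j k * (X ^ i * Y ^ j)) N (by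
      rw [hz i j N (Or.inr (Or.inr le_rfl)), zero_mul]) Z
    refine Eq.trans ?_ (this.trans ?_)
    · refine Finset.sum_congr rfl fun k _ => ?_
      ring
    · refine Finset.sum_congr rfl fun k _ => ?_
      ring
  have e4 : PP N (ee φ) X Y Z =
      ∑ i ∈ Finset.range N, ∑ j ∈ Finset.range N, ∑ k ∈ Finset.range N,
        (((i : ℂ) + 1) * φ (i + 1) j k) * (X ^ i * (Y ^ j * Z ^ k)) +
      ∑ i ∈ Finset.range N, ∑ j ∈ Finset.range N, ∑ k ∈ Finset.range N,
        (((j : ℂ) + 1) * φ i (j + 1) k) * (X ^ i * (Y ^ j * Z ^ k)) +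
      ∑ i ∈ Finset.range N, ∑ j ∈ Finset.range N, ∑ k ∈ Finset.range N,
        (((k : ℂ) + 1) * φ i j (k + 1)) * (X ^ i * (Y ^ j * Z ^ k)) := by
    unfold PP
    simp only [← Finset.sum_add_distrib]
    refine Finset.sum_congr rfl fun i _ => Finset.sum_congr rfl fun j _ =>
      Finset.sum_congr rfl fun k _ => ?_
    unfold ee; ring
  rw [e4, ← e1, ← e2, ← e3]
  simp only [← Finset.sum_add_distrib]
  refine Finset.sum_congr rfl fun i _ => Finset.sum_congr rfl fun j _ =>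
      Finset.sum_congr rfl fun k _ => ?_
  ring

lemma PP_smul (N : ℕ) (c : ℂ) (φ : Arr) (x y z : ℂ) : PP N (c • φ) x y z = c * PP N φ x y z := by
  unfold PP
  simp only [Finset.mul_sum]
  refine Finset.sum_congr rfl fun i _ => Finset.sum_congr rfl fun j _ =>
      Finset.sum_congr rfl fun k _ => ?_
  simp only [Pi.smul_apply, smul_eq_mul]; ring

/-- The Appell property of the truncated evaluations. -/
lemma appell (N : ℕ) (x y z : ℂ) : ∀ n, n < N → ∀ κ : ℂ,
    PP N (gam n).1 (x + κ) (y + κ) (z + κ) =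
      ∑ l ∈ Finset.range (n + 1), (n.choose l : ℂ) * κ ^ (n - l) * PP N (gam l).1 x y z := by
  intro n
  induction n with
  | zero =>
    intro hN κ
    have h1 : ∀ κ, HasDerivAt (fun κ => PP N (gam 0).1 (x + κ) (y + κ) (z + κ)) 0 κ := by
      intro κ
      have := hasDerivAt_PP (gam 0).2 hN x y z κ
      rw [ee_zero (gam 0).2] at this
      have e1 : PP N 0 (x + κ) (y + κ) (z + κ) = 0 := by unfold PP; simp
      rwa [e1] at this
    have h2 := is_const_of_deriv_eq_zero (fun κ => (h1 κ).differentiableAt)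
      (fun κ => (h1 κ).deriv) κ 0
    simp only [add_zero] at h2
    rw [h2]; simp
  | succ n ih =>
    intro hN κ
    have hd1 : ∀ κ, HasDerivAt (fun κ => PP N (gam (n + 1)).1 (x + κ) (y + κ) (z + κ))
        (((n : ℂ) + 1) * PP N (gam n).1 (x + κ) (y + κ) (z + κ)) κ := by
      intro κ
      have := hasDerivAt_PP (gam (n + 1)).2 hN x y z κ
      rwa [gam_succ, PP_smul] at this
    have hd2 : ∀ κ, HasDerivAt (fun κ : ℂ => ∑ l ∈ Finset.range (n + 1 + 1),
        ((n + 1).choose l : ℂ) * κ ^ (n + 1 - l) * PP N (gam l).1 x y z)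
        (((n : ℂ) + 1) * ∑ l ∈ Finset.range (n + 1), (n.choose l : ℂ) * κ ^ (n - l) *
          PP N (gam l).1 x y z) κ := by
      intro κ
      have h1 : HasDerivAt (fun κ : ℂ => ∑ l ∈ Finset.range (n + 1 + 1),
        ((n + 1).choose l : ℂ) * κ ^ (n + 1 - l) * PP N (gam l).1 x y z)
        (∑ l ∈ Finset.range (n + 1 + 1), ((n + 1).choose l : ℂ) * (((n + 1 - l : ℕ) : ℂ) *
          κ ^ (n + 1 - l - 1)) * PP N (gam l).1 x y z) κ := by
        refine HasDerivAt.fun_sum fun l _ => ?_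
        exact ((hasDerivAt_pow (n + 1 - l) κ).const_mul _).mul_const _
      convert h1 using 1
      rw [Finset.sum_range_succ _ (n + 1), Finset.mul_sum]
      simp only [Nat.sub_self, Nat.cast_zero, zero_mul, mul_zero, add_zero]
      refine Finset.sum_congr rfl fun l hl => ?_
      rw [Finset.mem_range] at hl
      have h2 : (n.choose l : ℂ) * ((n : ℂ) + 1) = ((n + 1).choose l : ℂ) * ((n + 1 - l : ℕ) : ℂ) := by
        have := Nat.choose_mul_succ_eq n l
        exact_mod_cast this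
      have h3 : n + 1 - l - 1 = n - l := by omega
      rw [h3]
      linear_combination (κ ^ (n - l) * PP N (gam l).1 x y z) * h2
    have h3 : ∀ κ, HasDerivAt (fun κ => PP N (gam (n + 1)).1 (x + κ) (y + κ) (z + κ) -
        ∑ l ∈ Finset.range (n + 1 + 1),
        ((n + 1).choose l : ℂ) * κ ^ (n + 1 - l) * PP N (gam l).1 x y z) 0 κ := by
      intro κ
      have := (hd1 κ).sub (hd2 κ)
      rw [ih (by omega) κ, sub_self] at this
      exact this
    have h4 := is_const_of_deriv_eq_zero (fun κ => (h3 κ).differentiableAt)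
      (fun κ => (h3 κ).deriv) κ 0
    have h5 : ∑ l ∈ Finset.range (n + 1 + 1),
        ((n + 1).choose l : ℂ) * (0 : ℂ) ^ (n + 1 - l) * PP N (gam l).1 x y z =
        PP N (gam (n + 1)).1 x y z := by
      rw [Finset.sum_range_succ, Finset.sum_eq_zero]
      · simp
      · intro l hl
        rw [Finset.mem_range] at hl
        rw [zero_pow (by omega)]; ring
    rw [h5] at h4
    simp only [add_zero, sub_self] at h4
    exact sub_eq_zero.mp h4

/-- The polynomials of the theorem. -/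
noncomputable def cc (n : ℕ) (v α : Fin 3 → ℂ) : ℂ :=
  ∑ i ∈ Finset.range (n + 1), ∑ j ∈ Finset.range (n + 1), ∑ k ∈ Finset.range (n + 1),
    (gam n).1 i j k * (v 0 ^ (2 * n + 1 - 3 * i) * (v 1 ^ (2 * n - 3 * j) * v 2 ^ (2 * n - 3 * k))) *
      (α 0 ^ i * (α 1 ^ j * α 2 ^ k))

lemma cc_eq (n : ℕ) (v α : Fin 3 → ℂ) (h0 : v 0 ≠ 0) (h1 : v 1 ≠ 0) (h2 : v 2 ≠ 0) :
    cc n v α = v 0 * (v 0 * v 1 * v 2) ^ (2 * n) *
      PP (n + 1) (gam n).1 (α 0 / v 0 ^ 3) (α 1 / v 1 ^ 3) (α 2 / v 2 ^ 3) := by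
  unfold cc PP
  simp only [Finset.mul_sum]
  refine Finset.sum_congr rfl fun i _ => Finset.sum_congr rfl fun j _ =>
      Finset.sum_congr rfl fun k _ => ?_
  by_cases hg : (gam n).1 i j k = 0
  · rw [hg]; ring
  · have h := (gam n).2 i j k hg
    unfold bx by' at h
    obtain ⟨a, ha⟩ := Nat.exists_eq_add_of_le (show 3 * i ≤ 2 * n + 1 by omega)
    obtain ⟨b, hb⟩ := Nat.exists_eq_add_of_le (show 3 * j ≤ 2 * n by omega)
    obtain ⟨c, hc⟩ := Nat.exists_eq_add_of_le (show 3 * k ≤ 2 * n by omega)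
    have e0 : v 0 * v 0 ^ (2 * n) = (v 0 ^ 3) ^ i * v 0 ^ a := by
      rw [← pow_mul, ← pow_add, ← ha, pow_succ']
    have e1 : v 1 ^ (2 * n) = (v 1 ^ 3) ^ j * v 1 ^ b := by
      rw [← pow_mul, ← pow_add, ← hb]
    have e2 : v 2 ^ (2 * n) = (v 2 ^ 3) ^ k * v 2 ^ c := by
      rw [← pow_mul, ← pow_add, ← hc]
    have f0 : 2 * n + 1 - 3 * i = a := by omega
    have f1 : 2 * n - 3 * j = b := by omega
    have f2 : 2 * n - 3 * k = c := by omega
    rw [f0, f1, f2, mul_pow, mul_pow, div_pow, div_pow, div_pow]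
    have e3 : v 0 * (v 0 ^ (2 * n) * v 1 ^ (2 * n) * v 2 ^ (2 * n)) =
        ((v 0 ^ 3) ^ i * v 0 ^ a) * ((v 1 ^ 3) ^ j * v 1 ^ b) * ((v 2 ^ 3) ^ k * v 2 ^ c) := by
      rw [← e0, ← e1, ← e2]; ring
    rw [e3]
    have g0 : (v 0 ^ 3) ^ i ≠ 0 := pow_ne_zero _ (pow_ne_zero _ h0)
    have g1 : (v 1 ^ 3) ^ j ≠ 0 := pow_ne_zero _ (pow_ne_zero _ h1)
    have g2 : (v 2 ^ 3) ^ k ≠ 0 := pow_ne_zero _ (pow_ne_zero _ h2)
    field_simp

lemma contDiff_cc (n : ℕ) : ContDiff ℂ ω (fun p : (Fin 3 → ℂ) × (Fin 3 → ℂ) => cc n p.1 p.2) := by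
  unfold cc
  refine ContDiff.sum fun i _ => ContDiff.sum fun j _ => ContDiff.sum fun k _ => ?_
  have h1 : ∀ l : Fin 3, ContDiff ℂ ω (fun p : (Fin 3 → ℂ) × (Fin 3 → ℂ) => p.1 l) := fun l =>
    (contDiff_apply ℂ ℂ l).comp contDiff_fst
  have h2 : ∀ l : Fin 3, ContDiff ℂ ω (fun p : (Fin 3 → ℂ) × (Fin 3 → ℂ) => p.2 l) := fun l =>
    (contDiff_apply ℂ ℂ l).comp contDiff_snd
  exact (contDiff_const.mul (((h1 0).pow _).mul (((h1 1).pow _).mul ((h1 2).pow _)))).mul
    (((h2 0).pow _).mul (((h2 1).pow _).mul ((h2 2).pow _)))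

lemma cc_hom (n : ℕ) (v α : Fin 3 → ℂ) (a b : ℂ) :
    cc n (a • v) (b • α) = a ^ (3 * n + 1) * b ^ n * cc n v α := by
  unfold cc
  simp only [Finset.mul_sum]
  refine Finset.sum_congr rfl fun i _ => Finset.sum_congr rfl fun j _ =>
      Finset.sum_congr rfl fun k _ => ?_
  by_cases hg : (gam n).1 i j k = 0
  · rw [hg]; ring
  · have h := (gam n).2 i j k hg
    unfold bx by' at h
    have e1 : a ^ (3 * n + 1) = a ^ (2 * n + 1 - 3 * i) * (a ^ (2 * n - 3 * j) * a ^ (2 * n - 3 * k)) := by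
      rw [← pow_add, ← pow_add]; congr 1; omega
    have e2 : b ^ n = b ^ i * (b ^ j * b ^ k) := by
      rw [← pow_add, ← pow_add]; congr 1; omega
    simp only [Pi.smul_apply, smul_eq_mul, mul_pow]
    rw [e1, e2]; ring

lemma cc_trans_of_ne (n : ℕ) (v α : Fin 3 → ℂ) (κ : ℂ) (h0 : v 0 ≠ 0) (h1 : v 1 ≠ 0)
    (h2 : v 2 ≠ 0) : cc n v (fun i => α i + κ * v i ^ 3) =
      ∑ l ∈ Finset.range (n + 1),
        (n.choose l : ℂ) * (κ * (v 0 * v 1 * v 2) ^ 2) ^ (n - l) * cc l v α := by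
  rw [cc_eq n v _ h0 h1 h2]
  have d0 : (α 0 + κ * v 0 ^ 3) / v 0 ^ 3 = α 0 / v 0 ^ 3 + κ := by field_simp
  have d1 : (α 1 + κ * v 1 ^ 3) / v 1 ^ 3 = α 1 / v 1 ^ 3 + κ := by field_simp
  have d2 : (α 2 + κ * v 2 ^ 3) / v 2 ^ 3 = α 2 / v 2 ^ 3 + κ := by field_simp
  rw [d0, d1, d2, appell (n + 1) _ _ _ n (Nat.lt_succ_self n) κ, Finset.mul_sum]
  refine Finset.sum_congr rfl fun l hl => ?_
  rw [Finset.mem_range] at hl
  rw [cc_eq l v α h0 h1 h2, PP_trunc (gam l).2 (Nat.lt_succ_self l) (by omega : l + 1 ≤ n + 1)]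
  obtain ⟨m, rfl⟩ := Nat.exists_eq_add_of_le (show l ≤ n by omega)
  have e1 : l + m - l = m := by omega
  rw [e1]
  ring

lemma cc_zero (v α : Fin 3 → ℂ) : cc 0 v α = v 0 := by
  unfold cc
  simp [gam, base]

lemma cc_poly (n : ℕ) (v : Fin 3 → ℂ) :
    ∃ p : MvPolynomial (Fin 3) ℂ, p.IsHomogeneous n ∧ ∀ α, cc n v α = MvPolynomial.eval α p := by
  refine ⟨∑ i ∈ Finset.range (n + 1), ∑ j ∈ Finset.range (n + 1), ∑ k ∈ Finset.range (n + 1),
    MvPolynomial.C ((gam n).1 i j k * (v 0 ^ (2 * n + 1 - 3 * i) * (v 1 ^ (2 * n - 3 * j) *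
      v 2 ^ (2 * n - 3 * k)))) *
      (MvPolynomial.X 0 ^ i * (MvPolynomial.X 1 ^ j * MvPolynomial.X 2 ^ k)), ?_, ?_⟩
  · refine MvPolynomial.IsHomogeneous.sum _ _ _ fun i _ => MvPolynomial.IsHomogeneous.sum _ _ _
      fun j _ => MvPolynomial.IsHomogeneous.sum _ _ _ fun k _ => ?_
    by_cases hg : (gam n).1 i j k = 0
    · rw [hg, zero_mul, map_zero, zero_mul]
      exact MvPolynomial.isHomogeneous_zero _ _ _
    · have h := ((gam n).2 i j k hg).1
      have h1 := (MvPolynomial.isHomogeneous_C (Fin 3) ((gam n).1 i j k *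
        (v 0 ^ (2 * n + 1 - 3 * i) * (v 1 ^ (2 * n - 3 * j) * v 2 ^ (2 * n - 3 * k))))).mul
        (((MvPolynomial.isHomogeneous_X ℂ (0 : Fin 3)).pow i).mul
        (((MvPolynomial.isHomogeneous_X ℂ (1 : Fin 3)).pow j).mul
        ((MvPolynomial.isHomogeneous_X ℂ (2 : Fin 3)).pow k)))
      have e1 : 0 + (1 * i + (1 * j + 1 * k)) = n := by omega
      rw [e1] at h1
      exact h1
  · intro α
    unfold cc
    simp only [map_sum, map_mul, MvPolynomial.eval_C, map_pow, MvPolynomial.eval_X]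

attribute [local irreducible] cc

lemma cc_trans (n : ℕ) (v α : Fin 3 → ℂ) (κ : ℂ) : cc n v (fun i => α i + κ * v i ^ 3) =
      ∑ l ∈ Finset.range (n + 1),
        (n.choose l : ℂ) * (κ * (v 0 * v 1 * v 2) ^ 2) ^ (n - l) * cc l v α := by
  have hdense : Dense (Set.pi Set.univ (fun _ : Fin 3 => ({0}ᶜ : Set ℂ))) :=
    dense_pi Set.univ (fun _ _ => dense_compl_singleton 0)
  have hc : ∀ n, Continuous (fun p : (Fin 3 → ℂ) × (Fin 3 → ℂ) => cc n p.1 p.2) :=
    fun n => (contDiff_cc n).continuous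
  have h1 : Continuous (fun v : Fin 3 → ℂ => cc n v (fun i => α i + κ * v i ^ 3)) := by
    have : Continuous (fun v : Fin 3 → ℂ => (v, (fun i => α i + κ * v i ^ 3 : Fin 3 → ℂ))) := by
      fun_prop
    exact (hc n).comp this
  have h2 : Continuous (fun v : Fin 3 → ℂ => ∑ l ∈ Finset.range (n + 1),
        (n.choose l : ℂ) * (κ * (v 0 * v 1 * v 2) ^ 2) ^ (n - l) * cc l v α) := by
    refine continuous_finsetSum _ fun l _ => ?_
    refine Continuous.mul (by fun_prop) ?_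
    exact (hc l).comp (by fun_prop : Continuous fun v : Fin 3 → ℂ => (v, α))
  have h3 := Continuous.ext_on hdense h1 h2 (fun v hv => by
    have hv' : ∀ i, v i ≠ 0 := fun i => by simpa using hv i (Set.mem_univ i)
    exact cc_trans_of_ne n v α κ (hv' 0) (hv' 1) (hv' 2))
  exact congrFun h3 v

end Appell

theorem exists_appell_polys :
  ∃ c : ℕ → (Fin 3 → ℂ) → (Fin 3 → ℂ) → ℂ,
    (∀ v α, c 0 v α = v 0) ∧
    (∀ n, ContDiff ℂ ω (fun p : (Fin 3 → ℂ) × (Fin 3 → ℂ) => c n p.1 p.2)) ∧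
    (∀ n v α (a b : ℂ), c n (a • v) (b • α) = a ^ (3 * n + 1) * b ^ n * c n v α) ∧
    (∀ n v α (κ : ℂ), c n v (fun i => α i + κ * v i ^ 3) =
      ∑ l ∈ Finset.range (n + 1),
        (n.choose l : ℂ) * (κ * (v 0 * v 1 * v 2) ^ 2) ^ (n - l) * c l v α) ∧
    (∀ n v, ∃ p : MvPolynomial (Fin 3) ℂ, p.IsHomogeneous n ∧ ∀ α, c n v α = MvPolynomial.eval α p) :=
  ⟨Appell.cc, Appell.cc_zero, Appell.contDiff_cc, Appell.cc_hom, Appell.cc_trans, Appell.cc_poly⟩

end Pool.Agent.Lib.MP_cc389e_ag
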