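import Mathlib

open scoped ContDiff
open Complex Set

noncomputable section

namespace Pool.Agent.Lib.MP_cc389e_ag

/-- principal cube root -/
def cbrt (z : ℂ) : ℂ := z ^ ((3 : ℂ)⁻¹)

/-- the open sector of arguments less than `π/3` in absolute value -/
def Sec : Set ℂ := slitPlane ∩ arg ⁻¹' Ioo (-(Real.pi / 3)) (Real.pi / 3)

lemma cbrt_pow (z : ℂ) : cbrt z ^ 3 = z := by
  unfold cbrt
  exact_mod_cast Complex.cpow_nat_inv_pow z (n := 3) (by norm_num)

lemma isOpen_Sec : IsOpen Sec := by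
  apply ContinuousOn.isOpen_inter_preimage _ isOpen_slitPlane isOpen_Ioo
  exact fun z hz => (continuousAt_arg hz).continuousWithinAt

lemma one_mem_Sec : (1 : ℂ) ∈ Sec := by
  refine ⟨by simp, ?_⟩
  have := Real.pi_pos
  simp [this]

lemma Sec_ne_zero {w : ℂ} (hw : w ∈ Sec) : w ≠ 0 := slitPlane_ne_zero hw.1

lemma cbrt_pow_of_mem {w : ℂ} (hw : w ∈ Sec) : cbrt (w ^ 3) = w := by
  unfold cbrt
  have h := hw.2
  simp only [mem_preimage, mem_Ioo] at h
  exact_mod_cast Complex.pow_cpow_nat_inv (x := w) (n := 3) (by norm_num)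
    (by push_cast; linarith [h.1]) (by push_cast; linarith [h.2])

lemma pow_mem_slitPlane {w : ℂ} (hw : w ∈ Sec) : w ^ 3 ∈ slitPlane := by
  have h := hw.2
  simp only [mem_preimage, mem_Ioo] at h
  have h0 := Sec_ne_zero hw
  have h1 : w ^ 3 = exp (3 * log w) := by
    rw [show (3 : ℂ) * log w = (3 : ℕ) * log w by norm_num, exp_nat_mul, exp_log h0]
  rw [mem_slitPlane_iff_arg]
  refine ⟨?_, pow_ne_zero _ h0⟩
  have h2 : log (exp (3 * log w)) = 3 * log w := by
    apply log_exp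
    · simp [log_im]; linarith [h.1]
    · simp [log_im]; linarith [h.2]
  have h3 : (w ^ 3).arg = 3 * w.arg := by
    rw [← log_im, h1, h2]
    simp [log_im]
  rw [h3]
  intro h4
  linarith [h.2]

lemma cbrt_ne_zero {z : ℂ} (hz : z ≠ 0) : cbrt z ≠ 0 := by
  intro h
  have := cbrt_pow z
  rw [h] at this
  simp at this
  exact hz this.symm

lemma cbrt_mem_Sec {z : ℂ} (hz : z ∈ slitPlane) : cbrt z ∈ Sec := by
  have h0 := slitPlane_ne_zero hz
  have h1 : cbrt z = exp (log z * (3 : ℂ)⁻¹) := by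
    unfold cbrt
    rw [cpow_def_of_ne_zero h0]
  have ha := mem_slitPlane_iff_arg.1 hz
  have hb := neg_pi_lt_arg z
  have hc := lt_of_le_of_ne (arg_le_pi z) ha.1
  have him : (log z * (3 : ℂ)⁻¹).im = z.arg / 3 := by
    have : ((3 : ℂ)⁻¹) = (((3 : ℝ)⁻¹ : ℝ) : ℂ) := by push_cast; rfl
    rw [this, im_mul_ofReal, log_im]
    ring
  have hp := Real.pi_pos
  have h2 : (cbrt z).arg = z.arg / 3 := by
    have h3 : log (exp (log z * (3 : ℂ)⁻¹)) = log z * (3 : ℂ)⁻¹ := by
      apply log_exp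
      · rw [him]; linarith
      · rw [him]; linarith
    rw [← log_im, h1, h3, him]
  refine ⟨?_, ?_⟩
  · rw [mem_slitPlane_iff_arg, h2]
    refine ⟨?_, cbrt_ne_zero h0⟩
    intro h; linarith
  · simp only [mem_preimage, mem_Ioo, h2]
    constructor <;> linarith

lemma contDiffAt_cbrt {z : ℂ} (hz : z ∈ slitPlane) : ContDiffAt ℂ ω cbrt z := by
  exact (AnalyticAt.cpow analyticAt_id analyticAt_const hz).contDiffAt

end Pool.Agent.Lib.MP_cc389e_ag
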