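import Pool.Agent.Lib.MP_cc389e_ag.EmbX

/-!
Compactness of the cubic curve and of the total space.
-/

open scoped Manifold ContDiff Topology
open Set Filter

noncomputable section

namespace Pool.Agent.Lib.MP_cc389e_ag

lemma norm_inv_smul_eq_one {E : Type*} [NormedAddCommGroup E] [NormedSpace ℂ E] {v : E}
    (hv : v ≠ 0) : ‖((‖v‖⁻¹ : ℝ) : ℂ) • v‖ = 1 := by
  rw [norm_smul, Complex.norm_real, norm_inv, norm_norm]
  exact inv_mul_cancel₀ (norm_ne_zero_iff.2 hv)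

instance : CompactSpace atlC.X := by
  refine atlC.compactSpace (K := {r | r 0 ^ 3 + r 1 ^ 3 + r 2 ^ 3 = 0} ∩ Metric.sphere 0 1) ?_ ?_ ?_
  · apply IsCompact.inter_left (isCompact_sphere _ _)
    exact isClosed_eq (by fun_prop) (by fun_prop)
  · rintro r ⟨h1, h2⟩
    refine ⟨?_, h1⟩
    rintro rfl
    simp at h2
  · intro z hz
    have hz0 : z ≠ 0 := hz.1
    have hc : ((‖z‖⁻¹ : ℝ) : ℂ) ≠ 0 := by simpa using hz0
    refine ⟨((‖z‖⁻¹ : ℝ) : ℂ) • z, ⟨(smul_mem_ZC hc hz).2, ?_⟩, ?_⟩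
    · simpa using norm_inv_smul_eq_one hz0
    · rw [atlC.pt_eq (smul_mem_ZC hc hz) hz]
      exact atlC.rel.symm' ((relC_iff _ _).2 ⟨_, hc, rfl⟩)

instance : CompactSpace atlX.X := by
  refine atlX.compactSpace (K := {z : V10 | z.2.1 0 ^ 3 + z.2.1 1 ^ 3 + z.2.1 2 ^ 3 = 0 ∧ Phi z = 0}
    ∩ (Metric.sphere 0 1 ×ˢ (Metric.sphere 0 1 ×ˢ Metric.sphere 0 1))) ?_ ?_ ?_
  · apply IsCompact.inter_left
      ((isCompact_sphere _ _).prod ((isCompact_sphere _ _).prod (isCompact_sphere _ _)))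
    apply IsClosed.and
    · exact isClosed_eq (by fun_prop) (by fun_prop)
    · unfold Phi
      exact isClosed_eq (by fun_prop) (by fun_prop)
  · rintro z ⟨⟨h1, h2⟩, h3, h4, h5⟩
    refine ⟨?_, ⟨?_, h1⟩, ?_, h2⟩
    · intro h
      rw [h] at h3
      simp at h3
    · intro h
      rw [h] at h4
      simp at h4
    · by_contra hcon
      push Not at hcon
      have : z.2.2 = 0 := Prod.ext hcon.1 hcon.2
      rw [this] at h5
      simp at h5
  · intro z hz
    have hz' := hz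
    obtain ⟨h1, h2, h3, h4⟩ := hz
    set l : ℂ := ((‖z.1‖⁻¹ : ℝ) : ℂ) with hl
    set m : ℂ := ((‖z.2.1‖⁻¹ : ℝ) : ℂ) with hm
    have hl0 : l ≠ 0 := by simpa [hl] using h1
    have hm0 : m ≠ 0 := by simpa [hm] using h2.1
    set w : (Fin 3 → ℂ) × ℂ := ((l ^ 3 * m) • z.2.2.1, z.2.2.2) with hw
    have hw0 : w ≠ 0 := by
      intro h
      rcases h3 with h' | h'
      · have := congrArg Prod.fst h
        simp only [hw] at this
        exact (smul_ne_zero (mul_ne_zero (pow_ne_zero _ hl0) hm0) h') this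
      · exact h' (congrArg Prod.snd h)
    set n : ℂ := ((‖w‖⁻¹ : ℝ) : ℂ) with hn
    have hn0 : n ≠ 0 := by simpa [hn] using hw0
    have hmem := act_mem hl0 hm0 hn0 hz'
    refine ⟨actX l m n z, ⟨⟨hmem.2.1.2, hmem.2.2.2⟩, ?_, ?_, ?_⟩, ?_⟩
    · exact mem_sphere_zero_iff_norm.2 (norm_inv_smul_eq_one h1)
    · exact mem_sphere_zero_iff_norm.2 (norm_inv_smul_eq_one h2.1)
    · have : (actX l m n z).2.2 = n • w := by
        refine Prod.ext ?_ ?_
        · simp only [actX, hw, Prod.smul_fst, smul_smul]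
          congr 1
          ring
        · simp [actX, hw]
      rw [this]
      exact mem_sphere_zero_iff_norm.2 (norm_inv_smul_eq_one hw0)
    · rw [atlX.pt_eq hmem hz']
      exact atlX.rel.symm' ((relX_iff _ _).2 ⟨l, m, n, hl0, hm0, hn0, rfl⟩)

end Pool.Agent.Lib.MP_cc389e_ag
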