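import Mathlib

/-!
Definitions used in the statement for MP_cc389e_ag.

Complex manifolds are Mathlib manifolds modelled on a finite-dimensional complex normed space,
with analytic (`ω`) transition maps.
-/

open scoped Manifold ContDiff LinearAlgebra.Projectivization

noncomputable section

namespace Pool.Agent.Lib.MP_cc389e_ag

section

variable (E : Type) [NormedAddCommGroup E] [NormedSpace ℂ E]
  {X : Type} [TopologicalSpace X] [ChartedSpace E X]
  {V : Type} [NormedAddCommGroup V] [NormedSpace ℂ V]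

/-- `s` is a holomorphic nowhere vanishing section over the open set `U` of the tautological
line bundle `e^* O(-1)`, where `e` maps `X` to the projective space of `V`. -/
def IsFrame (e : X → ℙ ℂ V) (U : Set X) (s : X → V) : Prop :=
  IsOpen U ∧ ContMDiffOn 𝓘(ℂ, E) 𝓘(ℂ, V) ω s U ∧ ∀ x ∈ U, s x ∈ (e x).submodule ∧ s x ≠ 0

/-- `e : X → ℙ(V)` is an injective holomorphic immersion. -/
def IsProjectiveEmbedding (e : X → ℙ ℂ V) : Prop :=
  Function.Injective e ∧ ∀ x : X, ∃ (U : Set X) (s : X → V), x ∈ U ∧ IsFrame E e U s ∧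
    ∀ v : TangentSpace 𝓘(ℂ, E) x,
      mfderiv 𝓘(ℂ, E) 𝓘(ℂ, V) s x v ∈ (e x).submodule → v = 0

/-- `p` is an element of `Sym^m T`, realised as the space of homogeneous polynomial functions of
degree `m` on the dual space `T^*`: a linear combination of products of `m` vectors of `T`. -/
def IsSym (m : ℕ) (T : Type) [TopologicalSpace T] [AddCommGroup T] [Module ℂ T]
    (p : (T →L[ℂ] ℂ) → ℂ) : Prop :=
  ∃ (k : ℕ) (c : Fin k → ℂ) (v : Fin k → Fin m → T),
    ∀ ξ : T →L[ℂ] ℂ, p ξ = ∑ j, c j * ∏ i, ξ (v j i)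

/-- `σ` is a global holomorphic section of `e^* O(1) ⊗ Sym^m T_X`.  An element of the fibre at
`x` is a linear map from the line `e x` to `Sym^m T_x X`; the value of `σ x` outside this line is
irrelevant. -/
def IsSymSection (e : X → ℙ ℂ V) (m : ℕ)
    (σ : ∀ x : X, V → (TangentSpace 𝓘(ℂ, E) x →L[ℂ] ℂ) → ℂ) : Prop :=
  (∀ x : X, ∀ s ∈ (e x).submodule, IsSym m (TangentSpace 𝓘(ℂ, E) x) (σ x s) ∧
    ∀ c : ℂ, σ x (c • s) = c • σ x s) ∧
  ∀ (U : Set X) (s : X → V) (g : X → ℂ), IsFrame E e U s →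
    ContMDiffOn 𝓘(ℂ, E) 𝓘(ℂ, ℂ) ω g U →
    ContMDiffOn 𝓘(ℂ, E) 𝓘(ℂ, ℂ) ω
      (fun x => σ x (s x) (mfderiv 𝓘(ℂ, E) 𝓘(ℂ, ℂ) g x)) U

/-- For all `m > 0` the bundle `e^* O(1) ⊗ Sym^m T_X` is generated by its global sections at all
points of a dense open set. -/
def GenericallyGenerated (e : X → ℙ ℂ V) : Prop :=
  ∀ m : ℕ, 0 < m → ∃ G : Set X, IsOpen G ∧ Dense G ∧ ∀ x ∈ G,
    ∀ s ∈ (e x).submodule, s ≠ 0 → ∀ p : (TangentSpace 𝓘(ℂ, E) x →L[ℂ] ℂ) → ℂ,
      IsSym m (TangentSpace 𝓘(ℂ, E) x) p →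
      ∃ σ : ∀ x : X, V → (TangentSpace 𝓘(ℂ, E) x →L[ℂ] ℂ) → ℂ,
        IsSymSection E e m σ ∧ σ x s = p

end

/-- A smooth projective complex variety: a compact connected Hausdorff complex manifold which
has an injective holomorphic immersion into some projective space. -/
structure ProjManifold where
  /-- the underlying space -/
  carrier : Type
  /-- the complex vector space on which the manifold is modelled -/
  model : Type
  [nacg : NormedAddCommGroup model]
  [nsp : NormedSpace ℂ model]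
  [fin : FiniteDimensional ℂ model]
  [top : TopologicalSpace carrier]
  [chart : ChartedSpace model carrier]
  [mfd : IsManifold 𝓘(ℂ, model) ω carrier]
  [t2 : T2Space carrier]
  [cpt : CompactSpace carrier]
  [conn : ConnectedSpace carrier]
  proj : ∃ (V : Type) (_ : NormedAddCommGroup V) (_ : NormedSpace ℂ V)
    (_ : FiniteDimensional ℂ V) (e : carrier → ℙ ℂ V), IsProjectiveEmbedding model e

attribute [instance] ProjManifold.nacg ProjManifold.nsp ProjManifold.fin
  ProjManifold.top ProjManifold.chart ProjManifold.mfd ProjManifold.t2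
  ProjManifold.cpt ProjManifold.conn

section

variable (E : Type) [NormedAddCommGroup E] [NormedSpace ℂ E]
  (X : Type) [TopologicalSpace X] [ChartedSpace E X]

/-- The tangent bundle of `X` is pseudo-effective: for some very ample line bundle
`A = e^* O(1)` and all `m > 0`, the bundle `A ⊗ Sym^m T_X` is generated by its global sections
at all points of a dense open set. -/
def TangentPseudoEffective : Prop :=
  ∃ (V : Type) (_ : NormedAddCommGroup V) (_ : NormedSpace ℂ V) (_ : FiniteDimensional ℂ V)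
    (e : X → ℙ ℂ V), IsProjectiveEmbedding E e ∧ GenericallyGenerated E e

variable {X}

/-- `x` and `y` lie on a common rational curve (the image of a holomorphic map from `ℙ^1`, given
by its restrictions `f`, `g` to the two standard affine charts). -/
def OnRationalCurve (x y : X) : Prop :=
  ∃ f g : ℂ → X, ContMDiff 𝓘(ℂ, ℂ) 𝓘(ℂ, E) ω f ∧ ContMDiff 𝓘(ℂ, ℂ) 𝓘(ℂ, E) ω g ∧
    (∀ t : ℂ, t ≠ 0 → g t = f t⁻¹) ∧
    x ∈ Set.range f ∪ Set.range g ∧ y ∈ Set.range f ∪ Set.range g

variable (E' : Type) [NormedAddCommGroup E'] [NormedSpace ℂ E']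
  {Y : Type} [TopologicalSpace Y] [ChartedSpace E' Y]

/-- `φ` is the (holomorphic) maximal rationally connected fibration of `X`: a surjective
holomorphic map whose fibres are the equivalence classes of the relation of being joined by a
chain of rational curves. -/
def IsMRC (φ : X → Y) : Prop :=
  ContMDiff 𝓘(ℂ, E) 𝓘(ℂ, E') ω φ ∧ Function.Surjective φ ∧
    ∀ x y : X, φ x = φ y ↔ Relation.ReflTransGen (OnRationalCurve E) x y

/-- `t : φ⁻¹(U) ≅ U × F` is biholomorphic. -/
def IsHolTriv (D : Type) [NormedAddCommGroup D] [NormedSpace ℂ D] {F : Type} [TopologicalSpace F]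
    [ChartedSpace D F] {φ : X → Y} (t : Bundle.Trivialization F φ) : Prop :=
  ContMDiffOn 𝓘(ℂ, E) (𝓘(ℂ, E').prod 𝓘(ℂ, D)) ω t.toOpenPartialHomeomorph t.source ∧
    ContMDiffOn (𝓘(ℂ, E').prod 𝓘(ℂ, D)) 𝓘(ℂ, E) ω t.toOpenPartialHomeomorph.symm t.target

/-- `φ` is locally trivial with a fixed fibre `F`: every point of `Y` has an open neighbourhood
`U` with `φ⁻¹(U)` biholomorphic to `U × F` over `U`. -/
def LocallyTrivial (φ : X → Y) : Prop :=
  ∃ (F D : Type) (_ : NormedAddCommGroup D) (_ : NormedSpace ℂ D) (_ : TopologicalSpace F)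
    (_ : ChartedSpace D F) (_ : IsManifold 𝓘(ℂ, D) ω F), ∀ y : Y,
    ∃ t : Bundle.Trivialization F φ, y ∈ t.baseSet ∧ IsHolTriv E E' D t

end

end Pool.Agent.Lib.MP_cc389e_ag
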