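import Pool.Agent.Lib.MP_cc389e_ag.Quot

/-!
Projective embeddings of quotients with slices; compactness and the Hausdorff property.
-/

open scoped Manifold ContDiff Topology LinearAlgebra.Projectivization
open Set Filter

noncomputable section

namespace Pool.Agent.Lib.MP_cc389e_ag

namespace Atl

variable {V : Type} [NormedAddCommGroup V] [NormedSpace ℂ V] {n : ℕ} (D : Atl V n)

lemma continuous_of_lift {T : Type*} [TopologicalSpace T] {g : D.X → T} (G : V → T)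
    (hG : ContinuousOn G D.Z) (h : ∀ z ∈ D.Z, g (D.pt z) = G z) : Continuous g := by
  have h1 : Continuous (g ∘ D.cls) := by
    have h2 : g ∘ D.cls = D.Z.domRestrict G := by
      ext z
      have := h z.1 z.2
      rw [D.pt_of_mem z.2] at this
      exact this
    rw [h2]
    exact continuousOn_iff_continuous_domRestrict.1 hG
  exact continuous_coinduced_dom.2 h1

lemma compactSpace {K : Set V} (hK : IsCompact K) (hKZ : K ⊆ D.Z)
    (h : ∀ z ∈ D.Z, ∃ k ∈ K, D.pt k = D.pt z) : CompactSpace D.X := by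
  refine ⟨?_⟩
  have h1 : (univ : Set D.X) = D.pt '' K := by
    ext x
    simp only [mem_univ, mem_image, true_iff]
    obtain ⟨z, hz, rfl⟩ := D.pt_surj x
    exact h z hz
  rw [h1]
  exact hK.image_of_continuousOn (D.continuousOn_pt.mono hKZ)

/-- data of a projective embedding -/
structure Emb (D : Atl V n) (N : ℕ) where
  s : V → Fin (N + 1) → ℂ
  s_an : ∀ z ∈ D.Z, ContDiffAt ℂ ω s z
  s_ne : ∀ z ∈ D.Z, s z ≠ 0
  s_iff : ∀ z z' : D.Z, D.rel z z' ↔ ∃ c : ℂ, c ≠ 0 ∧ s z'.1 = c • s z.1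
  imm : ∀ i, ∀ u ∈ D.Ω i, ∀ w : Fin n → ℂ, ∀ c : ℂ,
    fderiv ℂ (fun u => s (D.σ i u)) u w = c • s (D.σ i u) → w = 0

variable {D} {N : ℕ} (S : Emb D N)

/-- the associated map to projective space -/
def Emb.e (x : D.X) : ℙ ℂ (Fin (N + 1) → ℂ) :=
  Projectivization.mk ℂ (S.s (D.rep x)) (S.s_ne _ (D.rep_mem x))

lemma Emb.e_pt {z : V} (hz : z ∈ D.Z) : S.e (D.pt z) = Projectivization.mk ℂ (S.s z) (S.s_ne z hz) := by
  unfold Emb.e
  rw [Projectivization.mk_eq_mk_iff']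
  obtain ⟨c, hc, h⟩ := (S.s_iff _ _).1 (D.rel_rep_pt hz)
  refine ⟨c⁻¹, ?_⟩
  rw [h, smul_smul, inv_mul_cancel₀ hc, one_smul]

lemma Emb.submodule_pt {z : V} (hz : z ∈ D.Z) : (S.e (D.pt z)).submodule = ℂ ∙ (S.s z) := by
  rw [S.e_pt hz, Projectivization.submodule_mk]

lemma Emb.mem_submodule {z : V} (hz : z ∈ D.Z) : S.s z ∈ (S.e (D.pt z)).submodule := by
  rw [S.submodule_pt hz]
  exact Submodule.mem_span_singleton_self _

lemma Emb.mem_submodule' {x : D.X} {z : V} (hz : z ∈ D.Z) (h : D.pt z = x) :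
    S.s z ∈ (S.e x).submodule := by
  rw [← h]; exact S.mem_submodule hz

lemma Emb.injective : Function.Injective S.e := by
  intro x y h
  obtain ⟨z, hz, rfl⟩ := D.pt_surj x
  obtain ⟨w, hw, rfl⟩ := D.pt_surj y
  rw [S.e_pt hz, S.e_pt hw, Projectivization.mk_eq_mk_iff] at h
  obtain ⟨a, ha⟩ := h
  rw [D.pt_eq hz hw]
  rw [S.s_iff]
  refine ⟨(a⁻¹ : ℂˣ), Units.ne_zero _, ?_⟩
  rw [← ha]
  change S.s w = (a⁻¹ : ℂˣ) • (a • S.s w)
  rw [smul_smul, inv_mul_cancel, one_smul]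

include S in
lemma Emb.t2Space : T2Space D.X := by
  classical
  let G : V → (Fin (N + 1) → Fin (N + 1) → ℂ) := fun z i j =>
    S.s z i * (starRingEnd ℂ) (S.s z j) / ((∑ k, ‖S.s z k‖ ^ 2 : ℝ) : ℂ)
  have hpos : ∀ z ∈ D.Z, (0 : ℝ) < ∑ k, ‖S.s z k‖ ^ 2 := by
    intro z hz
    obtain ⟨k, hk⟩ : ∃ k, S.s z k ≠ 0 := by
      by_contra hcon
      push Not at hcon
      exact S.s_ne z hz (funext hcon)
    refine Finset.sum_pos' (fun _ _ => by positivity) ⟨k, Finset.mem_univ _, ?_⟩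
    have := norm_pos_iff.2 hk
    positivity
  have hinv : ∀ (z w : V) (c : ℂ), c ≠ 0 → S.s w = c • S.s z → G w = G z := by
    intro z w c hc h
    funext i j
    simp only [G, h, Pi.smul_apply, smul_eq_mul, map_mul, norm_mul]
    have h1 : ((∑ k, (‖c‖ * ‖S.s z k‖) ^ 2 : ℝ) : ℂ) = (c * (starRingEnd ℂ) c) *
        ((∑ k, ‖S.s z k‖ ^ 2 : ℝ) : ℂ) := by
      rw [Complex.mul_conj, Complex.normSq_eq_norm_sq]
      simp only [mul_pow]
      rw [← Finset.mul_sum]
      push_cast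
      ring
    rw [h1]
    have h2 : c * (starRingEnd ℂ) c ≠ 0 := mul_ne_zero hc (by simpa using hc)
    rw [show c * S.s z i * ((starRingEnd ℂ) c * (starRingEnd ℂ) (S.s z j)) =
      (c * (starRingEnd ℂ) c) * (S.s z i * (starRingEnd ℂ) (S.s z j)) by ring]
    exact mul_div_mul_left _ _ h2
  let g : D.X → (Fin (N + 1) → Fin (N + 1) → ℂ) := fun x => G (D.rep x)
  have hg : ∀ z ∈ D.Z, g (D.pt z) = G z := by
    intro z hz
    obtain ⟨c, hc, h⟩ := (S.s_iff _ _).1 (D.rel_rep_pt hz)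
    exact (hinv _ _ c hc h).symm
  have hcont : Continuous g := by
    refine D.continuous_of_lift G ?_ hg
    intro z hz
    have hs : ContinuousAt S.s z := (S.s_an z hz).continuousAt
    have hsi : ∀ i, ContinuousAt (fun z => S.s z i) z := fun i =>
      (continuous_apply i).continuousAt.comp hs
    apply ContinuousAt.continuousWithinAt
    rw [continuousAt_pi]
    intro i
    rw [continuousAt_pi]
    intro j
    apply ContinuousAt.div
    · exact (hsi i).mul (Complex.continuous_conj.continuousAt.comp (hsi j))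
    · apply Complex.continuous_ofReal.continuousAt.comp
      exact tendsto_finsetSum _ (fun k _ => ((hsi k).norm.pow 2))
    · exact_mod_cast (hpos z hz).ne'
  have hinj : Function.Injective g := by
    intro x y h
    obtain ⟨z, hz, rfl⟩ := D.pt_surj x
    obtain ⟨w, hw, rfl⟩ := D.pt_surj y
    rw [hg z hz, hg w hw] at h
    rw [D.pt_eq hz hw, S.s_iff]
    obtain ⟨j, hj⟩ : ∃ k, S.s z k ≠ 0 := by
      by_contra hcon
      push Not at hcon
      exact S.s_ne z hz (funext hcon)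
    have hpz : ((∑ k, ‖S.s z k‖ ^ 2 : ℝ) : ℂ) ≠ 0 := by exact_mod_cast (hpos z hz).ne'
    have hpw : ((∑ k, ‖S.s w k‖ ^ 2 : ℝ) : ℂ) ≠ 0 := by exact_mod_cast (hpos w hw).ne'
    have hjj := congrFun (congrFun h j) j
    simp only [G] at hjj
    have hwj : (starRingEnd ℂ) (S.s w j) ≠ 0 := by
      intro h0
      rw [h0, mul_zero, zero_div] at hjj
      have : S.s z j * (starRingEnd ℂ) (S.s z j) = 0 := by
        rcases div_eq_zero_iff.1 hjj with h | h
        · exact h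
        · exact absurd h hpz
      rcases mul_eq_zero.1 this with h | h
      · exact hj h
      · exact hj (by simpa using h)
    refine ⟨((starRingEnd ℂ) (S.s z j) / ((∑ k, ‖S.s z k‖ ^ 2 : ℝ) : ℂ)) /
      ((starRingEnd ℂ) (S.s w j) / ((∑ k, ‖S.s w k‖ ^ 2 : ℝ) : ℂ)), ?_, ?_⟩
    · exact div_ne_zero (div_ne_zero (by simpa using hj) hpz) (div_ne_zero hwj hpw)
    · funext i
      have hij := congrFun (congrFun h i) j
      simp only [G] at hij
      simp only [Pi.smul_apply, smul_eq_mul]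
      have hz' := hpz
      have hw' := hpw
      set A := ((∑ k, ‖S.s z k‖ ^ 2 : ℝ) : ℂ)
      set B := ((∑ k, ‖S.s w k‖ ^ 2 : ℝ) : ℂ)
      field_simp at hij ⊢
      linear_combination -hij
  exact T2Space.of_injective_continuous hinj hcont

/-- the frame over the chart with index `i` -/
def Emb.frame (i : D.ι) (x : D.X) : Fin (N + 1) → ℂ := S.s (D.σ i (D.κ i (D.rep x)))

lemma contMDiffAt_lift {F : Type*} [NormedAddCommGroup F] [NormedSpace ℂ F] {s : V → F}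
    {i : D.ι} {x : D.X} (hx : D.rep x ∈ D.O i)
    (hs : ContDiffAt ℂ ω s (D.σ i (D.κ i (D.rep x)))) :
    ContMDiffAt 𝓘(ℂ, Fin n → ℂ) 𝓘(ℂ, F) ω (fun x => s (D.σ i (D.κ i (D.rep x)))) x := by
  have hu : D.κ i (D.rep x) ∈ D.Ω i := D.κ_Ω i ⟨D.rep x, D.rep_mem x⟩ hx
  have h1 : ContDiffAt ℂ ω (fun u => s (D.σ i u)) (D.κ i (D.rep x)) :=
    hs.comp _ ((D.σ_an i).contDiffAt ((D.isOpen_Ω i).mem_nhds hu))
  exact ContMDiffAt.comp x (g := fun u => s (D.σ i u)) (f := fun x => D.κ i (D.rep x))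
    h1.contMDiffAt (D.contMDiffAt_chart hx)

lemma Emb.isFrame (i : D.ι) : IsFrame (Fin n → ℂ) S.e {x | D.rep x ∈ D.O i} (S.frame i) := by
  refine ⟨(D.chart i).open_source, ?_, ?_⟩
  · intro x hx
    exact (D.contMDiffAt_lift (s := S.s) hx (S.s_an _ (D.σ_mem _ _))).contMDiffWithinAt
  · intro x hx
    exact ⟨S.mem_submodule' (D.σ_mem _ _) (by rw [D.pt_σ_κ (D.rep_mem x) hx, D.pt_rep]),
      S.s_ne _ (D.σ_mem _ _)⟩

lemma Emb.isProjectiveEmbedding : IsProjectiveEmbedding (Fin n → ℂ) S.e := by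
  refine ⟨S.injective, ?_⟩
  intro x
  refine ⟨{y | D.rep y ∈ D.O (D.idx x)}, S.frame (D.idx x), D.idx_spec x,
    S.isFrame (D.idx x), ?_⟩
  intro v hv
  have hu : D.κ (D.idx x) (D.rep x) ∈ D.Ω (D.idx x) :=
    D.κ_Ω (D.idx x) ⟨D.rep x, D.rep_mem x⟩ (D.idx_spec x)
  have hd : MDifferentiableAt 𝓘(ℂ, Fin n → ℂ) 𝓘(ℂ, Fin (N + 1) → ℂ)
      (S.frame (D.idx x)) x := by
    have h1 := (S.isFrame (D.idx x)).2.1 x (D.idx_spec x)
    have h2 := h1.contMDiffAt ((D.chart (D.idx x)).open_source.mem_nhds (D.idx_spec x))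
    exact h2.mdifferentiableAt (by simp)
  have hm := D.mfderiv_eq hd
  have he : (fun u => S.frame (D.idx x) (D.pt (D.σ (D.idx x) u)))
      =ᶠ[𝓝 (D.κ (D.idx x) (D.rep x))] (fun u => S.s (D.σ (D.idx x) u)) := by
    filter_upwards [(D.isOpen_Ω (D.idx x)).mem_nhds hu] with u hu'
    unfold Emb.frame
    rw [D.κ_rep_pt (D.σ_mem _ _) (D.σ_O _ u hu'), D.κσ _ u hu']
  rw [he.fderiv_eq] at hm
  have hx : (S.e x).submodule = ℂ ∙ (S.s (D.σ (D.idx x) (D.κ (D.idx x) (D.rep x)))) := by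
    rw [← S.submodule_pt (D.σ_mem _ _), D.pt_σ_κ (D.rep_mem x) (D.idx_spec x), D.pt_rep]
  have hmv := congrArg (fun L : (Fin n → ℂ) →L[ℂ] (Fin (N + 1) → ℂ) => L v) hm
  have hv2 : (fderiv ℂ (fun u => S.s (D.σ (D.idx x) u)) (D.κ (D.idx x) (D.rep x)) v
      : Fin (N + 1) → ℂ) ∈ (S.e x).submodule :=
    Eq.subst (motive := fun w : Fin (N + 1) → ℂ => w ∈ (S.e x).submodule) hmv hv
  rw [hx, Submodule.mem_span_singleton] at hv2
  obtain ⟨c, hc⟩ := hv2
  exact S.imm (D.idx x) _ hu v c hc.symm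

end Atl

end Pool.Agent.Lib.MP_cc389e_ag
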