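import Pool.Agent.Lib.MP_cc389e_ag.Fermat

/-!
The total space of the counterexample, as a quotient with holomorphic slices.
A point is `(v, r, a, d)`.
-/

open scoped Manifold ContDiff Topology
open Set Filter

noncomputable section

namespace Pool.Agent.Lib.MP_cc389e_ag

/-- ambient space `ℂ^10` -/
abbrev V10 : Type := (Fin 3 → ℂ) × (Fin 3 → ℂ) × (Fin 3 → ℂ) × ℂ

/-- the defining equation -/
def Phi (z : V10) : ℂ :=
  z.2.2.1 0 * z.1 0 ^ 3 + z.2.2.1 1 * z.1 1 ^ 3 + z.2.2.1 2 * z.1 2 ^ 3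
    + z.2.2.2 * z.2.1 0 * (z.1 0 * z.1 1 * z.1 2) ^ 2

lemma prod_perm (s : Equiv.Perm (Fin 3)) (r : Fin 3 → ℂ) :
    r 0 * r 1 * r 2 = r (s 0) * r (s 1) * r (s 2) := by
  have h1 : ∏ i, r i = ∏ i, r (s i) := (Equiv.prod_comp s (fun i => r i)).symm
  simpa [Fin.prod_univ_three] using h1

lemma Phi_perm (s : Equiv.Perm (Fin 3)) (z : V10) :
    Phi z = z.2.2.1 (s 0) * z.1 (s 0) ^ 3 + z.2.2.1 (s 1) * z.1 (s 1) ^ 3
      + z.2.2.1 (s 2) * z.1 (s 2) ^ 3
      + z.2.2.2 * z.2.1 0 * (z.1 (s 0) * z.1 (s 1) * z.1 (s 2)) ^ 2 := by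
  have h1 : ∑ i, z.2.2.1 i * z.1 i ^ 3 = ∑ i, z.2.2.1 (s i) * z.1 (s i) ^ 3 :=
    (Equiv.sum_comp s (fun i => z.2.2.1 i * z.1 i ^ 3)).symm
  simp only [Fin.sum_univ_three] at h1
  unfold Phi
  rw [h1, prod_perm s z.1]

/-- the punctured multicone -/
def ZX : Set V10 := {z | z.1 ≠ 0 ∧ z.2.1 ∈ ZC ∧ (z.2.2.1 ≠ 0 ∨ z.2.2.2 ≠ 0) ∧ Phi z = 0}

/-- the torus action -/
def actX (l m n : ℂ) (z : V10) : V10 :=
  (l • z.1, m • z.2.1, (n * l ^ 3 * m) • z.2.2.1, n * z.2.2.2)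

lemma Phi_act (l m n : ℂ) (z : V10) : Phi (actX l m n z) = n * l ^ 6 * m * Phi z := by
  simp only [Phi, actX, Pi.smul_apply, smul_eq_mul]
  ring

lemma act_mem {l m n : ℂ} (hl : l ≠ 0) (hm : m ≠ 0) (hn : n ≠ 0) {z : V10} (hz : z ∈ ZX) :
    actX l m n z ∈ ZX := by
  obtain ⟨h1, h2, h3, h4⟩ := hz
  refine ⟨smul_ne_zero hl h1, smul_mem_ZC hm h2, ?_, by rw [Phi_act, h4, mul_zero]⟩
  rcases h3 with h | h
  · left
    exact smul_ne_zero (mul_ne_zero (mul_ne_zero hn (pow_ne_zero _ hl)) hm) h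
  · right
    exact mul_ne_zero hn h

lemma act_act (l m n l' m' n' : ℂ) (z : V10) :
    actX l m n (actX l' m' n' z) = actX (l * l') (m * m') (n * n') z := by
  simp only [actX, smul_smul]
  refine Prod.ext rfl (Prod.ext rfl (Prod.ext ?_ ?_))
  · dsimp only
    congr 1
    ring
  · dsimp only
    ring

lemma act_one (z : V10) : actX 1 1 1 z = z := by
  simp [actX]

lemma continuous_act (l m n : ℂ) : Continuous (actX l m n) := by
  unfold actX
  fun_prop

/-- the equivalence relation -/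
def relX : Setoid ZX where
  r z z' := ∃ l m n : ℂ, l ≠ 0 ∧ m ≠ 0 ∧ n ≠ 0 ∧ actX l m n z.1 = z'.1
  iseqv :=
    { refl := fun z => ⟨1, 1, 1, one_ne_zero, one_ne_zero, one_ne_zero, act_one _⟩
      symm := by
        rintro z z' ⟨l, m, n, hl, hm, hn, h⟩
        refine ⟨l⁻¹, m⁻¹, n⁻¹, inv_ne_zero hl, inv_ne_zero hm, inv_ne_zero hn, ?_⟩
        rw [← h, act_act, inv_mul_cancel₀ hl, inv_mul_cancel₀ hm, inv_mul_cancel₀ hn, act_one]
      trans := by
        rintro z z' z'' ⟨l, m, n, hl, hm, hn, h⟩ ⟨l', m', n', hl', hm', hn', h'⟩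
        refine ⟨l' * l, m' * m, n' * n, mul_ne_zero hl' hl, mul_ne_zero hm' hm,
          mul_ne_zero hn' hn, ?_⟩
        rw [← h', ← h, act_act] }

lemma relX_iff (z z' : ZX) :
    relX z z' ↔ ∃ l m n : ℂ, l ≠ 0 ∧ m ≠ 0 ∧ n ≠ 0 ∧ actX l m n z.1 = z'.1 := Iff.rfl

/-- chart indices: permutation for `v`, chart of the cubic, type of the fibre coordinate -/
abbrev IX : Type := Equiv.Perm (Fin 3) × (Equiv.Perm (Fin 3) × {w : ℂ // w ≠ 0}) × Bool

/-- normalised fibre coordinate -/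
def fibC (i : IX) (z : V10) : ℂ := if i.2.2 then z.2.2.1 (i.1 1) else z.2.2.2

/-- domains -/
def OX (i : IX) : Set V10 := {z | z.1 (i.1 0) ≠ 0 ∧ z.2.1 ∈ OC i.2.1 ∧ fibC i z ≠ 0}

lemma continuous_fibC (i : IX) : Continuous (fibC i) := by
  unfold fibC
  split_ifs <;> fun_prop

lemma isOpen_OX (i : IX) : IsOpen (OX i) := by
  have h1 : IsOpen {z : V10 | z.1 (i.1 0) ≠ 0} := isOpen_ne_fun (by fun_prop) (by fun_prop)
  have h2 : IsOpen {z : V10 | z.2.1 ∈ OC i.2.1} := (isOpen_OC i.2.1).preimage (by fun_prop)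
  have h3 : IsOpen {z : V10 | fibC i z ≠ 0} := isOpen_ne_fun (continuous_fibC i) (by fun_prop)
  exact h1.inter (h2.inter h3)

/-- the coordinates -/
def coordX (i : IX) (z : V10) : Fin 5 → ℂ :=
  ![z.1 (i.1 1) / z.1 (i.1 0), z.1 (i.1 2) / z.1 (i.1 0),
    z.2.1 (i.2.1.1 2) / z.2.1 (i.2.1.1 0),
    if i.2.2 then z.2.2.1 (i.1 2) / z.2.2.1 (i.1 1)
      else z.2.2.1 (i.1 1) / (z.2.2.2 * z.2.1 (i.2.1.1 0) * z.1 (i.1 0) ^ 3),
    if i.2.2 then z.2.2.2 * z.2.1 (i.2.1.1 0) * z.1 (i.1 0) ^ 3 / z.2.2.1 (i.1 1)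
      else z.2.2.1 (i.1 2) / (z.2.2.2 * z.2.1 (i.2.1.1 0) * z.1 (i.1 0) ^ 3)]

/-- the slices for general values of the three fibre coordinates -/
def preslice (s t : Equiv.Perm (Fin 3)) (x y w u b1 b2 δ : ℂ) : V10 :=
  (place s 1 x y, place t 1 w u,
    place s (-(b1 * x ^ 3 + b2 * y ^ 3 + δ * (place t 1 w u 0) * (x * y) ^ 2)) b1 b2, δ)

lemma Phi_preslice (s t : Equiv.Perm (Fin 3)) (x y w u b1 b2 δ : ℂ) :
    Phi (preslice s t x y w u b1 b2 δ) = 0 := by
  rw [Phi_perm s]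
  simp only [preslice, place_zero, place_one, place_two]
  ring

/-- the slices -/
def sliceX (i : IX) (u : Fin 5 → ℂ) : V10 :=
  preslice i.1 i.2.1.1 (u 0) (u 1) (branch i.2.1.2.1 (u 2)) (u 2)
    (if i.2.2 then 1 else u 3) (if i.2.2 then u 3 else u 4) (if i.2.2 then u 4 else 1)

lemma sliceX_mem (i : IX) (u) : sliceX i u ∈ ZX := by
  refine ⟨?_, ?_, ?_, Phi_preslice _ _ _ _ _ _ _ _ _⟩
  · intro h
    have := congrFun h (i.1 0)
    simp [sliceX, preslice] at this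
  · exact sliceC_mem i.2.1 (fun _ => u 2)
  · rcases hb : i.2.2 with _ | _
    · right; simp [sliceX, preslice, hb]
    · left
      intro h
      have := congrFun h (i.1 1)
      simp [sliceX, preslice, hb] at this

lemma sliceX_fib (i : IX) (u) : fibC i (sliceX i u) = 1 := by
  unfold fibC
  rcases hb : i.2.2 with _ | _
  · simp [sliceX, preslice, hb]
  · simp [sliceX, preslice, hb]

lemma contDiffAt_preslice {E : Type*} [NormedAddCommGroup E] [NormedSpace ℂ E]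
    (s t : Equiv.Perm (Fin 3)) {x y w u b1 b2 δ : E → ℂ} {p : E} (hx : ContDiffAt ℂ ω x p)
    (hy : ContDiffAt ℂ ω y p) (hw : ContDiffAt ℂ ω w p) (hu : ContDiffAt ℂ ω u p)
    (hb1 : ContDiffAt ℂ ω b1 p) (hb2 : ContDiffAt ℂ ω b2 p) (hδ : ContDiffAt ℂ ω δ p) :
    ContDiffAt ℂ ω (fun q => preslice s t (x q) (y q) (w q) (u q) (b1 q) (b2 q) (δ q)) p := by
  have ht : ContDiffAt ℂ ω (fun q => place t 1 (w q) (u q)) p :=
    contDiff_place t contDiffAt_const hw hu
  have ht0 : ContDiffAt ℂ ω (fun q => place t 1 (w q) (u q) 0) p := (contDiffAt_pi.1 ht) 0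
  unfold preslice
  refine ContDiffAt.prodMk (contDiff_place s contDiffAt_const hx hy) (ContDiffAt.prodMk ht
    (ContDiffAt.prodMk (contDiff_place s ?_ hb1 hb2) hδ))
  exact (((hb1.mul (hx.pow 3)).add (hb2.mul (hy.pow 3))).add
    ((hδ.mul ht0).mul ((hx.mul hy).pow 2))).neg

lemma r_place {t : Equiv.Perm (Fin 3)} {w0 : ℂ} (hw0 : w0 ≠ 0) {r : Fin 3 → ℂ} (hr : r ∈ ZC)
    (hO : r ∈ OC (t, ⟨w0, hw0⟩)) :
    place t 1 (branch w0 (r (t 2) / r (t 0))) (r (t 2) / r (t 0)) = (r (t 0))⁻¹ • r := by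
  have h0 := hO.1
  simp only at h0
  apply ext_perm t
  · simp [h0]
  · rw [place_one, branch_eq hw0 hr h0 hO.2]
    simp only [Pi.smul_apply, smul_eq_mul]
    ring
  · rw [place_two]
    simp only [Pi.smul_apply, smul_eq_mul]
    ring

lemma a0_eq (s : Equiv.Perm (Fin 3)) {z : V10} (h0 : z.1 (s 0) ≠ 0) (hΦ : Phi z = 0) :
    z.2.2.1 (s 0) = -(z.2.2.1 (s 1) * z.1 (s 1) ^ 3 + z.2.2.1 (s 2) * z.1 (s 2) ^ 3
      + z.2.2.2 * z.2.1 0 * (z.1 (s 0) * z.1 (s 1) * z.1 (s 2)) ^ 2) / z.1 (s 0) ^ 3 := by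
  rw [Phi_perm s] at hΦ
  field_simp
  linear_combination hΦ

/-- the normalising torus element maps the slice point to `z` -/
lemma slice_coord (i : IX) {z : V10} (hz : z ∈ ZX) (hO : z ∈ OX i) :
    ∃ n : ℂ, n ≠ 0 ∧ actX (z.1 (i.1 0)) (z.2.1 (i.2.1.1 0)) n (sliceX i (coordX i z)) = z := by
  obtain ⟨h1, h2, h3, h4⟩ := hz
  obtain ⟨o1, o2, o3⟩ := hO
  have hr0 : z.2.1 (i.2.1.1 0) ≠ 0 := o2.1
  have hrp := r_place i.2.1.2.2 h2 o2
  have ha0 := a0_eq i.1 o1 h4
  have hp0 := congrFun hrp 0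
  simp only [Pi.smul_apply, smul_eq_mul] at hp0
  rcases hb : i.2.2 with _ | _
  · have hd : z.2.2.2 ≠ 0 := by simpa [fibC, hb] using o3
    refine ⟨z.2.2.2, hd, ?_⟩
    refine Prod.ext ?_ (Prod.ext ?_ (Prod.ext ?_ ?_))
    · simp only [actX, sliceX, preslice, coordX]
      apply ext_perm i.1
      · simp
      · simp; field_simp
      · simp; field_simp
    · simp only [actX, sliceX, preslice, coordX]
      simp only [Matrix.cons_val]
      rw [hrp, smul_smul, mul_inv_cancel₀ hr0, one_smul]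
    · simp only [actX, sliceX, preslice, coordX, hb]
      apply ext_perm i.1
      · simp only [Matrix.cons_val, Pi.smul_apply, place_zero, smul_eq_mul, hp0,
          Bool.false_eq_true, if_false]
        rw [ha0]
        field_simp
      · simp
        field_simp
      · simp
        field_simp
    · simp [actX, sliceX, preslice, hb]
  · have hd : z.2.2.1 (i.1 1) ≠ 0 := by simpa [fibC, hb] using o3
    refine ⟨z.2.2.1 (i.1 1) / (z.2.1 (i.2.1.1 0) * z.1 (i.1 0) ^ 3),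
      div_ne_zero hd (mul_ne_zero hr0 (pow_ne_zero _ o1)), ?_⟩
    refine Prod.ext ?_ (Prod.ext ?_ (Prod.ext ?_ ?_))
    · simp only [actX, sliceX, preslice, coordX]
      apply ext_perm i.1
      · simp
      · simp; field_simp
      · simp; field_simp
    · simp only [actX, sliceX, preslice, coordX]
      simp only [Matrix.cons_val]
      rw [hrp, smul_smul, mul_inv_cancel₀ hr0, one_smul]
    · simp only [actX, sliceX, preslice, coordX, hb]
      apply ext_perm i.1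
      · simp only [Matrix.cons_val, Pi.smul_apply, place_zero, smul_eq_mul, hp0, if_true]
        rw [ha0]
        field_simp
      · simp
        field_simp
      · simp
        field_simp
    · simp [actX, sliceX, preslice, coordX, hb]
      field_simp

lemma OC_smul {μ : ℂ} (h0 : μ ≠ 0) {i} {r : Fin 3 → ℂ} (hr : r ∈ OC i) : μ • r ∈ OC i := by
  refine ⟨?_, ?_⟩
  · simp [h0, hr.1]
  · have : (μ • r) (i.1 1) / ((μ • r) (i.1 0) * i.2.1) = r (i.1 1) / (r (i.1 0) * i.2.1) := by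
      simp only [Pi.smul_apply, smul_eq_mul]
      rw [mul_assoc]
      exact mul_div_mul_left _ _ h0
    rw [this]
    exact hr.2

lemma OX_act {l m n : ℂ} (hl : l ≠ 0) (hm : m ≠ 0) (hn : n ≠ 0) {i : IX} {z : V10}
    (hz : z ∈ OX i) : actX l m n z ∈ OX i := by
  obtain ⟨o1, o2, o3⟩ := hz
  refine ⟨?_, OC_smul hm o2, ?_⟩
  · simp only [actX, Pi.smul_apply, smul_eq_mul]
    exact mul_ne_zero hl o1
  · rcases hb : i.2.2 with _ | _
    · have hd : z.2.2.2 ≠ 0 := by simpa [fibC, hb] using o3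
      simpa [fibC, hb, actX, hn] using hd
    · have hd : z.2.2.1 (i.1 1) ≠ 0 := by simpa [fibC, hb] using o3
      simpa [fibC, hb, actX, hn, hl, hm] using hd

lemma coordX_act {l m n : ℂ} (hl : l ≠ 0) (hm : m ≠ 0) (hn : n ≠ 0) (i : IX) (z : V10) :
    coordX i (actX l m n z) = coordX i z := by
  have hc : n * l ^ 3 * m ≠ 0 := mul_ne_zero (mul_ne_zero hn (pow_ne_zero _ hl)) hm
  have h1 : ∀ a b : ℂ, (n * l ^ 3 * m * a) / (n * b * (m * (z.2.1 (i.2.1.1 0)))
      * (l * z.1 (i.1 0)) ^ 3) = a / (b * z.2.1 (i.2.1.1 0) * z.1 (i.1 0) ^ 3) := by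
    intro a b
    rw [show n * b * (m * (z.2.1 (i.2.1.1 0))) * (l * z.1 (i.1 0)) ^ 3
      = (n * l ^ 3 * m) * (b * z.2.1 (i.2.1.1 0) * z.1 (i.1 0) ^ 3) by ring]
    exact mul_div_mul_left _ _ hc
  have h2 : ∀ a : ℂ, (n * z.2.2.2 * (m * (z.2.1 (i.2.1.1 0)))
      * (l * z.1 (i.1 0)) ^ 3) / (n * l ^ 3 * m * a)
      = (z.2.2.2 * z.2.1 (i.2.1.1 0) * z.1 (i.1 0) ^ 3) / a := by
    intro a
    rw [show n * z.2.2.2 * (m * (z.2.1 (i.2.1.1 0))) * (l * z.1 (i.1 0)) ^ 3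
      = (n * l ^ 3 * m) * (z.2.2.2 * z.2.1 (i.2.1.1 0) * z.1 (i.1 0) ^ 3) by ring]
    exact mul_div_mul_left _ _ hc
  simp only [coordX, actX, Pi.smul_apply, smul_eq_mul, h1, h2, mul_div_mul_left _ _ hl,
    mul_div_mul_left _ _ hm, mul_div_mul_left _ _ hc]

lemma contDiffAt_coordX {i : IX} {z : V10} (hz : z ∈ OX i) : ContDiffAt ℂ ω (coordX i) z := by
  obtain ⟨o1, o2, o3⟩ := hz
  have hr0 : z.2.1 (i.2.1.1 0) ≠ 0 := o2.1
  rw [contDiffAt_pi]
  intro j
  rcases hb : i.2.2 with _ | _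
  · have hd : z.2.2.2 ≠ 0 := by simpa [fibC, hb] using o3
    have hD : z.2.2.2 * z.2.1 (i.2.1.1 0) * z.1 (i.1 0) ^ 3 ≠ 0 :=
      mul_ne_zero (mul_ne_zero hd hr0) (pow_ne_zero _ o1)
    fin_cases j
    · simp only [coordX]
      exact ContDiffAt.div (by fun_prop) (by fun_prop) o1
    · simp only [coordX]
      exact ContDiffAt.div (by fun_prop) (by fun_prop) o1
    · simp only [coordX]
      exact ContDiffAt.div (by fun_prop) (by fun_prop) hr0
    · simp only [coordX, hb]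
      exact ContDiffAt.div (by fun_prop) (by fun_prop) hD
    · simp only [coordX, hb]
      exact ContDiffAt.div (by fun_prop) (by fun_prop) hD
  · have hd : z.2.2.1 (i.1 1) ≠ 0 := by simpa [fibC, hb] using o3
    fin_cases j
    · simp only [coordX]
      exact ContDiffAt.div (by fun_prop) (by fun_prop) o1
    · simp only [coordX]
      exact ContDiffAt.div (by fun_prop) (by fun_prop) o1
    · simp only [coordX]
      exact ContDiffAt.div (by fun_prop) (by fun_prop) hr0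
    · simp only [coordX, hb]
      exact ContDiffAt.div (by fun_prop) (by fun_prop) hd
    · simp only [coordX, hb]
      exact ContDiffAt.div (by fun_prop) (by fun_prop) hd

/-- targets -/
def OmX (i : IX) : Set (Fin 5 → ℂ) := {u | (-1 - u 2 ^ 3) / i.2.1.2.1 ^ 3 ∈ Complex.slitPlane}

lemma coord_slice (i : IX) (u : Fin 5 → ℂ) : coordX i (sliceX i u) = u := by
  rcases hb : i.2.2 with _ | _
  · funext j
    fin_cases j <;> simp [coordX, sliceX, preslice, hb]
  · funext j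
    fin_cases j <;> simp [coordX, sliceX, preslice, hb]

lemma contDiffAt_sliceX {i : IX} {u : Fin 5 → ℂ} (hu : u ∈ OmX i) :
    ContDiffAt ℂ ω (sliceX i) u := by
  unfold sliceX
  apply contDiffAt_preslice
  · fun_prop
  · fun_prop
  · unfold branch
    apply ContDiffAt.mul contDiffAt_const
    have h1 : ContDiffAt ℂ ω (fun u : Fin 5 → ℂ => (-1 - u 2 ^ 3) / i.2.1.2.1 ^ 3) u := by
      apply ContDiffAt.div_const
      fun_prop
    exact (contDiffAt_cbrt hu).comp u h1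
  · fun_prop
  · split_ifs <;> fun_prop
  · split_ifs <;> fun_prop
  · split_ifs <;> fun_prop

/-- the total space -/
def atlX : Atl V10 5 where
  Z := ZX
  ne := ⟨_, sliceX_mem (1, (1, ⟨1, one_ne_zero⟩), false) 0⟩
  rel := relX
  openMap := isOpenMap_quot relX (G := {g : ℂ × ℂ × ℂ // g.1 ≠ 0 ∧ g.2.1 ≠ 0 ∧ g.2.2 ≠ 0})
    (fun g z => actX g.1.1 g.1.2.1 g.1.2.2 z)
    (fun g => continuous_act _ _ _) (fun g z hz => act_mem g.2.1 g.2.2.1 g.2.2.2 hz)
    (fun z z' => by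
      rw [relX_iff]
      constructor
      · rintro ⟨l, m, n, hl, hm, hn, h'⟩; exact ⟨⟨(l, m, n), hl, hm, hn⟩, h'⟩
      · rintro ⟨g, h⟩; exact ⟨_, _, _, g.2.1, g.2.2.1, g.2.2.2, h⟩)
  ι := IX
  O := OX
  Ω := OmX
  κ := coordX
  σ := sliceX
  isOpen_O := isOpen_OX
  isOpen_Ω := fun i => Complex.isOpen_slitPlane.preimage (by fun_prop)
  κ_an := fun i z hz => (contDiffAt_coordX hz).contDiffWithinAt
  σ_an := fun i u hu => (contDiffAt_sliceX hu).contDiffWithinAt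
  σ_mem := sliceX_mem
  σ_O := by
    intro i u hu
    refine ⟨?_, ?_, ?_⟩
    · simp [sliceX, preslice]
    · exact atlC.σ_O i.2.1 (fun _ => u 2) hu
    · rw [sliceX_fib]; exact one_ne_zero
  κσ := fun i u _ => coord_slice i u
  κ_Ω := by
    intro i z hz
    have := atlC.κ_Ω i.2.1 ⟨z.1.2.1, z.2.2.1⟩ hz.2.1
    exact this
  σκ := by
    intro i z hz
    obtain ⟨n, hn, h⟩ := slice_coord i z.2 hz
    exact (relX_iff _ _).2 ⟨_, _, n, hz.1, hz.2.1.1, hn, h⟩
  O_sat := by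
    rintro i z z' h hz
    obtain ⟨l, m, n, hl, hm, hn, h⟩ := (relX_iff _ _).1 h
    rw [← h]
    exact OX_act hl hm hn hz
  κ_inv := by
    rintro i z z' h hz
    obtain ⟨l, m, n, hl, hm, hn, h⟩ := (relX_iff _ _).1 h
    rw [← h, coordX_act hl hm hn]
  cover := by
    intro z
    obtain ⟨h1, h2, h3, h4⟩ := z.2
    obtain ⟨k, hk⟩ : ∃ k, z.1.1 k ≠ 0 := by
      by_contra hcon
      push Not at hcon
      exact h1 (funext hcon)
    obtain ⟨iC, hiC⟩ := atlC.cover ⟨_, h2⟩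
    by_cases hd : z.1.2.2.2 = 0
    · have ha : z.1.2.2.1 ≠ 0 := by
        rcases h3 with h | h
        · exact h
        · exact absurd hd h
      obtain ⟨l, hl, hal⟩ : ∃ l, l ≠ k ∧ z.1.2.2.1 l ≠ 0 := by
        by_contra hcon
        push Not at hcon
        obtain ⟨s, hs0, hs1⟩ := exists_perm (k := k) (l := k + 1) (by
          fin_cases k <;> decide)
        have hs1' : s 1 ≠ k := by rw [← hs0]; exact fun h => by simpa using s.injective h
        have hs2' : s 2 ≠ k := by rw [← hs0]; exact fun h => by simpa using s.injective h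
        have hΦ := h4
        rw [Phi_perm s, hcon _ hs1', hcon _ hs2', hd, hs0] at hΦ
        simp only [zero_mul, add_zero] at hΦ
        have hak : z.1.2.2.1 k = 0 := by
          rcases mul_eq_zero.1 hΦ with h | h
          · exact h
          · exact absurd (pow_eq_zero_iff (by norm_num) |>.1 h) hk
        apply ha
        funext j
        by_cases hj : j = k
        · rw [hj]; exact hak
        · exact hcon j hj
      obtain ⟨s, hs0, hs1⟩ := exists_perm (k := k) (l := l) (Ne.symm hl)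
      refine ⟨(s, iC, true), ?_, hiC, ?_⟩
      · simpa [hs0] using hk
      · simpa [fibC, hs1] using hal
    · obtain ⟨s, hs0, hs1⟩ := exists_perm (k := k) (l := k + 1) (by
          fin_cases k <;> decide)
      refine ⟨(s, iC, false), ?_, hiC, ?_⟩
      · simpa [hs0] using hk
      · simpa [fibC] using hd

end Pool.Agent.Lib.MP_cc389e_ag
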