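import Pool.Agent.Lib.MP_cc389e_ag.Emb
import Pool.Agent.Lib.MP_cc389e_ag.Total

/-!
Projective embeddings of the cubic curve and of the total space.
-/

open scoped Manifold ContDiff Topology
open Set Filter

noncomputable section

namespace Pool.Agent.Lib.MP_cc389e_ag

lemma imm_of {n N : ℕ} {f : (Fin n → ℂ) → (Fin (N + 1) → ℂ)} {u : Fin n → ℂ}
    (hf : DifferentiableAt ℂ f u) (k0 : Fin (N + 1)) (h0 : ∀ u', f u' k0 = 1)
    (k : Fin n → Fin (N + 1)) (hk : ∀ u' j, f u' (k j) = u' j) (w : Fin n → ℂ) (c : ℂ)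
    (h : fderiv ℂ f u w = c • f u) : w = 0 := by
  have key : ∀ j, fderiv ℂ f u w j = fderiv ℂ (fun u' => f u' j) u w := by
    intro j
    have h1 := (hasFDerivAt_pi'.1 hf.hasFDerivAt j).fderiv
    rw [h1]
    rfl
  have hc : c = 0 := by
    have h1 := key k0
    have h2 : (fun u' => f u' k0) = fun _ => (1 : ℂ) := funext h0
    rw [h2, h] at h1
    simpa [h0] using h1
  funext j
  have h1 := key (k j)
  have h2 : (fun u' => f u' (k j)) = fun u' : Fin n → ℂ => u' j := funext fun u' => hk u' j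
  rw [h2, h, hc] at h1
  have h3 : fderiv ℂ (fun u' : Fin n → ℂ => u' j) u w = w j := by
    have : HasFDerivAt (fun u' : Fin n → ℂ => u' j) (ContinuousLinearMap.proj j) u :=
      (ContinuousLinearMap.proj (R := ℂ) (φ := fun _ : Fin n => ℂ) j).hasFDerivAt
    rw [this.fderiv]
    rfl
  rw [h3] at h1
  simpa using h1.symm

lemma cDA_sliceC (i : atlC.ι) {u : Fin 1 → ℂ} (hu : u ∈ atlC.Ω i) :
    ContDiffAt ℂ ω (sliceC i) u :=
  (atlC.σ_an i).contDiffAt ((atlC.isOpen_Ω i).mem_nhds hu)

/-- the embedding of the cubic -/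
def embC : Atl.Emb atlC 2 where
  s := fun r => r
  s_an := fun _ _ => contDiffAt_id
  s_ne := fun _ hz => hz.1
  s_iff := by
    intro z z'
    refine (relC_iff z z').trans ?_
    constructor
    · rintro ⟨c, hc, h⟩; exact ⟨c, hc, h.symm⟩
    · rintro ⟨c, hc, h⟩; exact ⟨c, hc, h.symm⟩
  imm := by
    intro i u hu w c h
    refine imm_of (f := fun u => sliceC i u) (cDA_sliceC i hu |>.differentiableAt (by simp))
      (i.1 0) ?_ (fun _ => i.1 2) ?_ w c h
    · intro u'; simp [sliceC]
    · intro u' j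
      simp only [sliceC, place_two]
      congr 1
      exact Subsingleton.elim _ _

/-- index set of the homogeneous coordinates -/
abbrev J : Type := Fin 3 × Fin 3 × (Fin 3 ⊕ (Fin 3 × Fin 3))

/-- fibre coordinates -/
def wX (z : V10) (j : Fin 3 ⊕ (Fin 3 × Fin 3)) : ℂ :=
  Sum.elim (fun m => z.2.2.1 m) (fun p => z.2.2.2 * z.1 p.1 ^ 3 * z.2.1 p.2) j

/-- homogeneous coordinates -/
def sX (z : V10) (j : J) : ℂ := z.1 j.1 * z.2.1 j.2.1 * wX z j.2.2

/-- numbering of the homogeneous coordinates -/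
def eJ : Fin (107 + 1) ≃ J := (Fintype.equivFinOfCardEq (by decide : Fintype.card J = 108)).symm

lemma wX_act (l m n : ℂ) (z : V10) (j) : wX (actX l m n z) j = n * l ^ 3 * m * wX z j := by
  rcases j with j | ⟨p, q⟩
  · simp [wX, actX]
  · simp only [wX, actX, Sum.elim_inr, Pi.smul_apply, smul_eq_mul]
    ring

lemma sX_act (l m n : ℂ) (z : V10) (j) : sX (actX l m n z) j = l ^ 4 * m ^ 2 * n * sX z j := by
  simp only [sX, wX_act]
  simp only [actX, Pi.smul_apply, smul_eq_mul]
  ring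

lemma exists_ne {z : V10} (hz : z ∈ ZX) : ∃ i k j, z.1 i ≠ 0 ∧ z.2.1 k ≠ 0 ∧ wX z j ≠ 0 := by
  obtain ⟨h1, h2, h3, h4⟩ := hz
  obtain ⟨i, hi⟩ : ∃ i, z.1 i ≠ 0 := by
    by_contra hcon
    push Not at hcon
    exact h1 (funext hcon)
  obtain ⟨k, hk⟩ : ∃ i, z.2.1 i ≠ 0 := by
    by_contra hcon
    push Not at hcon
    exact h2.1 (funext hcon)
  rcases h3 with h | h
  · obtain ⟨m, hm⟩ : ∃ i, z.2.2.1 i ≠ 0 := by
      by_contra hcon
      push Not at hcon
      exact h (funext hcon)
    exact ⟨i, k, Sum.inl m, hi, hk, hm⟩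
  · exact ⟨i, k, Sum.inr (i, k), hi, hk, mul_ne_zero (mul_ne_zero h (pow_ne_zero _ hi)) hk⟩

lemma sX_ne {z : V10} (hz : z ∈ ZX) : sX z ≠ 0 := by
  obtain ⟨i, k, j, hi, hk, hj⟩ := exists_ne hz
  intro h
  have := congrFun h (i, k, j)
  simp only [sX, Pi.zero_apply, mul_eq_zero] at this
  tauto

lemma sX_iff (z z' : ZX) : relX z z' ↔ ∃ c : ℂ, c ≠ 0 ∧ ∀ j, sX z'.1 j = c * sX z.1 j := by
  rw [relX_iff]
  constructor
  · rintro ⟨l, m, n, hl, hm, hn, h⟩
    refine ⟨l ^ 4 * m ^ 2 * n, by positivity, ?_⟩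
    intro j
    rw [← h, sX_act]
  · rintro ⟨c, hc, h⟩
    obtain ⟨i, k, j, hi, hk, hj⟩ := exists_ne z.2
    have h0 := h (i, k, j)
    simp only [sX] at h0
    have hne : z'.1.1 i * z'.1.2.1 k * wX z'.1 j ≠ 0 := by
      rw [h0]
      exact mul_ne_zero hc (mul_ne_zero (mul_ne_zero hi hk) hj)
    have hi' : z'.1.1 i ≠ 0 := fun h => hne (by rw [h]; ring)
    have hk' : z'.1.2.1 k ≠ 0 := fun h => hne (by rw [h]; ring)
    have hj' : wX z'.1 j ≠ 0 := fun h => hne (by rw [h]; ring)
    have hv : ∀ i', z'.1.1 i' = (z'.1.1 i / z.1.1 i) * z.1.1 i' := by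
      intro i'
      have h1 := h (i', k, j)
      simp only [sX] at h1
      field_simp
      have h2 : (z'.1.1 i' * z.1.1 i - z'.1.1 i * z.1.1 i') * (z'.1.2.1 k * wX z'.1 j) = 0 := by
        linear_combination z.1.1 i * h1 - z.1.1 i' * h0
      rcases mul_eq_zero.1 h2 with h3 | h3
      · linear_combination h3
      · exact absurd h3 (mul_ne_zero hk' hj')
    have hr : ∀ i', z'.1.2.1 i' = (z'.1.2.1 k / z.1.2.1 k) * z.1.2.1 i' := by
      intro i'
      have h1 := h (i, i', j)
      simp only [sX] at h1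
      field_simp
      have h2 : (z'.1.2.1 i' * z.1.2.1 k - z'.1.2.1 k * z.1.2.1 i') * (z'.1.1 i * wX z'.1 j) = 0 := by
        linear_combination z.1.2.1 k * h1 - z.1.2.1 i' * h0
      rcases mul_eq_zero.1 h2 with h3 | h3
      · linear_combination h3
      · exact absurd h3 (mul_ne_zero hi' hj')
    set l := z'.1.1 i / z.1.1 i with hl
    set m := z'.1.2.1 k / z.1.2.1 k with hm
    have hl0 : l ≠ 0 := div_ne_zero hi' hi
    have hm0 : m ≠ 0 := div_ne_zero hk' hk
    have hw : ∀ j', wX z'.1 j' = (c / (l * m)) * wX z.1 j' := by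
      intro j'
      have h1 := h (i, k, j')
      simp only [sX] at h1
      rw [hv i, hr k] at h1
      field_simp
      have h2 : (wX z'.1 j' * l * m - c * wX z.1 j') * (z.1.1 i * z.1.2.1 k) = 0 := by
        linear_combination h1
      rcases mul_eq_zero.1 h2 with h3 | h3
      · linear_combination h3
      · exact absurd h3 (mul_ne_zero hi hk)
    refine ⟨l, m, c / (l ^ 4 * m ^ 2), hl0, hm0, by positivity, ?_⟩
    refine Prod.ext ?_ (Prod.ext ?_ (Prod.ext ?_ ?_))
    · funext i'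
      simp only [actX, Pi.smul_apply, smul_eq_mul]
      exact (hv i').symm
    · funext i'
      simp only [actX, Pi.smul_apply, smul_eq_mul]
      exact (hr i').symm
    · funext i'
      simp only [actX, Pi.smul_apply, smul_eq_mul]
      have := hw (Sum.inl i')
      simp only [wX, Sum.elim_inl] at this
      rw [this]
      field_simp
    · simp only [actX]
      have h5 := hw (Sum.inr (i, k))
      simp only [wX, Sum.elim_inr] at h5
      rw [hv i, hr k] at h5
      field_simp at h5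
      field_simp
      linear_combination -h5

lemma contDiff_sX : ContDiff ℂ ω (fun z : V10 => fun k => sX z (eJ k)) := by
  rw [contDiff_pi]
  intro k
  rcases h : eJ k with ⟨p, q, j⟩
  rcases j with j | ⟨j1, j2⟩
  · simp only [sX, wX, Sum.elim_inl]
    fun_prop
  · simp only [sX, wX, Sum.elim_inr]
    fun_prop

/-- the embedding of the total space -/
def embX : Atl.Emb atlX 107 where
  s := fun z k => sX z (eJ k)
  s_an := fun _ _ => contDiff_sX.contDiffAt
  s_ne := by
    intro z hz h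
    apply sX_ne hz
    funext j
    have := congrFun h (eJ.symm j)
    simpa using this
  s_iff := by
    intro z z'
    refine (sX_iff z z').trans ?_
    constructor
    · rintro ⟨c, hc, h⟩
      exact ⟨c, hc, funext fun k => by simpa using h (eJ k)⟩
    · rintro ⟨c, hc, h⟩
      refine ⟨c, hc, fun j => ?_⟩
      have := congrFun h (eJ.symm j)
      simpa using this
  imm := by
    intro i u hu w c h
    have hd : DifferentiableAt ℂ (fun u => fun k => sX (sliceX i u) (eJ k)) u := by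
      have h1 : ContDiffAt ℂ ω (fun u => fun k => sX (sliceX i u) (eJ k)) u :=
        ContDiffAt.comp u (g := fun z : V10 => fun k => sX z (eJ k)) (f := sliceX i)
          contDiff_sX.contDiffAt (contDiffAt_sliceX hu)
      exact h1.differentiableAt (by simp)
    rcases hb : i.2.2 with _ | _
    · refine imm_of (f := fun u => fun k => sX (sliceX i u) (eJ k)) hd
        (eJ.symm (i.1 0, i.2.1.1 0, Sum.inr (i.1 0, i.2.1.1 0))) ?_
        (fun j => eJ.symm (![(i.1 1, i.2.1.1 0, Sum.inr (i.1 0, i.2.1.1 0)),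
          (i.1 2, i.2.1.1 0, Sum.inr (i.1 0, i.2.1.1 0)),
          (i.1 0, i.2.1.1 2, Sum.inr (i.1 0, i.2.1.1 0)),
          (i.1 0, i.2.1.1 0, Sum.inl (i.1 1)), (i.1 0, i.2.1.1 0, Sum.inl (i.1 2))] j)) ?_ w c h
      · intro u'
        simp [sX, wX, sliceX, preslice, hb]
      · intro u' j
        fin_cases j <;> simp [sX, wX, sliceX, preslice, hb]
    · refine imm_of (f := fun u => fun k => sX (sliceX i u) (eJ k)) hd
        (eJ.symm (i.1 0, i.2.1.1 0, Sum.inl (i.1 1))) ?_
        (fun j => eJ.symm (![(i.1 1, i.2.1.1 0, Sum.inl (i.1 1)),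
          (i.1 2, i.2.1.1 0, Sum.inl (i.1 1)),
          (i.1 0, i.2.1.1 2, Sum.inl (i.1 1)),
          (i.1 0, i.2.1.1 0, Sum.inl (i.1 2)),
          (i.1 0, i.2.1.1 0, Sum.inr (i.1 0, i.2.1.1 0))] j)) ?_ w c h
      · intro u'
        simp [sX, wX, sliceX, preslice, hb]
      · intro u' j
        fin_cases j <;> simp [sX, wX, sliceX, preslice, hb]

instance : T2Space atlC.X := embC.t2Space
instance : T2Space atlX.X := embX.t2Space

end Pool.Agent.Lib.MP_cc389e_ag
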