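import Pool.Agent.Lib.MP_cc389e_ag.Quot
import Pool.Agent.Lib.MP_cc389e_ag.Cbrt

/-!
The Fermat cubic curve as a quotient with holomorphic slices.
-/

open scoped Manifold ContDiff Topology
open Set Filter

noncomputable section

namespace Pool.Agent.Lib.MP_cc389e_ag

/-- punctured cone over the Fermat cubic -/
def ZC : Set (Fin 3 → ℂ) := {r | r ≠ 0 ∧ r 0 ^ 3 + r 1 ^ 3 + r 2 ^ 3 = 0}

lemma sum_perm (s : Equiv.Perm (Fin 3)) (r : Fin 3 → ℂ) :
    r 0 ^ 3 + r 1 ^ 3 + r 2 ^ 3 = r (s 0) ^ 3 + r (s 1) ^ 3 + r (s 2) ^ 3 := by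
  have h1 : ∑ i, r i ^ 3 = ∑ i, r (s i) ^ 3 := (Equiv.sum_comp s (fun i => r i ^ 3)).symm
  simpa [Fin.sum_univ_three] using h1

/-- the slice point with coordinates `1, w, u` at the places `s 0, s 1, s 2` -/
def place (s : Equiv.Perm (Fin 3)) (a b c : ℂ) : Fin 3 → ℂ := fun i => ![a, b, c] (s.symm i)

@[simp] lemma place_zero (s : Equiv.Perm (Fin 3)) (a b c : ℂ) : place s a b c (s 0) = a := by
  simp [place]
@[simp] lemma place_one (s : Equiv.Perm (Fin 3)) (a b c : ℂ) : place s a b c (s 1) = b := by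
  simp [place]
@[simp] lemma place_two (s : Equiv.Perm (Fin 3)) (a b c : ℂ) : place s a b c (s 2) = c := by
  simp [place]

lemma ext_perm (s : Equiv.Perm (Fin 3)) {α : Type*} {r r' : Fin 3 → α} (h0 : r (s 0) = r' (s 0))
    (h1 : r (s 1) = r' (s 1)) (h2 : r (s 2) = r' (s 2)) : r = r' := by
  funext i
  obtain ⟨j, rfl⟩ := s.surjective i
  fin_cases j
  · exact h0
  · exact h1
  · exact h2

lemma contDiff_place {E : Type*} [NormedAddCommGroup E] [NormedSpace ℂ E]
    (s : Equiv.Perm (Fin 3)) {a b c : E → ℂ} {x : E} (ha : ContDiffAt ℂ ω a x)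
    (hb : ContDiffAt ℂ ω b x) (hc : ContDiffAt ℂ ω c x) :
    ContDiffAt ℂ ω (fun y => place s (a y) (b y) (c y)) x := by
  rw [contDiffAt_pi]
  intro i
  obtain ⟨j, rfl⟩ := s.surjective i
  fin_cases j
  · simpa using ha
  · simpa using hb
  · simpa using hc

/-- the third root branch near `w0` -/
def branch (w0 u : ℂ) : ℂ := w0 * cbrt ((-1 - u ^ 3) / w0 ^ 3)

lemma branch_pow {w0 : ℂ} (h : w0 ≠ 0) (u : ℂ) : 1 + branch w0 u ^ 3 + u ^ 3 = 0 := by
  unfold branch
  rw [mul_pow, cbrt_pow]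
  field_simp
  ring

/-- exists a permutation with prescribed first two values -/
lemma exists_perm {k l : Fin 3} (h : k ≠ l) : ∃ s : Equiv.Perm (Fin 3), s 0 = k ∧ s 1 = l := by
  revert k l
  decide

lemma exists_two_ne_zero {r : Fin 3 → ℂ} (hr : r ∈ ZC) : ∃ k l : Fin 3, k ≠ l ∧ r k ≠ 0 ∧ r l ≠ 0 := by
  obtain ⟨h0, h1⟩ := hr
  by_contra hcon
  push Not at hcon
  have h01 := hcon 0 1 (by decide)
  have h02 := hcon 0 2 (by decide)
  have h12 := hcon 1 2 (by decide)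
  apply h0
  by_cases a : r 0 = 0
  · by_cases b : r 1 = 0
    · rw [a, b] at h1
      simp at h1
      funext i; fin_cases i <;> simp [a, b, h1]
    · have c := h12 b
      rw [a, c] at h1
      simp at h1
      exact absurd h1 b
  · have b := h01 a
    have c := h02 a
    rw [b, c] at h1
    simp at h1
    exact absurd h1 a

/-- the equivalence relation on the cone -/
def relC : Setoid ZC where
  r z z' := ∃ μ : ℂ, μ ≠ 0 ∧ μ • z.1 = z'.1
  iseqv :=
    { refl := fun z => ⟨1, one_ne_zero, one_smul _ _⟩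
      symm := by
        rintro z z' ⟨μ, h0, h⟩
        exact ⟨μ⁻¹, inv_ne_zero h0, by rw [← h, smul_smul, inv_mul_cancel₀ h0, one_smul]⟩
      trans := by
        rintro z z' z'' ⟨μ, h0, h⟩ ⟨ν, h0', h'⟩
        exact ⟨ν * μ, mul_ne_zero h0' h0, by rw [← h', ← h, smul_smul]⟩ }

lemma relC_iff (z z' : ZC) : relC z z' ↔ ∃ μ : ℂ, μ ≠ 0 ∧ μ • z.1 = z'.1 := Iff.rfl

lemma smul_mem_ZC {μ : ℂ} (hμ : μ ≠ 0) {r : Fin 3 → ℂ} (hr : r ∈ ZC) : μ • r ∈ ZC := by
  refine ⟨smul_ne_zero hμ hr.1, ?_⟩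
  have := hr.2
  simp only [Pi.smul_apply, smul_eq_mul]
  linear_combination μ ^ 3 * this

/-- domain of slices -/
def OC (i : Equiv.Perm (Fin 3) × {w : ℂ // w ≠ 0}) : Set (Fin 3 → ℂ) :=
  {r | r (i.1 0) ≠ 0 ∧ r (i.1 1) / (r (i.1 0) * i.2.1) ∈ Sec}

lemma isOpen_OC (i) : IsOpen (OC i) := by
  have h1 : IsOpen {r : Fin 3 → ℂ | r (i.1 0) ≠ 0} := isOpen_ne_fun (by fun_prop) (by fun_prop)
  have h2 : ContinuousOn (fun r : Fin 3 → ℂ => r (i.1 1) / (r (i.1 0) * i.2.1))
      {r : Fin 3 → ℂ | r (i.1 0) ≠ 0} := by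
    apply ContinuousOn.div (by fun_prop) (by fun_prop)
    intro r hr
    exact mul_ne_zero hr i.2.2
  exact h2.isOpen_inter_preimage h1 isOpen_Sec

/-- the slice -/
def sliceC (i : Equiv.Perm (Fin 3) × {w : ℂ // w ≠ 0}) (u : Fin 1 → ℂ) : Fin 3 → ℂ :=
  place i.1 1 (branch i.2.1 (u 0)) (u 0)

/-- the coordinate -/
def coordC (i : Equiv.Perm (Fin 3) × {w : ℂ // w ≠ 0}) (r : Fin 3 → ℂ) : Fin 1 → ℂ :=
  fun _ => r (i.1 2) / r (i.1 0)

lemma sliceC_mem (i) (u) : sliceC i u ∈ ZC := by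
  refine ⟨?_, ?_⟩
  · intro h
    have := congrFun h (i.1 0)
    simp [sliceC] at this
  · rw [sum_perm i.1]
    simp only [sliceC, place_zero, place_one, place_two]
    have := branch_pow i.2.2 (u 0)
    linear_combination this

lemma branch_eq {s : Equiv.Perm (Fin 3)} {w0 : ℂ} (hw0 : w0 ≠ 0) {r : Fin 3 → ℂ} (hr : r ∈ ZC)
    (h0 : r (s 0) ≠ 0) (h1 : r (s 1) / (r (s 0) * w0) ∈ Sec) :
    branch w0 (r (s 2) / r (s 0)) = r (s 1) / r (s 0) := by
  have h2 : (-1 - (r (s 2) / r (s 0)) ^ 3) / w0 ^ 3 = (r (s 1) / (r (s 0) * w0)) ^ 3 := by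
    have := hr.2
    rw [sum_perm s] at this
    field_simp
    linear_combination -this
  unfold branch
  rw [h2, cbrt_pow_of_mem h1]
  field_simp

/-- the Fermat cubic -/
def atlC : Atl (Fin 3 → ℂ) 1 where
  Z := ZC
  ne := ⟨_, sliceC_mem (1, ⟨1, one_ne_zero⟩) 0⟩
  rel := relC
  openMap := isOpenMap_quot relC (G := {μ : ℂ // μ ≠ 0}) (fun μ r => μ.1 • r)
    (fun μ => by fun_prop) (fun μ z hz => smul_mem_ZC μ.2 hz)
    (fun z z' => by
      rw [relC_iff]
      constructor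
      · rintro ⟨μ, h, h'⟩; exact ⟨⟨μ, h⟩, h'⟩
      · rintro ⟨μ, h⟩; exact ⟨μ.1, μ.2, h⟩)
  ι := Equiv.Perm (Fin 3) × {w : ℂ // w ≠ 0}
  O := OC
  Ω := fun i => {u | (-1 - u 0 ^ 3) / i.2.1 ^ 3 ∈ Complex.slitPlane}
  κ := coordC
  σ := sliceC
  isOpen_O := isOpen_OC
  isOpen_Ω := fun i => Complex.isOpen_slitPlane.preimage (by fun_prop)
  κ_an := by
    intro i
    intro r hr
    apply ContDiffAt.contDiffWithinAt
    unfold coordC
    rw [contDiffAt_pi]
    intro _
    exact ContDiffAt.div (by fun_prop) (by fun_prop) hr.1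
  σ_an := by
    intro i u hu
    apply ContDiffAt.contDiffWithinAt
    unfold sliceC
    apply contDiff_place
    · fun_prop
    · unfold branch
      apply ContDiffAt.mul contDiffAt_const
      have h1 : ContDiffAt ℂ ω (fun u : Fin 1 → ℂ => (-1 - u 0 ^ 3) / i.2.1 ^ 3) u := by
        apply ContDiffAt.div_const
        fun_prop
      exact (contDiffAt_cbrt hu).comp u h1
    · fun_prop
  σ_mem := sliceC_mem
  σ_O := by
    intro i u hu
    refine ⟨?_, ?_⟩
    · simp [sliceC]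
    · simp only [sliceC, place_zero, place_one]
      have : branch i.2.1 (u 0) / (1 * i.2.1) = cbrt ((-1 - u 0 ^ 3) / i.2.1 ^ 3) := by
        unfold branch
        have := i.2.2
        field_simp
      rw [this]
      exact cbrt_mem_Sec hu
  κσ := by
    intro i u hu
    funext j
    simp only [coordC, sliceC, place_zero, place_two, div_one]
    congr 1
    exact Subsingleton.elim _ _
  κ_Ω := by
    intro i z hz
    have h2 : (-1 - (z.1 (i.1 2) / z.1 (i.1 0)) ^ 3) / i.2.1 ^ 3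
        = (z.1 (i.1 1) / (z.1 (i.1 0) * i.2.1)) ^ 3 := by
      have := z.2.2
      rw [sum_perm i.1] at this
      have h0 := hz.1
      have h1 := i.2.2
      field_simp
      linear_combination -this
    simp only [mem_ofPred_eq, coordC]
    rw [h2]
    exact pow_mem_slitPlane hz.2
  σκ := by
    intro i z hz
    rw [relC_iff]
    refine ⟨z.1 (i.1 0), hz.1, ?_⟩
    have h0 := hz.1
    apply ext_perm i.1
    · simp [sliceC]
    · simp only [sliceC, Pi.smul_apply, place_one, smul_eq_mul, coordC]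
      rw [branch_eq i.2.2 z.2 hz.1 hz.2]
      field_simp
    · simp only [sliceC, Pi.smul_apply, place_two, smul_eq_mul, coordC]
      field_simp
  O_sat := by
    rintro i z z' h hz
    obtain ⟨μ, h0, h⟩ := (relC_iff _ _).1 h
    rw [← h]
    refine ⟨?_, ?_⟩
    · simp [h0, hz.1]
    · have : (μ • z.1) (i.1 1) / ((μ • z.1) (i.1 0) * i.2.1) = z.1 (i.1 1) / (z.1 (i.1 0) * i.2.1) := by
        simp only [Pi.smul_apply, smul_eq_mul]
        rw [mul_assoc]
        exact mul_div_mul_left _ _ h0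
      rw [this]
      exact hz.2
  κ_inv := by
    rintro i z z' h hz
    obtain ⟨μ, h0, h⟩ := (relC_iff _ _).1 h
    rw [← h]
    funext _
    simp only [coordC, Pi.smul_apply, smul_eq_mul]
    exact (mul_div_mul_left _ _ h0).symm
  cover := by
    intro z
    obtain ⟨k, l, hkl, hk, hl⟩ := exists_two_ne_zero z.2
    obtain ⟨s, hs0, hs1⟩ := exists_perm hkl
    refine ⟨(s, ⟨z.1 l / z.1 k, div_ne_zero hl hk⟩), ?_, ?_⟩
    · simpa [hs0] using hk
    · simp only [hs0, hs1]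
      have : z.1 l / (z.1 k * (z.1 l / z.1 k)) = 1 := by field_simp
      rw [this]
      exact one_mem_Sec

end Pool.Agent.Lib.MP_cc389e_ag
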