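import Mathlib

/-!
Task C of the disproof of MP_cc389e_ag: the punctured cone over the Fermat cubic is connected.
-/

namespace Pool.Agent.Lib.MP_cc389e_ag

namespace FermatConn

/-- The punctured Fermat cone. -/
def XX : Set (Fin 3 → ℂ) := {r : Fin 3 → ℂ | r ≠ 0 ∧ r 0 ^ 3 + r 1 ^ 3 + r 2 ^ 3 = 0}

/-- Two points lie in a common preconnected subset of the cone. -/
def Cn (x y : Fin 3 → ℂ) : Prop := ∃ t ⊆ XX, IsPreconnected t ∧ x ∈ t ∧ y ∈ t

lemma Cn.symm {x y : Fin 3 → ℂ} (h : Cn x y) : Cn y x := by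
  obtain ⟨t, h1, h2, h3, h4⟩ := h
  exact ⟨t, h1, h2, h4, h3⟩

lemma Cn.trans {x y z : Fin 3 → ℂ} (h : Cn x y) (h' : Cn y z) : Cn x z := by
  obtain ⟨t, h1, h2, h3, h4⟩ := h
  obtain ⟨t', h1', h2', h3', h4'⟩ := h'
  exact ⟨t ∪ t', Set.union_subset h1 h1', h2.union y h4 h3' h2', Or.inl h3, Or.inr h4'⟩

lemma Cn.of_image {α : Type*} [TopologicalSpace α] {S : Set α} (hS : IsPreconnected S)
    (f : α → Fin 3 → ℂ) (hf : ContinuousOn f S) (hmem : ∀ a ∈ S, f a ∈ XX) {a b : α}
    (ha : a ∈ S) (hb : b ∈ S) : Cn (f a) (f b) :=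
  ⟨f '' S, by rintro _ ⟨a, ha, rfl⟩; exact hmem a ha, hS.image f hf, ⟨a, ha, rfl⟩, ⟨b, hb, rfl⟩⟩

lemma mem_perm (σ : Equiv.Perm (Fin 3)) {r : Fin 3 → ℂ} (h : r ∈ XX) : r ∘ σ ∈ XX := by
  obtain ⟨h1, h2⟩ := h
  constructor
  · intro h
    apply h1
    funext i
    have := congrFun h (σ.symm i)
    simpa using this
  · have h3 : ∑ i : Fin 3, (r ∘ σ) i ^ 3 = ∑ i : Fin 3, r i ^ 3 :=
      Equiv.sum_comp σ (fun i => r i ^ 3)
    rw [Fin.sum_univ_three, Fin.sum_univ_three] at h3
    rw [h3, h2]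

lemma Cn.perm (σ : Equiv.Perm (Fin 3)) {x y : Fin 3 → ℂ} (h : Cn x y) : Cn (x ∘ σ) (y ∘ σ) := by
  obtain ⟨t, h1, h2, h3, h4⟩ := h
  refine ⟨(fun r : Fin 3 → ℂ => r ∘ σ) '' t, ?_, ?_, ⟨x, h3, rfl⟩, ⟨y, h4, rfl⟩⟩
  · rintro _ ⟨r, hr, rfl⟩
    exact mem_perm σ (h1 hr)
  · refine h2.image _ (Continuous.continuousOn ?_)
    exact continuous_pi fun i => continuous_apply (σ i)

/-- Scaling. -/
lemma Cn.smul {r : Fin 3 → ℂ} (h : r ∈ XX) {c : ℂ} (hc : c ≠ 0) : Cn r (c • r) := by
  have hS : IsPreconnected ({0}ᶜ : Set ℂ) :=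
    (isConnected_compl_singleton_of_one_lt_rank (by simp) 0).isPreconnected
  have h1 := Cn.of_image hS (fun c : ℂ => c • r) (by fun_prop) (by
    intro a ha
    have ha' : a ≠ 0 := by simpa using ha
    refine ⟨smul_ne_zero ha' h.1, ?_⟩
    simp only [Pi.smul_apply, smul_eq_mul, mul_pow]
    rw [← mul_add, ← mul_add, h.2, mul_zero]) (a := 1) (b := c) (by simp) (by simpa using hc)
  simpa using h1

/-- The real cube root. -/
noncomputable def cr (x : ℝ) : ℝ := x ^ (1 / 3 : ℝ)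

lemma cr_cube {x : ℝ} (hx : 0 ≤ x) : cr x ^ 3 = x := by
  unfold cr
  rw [← Real.rpow_natCast, ← Real.rpow_mul hx]
  norm_num

lemma cr_zero : cr 0 = 0 := by unfold cr; rw [Real.zero_rpow (by norm_num)]

lemma cr_one : cr 1 = 1 := by unfold cr; rw [Real.one_rpow]

lemma continuous_cr : Continuous cr := by
  unfold cr
  exact Real.continuous_rpow_const (by norm_num)

lemma cr_cube' {x : ℝ} (hx : 0 ≤ x) : (cr x : ℂ) ^ 3 = x := by
  have := cr_cube hx
  exact_mod_cast this

/-- Special points with `r 0 = 0`. -/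
lemma special0 {r : Fin 3 → ℂ} (h : r ∈ XX) (h0 : r 0 = 0) : Cn r ![-1, 1, 0] := by
  have h1 : r 1 ≠ 0 := by
    intro h1
    apply h.1
    have h2 := h.2
    rw [h0, h1] at h2
    have h3 : r 2 = 0 := by simpa using h2
    funext i
    fin_cases i
    · exact h0
    · exact h1
    · exact h3
  have hs := Cn.smul h (c := (r 1)⁻¹) (inv_ne_zero h1)
  set ξ : ℂ := -(r 2 / r 1) with hξ
  have hξ3 : ξ ^ 3 = 1 := by
    have h2 := h.2
    rw [h0] at h2
    have h3 : r 2 ^ 3 = - r 1 ^ 3 := by linear_combination h2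
    rw [hξ, neg_pow, div_pow, h3]
    field_simp
  have e1 : (r 1)⁻¹ • r = ![0, 1, -ξ] := by
    funext i
    fin_cases i
    · simp [h0]
    · simp [h1]
    · simp [hξ, div_eq_mul_inv, mul_comm]
  rw [e1] at hs
  refine hs.trans ?_
  have h2 := Cn.of_image (S := Set.Icc (0 : ℝ) 1) isPreconnected_Icc
    (fun s : ℝ => ![-(cr s : ℂ), 1, -ξ * (cr (1 - s) : ℂ)]) (by
      apply Continuous.continuousOn
      refine continuous_pi fun i => ?_
      have := continuous_cr
      fin_cases i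
      · simp only [Fin.zero_eta, Matrix.cons_val_zero]; fun_prop
      · simp only [Fin.mk_one, Matrix.cons_val_one]; fun_prop
      · simp only [Fin.reduceFinMk, Matrix.cons_val]; fun_prop) (by
      intro s hs
      refine ⟨fun h => ?_, ?_⟩
      · have := congrFun h 1
        simp at this
      · simp only [Matrix.cons_val_zero, Matrix.cons_val_one, Matrix.cons_val]
        rw [neg_pow, mul_pow, neg_pow ξ, cr_cube' hs.1, cr_cube' (by linarith [hs.2]), hξ3]
        push_cast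
        ring) (a := 0) (b := 1) (by simp) (by simp)
  simpa [cr_zero, cr_one] using h2

lemma special2 {r : Fin 3 → ℂ} (h : r ∈ XX) (h2 : r 2 = 0) : Cn r ![-1, 1, 0] := by
  have h1 := special0 (mem_perm (Equiv.swap 0 2) h) (by simpa using h2)
  have h3 := h1.perm (Equiv.swap 0 2)
  have e1 : (r ∘ Equiv.swap (0 : Fin 3) 2) ∘ Equiv.swap (0 : Fin 3) 2 = r := by
    funext i; simp
  have e2 : (![-1, 1, 0] : Fin 3 → ℂ) ∘ Equiv.swap (0 : Fin 3) 2 = ![0, 1, -1] := by
    funext i
    fin_cases i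
    · simp
    · simp [Equiv.swap_apply_of_ne_of_ne]
    · simp
  rw [e1, e2] at h3
  refine h3.trans (special0 ⟨fun h => ?_, ?_⟩ ?_)
  · have := congrFun h 1
    simp at this
  · simp
    norm_num
  · simp

lemma special1 {r : Fin 3 → ℂ} (h : r ∈ XX) (h2 : r 1 = 0) : Cn r ![-1, 1, 0] := by
  have h1 := special0 (mem_perm (Equiv.swap 0 1) h) (by simpa using h2)
  have h3 := h1.perm (Equiv.swap 0 1)
  have e1 : (r ∘ Equiv.swap (0 : Fin 3) 1) ∘ Equiv.swap (0 : Fin 3) 1 = r := by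
    funext i; simp
  have e2 : (![-1, 1, 0] : Fin 3 → ℂ) ∘ Equiv.swap (0 : Fin 3) 1 = ![1, -1, 0] := by
    funext i
    fin_cases i
    · simp
    · simp
    · simp [Equiv.swap_apply_of_ne_of_ne]
  rw [e1, e2] at h3
  refine h3.trans (special2 ⟨fun h => ?_, ?_⟩ ?_)
  · have := congrFun h 0
    simp at this
  · simp
    norm_num
  · simp

/-- A point with `Re (-r₀³/r₁³) < 1` is joined to a special point. -/
lemma to_special {r : Fin 3 → ℂ} (h : r ∈ XX) (h1 : r 1 ≠ 0)
    (hre : (-(r 0 ^ 3 / r 1 ^ 3)).re < 1) : Cn r ![-1, 1, 0] := by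
  set t : ℂ := -(r 0 ^ 3 / r 1 ^ 3) with ht
  have h13 : r 1 ^ 3 ≠ 0 := pow_ne_zero 3 h1
  have ht1 : 1 - t = -(r 2 ^ 3 / r 1 ^ 3) := by
    rw [ht]
    field_simp
    linear_combination h.2
  -- the path of cube roots
  set w : ℝ → ℂ := fun s => (1 - (1 - (s : ℂ)) * t) ^ (1 / 3 : ℂ) with hw
  have hre' : ∀ s ∈ Set.Icc (0 : ℝ) 1, 0 < (1 - (1 - (s : ℂ)) * t).re := by
    intro s hs
    have e1 : (1 - (1 - (s : ℂ)) * t).re = 1 - (1 - s) * t.re := by
      simp
    rw [e1]
    rcases le_or_gt t.re 0 with h2 | h2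
    · have : (1 - s) * t.re ≤ 0 := mul_nonpos_of_nonneg_of_nonpos (by linarith [hs.2]) h2
      linarith
    · have : (1 - s) * t.re ≤ 1 * t.re := by
        apply mul_le_mul_of_nonneg_right _ h2.le
        linarith [hs.1]
      linarith
  have hw3 : ∀ s ∈ Set.Icc (0 : ℝ) 1, w s ^ 3 = 1 - (1 - (s : ℂ)) * t := by
    intro s hs
    have hne : (1 - (1 - (s : ℂ)) * t) ≠ 0 := by
      intro h2
      have := hre' s hs
      rw [h2] at this
      simp at this
    rw [hw]
    simp only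
    rw [← Complex.cpow_nat_mul]
    norm_num
  have hw0 : w 0 ≠ 0 := by
    intro h2
    have h3 := hw3 0 (by simp)
    have h4 := hre' 0 (by simp)
    rw [h2] at h3
    rw [← h3] at h4
    simp at h4
  set κ : ℂ := r 2 / (r 1 * w 0) with hκ
  have hκ3 : κ ^ 3 = -1 := by
    rw [hκ, div_pow, mul_pow, hw3 0 (by simp)]
    simp only [Complex.ofReal_zero, sub_zero, one_mul]
    rw [ht1]
    have h2 : r 2 ≠ 0 := by
      intro h2
      have h3 := hw3 0 (by simp)
      simp only [Complex.ofReal_zero, sub_zero, one_mul] at h3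
      rw [ht1, h2] at h3
      apply hw0
      simpa using h3
    have h23 : r 2 ^ 3 ≠ 0 := pow_ne_zero 3 h2
    field_simp
  have hcont : ContinuousOn w (Set.Icc 0 1) := by
    rw [hw]
    intro s hs
    apply ContinuousAt.continuousWithinAt
    refine ContinuousAt.cpow (by fun_prop) continuousAt_const ?_
    left; exact hre' s hs
  have h2 := Cn.of_image (S := Set.Icc (0 : ℝ) 1) isPreconnected_Icc
    (fun s : ℝ => ![(cr (1 - s) : ℂ) * r 0, r 1, r 1 * κ * w s]) (by
      refine continuousOn_pi.mpr fun i => ?_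
      have := continuous_cr
      fin_cases i
      · simp only [Fin.zero_eta, Matrix.cons_val_zero]; fun_prop
      · simp only [Fin.mk_one, Matrix.cons_val_one]; fun_prop
      · simp only [Fin.reduceFinMk, Matrix.cons_val]; fun_prop) (by
      intro s hs
      refine ⟨fun h => ?_, ?_⟩
      · have := congrFun h 1
        simp at this
        exact h1 this
      · simp only [Matrix.cons_val_zero, Matrix.cons_val_one, Matrix.cons_val]
        rw [mul_pow, mul_pow, mul_pow, cr_cube' (by linarith [hs.2]), hκ3, hw3 s hs, ht]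
        push_cast
        field_simp
        ring) (a := 0) (b := 1) (by simp) (by simp)
  have e1 : (![(cr (1 - 0) : ℂ) * r 0, r 1, r 1 * κ * w 0] : Fin 3 → ℂ) = r := by
    funext i
    fin_cases i
    · simp [cr_one]
    · simp
    · simp only [Fin.reduceFinMk, Matrix.cons_val]
      rw [hκ]
      field_simp
  rw [e1] at h2
  refine h2.trans (special0 ?_ ?_)
  · obtain ⟨t, h3, _, _, h4⟩ := h2
    exact h3 h4
  · simp [cr_zero]

theorem all_joined {r : Fin 3 → ℂ} (h : r ∈ XX) : Cn r ![-1, 1, 0] := by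
  by_cases h1 : r 1 = 0
  · exact special1 h h1
  · by_cases hre : (-(r 0 ^ 3 / r 1 ^ 3)).re < 1
    · exact to_special h h1 hre
    · have h13 : r 1 ^ 3 ≠ 0 := pow_ne_zero 3 h1
      have hsum : (-(r 0 ^ 3 / r 1 ^ 3)) + (-(r 2 ^ 3 / r 1 ^ 3)) = 1 := by
        field_simp
        linear_combination -h.2
      have hre2 : (-(r 2 ^ 3 / r 1 ^ 3)).re < 1 := by
        have := congrArg Complex.re hsum
        rw [Complex.add_re, Complex.one_re] at this
        push Not at hre
        linarith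
      have h3 := to_special (mem_perm (Equiv.swap 0 2) h)
        (by simpa [Equiv.swap_apply_of_ne_of_ne] using h1)
        (by simpa [Equiv.swap_apply_of_ne_of_ne] using hre2)
      have h4 := h3.perm (Equiv.swap 0 2)
      have e1 : (r ∘ Equiv.swap (0 : Fin 3) 2) ∘ Equiv.swap (0 : Fin 3) 2 = r := by
        funext i; simp
      rw [e1] at h4
      refine h4.trans (special0 (mem_perm _ ?_) ?_)
      · refine ⟨fun h => ?_, ?_⟩
        · have := congrFun h 1
          simp at this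
        · simp
          norm_num
      · simp

end FermatConn

open FermatConn in
theorem isConnected_fermatCone :
    IsConnected {r : Fin 3 → ℂ | r ≠ 0 ∧ r 0 ^ 3 + r 1 ^ 3 + r 2 ^ 3 = 0} := by
  refine ⟨⟨![-1, 1, 0], fun h => ?_, ?_⟩, ?_⟩
  · have := congrFun h 1
    simp at this
  · simp
    norm_num
  · refine isPreconnected_of_forall ![-1, 1, 0] fun r hr => ?_
    obtain ⟨t, h1, h2, h3, h4⟩ := all_joined (r := r) hr
    exact ⟨t, h1, h4, h3, h2⟩

end Pool.Agent.Lib.MP_cc389e_ag
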