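import Pool.Agent.Lib.MP_cc389e_ag.SymF

/-!
Generation of the symmetric powers at general points.
-/

open scoped Manifold ContDiff Topology
open Set Filter

noncomputable section

namespace Pool.Agent.Lib.MP_cc389e_ag

/-- basis vectors -/
def eV (i : Fin 3) : V10 := (Pi.single i 1, 0, 0, 0)
/-- basis vectors -/
def eD : V10 := (0, 0, 0, 1)

lemma eta_expand (η : V10 →L[ℂ] ℂ) (w : V10) : η w =
    (w.1 0 * η (eV 0) + w.1 1 * η (eV 1) + w.1 2 * η (eV 2))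
    + (w.2.1 0 * η (eR 0) + w.2.1 1 * η (eR 1) + w.2.1 2 * η (eR 2))
    + (w.2.2.1 0 * η (eA 0) + w.2.2.1 1 * η (eA 1) + w.2.2.1 2 * η (eA 2))
    + w.2.2.2 * η eD := by
  have h : w = ((w.1 0 • eV 0 + w.1 1 • eV 1 + w.1 2 • eV 2)
    + (w.2.1 0 • eR 0 + w.2.1 1 • eR 1 + w.2.1 2 • eR 2)
    + (w.2.2.1 0 • eA 0 + w.2.2.1 1 • eA 1 + w.2.2.1 2 • eA 2))
    + w.2.2.2 • eD := by
    refine Prod.ext ?_ (Prod.ext ?_ (Prod.ext ?_ ?_))
    · funext i; fin_cases i <;> simp [eV, eR, eA, eD]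
    · funext i; fin_cases i <;> simp [eV, eR, eA, eD]
    · funext i; fin_cases i <;> simp [eV, eR, eA, eD]
    · simp [eV, eR, eA, eD]
  conv_lhs => rw [h]
  simp only [map_add, map_smul, smul_eq_mul]

/-- general points -/
def Gen (z : V10) : Prop :=
  z.1 0 ≠ 0 ∧ z.1 1 ≠ 0 ∧ z.1 2 ≠ 0 ∧ z.2.1 0 ≠ 0 ∧ z.2.1 1 ≠ 0 ∧ z.2.2.2 ≠ 0

lemma coord_kill {i : IX} {z : V10} (hO : z ∈ OX i) {γ : ℂ → V10} {w : V10}
    (h : HasDerivAt γ w 0) (h0 : γ 0 = z)
    (hc : ∀ᶠ τ in 𝓝 0, coordX i (γ τ) = coordX i z) : fderiv ℂ (coordX i) z w = 0 := by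
  have h1 : HasFDerivAt (coordX i) (fderiv ℂ (coordX i) z) z :=
    ((contDiffAt_coordX hO).differentiableAt (by simp)).hasFDerivAt
  rw [← h0] at h1
  have h2 := h1.comp_hasDerivAt 0 h
  rw [h0] at h2
  have h3 : HasDerivAt (coordX i ∘ γ) 0 0 :=
    (hasDerivAt_const (0 : ℂ) (coordX i z)).congr_of_eventuallyEq hc
  exact h2.unique h3

lemma hasDerivAt_scale (k : ℕ) (c : ℂ) : HasDerivAt (fun τ : ℂ => (1 + τ) ^ k * c) (k * c) 0 := by
  have h1 : HasDerivAt (fun τ : ℂ => 1 + τ) 1 0 := (hasDerivAt_id (0 : ℂ)).const_add 1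
  have h2 := (h1.fun_pow k).mul_const c
  refine h2.congr_deriv ?_
  simp

lemma eventually_ne_one_add : ∀ᶠ τ : ℂ in 𝓝 0, 1 + τ ≠ 0 := by
  have : ContinuousAt (fun τ : ℂ => 1 + τ) 0 := by fun_prop
  exact this.eventually_ne (by simp)

lemma kill_l {i : IX} {z : V10} (hO : z ∈ OX i) :
    fderiv ℂ (coordX i) z (z.1, 0, (3 : ℂ) • z.2.2.1, 0) = 0 := by
  apply coord_kill hO (γ := fun τ => ((1 + τ) • z.1, z.2.1, (1 + τ) ^ 3 • z.2.2.1, z.2.2.2))
  · refine HasDerivAt.prodMk ?_ (HasDerivAt.prodMk (hasDerivAt_const _ _)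
      (HasDerivAt.prodMk ?_ (hasDerivAt_const _ _)))
    · rw [hasDerivAt_pi]
      intro k
      have := hasDerivAt_scale 1 (z.1 k)
      simpa using this
    · rw [hasDerivAt_pi]
      intro k
      have := hasDerivAt_scale 3 (z.2.2.1 k)
      simpa using this
  · simp
  · filter_upwards [eventually_ne_one_add] with τ hτ
    have h := coordX_act hτ one_ne_zero one_ne_zero i z
    rw [← h]
    congr 1
    simp [actX]

lemma kill_m {i : IX} {z : V10} (hO : z ∈ OX i) :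
    fderiv ℂ (coordX i) z (0, z.2.1, z.2.2.1, 0) = 0 := by
  apply coord_kill hO (γ := fun τ => (z.1, (1 + τ) • z.2.1, (1 + τ) • z.2.2.1, z.2.2.2))
  · refine HasDerivAt.prodMk (hasDerivAt_const _ _) (HasDerivAt.prodMk ?_
      (HasDerivAt.prodMk ?_ (hasDerivAt_const _ _)))
    · rw [hasDerivAt_pi]
      intro k
      have := hasDerivAt_scale 1 (z.2.1 k)
      simpa using this
    · rw [hasDerivAt_pi]
      intro k
      have := hasDerivAt_scale 1 (z.2.2.1 k)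
      simpa using this
  · simp
  · filter_upwards [eventually_ne_one_add] with τ hτ
    have h := coordX_act one_ne_zero hτ one_ne_zero i z
    rw [← h]
    congr 1
    simp [actX]

lemma kill_n {i : IX} {z : V10} (hO : z ∈ OX i) :
    fderiv ℂ (coordX i) z (0, 0, z.2.2.1, z.2.2.2) = 0 := by
  apply coord_kill hO (γ := fun τ => (z.1, z.2.1, (1 + τ) • z.2.2.1, (1 + τ) * z.2.2.2))
  · refine HasDerivAt.prodMk (hasDerivAt_const _ _) (HasDerivAt.prodMk (hasDerivAt_const _ _)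
      (HasDerivAt.prodMk ?_ ?_))
    · rw [hasDerivAt_pi]
      intro k
      have := hasDerivAt_scale 1 (z.2.2.1 k)
      simpa using this
    · have := hasDerivAt_scale 1 (z.2.2.2)
      simpa using this
  · simp
  · filter_upwards [eventually_ne_one_add] with τ hτ
    have h := coordX_act one_ne_zero one_ne_zero hτ i z
    rw [← h]
    congr 1
    simp [actX]

lemma umb_dirac {c : ℕ → ℂ} (h : ∀ n, 0 < n → c n = 0) (p : Polynomial ℂ) :
    umb c p = c 0 * p.eval 0 := by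
  induction p using Polynomial.induction_on' with
  | add p q hp hq => rw [map_add, hp, hq, Polynomial.eval_add]; ring
  | monomial n a =>
    rw [umb_monomial, Polynomial.eval_monomial]
    rcases Nat.eq_zero_or_pos n with rfl | hn
    · simp [mul_comm]
    · rw [h n hn, zero_pow hn.ne']
      simp

lemma PP_dirac {c : ℕ → ℂ} (h : ∀ n, 0 < n → c n = 0) (q : ℕ → ℂ) (S D β : ℂ) (j : ℕ) :
    PP c q 0 S D β j = c 0 * q 0 * D ^ j := by
  unfold PP qpow
  rw [umb_dirac h, Polynomial.eval_finsetSum, Finset.sum_range_succ']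
  simp [mul_assoc]

section key

variable {c : ℕ → (Fin 3 → ℂ) → (Fin 3 → ℂ) → ℂ} {q1 q2 : ℕ → (Fin 3 → ℂ) → ℂ}

lemma Pj_special (hc : CData c) (hq : QData q1 q2) {z : V10} (h1 : z.2.1 1 ≠ 0)
    {η : V10 →L[ℂ] ℂ} {κ : ℂ} (hα : ∀ i, al η i = κ * z.1 i ^ 3)
    (hR : valR z η = valS z * (κ * (z.1 0 * z.1 1 * z.1 2) ^ 2)) (j : ℕ) :
    Pj c q1 q2 j z η = z.1 0 * z.2.1 0 *
      (valD1 z η + valB1 z * (κ * (z.1 0 * z.1 1 * z.1 2) ^ 2)) ^ j := by
  unfold Pj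
  rw [if_neg h1]
  unfold Pj1
  have hα' : al η = fun i => (0 : Fin 3 → ℂ) i + κ * z.1 i ^ 3 := by
    funext i
    rw [hα i]
    simp
  have h2 := PP_shift (c := fun n => c n z.1 0) (c' := fun n => c n z.1 (al η))
    (κ := κ * (z.1 0 * z.1 1 * z.1 2) ^ 2) (by
      intro n
      have := hc.shift n z.1 0 κ
      rw [← hα'] at this
      exact this) (fun n => q1 n z.2.1) 0 (valS z)
      (valD1 z η + valB1 z * (κ * (z.1 0 * z.1 1 * z.1 2) ^ 2)) (valB1 z) j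
  rw [zero_add, add_sub_cancel_right, ← hR] at h2
  rw [h2, PP_dirac, hc.zero, hq.zero1]
  intro n hn
  have := hc.hom n z.1 0 1 0
  rw [one_smul, zero_smul, zero_pow hn.ne'] at this
  simpa using this

/-- covectors on the tangent space of the quotient which are killed by the four fields -/
lemma special_of_kill {i : IX} {z : V10} (hz : z ∈ ZX) (hO : z ∈ OX i) (hG : Gen z)
    {ξ : (Fin 5 → ℂ) →L[ℂ] ℂ} {η : V10 →L[ℂ] ℂ} (hη : η = ξ.comp (fderiv ℂ (coordX i) z))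
    (h3 : η (fA1 z) = 0) (h4 : η (fA2 z) = 0) :
    (∀ k, al η k = (al η 0 / z.1 0 ^ 3) * z.1 k ^ 3) ∧
    valR z η = valS z * ((al η 0 / z.1 0 ^ 3) * (z.1 0 * z.1 1 * z.1 2) ^ 2) := by
  obtain ⟨g0, g1, g2, g3, g4, g5⟩ := hG
  have om : η (0, z.2.1, z.2.2.1, 0) = 0 := by
    rw [hη, ContinuousLinearMap.comp_apply, kill_m hO, map_zero]
  rw [eta_expand] at h3 h4 om
  simp only [fA1, fA2, Pi.zero_apply, zero_mul, zero_add, add_zero, Matrix.cons_val_zero,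
    Matrix.cons_val_one, Matrix.cons_val] at h3 h4 om
  have ka1 : al η 1 = (al η 0 / z.1 0 ^ 3) * z.1 1 ^ 3 := by
    unfold al
    field_simp
    have : (z.2.2.2 * z.2.1 1) * (η (eA 1) * z.1 0 ^ 3 - η (eA 0) * z.1 1 ^ 3) = 0 := by
      linear_combination h3
    have := (mul_eq_zero.1 this).resolve_left (mul_ne_zero g5 g4)
    linear_combination this
  have ka2 : al η 2 = (al η 0 / z.1 0 ^ 3) * z.1 2 ^ 3 := by
    have h5 : (z.2.2.2 * z.2.1 1) * (η (eA 2) * z.1 1 ^ 3 - η (eA 1) * z.1 2 ^ 3) = 0 := by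
      linear_combination h4
    have h6 := (mul_eq_zero.1 h5).resolve_left (mul_ne_zero g5 g4)
    have h7 : z.1 1 ^ 3 * (al η 2 - (al η 0 / z.1 0 ^ 3) * z.1 2 ^ 3) = 0 := by
      have : η (eA 1) = al η 1 := rfl
      rw [this, ka1] at h6
      have e : η (eA 2) = al η 2 := rfl
      rw [e] at h6
      linear_combination h6
    have := (mul_eq_zero.1 h7).resolve_left (pow_ne_zero _ g1)
    linear_combination this
  have ka : ∀ k, al η k = (al η 0 / z.1 0 ^ 3) * z.1 k ^ 3 := by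
    intro k
    fin_cases k
    · dsimp only [Fin.zero_eta]
      field_simp
    · exact ka1
    · exact ka2
  refine ⟨ka, ?_⟩
  have e0 : η (eA 0) = (al η 0 / z.1 0 ^ 3) * z.1 0 ^ 3 := ka 0
  have e1 : η (eA 1) = (al η 0 / z.1 0 ^ 3) * z.1 1 ^ 3 := ka 1
  have e2 : η (eA 2) = (al η 0 / z.1 0 ^ 3) * z.1 2 ^ 3 := ka 2
  rw [e0, e1, e2] at om
  have hΦ := hz.2.2.2
  unfold Phi at hΦ
  unfold valR valS rh
  linear_combination om - (al η 0 / z.1 0 ^ 3) * hΦ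

lemma isCurve_slice {i : IX} {u : Fin 5 → ℂ} (hu : u ∈ OmX i) (w : Fin 5 → ℂ) :
    IsCurve (sliceX i u) (fun τ => sliceX i (u + τ • w)) (fderiv ℂ (sliceX i) u w) := by
  have h1 : HasFDerivAt (sliceX i) (fderiv ℂ (sliceX i) u) (u + (0 : ℂ) • w) := by
    rw [zero_smul, add_zero]
    exact ((contDiffAt_sliceX hu).differentiableAt (by simp)).hasFDerivAt
  have h2 : HasDerivAt (fun τ : ℂ => u + τ • w) w 0 := by
    have : HasDerivAt (fun τ : ℂ => u + τ • w) ((1 : ℂ) • w) 0 :=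
      ((hasDerivAt_id (0 : ℂ)).smul_const w).const_add u
    rw [one_smul] at this
    exact this
  refine ⟨HasFDerivAt.comp_hasDerivAt (x := (0 : ℂ)) (l := sliceX i)
    (f := fun τ : ℂ => u + τ • w) h1 h2, by simp, ?_⟩
  exact Eventually.of_forall fun τ => sliceX_mem _ _

lemma fderiv_coord_slice {i : IX} {u : Fin 5 → ℂ} (hu : u ∈ OmX i) (w : Fin 5 → ℂ) :
    fderiv ℂ (coordX i) (sliceX i u) (fderiv ℂ (sliceX i) u w) = w := by
  have hO : sliceX i u ∈ OX i := atlX.σ_O i u hu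
  have h1 : HasFDerivAt (coordX i) (fderiv ℂ (coordX i) (sliceX i u)) (sliceX i u) :=
    ((contDiffAt_coordX hO).differentiableAt (by simp)).hasFDerivAt
  have h2 : HasFDerivAt (sliceX i) (fderiv ℂ (sliceX i) u) u :=
    ((contDiffAt_sliceX hu).differentiableAt (by simp)).hasFDerivAt
  have h3 := h1.comp u h2
  have h4 : (coordX i ∘ sliceX i) = id := funext fun u => coord_slice i u
  rw [h4] at h3
  have h5 := h3.unique (hasFDerivAt_id u)
  have := congrArg (fun L : (Fin 5 → ℂ) →L[ℂ] (Fin 5 → ℂ) => L w) h5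
  simpa using this

/-- joint injectivity -/
lemma inj_key {i : IX} {u : Fin 5 → ℂ} (hu : u ∈ OmX i) {z : V10} (hzu : z = sliceX i u)
    (hG : Gen z) {ξ : (Fin 5 → ℂ) →L[ℂ] ℂ} {η : V10 →L[ℂ] ℂ}
    (hη : η = ξ.comp (fderiv ℂ (coordX i) z))
    (h1 : η (fH1 z) = 0) (h2 : η (fH2 z) = 0) (h3 : η (fA1 z) = 0) (h4 : η (fA2 z) = 0)
    (h5 : valD1 z η + valB1 z * ((al η 0 / z.1 0 ^ 3) * (z.1 0 * z.1 1 * z.1 2) ^ 2) = 0) :
    ξ = 0 := by
  have hz : z ∈ ZX := by rw [hzu]; exact sliceX_mem i u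
  have hO : z ∈ OX i := by rw [hzu]; exact atlX.σ_O i u hu
  obtain ⟨ka, kR⟩ := special_of_kill hz hO hG hη h3 h4
  have om : η (0, z.2.1, z.2.2.1, 0) = 0 := by
    rw [hη, ContinuousLinearMap.comp_apply, kill_m hO, map_zero]
  have ol : η (z.1, 0, (3 : ℂ) • z.2.2.1, 0) = 0 := by
    rw [hη, ContinuousLinearMap.comp_apply, kill_l hO, map_zero]
  have on : η (0, 0, z.2.2.1, z.2.2.2) = 0 := by
    rw [hη, ContinuousLinearMap.comp_apply, kill_n hO, map_zero]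
  obtain ⟨g0, g1, g2, g3, g4, g5⟩ := hG
  set κ := al η 0 / z.1 0 ^ 3 with hκ
  set lam := (rh η 0 - κ * (z.2.2.2 * (z.1 0 * z.1 1 * z.1 2) ^ 2)) / z.2.1 0 ^ 2 with hlam
  have hΦ := hz.2.2.2
  have hC := hz.2.1.2
  unfold Phi at hΦ
  have hA : ∀ k, η (eA k) = κ * z.1 k ^ 3 := ka
  have hR0 : η (eR 0) = lam * z.2.1 0 ^ 2 + κ * (z.2.2.2 * (z.1 0 * z.1 1 * z.1 2) ^ 2) := by
    rw [hlam]
    have : η (eR 0) = rh η 0 := rfl
    rw [this]
    field_simp
    ring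
  have hR2 : η (eR 2) = lam * z.2.1 2 ^ 2 := by
    have e2 : η (eR 2) = rh η 2 := rfl
    have e0 : rh η 0 = lam * z.2.1 0 ^ 2 + κ * (z.2.2.2 * (z.1 0 * z.1 1 * z.1 2) ^ 2) := hR0
    unfold valD1 valB1 at h5
    rw [e0] at h5
    rw [e2]
    field_simp at h5
    have h6 : z.2.1 0 ^ 2 * (rh η 2 - lam * z.2.1 2 ^ 2) = 0 := by
      linear_combination h5
    have := (mul_eq_zero.1 h6).resolve_left (pow_ne_zero _ g3)
    linear_combination this
  have hR1 : η (eR 1) = lam * z.2.1 1 ^ 2 := by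
    have e1 : η (eR 1) = rh η 1 := rfl
    have e0 : rh η 0 = lam * z.2.1 0 ^ 2 + κ * (z.2.2.2 * (z.1 0 * z.1 1 * z.1 2) ^ 2) := hR0
    have e2 : rh η 2 = lam * z.2.1 2 ^ 2 := hR2
    unfold valR valS at kR
    rw [e0, e2] at kR
    rw [e1]
    have h6 : z.2.1 1 * (rh η 1 - lam * z.2.1 1 ^ 2) = 0 := by
      linear_combination kR - lam * hC
    have := (mul_eq_zero.1 h6).resolve_left g4
    linear_combination this
  rw [eta_expand] at h1 h2 ol on
  simp only [fH1, fH2, Pi.zero_apply, zero_mul, zero_add, add_zero, Matrix.cons_val_zero,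
    Matrix.cons_val_one, Matrix.cons_val, Pi.smul_apply, smul_eq_mul, hA] at h1 h2 ol on
  have hD : η eD = κ * (z.2.1 0 * (z.1 0 * z.1 1 * z.1 2) ^ 2) := by
    have h6 : z.2.2.2 * (η eD - κ * (z.2.1 0 * (z.1 0 * z.1 1 * z.1 2) ^ 2)) = 0 := by
      linear_combination on - κ * hΦ
    have := (mul_eq_zero.1 h6).resolve_left g5
    linear_combination this
  have hV0 : η (eV 0) = κ * (3 * z.2.2.1 0 * z.1 0 ^ 2 +
      z.2.2.2 * z.2.1 0 * (2 * (z.1 0 * z.1 1 * z.1 2) * (z.1 1 * z.1 2))) := by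
    have h6 : z.1 0 * (η (eV 0) - κ * (3 * z.2.2.1 0 * z.1 0 ^ 2 +
      z.2.2.2 * z.2.1 0 * (2 * (z.1 0 * z.1 1 * z.1 2) * (z.1 1 * z.1 2)))) = 0 := by
      linear_combination (ol + 2 * h1 + h2) / 3 - 2 * κ * hΦ
    have := (mul_eq_zero.1 h6).resolve_left g0
    linear_combination this
  have hV1 : η (eV 1) = κ * (3 * z.2.2.1 1 * z.1 1 ^ 2 +
      z.2.2.2 * z.2.1 0 * (2 * (z.1 0 * z.1 1 * z.1 2) * (z.1 0 * z.1 2))) := by
    have h6 : z.1 1 * (η (eV 1) - κ * (3 * z.2.2.1 1 * z.1 1 ^ 2 +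
      z.2.2.2 * z.2.1 0 * (2 * (z.1 0 * z.1 1 * z.1 2) * (z.1 0 * z.1 2)))) = 0 := by
      linear_combination (ol - h1 + h2) / 3 - 2 * κ * hΦ
    have := (mul_eq_zero.1 h6).resolve_left g1
    linear_combination this
  have hV2 : η (eV 2) = κ * (3 * z.2.2.1 2 * z.1 2 ^ 2 +
      z.2.2.2 * z.2.1 0 * (2 * (z.1 0 * z.1 1 * z.1 2) * (z.1 0 * z.1 1))) := by
    have h6 : z.1 2 * (η (eV 2) - κ * (3 * z.2.2.1 2 * z.1 2 ^ 2 +
      z.2.2.2 * z.2.1 0 * (2 * (z.1 0 * z.1 1 * z.1 2) * (z.1 0 * z.1 1)))) = 0 := by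
      linear_combination (ol - h1 - 2 * h2) / 3 - 2 * κ * hΦ
    have := (mul_eq_zero.1 h6).resolve_left g2
    linear_combination this
  have hall : ∀ w : V10, η w = lam * dF z w + κ * dPhi z w := by
    intro w
    rw [eta_expand, dF_apply, dPhi_apply, hV0, hV1, hV2, hR0, hR1, hR2, hA, hA, hA, hD]
    ring
  refine ContinuousLinearMap.ext fun w => ?_
  have hcu := isCurve_slice hu w
  have k1 := hcu.dF_eq
  have k2 := hcu.dPhi_eq
  have k3 := fderiv_coord_slice hu w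
  rw [← hzu] at k1 k2 k3
  have k4 := hall (fderiv ℂ (sliceX i) u w)
  rw [hη, ContinuousLinearMap.comp_apply, k3, k1, k2] at k4
  rw [k4]
  simp

end key

end Pool.Agent.Lib.MP_cc389e_ag
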