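import Pool.Agent.Lib.MP_cc389e_ag.RatC

/-!
The fibration of the total space over the Fermat cubic; its fibres are the classes of the
relation of being joined by a chain of rational curves.
-/

open scoped Manifold ContDiff Topology
open Set Filter

noncomputable section

namespace Pool.Agent.Lib.MP_cc389e_ag

/-- the fibration -/
def phiX (x : atlX.X) : atlC.X := atlC.pt (atlX.rep x).2.1

lemma ptX_eq {z w : V10} (hz : z ∈ ZX) (hw : w ∈ ZX) :
    atlX.pt z = atlX.pt w ↔ ∃ l m n : ℂ, l ≠ 0 ∧ m ≠ 0 ∧ n ≠ 0 ∧ actX l m n z = w := by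
  rw [atlX.pt_eq hz hw]
  exact relX_iff _ _

lemma ptX_act {z : V10} (hz : z ∈ ZX) {l m n : ℂ} (hl : l ≠ 0) (hm : m ≠ 0) (hn : n ≠ 0) :
    atlX.pt (actX l m n z) = atlX.pt z :=
  ((ptX_eq hz (act_mem hl hm hn hz)).2 ⟨l, m, n, hl, hm, hn, rfl⟩).symm

lemma ptC_eq {z w : Fin 3 → ℂ} (hz : z ∈ ZC) (hw : w ∈ ZC) :
    atlC.pt z = atlC.pt w ↔ ∃ m : ℂ, m ≠ 0 ∧ m • z = w := by
  rw [atlC.pt_eq hz hw]
  exact relC_iff _ _

lemma exists_act_rep {z : V10} (hz : z ∈ ZX) :
    ∃ l m n : ℂ, l ≠ 0 ∧ m ≠ 0 ∧ n ≠ 0 ∧ actX l m n (atlX.rep (atlX.pt z)) = z := by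
  rw [← ptX_eq (atlX.rep_mem _) hz, atlX.pt_rep]

lemma phiX_pt {z : V10} (hz : z ∈ ZX) : phiX (atlX.pt z) = atlC.pt z.2.1 := by
  obtain ⟨l, m, n, hl, hm, hn, h⟩ := exists_act_rep hz
  refine (ptC_eq (atlX.rep_mem (atlX.pt z)).2.1 hz.2.1).2 ⟨m, hm, ?_⟩
  exact congrArg (fun z : V10 => z.2.1) h

lemma contMDiff_phiX : ContMDiff 𝓘(ℂ, Fin 5 → ℂ) 𝓘(ℂ, Fin 1 → ℂ) ω phiX := by
  apply atlX.contMDiff_of_lift
  intro z hz
  obtain ⟨i, hi⟩ := atlC.cover ⟨z.2.1, hz.2.1⟩
  have hfst : ContDiffAt ℂ ω (fun z : V10 => z.2.1) z := by fun_prop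
  have hκ : ContDiffAt ℂ ω (fun z' : V10 => atlC.κ i z'.2.1) z := by
    have h1 : ContDiffAt ℂ ω (atlC.κ i) z.2.1 :=
      (atlC.κ_an i).contDiffAt ((atlC.isOpen_O i).mem_nhds hi)
    exact h1.comp z hfst
  have hσ : ContDiffAt ℂ ω (fun z' : V10 => atlC.σ i (atlC.κ i z'.2.1)) z := by
    have h1 : ContDiffAt ℂ ω (atlC.σ i) (atlC.κ i z.2.1) :=
      (atlC.σ_an i).contDiffAt ((atlC.isOpen_Ω i).mem_nhds (atlC.κ_Ω i ⟨_, hz.2.1⟩ hi))
    exact ContDiffAt.comp z (g := atlC.σ i) (f := fun z' : V10 => atlC.κ i z'.2.1) h1 hκ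
  refine ⟨fun z' => atlC.pt (atlC.σ i (atlC.κ i z'.2.1)), ?_, ?_⟩
  · exact atlC.contMDiffAt_pt hσ.contMDiffAt (Eventually.of_forall fun z' => atlC.σ_mem _ _)
  · have h2 : ∀ᶠ z' : V10 in 𝓝 z, z'.2.1 ∈ atlC.O i :=
      hfst.continuousAt.eventually ((atlC.isOpen_O i).mem_nhds hi)
    filter_upwards [h2] with z' h3 h4
    rw [phiX_pt h4, atlC.pt_σ_κ h4.2.1 h3]

/-- the base point in the fibre over `r` -/
def basept (r : Fin 3 → ℂ) : V10 := (![0, 0, 1], r, ![1, 0, 0], 0)

lemma basept_mem {r : Fin 3 → ℂ} (hr : r ∈ ZC) : basept r ∈ ZX := by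
  refine ⟨?_, hr, Or.inl ?_, ?_⟩
  · intro h
    simpa [basept] using congrFun h 2
  · intro h
    simpa [basept] using congrFun h 0
  · simp [Phi, basept]

lemma surjective_phiX : Function.Surjective phiX := by
  intro y
  refine ⟨atlX.pt (basept (atlC.rep y)), ?_⟩
  rw [phiX_pt (basept_mem (atlC.rep_mem y))]
  exact atlC.pt_rep y

/-- being on a common rational curve -/
def RC (x y : atlX.X) : Prop :=
  ∃ f g : ℂ → atlX.X, ContMDiff 𝓘(ℂ, ℂ) 𝓘(ℂ, Fin 5 → ℂ) ω f ∧
    ContMDiff 𝓘(ℂ, ℂ) 𝓘(ℂ, Fin 5 → ℂ) ω g ∧ (∀ t : ℂ, t ≠ 0 → g t = f t⁻¹) ∧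
    x ∈ Set.range f ∪ Set.range g ∧ y ∈ Set.range f ∪ Set.range g

lemma RC.symm {x y : atlX.X} (h : RC x y) : RC y x := by
  obtain ⟨f, g, hf, hg, hfg, hx, hy⟩ := h
  exact ⟨f, g, hf, hg, hfg, hy, hx⟩

lemma RC.refl (x : atlX.X) : RC x x :=
  ⟨fun _ => x, fun _ => x, contMDiff_const, contMDiff_const, fun _ _ => rfl,
    Or.inl ⟨0, rfl⟩, Or.inl ⟨0, rfl⟩⟩

lemma rc_of_curves {f g : ℂ → V10} (hf : ContDiff ℂ ω f) (hg : ContDiff ℂ ω g)
    (hfZ : ∀ t, f t ∈ ZX) (hgZ : ∀ t, g t ∈ ZX)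
    (h : ∀ t : ℂ, t ≠ 0 → ∃ l m n : ℂ, l ≠ 0 ∧ m ≠ 0 ∧ n ≠ 0 ∧ actX l m n (f t⁻¹) = g t) (s t : ℂ) :
    RC (atlX.pt (f s)) (atlX.pt (g t)) := by
  refine ⟨fun t => atlX.pt (f t), fun t => atlX.pt (g t), ?_, ?_, ?_, Or.inl ⟨s, rfl⟩,
    Or.inr ⟨t, rfl⟩⟩
  · intro t
    exact atlX.contMDiffAt_pt (hf.contDiffAt.contMDiffAt) (Eventually.of_forall hfZ)
  · intro t
    exact atlX.contMDiffAt_pt (hg.contDiffAt.contMDiffAt) (Eventually.of_forall hgZ)
  · intro t ht
    exact ((ptX_eq (hfZ _) (hgZ _)).2 (h t ht)).symm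

lemma Phi_add (v r : Fin 3 → ℂ) (a a' : Fin 3 → ℂ) (d d' x y : ℂ) :
    Phi (v, r, x • a + y • a', x * d + y * d') = x * Phi (v, r, a, d) + y * Phi (v, r, a', d') := by
  simp only [Phi, Pi.add_apply, Pi.smul_apply, smul_eq_mul]
  ring

/-- the fibre of the projective bundle is chain connected -/
lemma rc_fibre {v r a a' : Fin 3 → ℂ} {d d' : ℂ} (h : (v, r, a, d) ∈ ZX) (h' : (v, r, a', d') ∈ ZX) :
    RC (atlX.pt (v, r, a, d)) (atlX.pt (v, r, a', d')) := by
  by_cases hdep : ∃ t : ℂ, a + t • a' = 0 ∧ d + t * d' = 0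
  · obtain ⟨t, h1, h2⟩ := hdep
    have ht : t ≠ 0 := by
      rintro rfl
      simp only [zero_smul, add_zero, zero_mul] at h1 h2
      rcases h.2.2.1 with h3 | h3
      · exact h3 h1
      · exact h3 h2
    have : atlX.pt (v, r, a', d') = atlX.pt (v, r, a, d) := by
      rw [ptX_eq h' h]
      refine ⟨1, 1, -t, one_ne_zero, one_ne_zero, neg_ne_zero.2 ht, ?_⟩
      simp only [actX, one_smul, one_pow, mul_one]
      refine Prod.ext rfl (Prod.ext rfl (Prod.ext ?_ ?_))
      · dsimp only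
        rw [neg_smul]
        exact (eq_neg_of_add_eq_zero_left h1).symm
      · dsimp only
        linear_combination -h2
    rw [this]
    exact RC.refl _
  · have hdep' : ∀ t : ℂ, ¬ (t • a + a' = 0 ∧ t * d + d' = 0) := by
      rintro t ⟨h1, h2⟩
      by_cases ht : t = 0
      · rw [ht] at h1 h2
        simp only [zero_smul, zero_add, zero_mul] at h1 h2
        rcases h'.2.2.1 with h3 | h3
        · exact h3 h1
        · exact h3 h2
      · apply hdep
        refine ⟨t⁻¹, ?_, ?_⟩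
        · have : a + t⁻¹ • a' = t⁻¹ • (t • a + a') := by
            rw [smul_add, smul_smul, inv_mul_cancel₀ ht, one_smul]
          rw [this, h1, smul_zero]
        · field_simp
          linear_combination h2
    push Not at hdep
    set f : ℂ → V10 := fun t => (v, r, a + t • a', d + t * d') with hf
    set g : ℂ → V10 := fun t => (v, r, t • a + a', t * d + d') with hg
    have e1 : f 0 = (v, r, a, d) := by simp [hf]
    have e2 : g 0 = (v, r, a', d') := by simp [hg]
    rw [← e1, ← e2]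
    have hΦ := h.2.2.2
    have hΦ' := h'.2.2.2
    apply rc_of_curves
    · simp only [hf]; fun_prop
    · simp only [hg]; fun_prop
    · intro t
      refine ⟨h.1, h.2.1, ?_, ?_⟩
      · by_contra hcon
        push Not at hcon
        exact hdep t hcon.1 hcon.2
      · have := Phi_add v r a a' d d' 1 t
        rw [one_smul, one_mul, one_mul, hΦ, hΦ', mul_zero, add_zero] at this
        exact this
    · intro t
      refine ⟨h.1, h.2.1, ?_, ?_⟩
      · by_contra hcon
        push Not at hcon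
        exact hdep' t hcon
      · have := Phi_add v r a a' d d' t 1
        rw [one_smul, one_mul, one_mul, hΦ, hΦ', mul_zero, add_zero] at this
        exact this
    · intro t ht
      refine ⟨1, 1, t, one_ne_zero, one_ne_zero, ht, ?_⟩
      simp only [actX, hf, hg, one_smul, one_pow, mul_one]
      refine Prod.ext rfl (Prod.ext rfl (Prod.ext ?_ ?_))
      · dsimp only
        rw [smul_add, smul_smul, mul_inv_cancel₀ ht, one_smul]
      · dsimp only
        field_simp

lemma rc_move {v r : Fin 3 → ℂ} (hv : v 0 ≠ 0 ∨ v 1 ≠ 0) (hr : r ∈ ZC) :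
    RC (atlX.pt (v, r, ![-(v 1) ^ 3, v 0 ^ 3, 0], 0))
      (atlX.pt (![0, 0, 1], r, ![-(v 1) ^ 3, v 0 ^ 3, 0], 0)) := by
  set f : ℂ → V10 := fun t => (![v 0, v 1, t], r, ![-(v 1) ^ 3, v 0 ^ 3, 0], 0) with hf
  set g : ℂ → V10 := fun t => (![t * v 0, t * v 1, 1], r, ![-(v 1) ^ 3, v 0 ^ 3, 0], 0) with hg
  have e1 : f (v 2) = (v, r, ![-(v 1) ^ 3, v 0 ^ 3, 0], 0) := by
    simp only [hf]
    congr 1
    funext i
    fin_cases i <;> rfl
  have e2 : g 0 = (![0, 0, 1], r, ![-(v 1) ^ 3, v 0 ^ 3, 0], 0) := by simp [hg]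
  have hane : (![-(v 1) ^ 3, v 0 ^ 3, 0] : Fin 3 → ℂ) ≠ 0 := by
    intro h
    rcases hv with h0 | h0
    · have := congrFun h 1
      simp at this
      exact h0 this
    · have := congrFun h 0
      simp at this
      exact h0 this
  rw [← e1, ← e2]
  apply rc_of_curves
  · simp only [hf]
    apply ContDiff.prodMk
    · rw [contDiff_pi]
      intro i
      fin_cases i
      · exact contDiff_const
      · exact contDiff_const
      · exact contDiff_id
    · exact contDiff_const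
  · simp only [hg]
    apply ContDiff.prodMk
    · rw [contDiff_pi]
      intro i
      fin_cases i
      · exact contDiff_id.mul contDiff_const
      · exact contDiff_id.mul contDiff_const
      · exact contDiff_const
    · exact contDiff_const
  · intro t
    refine ⟨?_, hr, Or.inl hane, ?_⟩
    · intro h
      rcases hv with h0 | h0
      · exact h0 (by simpa [hf] using congrFun h 0)
      · exact h0 (by simpa [hf] using congrFun h 1)
    · simp [hf, Phi]
      ring
  · intro t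
    refine ⟨?_, hr, Or.inl hane, ?_⟩
    · intro h
      simpa [hg] using congrFun h 2
    · simp [hg, Phi]
      ring
  · intro t ht
    refine ⟨t, 1, (t⁻¹) ^ 3, ht, one_ne_zero, pow_ne_zero _ (inv_ne_zero ht), ?_⟩
    simp only [actX, hf, hg]
    refine Prod.ext ?_ (Prod.ext ?_ (Prod.ext ?_ ?_))
    · dsimp only
      funext i
      fin_cases i
      · simp
      · simp
      · simp [ht]
    · dsimp only
      rw [one_smul]
    · dsimp only
      have : (t⁻¹) ^ 3 * t ^ 3 * 1 = 1 := by field_simp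
      rw [this, one_smul]
    · dsimp only
      rw [mul_zero]

/-- every point is joined to the base point of its fibre -/
lemma chain_base {z : V10} (hz : z ∈ ZX) :
    Relation.ReflTransGen RC (atlX.pt z) (atlX.pt (basept z.2.1)) := by
  obtain ⟨v, r, a, d⟩ := z
  have hr : r ∈ ZC := hz.2.1
  by_cases hv : v 0 ≠ 0 ∨ v 1 ≠ 0
  · have hane : (![-(v 1) ^ 3, v 0 ^ 3, 0] : Fin 3 → ℂ) ≠ 0 := by
      intro h
      rcases hv with h0 | h0
      · have := congrFun h 1
        simp at this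
        exact h0 this
      · have := congrFun h 0
        simp at this
        exact h0 this
    have h1 : (v, r, ![-(v 1) ^ 3, v 0 ^ 3, 0], (0 : ℂ)) ∈ ZX := by
      refine ⟨hz.1, hr, Or.inl hane, ?_⟩
      simp [Phi]
      ring
    have h2 : (![0, 0, 1], r, ![-(v 1) ^ 3, v 0 ^ 3, 0], (0 : ℂ)) ∈ ZX := by
      refine ⟨?_, hr, Or.inl hane, ?_⟩
      · intro h
        simpa using congrFun h 2
      · simp [Phi]
    refine Relation.ReflTransGen.head (rc_fibre hz h1) ?_
    refine Relation.ReflTransGen.head (rc_move hv hr) ?_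
    exact Relation.ReflTransGen.single (rc_fibre h2 (basept_mem hr))
  · push Not at hv
    have h2 : v 2 ≠ 0 := by
      intro h
      apply hz.1
      funext i
      fin_cases i
      · exact hv.1
      · exact hv.2
      · exact h
    have h3 := act_mem (inv_ne_zero h2) one_ne_zero one_ne_zero hz
    rw [← ptX_act hz (inv_ne_zero h2) one_ne_zero one_ne_zero]
    have h4 : actX (v 2)⁻¹ 1 1 (v, r, a, d) = (![0, 0, 1], r, (1 * (v 2)⁻¹ ^ 3 * 1) • a, 1 * d) := by
      simp only [actX]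
      refine Prod.ext ?_ (Prod.ext ?_ rfl)
      · dsimp only
        funext i
        fin_cases i
        · simp [hv.1]
        · simp [hv.2]
        · simp [h2]
      · dsimp only
        rw [one_smul]
    rw [h4] at h3 ⊢
    exact Relation.ReflTransGen.single (rc_fibre h3 (basept_mem hr))

lemma pt_basept_smul {r : Fin 3 → ℂ} (hr : r ∈ ZC) {m : ℂ} (hm : m ≠ 0) :
    atlX.pt (basept (m • r)) = atlX.pt (basept r) := by
  rw [← ptX_act (basept_mem hr) one_ne_zero hm (inv_ne_zero hm)]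
  congr 1
  simp only [actX, basept]
  refine Prod.ext ?_ (Prod.ext ?_ (Prod.ext ?_ ?_))
  · dsimp only
    rw [one_smul]
  · rfl
  · dsimp only
    have : m⁻¹ * 1 ^ 3 * m = 1 := by field_simp
    rw [this, one_smul]
  · dsimp only
    rw [mul_zero]

lemma chain_symm {x y : atlX.X} (h : Relation.ReflTransGen RC x y) :
    Relation.ReflTransGen RC y x := by
  induction h with
  | refl => exact Relation.ReflTransGen.refl
  | tail _ h2 ih => exact Relation.ReflTransGen.head h2.symm ih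

lemma phi_eq_of_rc {x y : atlX.X} (h : RC x y) : phiX x = phiX y := by
  obtain ⟨f, g, hf, hg, hfg, hx, hy⟩ := h
  have hf' : ContMDiff 𝓘(ℂ, ℂ) 𝓘(ℂ, Fin 1 → ℂ) ω (fun t => phiX (f t)) :=
    contMDiff_phiX.comp hf
  have hg' : ContMDiff 𝓘(ℂ, ℂ) 𝓘(ℂ, Fin 1 → ℂ) ω (fun t => phiX (g t)) :=
    contMDiff_phiX.comp hg
  have hfg' : ∀ t : ℂ, t ≠ 0 → phiX (g t) = phiX (f t⁻¹) := fun t ht => by rw [hfg t ht]
  have hmem : ∀ z ∈ Set.range f ∪ Set.range g,
      phiX z ∈ range (fun t => phiX (f t)) ∪ range (fun t => phiX (g t)) := by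
    rintro z (⟨t, rfl⟩ | ⟨t, rfl⟩)
    · exact Or.inl ⟨t, rfl⟩
    · exact Or.inr ⟨t, rfl⟩
  exact rational_const hf' hg' hfg' (hmem x hx) (hmem y hy)

theorem phi_eq_iff (x y : atlX.X) : phiX x = phiX y ↔ Relation.ReflTransGen RC x y := by
  constructor
  · intro h
    have hx := chain_base (atlX.rep_mem x)
    have hy := chain_base (atlX.rep_mem y)
    rw [atlX.pt_rep] at hx hy
    have h1 : atlC.pt (atlX.rep x).2.1 = atlC.pt (atlX.rep y).2.1 := h
    obtain ⟨m, hm, h2⟩ := (ptC_eq (atlX.rep_mem x).2.1 (atlX.rep_mem y).2.1).1 h1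
    rw [← h2, pt_basept_smul (atlX.rep_mem x).2.1 hm] at hy
    exact hx.trans (chain_symm hy)
  · intro h
    induction h with
    | refl => rfl
    | tail _ h2 ih => exact ih.trans (phi_eq_of_rc h2)

lemma component_of_rc {x y : atlX.X} (h : RC x y) : connectedComponent x = connectedComponent y := by
  obtain ⟨f, g, hf, hg, hfg, hx, hy⟩ := h
  have h1 : IsPreconnected (range f ∪ range g) := by
    apply IsPreconnected.union (f 1)
    · exact ⟨1, rfl⟩
    · exact ⟨1, by rw [hfg 1 one_ne_zero, inv_one]⟩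
    · exact isPreconnected_range hf.continuous
    · exact isPreconnected_range hg.continuous
  exact connectedComponent_eq (h1.subset_connectedComponent hx hy)

lemma component_of_chain {x y : atlX.X} (h : Relation.ReflTransGen RC x y) :
    connectedComponent x = connectedComponent y := by
  induction h with
  | refl => rfl
  | tail _ h2 ih => exact ih.trans (component_of_rc h2)

lemma connectedSpace_C (hC : IsConnected ZC) : ConnectedSpace atlC.X := by
  have h1 : IsConnected (atlC.pt '' ZC) := hC.image _ atlC.continuousOn_pt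
  have h2 : atlC.pt '' ZC = univ := by
    apply eq_univ_of_forall
    intro x
    obtain ⟨z, hz, h⟩ := atlC.pt_surj x
    exact ⟨z, hz, h⟩
  rw [h2] at h1
  exact connectedSpace_iff_univ.2 h1

lemma connectedSpace_X (hC : IsConnected ZC) : ConnectedSpace atlX.X := by
  obtain ⟨r0, hr0⟩ := hC.nonempty
  have h1 : IsPreconnected ((fun r => atlX.pt (basept r)) '' ZC) := by
    apply hC.isPreconnected.image
    apply atlX.continuousOn_pt.comp
    · unfold basept
      fun_prop
    · intro r hr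
      exact basept_mem hr
  have h2 : ∀ x : atlX.X, connectedComponent x = connectedComponent (atlX.pt (basept r0)) := by
    intro x
    have hx := component_of_chain (chain_base (atlX.rep_mem x))
    rw [atlX.pt_rep] at hx
    rw [hx]
    apply connectedComponent_eq
    apply h1.subset_connectedComponent
    · exact ⟨_, (atlX.rep_mem x).2.1, rfl⟩
    · exact ⟨_, hr0, rfl⟩
  rw [connectedSpace_iff_connectedComponent]
  refine ⟨atlX.pt (basept r0), ?_⟩
  apply eq_univ_of_forall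
  intro x
  rw [← h2 x]
  exact mem_connectedComponent

end Pool.Agent.Lib.MP_cc389e_ag
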