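import Mathlib

/-!
Task D of the disproof of MP_cc389e_ag: a cocycle that does not split.
-/

open scoped ContDiff
open Filter Topology

namespace Pool.Agent.Lib.MP_cc389e_ag

/-- The partial derivative in the second variable. -/
noncomputable def dz (A : ℂ × ℂ → ℂ) (p : ℂ × ℂ) : ℂ := fderiv ℂ A p (0, 1)

lemma contDiff_dz {A : ℂ × ℂ → ℂ} (hA : ContDiff ℂ ω A) : ContDiff ℂ ω (dz A) := by
  unfold dz
  have h1 : ContDiff ℂ ω (fderiv ℂ A) := hA.fderiv_right (m := ω) (by simp)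
  exact h1.clm_apply contDiff_const

lemma hasDerivAt_dz {A : ℂ × ℂ → ℂ} (hA : ContDiff ℂ ω A) (x z : ℂ) :
    HasDerivAt (fun z => A (x, z)) (dz A (x, z)) z := by
  have h1 : HasFDerivAt A (fderiv ℂ A (x, z)) (x, z) :=
    (hA.differentiable (by simp)).differentiableAt.hasFDerivAt
  have h2 : HasDerivAt (fun z : ℂ => (x, z)) ((0 : ℂ), (1 : ℂ)) z :=
    (hasDerivAt_const z x).prodMk (hasDerivAt_id z)
  exact h1.comp_hasDerivAt z h2

theorem no_splitting (a b c : ℂ → ℂ → ℂ)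
    (ha : ContDiff ℂ ω (fun p : ℂ × ℂ => a p.1 p.2)) (hb : ContDiff ℂ ω (fun p : ℂ × ℂ => b p.1 p.2))
    (hc : ContDiff ℂ ω (fun p : ℂ × ℂ => c p.1 p.2))
    (h : ∀ x z : ℂ, x ≠ 0 → a x z + b x⁻¹ (z * x⁻¹) + z ^ 3 * c x⁻¹ (z * x⁻¹) + z ^ 2 * x⁻¹ = 0) :
    False := by
  set A : ℂ × ℂ → ℂ := fun p => a p.1 p.2 with hA
  set B : ℂ × ℂ → ℂ := fun p => b p.1 p.2 with hB
  set C : ℂ × ℂ → ℂ := fun p => c p.1 p.2 with hC
  have hA1 := contDiff_dz ha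
  have hB1 := contDiff_dz hb
  have hC1 := contDiff_dz hc
  have hA2 := contDiff_dz hA1
  have hB2 := contDiff_dz hB1
  -- first derivative
  have key1 : ∀ x z : ℂ, x ≠ 0 → dz A (x, z) + x⁻¹ * dz B (x⁻¹, z * x⁻¹) +
      (3 * z ^ 2 * C (x⁻¹, z * x⁻¹) + z ^ 3 * (x⁻¹ * dz C (x⁻¹, z * x⁻¹))) + 2 * z * x⁻¹ = 0 := by
    intro x z hx
    have hlin : HasDerivAt (fun z : ℂ => z * x⁻¹) (x⁻¹) z := by
      simpa using (hasDerivAt_id z).mul_const x⁻¹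
    have d1 := hasDerivAt_dz ha x z
    have d2 : HasDerivAt (fun z => B (x⁻¹, z * x⁻¹)) (dz B (x⁻¹, z * x⁻¹) * x⁻¹) z :=
      HasDerivAt.comp (h₂ := fun w => B (x⁻¹, w)) z (hasDerivAt_dz hb x⁻¹ (z * x⁻¹)) hlin
    have d3 : HasDerivAt (fun z => C (x⁻¹, z * x⁻¹)) (dz C (x⁻¹, z * x⁻¹) * x⁻¹) z :=
      HasDerivAt.comp (h₂ := fun w => C (x⁻¹, w)) z (hasDerivAt_dz hc x⁻¹ (z * x⁻¹)) hlin
    have d4 : HasDerivAt (fun z : ℂ => z ^ 3) (3 * z ^ 2) z := by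
      simpa using hasDerivAt_pow 3 z
    have d5 : HasDerivAt (fun z : ℂ => z ^ 2 * x⁻¹) (2 * z * x⁻¹) z := by
      simpa using (hasDerivAt_pow 2 z).mul_const x⁻¹
    have d6 := ((d1.add d2).add (d4.mul d3)).add d5
    have h0 : HasDerivAt (fun _ : ℂ => (0 : ℂ)) 0 z := hasDerivAt_const z 0
    have h7 : (fun z : ℂ => A (x, z) + B (x⁻¹, z * x⁻¹) + z ^ 3 * C (x⁻¹, z * x⁻¹) + z ^ 2 * x⁻¹) =
        fun _ => 0 := by
      funext z
      exact h x z hx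
    have h8 := d6.unique (by
      have : HasDerivAt (fun z : ℂ => A (x, z) + B (x⁻¹, z * x⁻¹) + z ^ 3 * C (x⁻¹, z * x⁻¹) +
        z ^ 2 * x⁻¹) 0 z := by rw [h7]; exact h0
      exact this)
    rw [← h8]; ring
  -- second derivative at `0`
  have key2 : ∀ x : ℂ, x ≠ 0 → dz (dz A) (x, 0) + x⁻¹ * (x⁻¹ * dz (dz B) (x⁻¹, 0)) +
      2 * x⁻¹ = 0 := by
    intro x hx
    have hlin : HasDerivAt (fun z : ℂ => z * x⁻¹) (x⁻¹) 0 := by
      simpa using (hasDerivAt_id (0 : ℂ)).mul_const x⁻¹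
    have d1 := hasDerivAt_dz hA1 x 0
    have d2 : HasDerivAt (fun z => dz B (x⁻¹, z * x⁻¹)) (dz (dz B) (x⁻¹, 0 * x⁻¹) * x⁻¹) 0 :=
      HasDerivAt.comp (h₂ := fun w => dz B (x⁻¹, w)) 0 (hasDerivAt_dz hB1 x⁻¹ (0 * x⁻¹)) hlin
    have d3 : HasDerivAt (fun z => C (x⁻¹, z * x⁻¹)) (dz C (x⁻¹, 0 * x⁻¹) * x⁻¹) 0 :=
      HasDerivAt.comp (h₂ := fun w => C (x⁻¹, w)) 0 (hasDerivAt_dz hc x⁻¹ (0 * x⁻¹)) hlin
    have d3' : HasDerivAt (fun z => dz C (x⁻¹, z * x⁻¹)) (dz (dz C) (x⁻¹, 0 * x⁻¹) * x⁻¹) 0 :=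
      HasDerivAt.comp (h₂ := fun w => dz C (x⁻¹, w)) 0 (hasDerivAt_dz hC1 x⁻¹ (0 * x⁻¹)) hlin
    have d4 : HasDerivAt (fun z : ℂ => z ^ 3) (3 * 0 ^ 2) (0 : ℂ) := by
      simpa using hasDerivAt_pow 3 (0 : ℂ)
    have d4' : HasDerivAt (fun z : ℂ => 3 * z ^ 2) (3 * (2 * 0)) (0 : ℂ) := by
      simpa using (hasDerivAt_pow 2 (0 : ℂ)).const_mul 3
    have d5 : HasDerivAt (fun z : ℂ => 2 * z * x⁻¹) (2 * x⁻¹) 0 := by
      simpa using ((hasDerivAt_id (0 : ℂ)).const_mul 2).mul_const x⁻¹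
    have d6 := ((d1.add (d2.const_mul x⁻¹)).add ((d4'.mul d3).add
      (d4.mul (d3'.const_mul x⁻¹)))).add d5
    have h7 : (fun z : ℂ => dz A (x, z) + x⁻¹ * dz B (x⁻¹, z * x⁻¹) +
      (3 * z ^ 2 * C (x⁻¹, z * x⁻¹) + z ^ 3 * (x⁻¹ * dz C (x⁻¹, z * x⁻¹))) + 2 * z * x⁻¹) =
        fun _ => 0 := by
      funext z
      exact key1 x z hx
    have h8 := d6.unique (by
      have : HasDerivAt (fun z : ℂ => dz A (x, z) + x⁻¹ * dz B (x⁻¹, z * x⁻¹) +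
      (3 * z ^ 2 * C (x⁻¹, z * x⁻¹) + z ^ 3 * (x⁻¹ * dz C (x⁻¹, z * x⁻¹))) + 2 * z * x⁻¹) 0 0 := by
        rw [h7]; exact hasDerivAt_const 0 0
      exact this)
    rw [zero_mul] at h8
    linear_combination h8
  -- Liouville
  set α : ℂ → ℂ := fun x => dz (dz A) (x, 0) with hα
  set β : ℂ → ℂ := fun x => dz (dz B) (x, 0) with hβ
  have hαd : Differentiable ℂ α :=
    (hA2.differentiable (by simp)).comp (differentiable_id.prodMk (differentiable_const 0))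
  have hβd : Differentiable ℂ β :=
    (hB2.differentiable (by simp)).comp (differentiable_id.prodMk (differentiable_const 0))
  have hg : Differentiable ℂ (fun x => x * α x) := differentiable_id.mul hαd
  have hinv : Tendsto (fun x : ℂ => x⁻¹) (cocompact ℂ) (𝓝 0) := by
    rw [← Metric.cobounded_eq_cocompact]
    exact Filter.tendsto_inv₀_cobounded
  have ht : Tendsto (fun x : ℂ => x * α x) (cocompact ℂ) (𝓝 (-2)) := by
    have h1 : Tendsto (fun x : ℂ => -(x⁻¹ * β x⁻¹) - 2) (cocompact ℂ) (𝓝 (-(0 * β 0) - 2)) :=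
      ((hinv.mul ((hβd.continuous.tendsto 0).comp hinv)).neg).sub tendsto_const_nhds
    rw [zero_mul, neg_zero, zero_sub] at h1
    refine h1.congr' ?_
    have h2 : ∀ᶠ x : ℂ in cocompact ℂ, x ≠ 0 := by
      have := (isCompact_singleton (x := (0 : ℂ))).compl_mem_cocompact
      filter_upwards [this] with x hx
      simpa using hx
    filter_upwards [h2] with x hx
    have h3 := key2 x hx
    have h4 : α x = -(x⁻¹ * (x⁻¹ * β x⁻¹)) - 2 * x⁻¹ := by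
      have h5 : α x + x⁻¹ * (x⁻¹ * β x⁻¹) + 2 * x⁻¹ = 0 := h3
      linear_combination h5
    rw [h4]
    field_simp
  have h5 := hg.apply_eq_of_tendsto_cocompact 0 ht
  simp at h5

end Pool.Agent.Lib.MP_cc389e_ag
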