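import Pool.Agent.Lib.MP_cc389e_ag.SecOf
import Pool.Agent.Lib.MP_cc389e_ag.TorusLemma

/-!
The fibration is not locally trivial.
-/

open scoped Manifold ContDiff Topology
open Set Filter

noncomputable section

namespace Pool.Agent.Lib.MP_cc389e_ag

/-- functions on the quotient from invariant functions -/
lemma inv_rep {G : V10 → ℂ} (hinv : ∀ l m n : ℂ, l ≠ 0 → m ≠ 0 → n ≠ 0 → ∀ z, G (actX l m n z) = G z)
    {z : V10} (hz : z ∈ ZX) : G (atlX.rep (atlX.pt z)) = G z := by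
  obtain ⟨l, m, n, hl, hm, hn, h⟩ := exists_act_rep hz
  rw [← hinv l m n hl hm hn (atlX.rep (atlX.pt z)), h]

lemma inv_contMDiffAt {G : V10 → ℂ}
    (hinv : ∀ l m n : ℂ, l ≠ 0 → m ≠ 0 → n ≠ 0 → ∀ z, G (actX l m n z) = G z)
    {z : V10} (hz : z ∈ ZX) (hG : ContDiffAt ℂ ω G z) :
    ContMDiffAt 𝓘(ℂ, Fin 5 → ℂ) 𝓘(ℂ, ℂ) ω (fun x => G (atlX.rep x)) (atlX.pt z) := by
  apply atlX.contMDiffAt_of_lift
  intro z' hz' hpt
  refine ⟨G, ?_, Eventually.of_forall fun w hw => inv_rep hinv hw⟩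
  obtain ⟨l, m, n, hl, hm, hn, h⟩ := (ptX_eq hz' hz).1 hpt
  have h1 : G = fun w => G (actL l m n w) := by
    funext w
    rw [actL_apply, hinv l m n hl hm hn]
  rw [h1]
  apply ContDiffAt.contMDiffAt
  apply ContDiffAt.comp z' (g := G) (f := fun w => actL l m n w)
  · rw [actL_apply, h]
    exact hG
  · exact (actL l m n).contDiff.contDiffAt

lemma isOpen_inv {P : V10 → Prop} (hopen : IsOpen {z | P z})
    (hinv : ∀ l m n : ℂ, l ≠ 0 → m ≠ 0 → n ≠ 0 → ∀ z, P z → P (actX l m n z)) :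
    IsOpen {x : atlX.X | P (atlX.rep x)} := by
  have h2 : {x : atlX.X | P (atlX.rep x)} = atlX.cls '' (Subtype.val ⁻¹' {z : V10 | P z}) := by
    ext x
    constructor
    · intro hx
      refine ⟨⟨atlX.rep x, atlX.rep_mem x⟩, hx, ?_⟩
      rw [← atlX.pt_of_mem (atlX.rep_mem x), atlX.pt_rep]
    · rintro ⟨z, hz, rfl⟩
      rw [← atlX.pt_of_mem z.2]
      obtain ⟨l, m, n, hl, hm, hn, h⟩ := exists_act_rep z.2
      have h3 : actX l⁻¹ m⁻¹ n⁻¹ z.1 = atlX.rep (atlX.pt z.1) := by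
        conv_lhs => rw [← h]
        rw [act_act, inv_mul_cancel₀ hl, inv_mul_cancel₀ hm, inv_mul_cancel₀ hn, act_one]
      change P (atlX.rep (atlX.pt z.1))
      rw [← h3]
      exact hinv _ _ _ (inv_ne_zero hl) (inv_ne_zero hm) (inv_ne_zero hn) _ hz
  rw [h2]
  exact atlX.isOpenMap_cls _ (hopen.preimage continuous_subtype_val)

/-- local parametrisation of the cubic near the flex `[0 : 1 : -1]` -/
def cvec (u : ℂ) : Fin 3 → ℂ := ![u, 1, -cbrt (1 + u ^ 3)]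

lemma cvec_mem (u : ℂ) : cvec u ∈ ZC := by
  refine ⟨?_, ?_⟩
  · intro h
    have := congrFun h 1
    simp [cvec] at this
  · simp only [cvec, Matrix.cons_val_zero, Matrix.cons_val_one, Matrix.cons_val]
    rw [neg_pow, cbrt_pow]
    ring

lemma contDiffAt_cvec : ContDiffAt ℂ ω cvec 0 := by
  rw [contDiffAt_pi]
  intro i
  fin_cases i
  · exact contDiffAt_id
  · exact contDiffAt_const
  · have h1 : ContDiffAt ℂ ω (fun u : ℂ => 1 + u ^ 3) 0 := by fun_prop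
    have h2 : ContDiffAt ℂ ω cbrt ((fun u : ℂ => 1 + u ^ 3) 0) := by
      apply contDiffAt_cbrt
      simp
    exact (ContDiffAt.comp (0 : ℂ) (g := cbrt) (f := fun u : ℂ => 1 + u ^ 3) h2 h1).neg

/-- the special section over the flex -/
def svec (v : Fin 3 → ℂ) : V10 := (v, cvec 0, 0, 1)

lemma svec_mem {v : Fin 3 → ℂ} (hv : v ≠ 0) : svec v ∈ ZX := by
  refine ⟨hv, cvec_mem 0, Or.inr one_ne_zero, ?_⟩
  simp [Phi, svec, cvec]

/-- derivative in the last variable -/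
lemma contDiff_deriv_last {g : ℂ × ℂ × ℂ → ℂ} (hg : ∀ x z, ContDiffAt ℂ ω g (x, z, 0)) :
    ContDiff ℂ ω (fun p : ℂ × ℂ => deriv (fun u => g (p.1, p.2, u)) 0) := by
  rw [contDiff_iff_contDiffAt]
  rintro ⟨x, z⟩
  have h1 : ∀ x z, deriv (fun u => g (x, z, u)) 0 = fderiv ℂ g (x, z, 0) (0, 0, 1) := by
    intro x z
    have h2 : HasFDerivAt g (fderiv ℂ g (x, z, 0)) (x, z, 0) :=
      ((hg x z).differentiableAt (by simp)).hasFDerivAt
    have h3 : HasDerivAt (fun u : ℂ => (x, z, u)) (0, 0, 1) 0 :=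
      (hasDerivAt_const _ _).prodMk ((hasDerivAt_const _ _).prodMk (hasDerivAt_id _))
    exact (HasFDerivAt.comp_hasDerivAt (x := (0 : ℂ)) (l := g) (f := fun u : ℂ => (x, z, u)) h2 h3).deriv
  simp only [h1]
  have h4 : ContDiffAt ℂ ω (fderiv ℂ g) (x, z, 0) := (hg x z).fderiv_right (by simp)
  have h5 : ContDiffAt ℂ ω (fun p : ℂ × ℂ => ((p.1, p.2, 0) : ℂ × ℂ × ℂ)) (x, z) := by fun_prop
  have h6 : ContDiffAt ℂ ω (fun p : ℂ × ℂ => fderiv ℂ g (p.1, p.2, 0)) (x, z) :=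
    ContDiffAt.comp (x, z) (g := fderiv ℂ g) (f := fun p : ℂ × ℂ => ((p.1, p.2, 0) : ℂ × ℂ × ℂ)) h4 h5
  exact h6.clm_apply contDiffAt_const

/-- a local section of the fibration, along the parametrisation of the cubic -/
def bpt (u : ℂ) : atlX.X := atlX.pt (basept (cvec u))

lemma phi_bpt (u : ℂ) : phiX (bpt u) = atlC.pt (cvec u) := phiX_pt (basept_mem (cvec_mem u))

lemma contMDiffAt_bpt : ContMDiffAt 𝓘(ℂ, ℂ) 𝓘(ℂ, Fin 5 → ℂ) ω bpt 0 := by
  apply atlX.contMDiffAt_pt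
  · apply ContDiffAt.contMDiffAt
    unfold basept
    exact contDiffAt_const.prodMk (contDiffAt_cvec.prodMk contDiffAt_const)
  · exact Eventually.of_forall fun u => basept_mem (cvec_mem u)

section triv

variable {F D : Type} [NormedAddCommGroup D] [NormedSpace ℂ D] [TopologicalSpace F]
  [ChartedSpace D F] {E' Y : Type} [NormedAddCommGroup E'] [NormedSpace ℂ E'] [TopologicalSpace Y]
  [ChartedSpace E' Y] {ψ : atlX.X → Y} (t : Bundle.Trivialization F ψ)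

/-- transport along the trivialisation -/
def tran (x : atlX.X) (u : ℂ) : atlX.X :=
  t.toOpenPartialHomeomorph.symm (ψ (bpt u), (t x).2)

variable {t}

lemma tran_zero {x : atlX.X} (hx : ψ x = ψ (bpt 0)) (hp : ψ (bpt 0) ∈ t.baseSet) :
    tran t x 0 = x := by
  unfold tran
  rw [← hx]
  exact t.symm_apply_mk_proj (t.mem_source.2 (by rw [hx]; exact hp))

lemma phi_tran {x : atlX.X} {u : ℂ} (hu : ψ (bpt u) ∈ t.baseSet) :
    ψ (tran t x u) = ψ (bpt u) := by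
  unfold tran
  exact t.proj_symm_apply (t.mem_target.2 hu)

lemma contMDiffAt_ptc (hψ : ContMDiff 𝓘(ℂ, Fin 5 → ℂ) 𝓘(ℂ, E') ω ψ) :
    ContMDiffAt 𝓘(ℂ, ℂ) 𝓘(ℂ, E') ω (fun u => ψ (bpt u)) 0 :=
  ContMDiffAt.comp (0 : ℂ) (g := ψ) (f := bpt) (hψ (bpt 0)) contMDiffAt_bpt

lemma eventually_base (hψ : ContMDiff 𝓘(ℂ, Fin 5 → ℂ) 𝓘(ℂ, E') ω ψ)
    (hp : ψ (bpt 0) ∈ t.baseSet) : ∀ᶠ u in 𝓝 (0 : ℂ), ψ (bpt u) ∈ t.baseSet :=
  (contMDiffAt_ptc hψ).continuousAt (t.open_baseSet.mem_nhds hp)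

lemma contMDiffAt_tran {E : Type*} [NormedAddCommGroup E] [NormedSpace ℂ E]
    (hψ : ContMDiff 𝓘(ℂ, Fin 5 → ℂ) 𝓘(ℂ, E') ω ψ)
    (hp : ψ (bpt 0) ∈ t.baseSet)
    (h1 : ContMDiffOn 𝓘(ℂ, Fin 5 → ℂ) (𝓘(ℂ, E').prod 𝓘(ℂ, D)) ω
      t.toOpenPartialHomeomorph t.source)
    (h2 : ContMDiffOn (𝓘(ℂ, E').prod 𝓘(ℂ, D)) 𝓘(ℂ, Fin 5 → ℂ) ω
      t.toOpenPartialHomeomorph.symm t.target)
    {f : E → atlX.X} {e : E → ℂ} {p : E}
    (hf : ContMDiffAt 𝓘(ℂ, E) 𝓘(ℂ, Fin 5 → ℂ) ω f p) (he : ContDiffAt ℂ ω e p) (he0 : e p = 0)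
    (hx : ψ (f p) = ψ (bpt 0)) :
    ContMDiffAt 𝓘(ℂ, E) 𝓘(ℂ, Fin 5 → ℂ) ω (fun q => tran t (f q) (e q)) p := by
  have hs : f p ∈ t.source := t.mem_source.2 (by rw [hx]; exact hp)
  have k1 : ContMDiffAt 𝓘(ℂ, Fin 5 → ℂ) (𝓘(ℂ, E').prod 𝓘(ℂ, D)) ω
      t.toOpenPartialHomeomorph (f p) := h1.contMDiffAt (t.open_source.mem_nhds hs)
  have k2 : ContMDiffAt 𝓘(ℂ, E) (𝓘(ℂ, E').prod 𝓘(ℂ, D)) ω
      (fun q => t.toOpenPartialHomeomorph (f q)) p :=
    ContMDiffAt.comp p (g := t.toOpenPartialHomeomorph) (f := f) k1 hf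
  have k3 : ContMDiffAt 𝓘(ℂ, E) 𝓘(ℂ, D) ω
      (fun q => (t.toOpenPartialHomeomorph (f q)).2) p := k2.snd
  have k4 : ContMDiffAt 𝓘(ℂ, E) 𝓘(ℂ, E') ω (fun q => ψ (bpt (e q))) p := by
    have := contMDiffAt_ptc hψ
    rw [← he0] at this
    exact ContMDiffAt.comp p (g := fun u => ψ (bpt u)) (f := e) this he.contMDiffAt
  have k5 := k4.prodMk k3
  have htar : (ψ (bpt (e p)), (t.toOpenPartialHomeomorph (f p)).2) ∈ t.target := by
    rw [t.mem_target, he0]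
    exact hp
  have k6 := h2.contMDiffAt (t.open_target.mem_nhds htar)
  exact ContMDiffAt.comp p (g := t.toOpenPartialHomeomorph.symm)
    (f := fun q => (ψ (bpt (e q)), (t.toOpenPartialHomeomorph (f q)).2)) k6 k5

/-- invariant coordinate functions -/
def gA (z : V10) : ℂ := z.2.2.1 0 / (z.2.2.2 * z.2.1 1 * z.1 1 ^ 3)
/-- invariant coordinate functions -/
def gB (z : V10) : ℂ := z.2.2.1 1 / (z.2.2.2 * z.2.1 1 * z.1 0 ^ 3)
/-- invariant coordinate functions -/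
def gC (z : V10) : ℂ := z.2.2.1 2 / (z.2.2.2 * z.2.1 1 * z.1 0 ^ 3)
/-- invariant coordinate functions -/
def gV (z : V10) : ℂ := z.1 2 ^ 3 / z.1 1 ^ 3
/-- invariant coordinate functions -/
def gW (z : V10) : ℂ := z.1 2 ^ 2 / (z.1 0 * z.1 1)

lemma gA_inv (l m n : ℂ) (hl : l ≠ 0) (hm : m ≠ 0) (hn : n ≠ 0) (z : V10) :
    gA (actX l m n z) = gA z := by
  simp only [gA, actX, Pi.smul_apply, smul_eq_mul]
  rw [show n * z.2.2.2 * (m * z.2.1 1) * (l * z.1 1) ^ 3 =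
    (n * l ^ 3 * m) * (z.2.2.2 * z.2.1 1 * z.1 1 ^ 3) by ring]
  exact mul_div_mul_left _ _ (mul_ne_zero (mul_ne_zero hn (pow_ne_zero _ hl)) hm)

lemma gB_inv (l m n : ℂ) (hl : l ≠ 0) (hm : m ≠ 0) (hn : n ≠ 0) (z : V10) :
    gB (actX l m n z) = gB z := by
  simp only [gB, actX, Pi.smul_apply, smul_eq_mul]
  rw [show n * z.2.2.2 * (m * z.2.1 1) * (l * z.1 0) ^ 3 =
    (n * l ^ 3 * m) * (z.2.2.2 * z.2.1 1 * z.1 0 ^ 3) by ring]
  exact mul_div_mul_left _ _ (mul_ne_zero (mul_ne_zero hn (pow_ne_zero _ hl)) hm)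

lemma gC_inv (l m n : ℂ) (hl : l ≠ 0) (hm : m ≠ 0) (hn : n ≠ 0) (z : V10) :
    gC (actX l m n z) = gC z := by
  simp only [gC, actX, Pi.smul_apply, smul_eq_mul]
  rw [show n * z.2.2.2 * (m * z.2.1 1) * (l * z.1 0) ^ 3 =
    (n * l ^ 3 * m) * (z.2.2.2 * z.2.1 1 * z.1 0 ^ 3) by ring]
  exact mul_div_mul_left _ _ (mul_ne_zero (mul_ne_zero hn (pow_ne_zero _ hl)) hm)

lemma gV_inv (l m n : ℂ) (hl : l ≠ 0) (_hm : m ≠ 0) (_hn : n ≠ 0) (z : V10) :
    gV (actX l m n z) = gV z := by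
  simp only [gV, actX, Pi.smul_apply, smul_eq_mul, mul_pow]
  exact mul_div_mul_left _ _ (pow_ne_zero _ hl)

lemma gW_inv (l m n : ℂ) (hl : l ≠ 0) (_hm : m ≠ 0) (_hn : n ≠ 0) (z : V10) :
    gW (actX l m n z) = gW z := by
  simp only [gW, actX, Pi.smul_apply, smul_eq_mul, mul_pow]
  rw [show l * z.1 0 * (l * z.1 1) = l ^ 2 * (z.1 0 * z.1 1) by ring]
  exact mul_div_mul_left _ _ (pow_ne_zero _ hl)

lemma cvec_zero_one : cvec 0 1 = 1 := by simp [cvec]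

theorem not_trivial (hψ : ContMDiff 𝓘(ℂ, Fin 5 → ℂ) 𝓘(ℂ, E') ω ψ)
    (hfib : ∀ x y, ψ x = ψ y ↔ phiX x = phiX y)
    (hp : ψ (bpt 0) ∈ t.baseSet)
    (h1 : ContMDiffOn 𝓘(ℂ, Fin 5 → ℂ) (𝓘(ℂ, E').prod 𝓘(ℂ, D)) ω
      t.toOpenPartialHomeomorph t.source)
    (h2 : ContMDiffOn (𝓘(ℂ, E').prod 𝓘(ℂ, D)) 𝓘(ℂ, Fin 5 → ℂ) ω
      t.toOpenPartialHomeomorph.symm t.target) : False := by
  set S1 : ℂ → ℂ → Fin 3 → ℂ := fun x z => ![x, 1, z] with hS1
  set S2 : ℂ → ℂ → Fin 3 → ℂ := fun y w => ![1, y, w] with hS2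
  have hS1n : ∀ x z, S1 x z ≠ 0 := fun x z h => by
    have := congrFun h 1
    simp [hS1] at this
  have hS2n : ∀ x z, S2 x z ≠ 0 := fun x z h => by
    have := congrFun h 0
    simp [hS2] at this
  have phS : ∀ v, v ≠ 0 → ψ (atlX.pt (svec v)) = ψ (bpt 0) := fun v hv => by
    rw [hfib, phi_bpt]
    exact phiX_pt (svec_mem hv)
  -- joint holomorphy
  have hol : ∀ (S : ℂ → ℂ → Fin 3 → ℂ), (ContDiff ℂ ω fun p : ℂ × ℂ × ℂ => S p.1 p.2.1) →
      (∀ x z, S x z ≠ 0) → ∀ x z, ContMDiffAt 𝓘(ℂ, ℂ × ℂ × ℂ) 𝓘(ℂ, Fin 5 → ℂ) ω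
        (fun p : ℂ × ℂ × ℂ => tran t (atlX.pt (svec (S p.1 p.2.1))) p.2.2) (x, z, 0) := by
    intro S hS hSn x z
    apply contMDiffAt_tran hψ hp h1 h2 (f := fun p : ℂ × ℂ × ℂ => atlX.pt (svec (S p.1 p.2.1)))
      (e := fun p : ℂ × ℂ × ℂ => p.2.2)
    · apply atlX.contMDiffAt_pt
      · apply ContDiffAt.contMDiffAt
        unfold svec
        exact (hS.prodMk contDiff_const).contDiffAt
      · exact Eventually.of_forall fun p => svec_mem (hSn _ _)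
    · fun_prop
    · rfl
    · exact phS _ (hSn _ _)
  have hS1c : ContDiff ℂ ω fun p : ℂ × ℂ × ℂ => S1 p.1 p.2.1 := by
    rw [contDiff_pi]
    intro i
    fin_cases i
    · exact contDiff_fst
    · exact contDiff_const
    · exact contDiff_fst.comp contDiff_snd
  have hS2c : ContDiff ℂ ω fun p : ℂ × ℂ × ℂ => S2 p.1 p.2.1 := by
    rw [contDiff_pi]
    intro i
    fin_cases i
    · exact contDiff_const
    · exact contDiff_fst
    · exact contDiff_fst.comp contDiff_snd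
  have tr0 : ∀ v, v ≠ 0 → tran t (atlX.pt (svec v)) 0 = atlX.pt (svec v) := fun v hv =>
    tran_zero (phS v hv) hp
  -- composition with invariant functions
  have comp : ∀ (S : ℂ → ℂ → Fin 3 → ℂ), (ContDiff ℂ ω fun p : ℂ × ℂ × ℂ => S p.1 p.2.1) →
      (∀ x z, S x z ≠ 0) → ∀ G : V10 → ℂ,
      (∀ l m n : ℂ, l ≠ 0 → m ≠ 0 → n ≠ 0 → ∀ z, G (actX l m n z) = G z) → ∀ x z,
      ContDiffAt ℂ ω G (svec (S x z)) → ContDiffAt ℂ ω (fun p : ℂ × ℂ × ℂ =>
        G (atlX.rep (tran t (atlX.pt (svec (S p.1 p.2.1))) p.2.2))) (x, z, 0) := by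
    intro S hS hSn G hG x z hGd
    have k1 := inv_contMDiffAt hG (svec_mem (hSn x z)) hGd
    have k2 := hol S hS hSn x z
    rw [← tr0 _ (hSn x z)] at k1
    exact (ContMDiffAt.comp (x, z, (0 : ℂ)) (g := fun x => G (atlX.rep x))
      (f := fun p : ℂ × ℂ × ℂ => tran t (atlX.pt (svec (S p.1 p.2.1))) p.2.2) k1 k2).contDiffAt
  have dA : ∀ x z, ContDiffAt ℂ ω gA (svec (S1 x z)) := by
    intro x z
    unfold gA
    apply ContDiffAt.div (by fun_prop) (by fun_prop)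
    simp [svec, hS1, cvec_zero_one]
  have dB : ∀ x z, ContDiffAt ℂ ω gB (svec (S2 x z)) := by
    intro x z
    unfold gB
    apply ContDiffAt.div (by fun_prop) (by fun_prop)
    simp [svec, hS2, cvec_zero_one]
  have dC : ∀ x z, ContDiffAt ℂ ω gC (svec (S2 x z)) := by
    intro x z
    unfold gC
    apply ContDiffAt.div (by fun_prop) (by fun_prop)
    simp [svec, hS2, cvec_zero_one]
  have cA := comp S1 hS1c hS1n gA gA_inv
  have cB := comp S2 hS2c hS2n gB gB_inv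
  have cC := comp S2 hS2c hS2n gC gC_inv
  set fA : ℂ × ℂ × ℂ → ℂ := fun p => gA (atlX.rep (tran t (atlX.pt (svec (S1 p.1 p.2.1))) p.2.2))
    with hfA
  set fB : ℂ × ℂ × ℂ → ℂ := fun p => gB (atlX.rep (tran t (atlX.pt (svec (S2 p.1 p.2.1))) p.2.2))
    with hfB
  set fC : ℂ × ℂ × ℂ → ℂ := fun p => gC (atlX.rep (tran t (atlX.pt (svec (S2 p.1 p.2.1))) p.2.2))
    with hfC
  refine no_splitting (fun x z => deriv (fun u => fA (x, z, u)) 0)
    (fun y w => deriv (fun u => fB (y, w, u)) 0) (fun y w => deriv (fun u => fC (y, w, u)) 0)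
    (contDiff_deriv_last fun x z => cA x z (dA x z))
    (contDiff_deriv_last fun x z => cB x z (dB x z))
    (contDiff_deriv_last fun x z => cC x z (dC x z)) ?_
  intro x z hx
  -- the two descriptions of the same curve
  have hsame : atlX.pt (svec (S2 x⁻¹ (z * x⁻¹))) = atlX.pt (svec (S1 x z)) := by
    rw [← ptX_act (svec_mem (hS1n x z)) (inv_ne_zero hx) one_ne_zero one_ne_zero]
    congr 1
    simp only [svec, actX]
    refine Prod.ext ?_ (Prod.ext ?_ (Prod.ext ?_ ?_))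
    · funext i
      fin_cases i
      · simp [hS1, hS2, hx]
      · simp [hS1, hS2]
      · simp [hS1, hS2, mul_comm]
    · simp
    · simp
    · simp
  set h : ℂ → atlX.X := fun u => tran t (atlX.pt (svec (S1 x z))) u with hh
  have hv1 : S1 x z ≠ 0 := hS1n x z
  have h0 : h 0 = atlX.pt (svec (S1 x z)) := tr0 _ hv1
  have hcurve : ContMDiffAt 𝓘(ℂ, ℂ) 𝓘(ℂ, Fin 5 → ℂ) ω h 0 := by
    apply contMDiffAt_tran hψ hp h1 h2 (f := fun _ : ℂ => atlX.pt (svec (S1 x z))) (e := fun u => u)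
    · exact contMDiffAt_const
    · fun_prop
    · rfl
    · exact phS _ hv1
  have hdiff : ∀ G : V10 → ℂ,
      (∀ l m n : ℂ, l ≠ 0 → m ≠ 0 → n ≠ 0 → ∀ z, G (actX l m n z) = G z) →
      ContDiffAt ℂ ω G (svec (S1 x z)) → HasDerivAt (fun u => G (atlX.rep (h u)))
        (deriv (fun u => G (atlX.rep (h u))) 0) 0 := by
    intro G hG hGd
    have k1 := inv_contMDiffAt hG (svec_mem hv1) hGd
    rw [← h0] at k1
    have k2 := (ContMDiffAt.comp (0 : ℂ) (g := fun x => G (atlX.rep x)) (f := h) k1 hcurve).contDiffAt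
    exact (k2.differentiableAt (by simp)).hasDerivAt
  have vA := hdiff gA gA_inv (dA x z)
  have vB := hdiff gB gB_inv (by
    unfold gB
    apply ContDiffAt.div (by fun_prop) (by fun_prop)
    simp [svec, hS1, cvec_zero_one, hx])
  have vC := hdiff gC gC_inv (by
    unfold gC
    apply ContDiffAt.div (by fun_prop) (by fun_prop)
    simp [svec, hS1, cvec_zero_one, hx])
  have vV := hdiff gV gV_inv (by
    unfold gV
    apply ContDiffAt.div (by fun_prop) (by fun_prop)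
    simp [svec, hS1])
  have vW := hdiff gW gW_inv (by
    unfold gW
    apply ContDiffAt.div (by fun_prop) (by fun_prop)
    simp [svec, hS1, hx])
  have eA : deriv (fun u => fA (x, z, u)) 0 = deriv (fun u => gA (atlX.rep (h u))) 0 := rfl
  have eB : deriv (fun u => fB (x⁻¹, z * x⁻¹, u)) 0 = deriv (fun u => gB (atlX.rep (h u))) 0 := by
    simp only [hfB, hsame, hh]
  have eC : deriv (fun u => fC (x⁻¹, z * x⁻¹, u)) 0 = deriv (fun u => gC (atlX.rep (h u))) 0 := by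
    simp only [hfC, hsame, hh]
  rw [eA, eB, eC]
  -- values at zero
  have val : ∀ G : V10 → ℂ,
      (∀ l m n : ℂ, l ≠ 0 → m ≠ 0 → n ≠ 0 → ∀ z, G (actX l m n z) = G z) →
      G (atlX.rep (h 0)) = G (svec (S1 x z)) := by
    intro G hG
    rw [h0, inv_rep hG (svec_mem hv1)]
  have val0 : gC (atlX.rep (h 0)) = 0 := by
    rw [val gC gC_inv]
    simp [gC, svec]
  have valV : gV (atlX.rep (h 0)) = z ^ 3 := by
    rw [val gV gV_inv]
    simp [gV, svec, hS1]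
  have valW : gW (atlX.rep (h 0)) = z ^ 2 * x⁻¹ := by
    rw [val gW gW_inv]
    simp [gW, svec, hS1]
    ring
  -- the relation
  have hopen : IsOpen {x : atlX.X | (fun w : V10 => w.1 0 ≠ 0 ∧ w.1 1 ≠ 0 ∧ w.2.2.2 ≠ 0)
      (atlX.rep x)} := by
    apply isOpen_inv (P := fun w : V10 => w.1 0 ≠ 0 ∧ w.1 1 ≠ 0 ∧ w.2.2.2 ≠ 0)
    · have e0 : IsOpen {z : V10 | z.1 0 ≠ 0} := isOpen_ne_fun (by fun_prop) (by fun_prop)
      have e1 : IsOpen {z : V10 | z.1 1 ≠ 0} := isOpen_ne_fun (by fun_prop) (by fun_prop)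
      have e5 : IsOpen {z : V10 | z.2.2.2 ≠ 0} := isOpen_ne_fun (by fun_prop) (by fun_prop)
      exact e0.inter (e1.inter e5)
    · rintro l m n hl hm hn w ⟨k1, k2, k3⟩
      refine ⟨?_, ?_, ?_⟩ <;> simp only [actX, Pi.smul_apply, smul_eq_mul] <;>
        apply mul_ne_zero <;> assumption
  have hev : ∀ᶠ u in 𝓝 (0 : ℂ), (atlX.rep (h u)).1 0 ≠ 0 ∧ (atlX.rep (h u)).1 1 ≠ 0 ∧
      (atlX.rep (h u)).2.2.2 ≠ 0 := by
    apply hcurve.continuousAt (hopen.mem_nhds _)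
    obtain ⟨l, m, n, hl, hm, hn, hact⟩ := exists_act_rep (svec_mem hv1)
    rw [← h0] at hact
    have a0 := congrArg (fun w : V10 => w.1 0) hact
    have a1 := congrArg (fun w : V10 => w.1 1) hact
    have a2 := congrArg (fun w : V10 => w.2.2.2) hact
    simp only [actX, svec, hS1, Pi.smul_apply, smul_eq_mul, Matrix.cons_val_zero,
      Matrix.cons_val_one] at a0 a1 a2
    refine ⟨?_, ?_, ?_⟩
    · intro h
      rw [h, mul_zero] at a0
      exact hx a0.symm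
    · intro h
      rw [h, mul_zero] at a1
      exact one_ne_zero a1.symm
    · intro h
      rw [h, mul_zero] at a2
      exact one_ne_zero a2.symm
  have hrel : (fun u => gA (atlX.rep (h u)) + gB (atlX.rep (h u)) +
      gC (atlX.rep (h u)) * gV (atlX.rep (h u)) + u * gW (atlX.rep (h u))) =ᶠ[𝓝 0] fun _ => 0 := by
    filter_upwards [hev, eventually_base hψ hp] with u k1 k2
    obtain ⟨k3, k4, k5⟩ := k1
    have k6 : phiX (h u) = atlC.pt (cvec u) := by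
      rw [← phi_bpt, ← hfib]
      exact phi_tran k2
    obtain ⟨m, hm, k7⟩ := (ptC_eq (atlX.rep_mem (h u)).2.1 (cvec_mem u)).1 k6
    have k8 := congrFun k7 0
    have k9 := congrFun k7 1
    simp only [cvec, Pi.smul_apply, smul_eq_mul, Matrix.cons_val_zero, Matrix.cons_val_one] at k8 k9
    have kΦ := (atlX.rep_mem (h u)).2.2.2
    set w := atlX.rep (h u) with hw
    have kr : w.2.1 1 ≠ 0 := by
      intro h
      rw [h, mul_zero] at k9
      exact one_ne_zero k9.symm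
    have ku : u = w.2.1 0 / w.2.1 1 := by
      rw [← k8]
      have : m = 1 / w.2.1 1 := by
        field_simp
        exact k9
      rw [this]
      ring
    rw [ku]
    unfold gA gB gC gV gW
    unfold Phi at kΦ
    field_simp
    linear_combination kΦ
  have hd := ((vA.fun_add vB).fun_add (vC.fun_mul vV)).fun_add ((hasDerivAt_id (0 : ℂ)).fun_mul vW)
  have hd0 := hd.unique ((hasDerivAt_const (0 : ℂ) (0 : ℂ)).congr_of_eventuallyEq hrel)
  simp only [val0, valV, valW, id] at hd0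
  linear_combination hd0

end triv

end Pool.Agent.Lib.MP_cc389e_ag
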