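import Mathlib

/-!
Task B of the disproof of MP_cc389e_ag: a Čech splitting on the Fermat cubic.
-/

open scoped ContDiff

namespace Pool.Agent.Lib.MP_cc389e_ag

namespace QSeq

/-- Laurent monomials. -/
noncomputable def mon (e : ℕ) (i j : ℤ) : (Fin 3 → ℂ) → ℂ :=
  fun r => r 0 ^ e * (r 1 ^ i * r 2 ^ j)

def S1 : Set ((Fin 3 → ℂ) → ℂ) := {f | ∃ (e : ℕ) (i j : ℤ), 0 ≤ j ∧ (e : ℤ) + i + j = 1 ∧ f = mon e i j}

def S2 : Set ((Fin 3 → ℂ) → ℂ) := {f | ∃ (e : ℕ) (i j : ℤ), 0 ≤ i ∧ (e : ℤ) + i + j = 1 ∧ f = mon e i j}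

def SL : Set ((Fin 3 → ℂ) → ℂ) := {f | ∃ (e : ℕ) (i j : ℤ), (e : ℤ) + i + j = 1 ∧ f = mon e i j}

lemma contDiffAt_zpow_coord (k : Fin 3) (i : ℤ) (r : Fin 3 → ℂ) (h : 0 ≤ i ∨ r k ≠ 0) :
    ContDiffAt ℂ ω (fun r : Fin 3 → ℂ => r k ^ i) r := by
  have hk : ContDiffAt ℂ ω (fun r : Fin 3 → ℂ => r k) r := (contDiff_apply ℂ ℂ k).contDiffAt
  rcases le_or_gt 0 i with hi | hi
  · obtain ⟨n, rfl⟩ := Int.eq_ofNat_of_zero_le hi
    simp only [zpow_natCast]
    exact hk.pow n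
  · obtain ⟨n, hn⟩ := Int.eq_ofNat_of_zero_le (show 0 ≤ -i by omega)
    have e1 : i = -(n : ℤ) := by omega
    subst e1
    have hk0 : r k ≠ 0 := by
      rcases h with h | h
      · omega
      · exact h
    simp only [zpow_neg, zpow_natCast]
    exact (hk.pow n).inv (pow_ne_zero n hk0)

lemma contDiffAt_mon (e : ℕ) (i j : ℤ) (r : Fin 3 → ℂ) (h1 : 0 ≤ i ∨ r 1 ≠ 0)
    (h2 : 0 ≤ j ∨ r 2 ≠ 0) : ContDiffAt ℂ ω (mon e i j) r := by
  unfold mon
  exact ((contDiff_apply ℂ ℂ (0 : Fin 3)).contDiffAt.pow e).mul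
    ((contDiffAt_zpow_coord 1 i r h1).mul (contDiffAt_zpow_coord 2 j r h2))

lemma hom_mon (e : ℕ) (i j : ℤ) (h : (e : ℤ) + i + j = 1) (a : ℂ) (ha : a ≠ 0) (r : Fin 3 → ℂ) :
    mon e i j (a • r) = a * mon e i j r := by
  unfold mon
  simp only [Pi.smul_apply, smul_eq_mul]
  rw [mul_pow, mul_zpow, mul_zpow]
  have h1 : a ^ e * (a ^ i * a ^ j) = a := by
    rw [← zpow_natCast, ← zpow_add₀ ha, ← zpow_add₀ ha, ← add_assoc, h, zpow_one]
  calc a ^ e * r 0 ^ e * (a ^ i * r 1 ^ i * (a ^ j * r 2 ^ j)) =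
      (a ^ e * (a ^ i * a ^ j)) * (r 0 ^ e * (r 1 ^ i * r 2 ^ j)) := by ring
    _ = _ := by rw [h1]

lemma contDiffAt_span1 {f : (Fin 3 → ℂ) → ℂ} (hf : f ∈ Submodule.span ℂ S1) (r : Fin 3 → ℂ)
    (hr : r 1 ≠ 0) : ContDiffAt ℂ ω f r := by
  induction hf using Submodule.span_induction with
  | mem f hf =>
    obtain ⟨e, i, j, h1, h2, rfl⟩ := hf
    exact contDiffAt_mon e i j r (Or.inr hr) (Or.inl h1)
  | zero => exact contDiffAt_const
  | add f g _ _ hf hg => exact hf.add hg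
  | smul c f _ hf => exact contDiffAt_const.smul hf

lemma contDiffAt_span2 {f : (Fin 3 → ℂ) → ℂ} (hf : f ∈ Submodule.span ℂ S2) (r : Fin 3 → ℂ)
    (hr : r 2 ≠ 0) : ContDiffAt ℂ ω f r := by
  induction hf using Submodule.span_induction with
  | mem f hf =>
    obtain ⟨e, i, j, h1, h2, rfl⟩ := hf
    exact contDiffAt_mon e i j r (Or.inl h1) (Or.inr hr)
  | zero => exact contDiffAt_const
  | add f g _ _ hf hg => exact hf.add hg
  | smul c f _ hf => exact contDiffAt_const.smul hf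

lemma hom_spanL {f : (Fin 3 → ℂ) → ℂ} (hf : f ∈ Submodule.span ℂ SL) (a : ℂ) (ha : a ≠ 0)
    (r : Fin 3 → ℂ) : f (a • r) = a * f r := by
  induction hf using Submodule.span_induction with
  | mem f hf =>
    obtain ⟨e, i, j, h2, rfl⟩ := hf
    exact hom_mon e i j h2 a ha r
  | zero => simp
  | add f g _ _ hf hg => simp only [Pi.add_apply]; rw [hf, hg]; ring
  | smul c f _ hf => simp only [Pi.smul_apply, smul_eq_mul]; rw [hf]; ring

lemma S1_sub : S1 ⊆ SL := by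
  rintro f ⟨e, i, j, _, h, rfl⟩; exact ⟨e, i, j, h, rfl⟩

lemma S2_sub : S2 ⊆ SL := by
  rintro f ⟨e, i, j, _, h, rfl⟩; exact ⟨e, i, j, h, rfl⟩

/-- The domain where the splitting is required. -/
def Dom (r : Fin 3 → ℂ) : Prop := r 0 ^ 3 + r 1 ^ 3 + r 2 ^ 3 = 0 ∧ r 1 ≠ 0 ∧ r 2 ≠ 0

def Splits (f : (Fin 3 → ℂ) → ℂ) : Prop :=
  ∃ g1 ∈ Submodule.span ℂ S1, ∃ g2 ∈ Submodule.span ℂ S2, ∀ r, Dom r → f r = g2 r - g1 r

lemma Splits.add {f g : (Fin 3 → ℂ) → ℂ} (hf : Splits f) (hg : Splits g) : Splits (f + g) := by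
  obtain ⟨f1, h1, f2, h2, h⟩ := hf
  obtain ⟨g1, h1', g2, h2', h'⟩ := hg
  refine ⟨f1 + g1, Submodule.add_mem _ h1 h1', f2 + g2, Submodule.add_mem _ h2 h2', fun r hr => ?_⟩
  simp only [Pi.add_apply]
  rw [h r hr, h' r hr]; ring

lemma Splits.smul {f : (Fin 3 → ℂ) → ℂ} (c : ℂ) (hf : Splits f) : Splits (c • f) := by
  obtain ⟨f1, h1, f2, h2, h⟩ := hf
  refine ⟨c • f1, Submodule.smul_mem _ _ h1, c • f2, Submodule.smul_mem _ _ h2, fun r hr => ?_⟩
  simp only [Pi.smul_apply, smul_eq_mul]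
  rw [h r hr]; ring

lemma Splits.congr {f g : (Fin 3 → ℂ) → ℂ} (hf : Splits f) (h : ∀ r, Dom r → g r = f r) :
    Splits g := by
  obtain ⟨f1, h1, f2, h2, h'⟩ := hf
  exact ⟨f1, h1, f2, h2, fun r hr => (h r hr).trans (h' r hr)⟩

lemma splits_mon (e : ℕ) : ∀ i j : ℤ, (e : ℤ) + i + j = 1 → Splits (mon e i j) := by
  induction e using Nat.strong_induction_on with
  | _ e ih =>
    intro i j h
    rcases Nat.lt_or_ge e 3 with he | he
    · rcases le_or_gt 0 i with hi | hi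
      · exact ⟨0, Submodule.zero_mem _, mon e i j, Submodule.subset_span ⟨e, i, j, hi, h, rfl⟩,
          fun r _ => by simp⟩
      · have hj : 0 ≤ j := by omega
        exact ⟨-mon e i j, Submodule.neg_mem _ (Submodule.subset_span ⟨e, i, j, hj, h, rfl⟩), 0,
          Submodule.zero_mem _, fun r _ => by simp⟩
    · obtain ⟨d, rfl⟩ := Nat.exists_eq_add_of_le he
      have h1 := ih d (by omega) (i + 3) j (by push_cast at h; omega)
      have h2 := ih d (by omega) i (j + 3) (by push_cast at h; omega)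
      refine ((h1.smul (-1)).add (h2.smul (-1))).congr ?_
      intro r hr
      obtain ⟨h0, hr1, hr2⟩ := hr
      unfold mon
      simp only [Pi.add_apply, Pi.smul_apply, smul_eq_mul]
      rw [zpow_add₀ hr1, zpow_add₀ hr2, pow_add]
      have e1 : r 0 ^ 3 = -(r 1 ^ 3) - r 2 ^ 3 := by linear_combination h0
      rw [e1]
      have e2 : r 1 ^ (3 : ℤ) = r 1 ^ 3 := by norm_cast
      have e3 : r 2 ^ (3 : ℤ) = r 2 ^ 3 := by norm_cast
      rw [e2, e3]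
      ring

lemma splits_span {f : (Fin 3 → ℂ) → ℂ} (hf : f ∈ Submodule.span ℂ SL) : Splits f := by
  induction hf using Submodule.span_induction with
  | mem f hf =>
    obtain ⟨e, i, j, h2, rfl⟩ := hf
    exact splits_mon e i j h2
  | zero => exact ⟨0, Submodule.zero_mem _, 0, Submodule.zero_mem _, fun r _ => by simp⟩
  | add f g _ _ hf hg => exact hf.add hg
  | smul c f _ hf => exact hf.smul c

lemma splits_mul {f : (Fin 3 → ℂ) → ℂ} (hf : f ∈ Submodule.span ℂ SL) (k : ℕ) :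
    Splits (fun r => (r 0 ^ 2 / (r 1 * r 2)) ^ k * f r) := by
  induction hf using Submodule.span_induction with
  | mem f hf =>
    obtain ⟨e, i, j, h2, rfl⟩ := hf
    refine (splits_mon (2 * k + e) (i - k) (j - k) (by push_cast; omega)).congr ?_
    intro r hr
    obtain ⟨h0, hr1, hr2⟩ := hr
    unfold mon
    rw [zpow_sub₀ hr1, zpow_sub₀ hr2, pow_add, pow_mul, div_pow, mul_pow]
    simp only [zpow_natCast]
    field_simp
  | zero => exact ⟨0, Submodule.zero_mem _, 0, Submodule.zero_mem _, fun r _ => by simp⟩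
  | add f g _ _ hf hg =>
    refine (hf.add hg).congr fun r _ => ?_
    simp only [Pi.add_apply]; ring
  | smul c f _ hf =>
    refine (hf.smul c).congr fun r _ => ?_
    simp only [Pi.smul_apply, smul_eq_mul]; ring

lemma splits_sum {ι : Type*} (s : Finset ι) (f : ι → (Fin 3 → ℂ) → ℂ) (h : ∀ i ∈ s, Splits (f i)) :
    Splits (fun r => ∑ i ∈ s, f i r) := by
  classical
  induction s using Finset.induction_on with
  | empty => exact ⟨0, Submodule.zero_mem _, 0, Submodule.zero_mem _, fun r _ => by simp⟩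
  | insert a s ha ih =>
    refine ((h a (Finset.mem_insert_self a s)).add
      (ih fun i hi => h i (Finset.mem_insert_of_mem hi))).congr fun r _ => ?_
    rw [Finset.sum_insert ha]; rfl

/-- The recursion step. -/
lemma step (n : ℕ) (prev : (i : ℕ) → i < n → {f // f ∈ Submodule.span ℂ S1}) :
    ∃ g : ((Fin 3 → ℂ) → ℂ) × ((Fin 3 → ℂ) → ℂ), g.1 ∈ Submodule.span ℂ S1 ∧
      g.2 ∈ Submodule.span ℂ S2 ∧ ∀ r, Dom r →
      g.2 r = (∑ i : Fin n, (n.choose i : ℂ) * (r 0 ^ 2 / (r 1 * r 2)) ^ (n - i) *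
        (prev i i.2).1 r) + g.1 r := by
  have h1 : Splits (fun r => ∑ i : Fin n, (n.choose i : ℂ) *
      ((r 0 ^ 2 / (r 1 * r 2)) ^ (n - i) * (prev i i.2).1 r)) := by
    refine splits_sum _ (fun (i : Fin n) r => (n.choose i : ℂ) *
      ((r 0 ^ 2 / (r 1 * r 2)) ^ (n - i) * (prev i i.2).1 r)) fun i _ => ?_
    exact (splits_mul (Submodule.span_mono S1_sub (prev i i.2).2) (n - i)).smul (n.choose i : ℂ)
  obtain ⟨g1, h1, g2, h2, h⟩ := h1
  refine ⟨(g1, g2), h1, h2, fun r hr => ?_⟩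
  have := h r hr
  simp only at this ⊢
  have e1 : (∑ i : Fin n, (n.choose i : ℂ) * (r 0 ^ 2 / (r 1 * r 2)) ^ (n - i) *
        (prev i i.2).1 r) = ∑ i : Fin n, (n.choose i : ℂ) *
      ((r 0 ^ 2 / (r 1 * r 2)) ^ (n - i) * (prev i i.2).1 r) :=
    Finset.sum_congr rfl fun i _ => by ring
  rw [e1, this]; ring

/-- The class of admissible pairs. -/
abbrev Pair := {g : ((Fin 3 → ℂ) → ℂ) × ((Fin 3 → ℂ) → ℂ) //
  g.1 ∈ Submodule.span ℂ S1 ∧ g.2 ∈ Submodule.span ℂ S2}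

lemma base1 : (fun r : Fin 3 → ℂ => r 0) ∈ Submodule.span ℂ S1 :=
  Submodule.subset_span ⟨1, 0, 0, le_rfl, by norm_num, by funext r; simp [mon]⟩

lemma base2 : (fun r : Fin 3 → ℂ => r 0) ∈ Submodule.span ℂ S2 :=
  Submodule.subset_span ⟨1, 0, 0, le_rfl, by norm_num, by funext r; simp [mon]⟩

/-- The sequence. -/
noncomputable def qq (n : ℕ) : Pair :=
  if n = 0 then ⟨(fun r => r 0, fun r => r 0), base1, base2⟩
  else ⟨Classical.choose (step n fun i _ => ⟨(qq i).1.1, (qq i).2.1⟩),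
    (Classical.choose_spec (step n fun i _ => ⟨(qq i).1.1, (qq i).2.1⟩)).1,
    (Classical.choose_spec (step n fun i _ => ⟨(qq i).1.1, (qq i).2.1⟩)).2.1⟩
termination_by n

lemma qq_zero : (qq 0).1 = (fun r => r 0, fun r => r 0) := by
  rw [qq]; simp

lemma qq_spec (n : ℕ) (hn : n ≠ 0) (r : Fin 3 → ℂ) (hr : Dom r) :
    (qq n).1.2 r = (∑ i : Fin n, (n.choose i : ℂ) * (r 0 ^ 2 / (r 1 * r 2)) ^ (n - i) *
        (qq i).1.1 r) + (qq n).1.1 r := by
  have h := (Classical.choose_spec (step n fun i _ => ⟨(qq i).1.1, (qq i).2.1⟩)).2.2 r hr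
  have e1 : (qq n).1 = Classical.choose (step n fun i _ => ⟨(qq i).1.1, (qq i).2.1⟩) := by
    conv_lhs => rw [qq]
    rw [if_neg hn]
  rw [e1]
  exact h

end QSeq

open QSeq in
theorem exists_qseq :
  ∃ q1 q2 : ℕ → (Fin 3 → ℂ) → ℂ,
    (∀ r, q1 0 r = r 0) ∧ (∀ r, q2 0 r = r 0) ∧
    (∀ n r, r 1 ≠ 0 → ContDiffAt ℂ ω (q1 n) r) ∧ (∀ n r, r 2 ≠ 0 → ContDiffAt ℂ ω (q2 n) r) ∧
    (∀ n (a : ℂ) r, a ≠ 0 → q1 n (a • r) = a * q1 n r) ∧
    (∀ n (a : ℂ) r, a ≠ 0 → q2 n (a • r) = a * q2 n r) ∧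
    (∀ n r, r 0 ^ 3 + r 1 ^ 3 + r 2 ^ 3 = 0 → r 1 ≠ 0 → r 2 ≠ 0 →
      q2 n r = ∑ i ∈ Finset.range (n + 1),
        (n.choose i : ℂ) * (r 0 ^ 2 / (r 1 * r 2)) ^ (n - i) * q1 i r) := by
  refine ⟨fun n => (qq n).1.1, fun n => (qq n).1.2, ?_, ?_, ?_, ?_, ?_, ?_, ?_⟩
  · intro r; simp only [qq_zero]
  · intro r; simp only [qq_zero]
  · intro n r hr; exact contDiffAt_span1 (qq n).2.1 r hr
  · intro n r hr; exact contDiffAt_span2 (qq n).2.2 r hr
  · intro n a r ha; exact hom_spanL (Submodule.span_mono S1_sub (qq n).2.1) a ha r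
  · intro n a r ha; exact hom_spanL (Submodule.span_mono S2_sub (qq n).2.2) a ha r
  · intro n r h0 h1 h2
    simp only
    rw [Finset.sum_range_succ]
    rcases Nat.eq_zero_or_pos n with hn | hn
    · subst hn
      simp [qq_zero]
    · rw [qq_spec n hn.ne' r ⟨h0, h1, h2⟩, Finset.sum_range
        (fun i => (n.choose i : ℂ) * (r 0 ^ 2 / (r 1 * r 2)) ^ (n - i) * (qq i).1.1 r)]
      simp

end Pool.Agent.Lib.MP_cc389e_ag
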