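import Pool.Agent.Lib.MP_cc389e_ag.Span
import Pool.Agent.Lib.MP_cc389e_ag.NonTriv
import Pool.Agent.Lib.MP_cc389e_ag.Cpt
import Pool.Agent.Lib.MP_cc389e_ag.FermatConn
import Pool.Agent.Lib.MP_cc389e_ag.Appell
import Pool.Agent.Lib.MP_cc389e_ag.QSeq

/-!
The counterexample.
-/

open scoped Manifold ContDiff Topology
open Set Filter

noncomputable section

namespace Pool.Agent.Lib.MP_cc389e_ag

/-- the Fermat cubic curve -/
def CurveC : ProjManifold where
  carrier := atlC.X
  model := Fin 1 → ℂ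
  conn := connectedSpace_C isConnected_fermatCone
  proj := ⟨Fin (2 + 1) → ℂ, inferInstance, inferInstance, inferInstance, embC.e,
    embC.isProjectiveEmbedding⟩

/-- the total space -/
def TotalX : ProjManifold where
  carrier := atlX.X
  model := Fin 5 → ℂ
  conn := connectedSpace_X isConnected_fermatCone
  proj := ⟨Fin (107 + 1) → ℂ, inferInstance, inferInstance, inferInstance, embX.e,
    embX.isProjectiveEmbedding⟩

theorem pseff_X : TangentPseudoEffective (Fin 5 → ℂ) atlX.X := by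
  obtain ⟨c, h1, h2, h3, h4, h5⟩ := exists_appell_polys
  obtain ⟨q1, q2, k1, k2, k3, k4, k5, k6, k7⟩ := exists_qseq
  exact ⟨Fin (107 + 1) → ℂ, inferInstance, inferInstance, inferInstance, embX.e,
    embX.isProjectiveEmbedding, generic_generation (c := c) (q1 := q1) (q2 := q2)
      ⟨h1, h2, h3, h4, h5⟩ ⟨k1, k2, k3, k4, k5, k6, k7⟩⟩

theorem isMRC_phi : IsMRC (Fin 5 → ℂ) (Fin 1 → ℂ) phiX :=
  ⟨contMDiff_phiX, surjective_phiX, phi_eq_iff⟩

/-- no holomorphic MRC fibration of the total space is locally trivial -/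
theorem not_locallyTrivial (Y : ProjManifold) (ψ : atlX.X → Y.carrier)
    (hψ : IsMRC (Fin 5 → ℂ) Y.model ψ) : ¬ LocallyTrivial (Fin 5 → ℂ) Y.model ψ := by
  rintro ⟨F, D, nD, sD, tF, cF, mF, h⟩
  obtain ⟨t, ht, h1, h2⟩ := h (ψ (bpt 0))
  exact not_trivial hψ.1 (fun x y => (hψ.2.2 x y).trans (phi_eq_iff x y).symm) ht h1 h2

end Pool.Agent.Lib.MP_cc389e_ag
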