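import Pool.Agent.Lib.MP_cc389e_ag.Defs

/-!
Complex manifold structure on a quotient of a subset `Z` of a normed space, from a family of
holomorphic slices.
-/

open scoped Manifold ContDiff Topology
open Set Filter

noncomputable section

namespace Pool.Agent.Lib.MP_cc389e_ag

lemma isOpenMap_quot {V : Type*} [TopologicalSpace V] {Z : Set V} (rel : Setoid Z) {G : Type*}
    (act : G → V → V) (hc : ∀ g, Continuous (act g)) (hZ : ∀ g, ∀ z ∈ Z, act g z ∈ Z)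
    (hrel : ∀ z z' : Z, rel z z' ↔ ∃ g, act g z.1 = z'.1) :
    IsOpenMap (Quotient.mk rel) := by
  intro U hU
  have h1 : Quotient.mk rel ⁻¹' (Quotient.mk rel '' U) =
      ⋃ g : G, (fun z : Z => (⟨act g z.1, hZ g z.1 z.2⟩ : Z)) ⁻¹' U := by
    ext z
    simp only [mem_preimage, mem_image, mem_iUnion]
    constructor
    · rintro ⟨w, hw, hwz⟩
      have h2 : rel z w := rel.symm' (Quotient.exact hwz)
      obtain ⟨g, hg⟩ := (hrel z w).1 h2
      refine ⟨g, ?_⟩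
      have : (⟨act g z.1, hZ g z.1 z.2⟩ : Z) = w := Subtype.ext hg
      rw [this]
      exact hw
    · rintro ⟨g, hg⟩
      refine ⟨_, hg, ?_⟩
      apply Quotient.sound
      exact rel.symm' ((hrel _ _).2 ⟨g, rfl⟩)
  have h3 : IsOpen (Quotient.mk rel ⁻¹' (Quotient.mk rel '' U)) := by
    rw [h1]
    apply isOpen_iUnion
    intro g
    apply hU.preimage
    exact ((hc g).comp continuous_subtype_val).subtype_mk _
  exact h3

/-- Slice data for the quotient of a subset `Z` of `V` by an equivalence relation. -/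
structure Atl (V : Type) [NormedAddCommGroup V] [NormedSpace ℂ V] (n : ℕ) where
  Z : Set V
  ne : Z.Nonempty
  rel : Setoid Z
  openMap : IsOpenMap (Quotient.mk rel)
  ι : Type
  O : ι → Set V
  Ω : ι → Set (Fin n → ℂ)
  κ : ι → V → Fin n → ℂ
  σ : ι → (Fin n → ℂ) → V
  isOpen_O : ∀ i, IsOpen (O i)
  isOpen_Ω : ∀ i, IsOpen (Ω i)
  κ_an : ∀ i, ContDiffOn ℂ ω (κ i) (O i)
  σ_an : ∀ i, ContDiffOn ℂ ω (σ i) (Ω i)
  σ_mem : ∀ i u, σ i u ∈ Z
  σ_O : ∀ i, ∀ u ∈ Ω i, σ i u ∈ O i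
  κσ : ∀ i, ∀ u ∈ Ω i, κ i (σ i u) = u
  κ_Ω : ∀ i (z : Z), z.1 ∈ O i → κ i z.1 ∈ Ω i
  σκ : ∀ i (z : Z), z.1 ∈ O i → rel ⟨σ i (κ i z.1), σ_mem _ _⟩ z
  O_sat : ∀ i (z z' : Z), rel z z' → z.1 ∈ O i → z'.1 ∈ O i
  κ_inv : ∀ i (z z' : Z), rel z z' → z.1 ∈ O i → κ i z.1 = κ i z'.1
  cover : ∀ z : Z, ∃ i, z.1 ∈ O i

namespace Atl

variable {V : Type} [NormedAddCommGroup V] [NormedSpace ℂ V] {n : ℕ} (D : Atl V n)

/-- the quotient -/
def X : Type := Quotient D.rel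

instance : TopologicalSpace D.X := inferInstanceAs (TopologicalSpace (Quotient D.rel))

/-- the quotient map on `Z` -/
def cls (z : D.Z) : D.X := Quotient.mk D.rel z

/-- the quotient map, extended by a junk value outside `Z` -/
def pt (v : V) : D.X := by
  classical
  exact if h : v ∈ D.Z then D.cls ⟨v, h⟩ else D.cls ⟨D.ne.some, D.ne.some_mem⟩

/-- a representative -/
def rep (x : D.X) : V := (Quotient.out x).1

lemma rep_mem (x : D.X) : D.rep x ∈ D.Z := (Quotient.out x).2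

lemma pt_of_mem {v : V} (h : v ∈ D.Z) : D.pt v = D.cls ⟨v, h⟩ := by
  simp [pt, h]

@[simp] lemma pt_rep (x : D.X) : D.pt (D.rep x) = x := by
  rw [D.pt_of_mem (D.rep_mem x)]
  exact Quotient.out_eq x

lemma pt_surj (x : D.X) : ∃ z ∈ D.Z, D.pt z = x := ⟨D.rep x, D.rep_mem x, D.pt_rep x⟩

lemma cls_eq {z z' : D.Z} : D.cls z = D.cls z' ↔ D.rel z z' := Quotient.eq

lemma pt_eq {v w : V} (hv : v ∈ D.Z) (hw : w ∈ D.Z) :
    D.pt v = D.pt w ↔ D.rel ⟨v, hv⟩ ⟨w, hw⟩ := by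
  rw [D.pt_of_mem hv, D.pt_of_mem hw, D.cls_eq]

lemma rel_rep_pt {v : V} (hv : v ∈ D.Z) :
    D.rel ⟨D.rep (D.pt v), D.rep_mem _⟩ ⟨v, hv⟩ := by
  rw [← D.pt_eq (D.rep_mem _) hv, D.pt_rep]

lemma rep_pt_mem_O {i : D.ι} {v : V} (hv : v ∈ D.Z) : D.rep (D.pt v) ∈ D.O i ↔ v ∈ D.O i := by
  have h := D.rel_rep_pt hv
  exact ⟨fun h1 => D.O_sat i _ _ h h1, fun h1 => D.O_sat i _ _ (D.rel.symm' h) h1⟩

lemma κ_rep_pt {i : D.ι} {v : V} (hv : v ∈ D.Z) (hO : v ∈ D.O i) :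
    D.κ i (D.rep (D.pt v)) = D.κ i v :=
  D.κ_inv i _ _ (D.rel_rep_pt hv) ((D.rep_pt_mem_O hv).2 hO)

lemma pt_σ_κ {i : D.ι} {v : V} (hv : v ∈ D.Z) (hO : v ∈ D.O i) :
    D.pt (D.σ i (D.κ i v)) = D.pt v :=
  (D.pt_eq (D.σ_mem _ _) hv).2 (D.σκ i ⟨v, hv⟩ hO)

lemma continuous_cls : Continuous D.cls := continuous_quotient_mk'

lemma isOpenMap_cls : IsOpenMap D.cls := D.openMap

lemma continuousOn_pt : ContinuousOn D.pt D.Z := by
  rw [continuousOn_iff_continuous_domRestrict]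
  have : D.Z.domRestrict D.pt = D.cls := by
    ext z
    simp [Set.domRestrict, D.pt_of_mem z.2]
  rw [this]
  exact D.continuous_cls

lemma nhds_le (z : D.Z) : 𝓝 (D.cls z) ≤ Filter.map D.cls (𝓝 z) := D.isOpenMap_cls.nhds_le z

/-- the chart with index `i` -/
def chart (i : D.ι) : OpenPartialHomeomorph D.X (Fin n → ℂ) where
  toFun x := D.κ i (D.rep x)
  invFun u := D.pt (D.σ i u)
  source := {x | D.rep x ∈ D.O i}
  target := D.Ω i
  map_source' x hx := D.κ_Ω i ⟨D.rep x, D.rep_mem x⟩ hx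
  map_target' u hu := (D.rep_pt_mem_O (D.σ_mem i u)).2 (D.σ_O i u hu)
  left_inv' x hx := by
    rw [D.pt_σ_κ (D.rep_mem x) hx, D.pt_rep]
  right_inv' u hu := by
    rw [D.κ_rep_pt (D.σ_mem i u) (D.σ_O i u hu), D.κσ i u hu]
  open_source := by
    have h1 : IsOpen (Quotient.mk D.rel ⁻¹' {x : D.X | D.rep x ∈ D.O i}) := by
      have : (Quotient.mk D.rel ⁻¹' {x : D.X | D.rep x ∈ D.O i})
          = Subtype.val ⁻¹' (D.O i) := by
        ext z
        have := D.rep_pt_mem_O (i := i) z.2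
        rw [D.pt_of_mem z.2] at this
        exact this
      rw [this]
      exact (D.isOpen_O i).preimage continuous_subtype_val
    exact h1
  open_target := D.isOpen_Ω i
  continuousOn_toFun := by
    intro x hx
    apply ContinuousAt.continuousWithinAt
    obtain ⟨z, rfl⟩ : ∃ z, D.cls z = x := Quotient.exists_rep x
    have hz : z.1 ∈ D.O i := by
      have := D.rep_pt_mem_O (i := i) z.2
      rw [D.pt_of_mem z.2] at this
      exact this.1 hx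
    have key : Tendsto ((fun x => D.κ i (D.rep x)) ∘ D.cls) (𝓝 z) (𝓝 (D.κ i z.1)) := by
      have h1 : (fun z' : D.Z => D.κ i z'.1) =ᶠ[𝓝 z] ((fun x => D.κ i (D.rep x)) ∘ D.cls) := by
        have : ∀ᶠ z' : D.Z in 𝓝 z, z'.1 ∈ D.O i :=
          ((D.isOpen_O i).preimage continuous_subtype_val).mem_nhds hz
        filter_upwards [this] with z' hz'
        have := D.κ_rep_pt (i := i) z'.2 hz'
        rw [D.pt_of_mem z'.2] at this
        exact this.symm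
      refine Tendsto.congr' h1 ?_
      have h2 : ContinuousAt (D.κ i) z.1 :=
        ((D.κ_an i).continuousOn.continuousAt ((D.isOpen_O i).mem_nhds hz))
      exact h2.tendsto.comp continuous_subtype_val.continuousAt
    have hval : D.κ i (D.rep (D.cls z)) = D.κ i z.1 := by
      have := D.κ_rep_pt (i := i) z.2 hz
      rw [D.pt_of_mem z.2] at this
      exact this
    change Tendsto _ _ (𝓝 (D.κ i (D.rep (D.cls z))))
    rw [hval]
    exact (Filter.tendsto_map'_iff.2 key).mono_left (D.nhds_le z)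
  continuousOn_invFun := by
    refine D.continuousOn_pt.comp (D.σ_an i).continuousOn ?_
    intro u _
    exact D.σ_mem i u

/-- index of the preferred chart -/
def idx (x : D.X) : D.ι := (D.cover ⟨D.rep x, D.rep_mem x⟩).choose

lemma idx_spec (x : D.X) : D.rep x ∈ D.O (D.idx x) := (D.cover ⟨D.rep x, D.rep_mem x⟩).choose_spec

instance : ChartedSpace (Fin n → ℂ) D.X where
  atlas := Set.range D.chart
  chartAt x := D.chart (D.idx x)
  mem_chart_source x := D.idx_spec x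
  chart_mem_atlas _ := ⟨_, rfl⟩

lemma chartAt_eq (x : D.X) : chartAt (Fin n → ℂ) x = D.chart (D.idx x) := rfl

lemma trans_contDiffOn (i j : D.ι) :
    ContDiffOn ℂ ω (fun u => D.κ j (D.rep (D.pt (D.σ i u)))) {u | u ∈ D.Ω i ∧ D.σ i u ∈ D.O j} := by
  have h1 : ContDiffOn ℂ ω (fun u => D.κ j (D.σ i u)) {u | u ∈ D.Ω i ∧ D.σ i u ∈ D.O j} := by
    refine (D.κ_an j).comp ((D.σ_an i).mono ?_) ?_
    · intro u hu; exact hu.1
    · intro u hu; exact hu.2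
  refine h1.congr ?_
  intro u hu
  exact D.κ_rep_pt (D.σ_mem i u) hu.2

instance : IsManifold 𝓘(ℂ, Fin n → ℂ) ω D.X := by
  apply isManifold_of_contDiffOn
  rintro _ _ ⟨i, rfl⟩ ⟨j, rfl⟩
  refine (D.trans_contDiffOn i j).mono ?_
  intro u hu
  have h := hu.1
  simp only [OpenPartialHomeomorph.trans_source, mem_preimage, mem_inter_iff] at h
  refine ⟨h.1, ?_⟩
  exact (D.rep_pt_mem_O (D.σ_mem i u)).1 h.2

lemma chart_mem_maximalAtlas (i : D.ι) :
    D.chart i ∈ IsManifold.maximalAtlas 𝓘(ℂ, Fin n → ℂ) ω D.X :=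
  IsManifold.subset_maximalAtlas ⟨i, rfl⟩

lemma contMDiffAt_chart {i : D.ι} {x : D.X} (hx : D.rep x ∈ D.O i) :
    ContMDiffAt 𝓘(ℂ, Fin n → ℂ) 𝓘(ℂ, Fin n → ℂ) ω (fun x => D.κ i (D.rep x)) x :=
  contMDiffAt_of_mem_maximalAtlas (D.chart_mem_maximalAtlas i) hx

section maps

variable {E' : Type*} [NormedAddCommGroup E'] [NormedSpace ℂ E'] {H' : Type*} [TopologicalSpace H']
  {I' : ModelWithCorners ℂ E' H'} {M : Type*} [TopologicalSpace M] [ChartedSpace H' M]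

/-- A map into the quotient induced by a holomorphic map into `Z` is holomorphic. -/
lemma contMDiffAt_pt {f : M → V} {y : M} (hf : ContMDiffAt I' 𝓘(ℂ, V) ω f y)
    (hZ : ∀ᶠ y' in 𝓝 y, f y' ∈ D.Z) :
    ContMDiffAt I' 𝓘(ℂ, Fin n → ℂ) ω (fun y' => D.pt (f y')) y := by
  have hy : f y ∈ D.Z := hZ.self_of_nhds
  rw [contMDiffAt_iff_target]
  refine ⟨?_, ?_⟩
  · have h1 : Tendsto f (𝓝 y) (𝓝[D.Z] (f y)) :=
      tendsto_nhdsWithin_iff.2 ⟨hf.continuousAt, hZ⟩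
    exact (D.continuousOn_pt (f y) hy).tendsto.comp h1
  · set i := D.idx (D.pt (f y)) with hi
    have hO : f y ∈ D.O i := (D.rep_pt_mem_O hy).1 (D.idx_spec (D.pt (f y)))
    have h2 : ContMDiffAt I' 𝓘(ℂ, Fin n → ℂ) ω (fun y' => D.κ i (f y')) y := by
      have h3 : ContMDiffAt 𝓘(ℂ, V) 𝓘(ℂ, Fin n → ℂ) ω (D.κ i) (f y) :=
        ((D.κ_an i).contDiffAt ((D.isOpen_O i).mem_nhds hO)).contMDiffAt
      exact h3.comp y hf
    refine h2.congr_of_eventuallyEq ?_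
    have h4 : ∀ᶠ y' in 𝓝 y, f y' ∈ D.O i := hf.continuousAt ((D.isOpen_O i).mem_nhds hO)
    filter_upwards [hZ, h4] with y' h5 h6
    exact D.κ_rep_pt h5 h6

/-- A map out of the quotient is holomorphic if it is so on `Z`. -/
lemma contMDiffAt_of_lift {g : D.X → M} {x : D.X}
    (hg : ∀ z ∈ D.Z, D.pt z = x → ∃ G : V → M, ContMDiffAt 𝓘(ℂ, V) I' ω G z ∧
      ∀ᶠ z' in 𝓝 z, z' ∈ D.Z → g (D.pt z') = G z') :
    ContMDiffAt 𝓘(ℂ, Fin n → ℂ) I' ω g x := by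
  set i := D.idx x with hi
  have hO : D.rep x ∈ D.O i := D.idx_spec x
  set u := D.κ i (D.rep x) with hu
  have huΩ : u ∈ D.Ω i := D.κ_Ω i ⟨D.rep x, D.rep_mem x⟩ hO
  have hσ : ContMDiffAt 𝓘(ℂ, Fin n → ℂ) 𝓘(ℂ, V) ω (D.σ i) u :=
    ((D.σ_an i).contDiffAt ((D.isOpen_Ω i).mem_nhds huΩ)).contMDiffAt
  obtain ⟨G, hG, hGe⟩ := hg (D.σ i u) (D.σ_mem i u) (by rw [hu, D.pt_σ_κ (D.rep_mem x) hO, D.pt_rep])
  have hc : ContMDiffAt 𝓘(ℂ, Fin n → ℂ) 𝓘(ℂ, Fin n → ℂ) ω (fun x => D.κ i (D.rep x)) x :=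
    D.contMDiffAt_chart hO
  have h1 : ContMDiffAt 𝓘(ℂ, Fin n → ℂ) I' ω (fun x => G (D.σ i (D.κ i (D.rep x)))) x := by
    have h2 : ContMDiffAt 𝓘(ℂ, Fin n → ℂ) 𝓘(ℂ, V) ω (fun x => D.σ i (D.κ i (D.rep x))) x :=
      ContMDiffAt.comp x (g := D.σ i) (f := fun x => D.κ i (D.rep x)) hσ hc
    exact ContMDiffAt.comp x (g := G) (f := fun x => D.σ i (D.κ i (D.rep x))) hG h2
  refine h1.congr_of_eventuallyEq ?_
  have hcont : ContinuousAt (fun x => D.σ i (D.κ i (D.rep x))) x :=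
    hσ.continuousAt.comp (f := fun x => D.κ i (D.rep x)) hc.continuousAt
  have h3 := hcont.eventually hGe
  have h4 : ∀ᶠ x' in 𝓝 x, D.rep x' ∈ D.O i := (D.chart i).open_source.mem_nhds hO
  filter_upwards [h3, h4] with x' h5 h6
  rw [← h5 (D.σ_mem _ _), D.pt_σ_κ (D.rep_mem x') h6, D.pt_rep]

lemma contMDiff_of_lift {g : D.X → M}
    (hg : ∀ z ∈ D.Z, ∃ G : V → M, ContMDiffAt 𝓘(ℂ, V) I' ω G z ∧
      ∀ᶠ z' in 𝓝 z, z' ∈ D.Z → g (D.pt z') = G z') :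
    ContMDiff 𝓘(ℂ, Fin n → ℂ) I' ω g :=
  fun _ => D.contMDiffAt_of_lift fun z hz _ => hg z hz

end maps

/-- the derivative of a function on the quotient, in the preferred chart -/
lemma mfderiv_eq {F : Type*} [NormedAddCommGroup F] [NormedSpace ℂ F] {g : D.X → F} {x : D.X}
    (hg : MDifferentiableAt 𝓘(ℂ, Fin n → ℂ) 𝓘(ℂ, F) g x) :
    (mfderiv 𝓘(ℂ, Fin n → ℂ) 𝓘(ℂ, F) g x : (Fin n → ℂ) →L[ℂ] F) =
      fderiv ℂ (fun u => g (D.pt (D.σ (D.idx x) u))) (D.κ (D.idx x) (D.rep x)) := by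
  refine (hg.mfderiv).trans ?_
  have h1 : (range (𝓘(ℂ, Fin n → ℂ) : (Fin n → ℂ) → (Fin n → ℂ))) = univ := by simp
  rw [h1, fderivWithin_univ]
  rfl

end Atl

end Pool.Agent.Lib.MP_cc389e_ag
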