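import Pool.Agent.Lib.MP_cc389e_ag.Cpt

/-!
There is no non-constant holomorphic map from the projective line to the Fermat cubic.
-/

open scoped Manifold ContDiff Topology
open Set Filter

noncomputable section

namespace Pool.Agent.Lib.MP_cc389e_ag

/-- cross product -/
def cr (r q : Fin 3 → ℂ) : Fin 3 → ℂ :=
  ![r 1 * q 2 - r 2 * q 1, r 2 * q 0 - r 0 * q 2, r 0 * q 1 - r 1 * q 0]

lemma exists_par {r q : Fin 3 → ℂ} (hr : r ∈ ZC)
    (hq : r 0 ^ 2 * q 0 + r 1 ^ 2 * q 1 + r 2 ^ 2 * q 2 = 0) :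
    ∃ h : ℂ, ∀ i, cr r q i = h * r i ^ 2 := by
  have h0 := hr.2
  by_cases a : r 0 = 0
  · by_cases b : r 1 = 0
    · exfalso
      rw [a, b] at h0
      simp at h0
      exact hr.1 (by funext i; fin_cases i <;> simp [a, b, h0])
    · refine ⟨cr r q 1 / r 1 ^ 2, ?_⟩
      intro i
      fin_cases i
      · have h3 : r 1 ^ 2 * (r 1 * q 2 - r 2 * q 1) = 0 := by
          rw [a] at h0 hq
          linear_combination q 2 * h0 - r 2 * hq
        have h4 : r 1 * q 2 - r 2 * q 1 = 0 :=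
          (mul_eq_zero.1 h3).resolve_left (pow_ne_zero _ b)
        simp [cr, a, h4]
      · simp [cr]
        field_simp
      · simp [cr, a] at *
        field_simp
        linear_combination (- q 0) * h0
  · refine ⟨cr r q 0 / r 0 ^ 2, ?_⟩
    intro i
    fin_cases i
    · simp [cr]
      field_simp
    · simp [cr] at *
      field_simp
      linear_combination (r 2) * hq - q 2 * h0
    · simp [cr] at *
      field_simp
      linear_combination (-r 1) * hq + q 1 * h0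

/-- `r` is a local holomorphic lift of `f` at `t` -/
def IsLift (f : ℂ → atlC.X) (t : ℂ) (r : ℂ → Fin 3 → ℂ) : Prop :=
  ContDiffAt ℂ ω r t ∧ ∀ᶠ s in 𝓝 t, r s ∈ ZC ∧ atlC.pt (r s) = f s

lemma exists_isLift {f : ℂ → atlC.X} {t : ℂ}
    (hf : ContMDiffAt 𝓘(ℂ, ℂ) 𝓘(ℂ, Fin 1 → ℂ) ω f t) : ∃ r, IsLift f t r := by
  set i := atlC.idx (f t) with hi
  have hO : atlC.rep (f t) ∈ atlC.O i := atlC.idx_spec (f t)
  have hc := atlC.contMDiffAt_chart hO
  have h1 : ContMDiffAt 𝓘(ℂ, ℂ) 𝓘(ℂ, Fin 1 → ℂ) ω (fun s => atlC.κ i (atlC.rep (f s))) t :=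
    ContMDiffAt.comp t (g := fun x => atlC.κ i (atlC.rep x)) (f := f) hc hf
  have hu : atlC.κ i (atlC.rep (f t)) ∈ atlC.Ω i := atlC.κ_Ω i ⟨_, atlC.rep_mem _⟩ hO
  refine ⟨fun s => atlC.σ i (atlC.κ i (atlC.rep (f s))), ?_, ?_⟩
  · exact ContDiffAt.comp t (g := atlC.σ i) (f := fun s => atlC.κ i (atlC.rep (f s)))
      ((atlC.σ_an i).contDiffAt ((atlC.isOpen_Ω i).mem_nhds hu)) h1.contDiffAt
  · have h2 : ∀ᶠ s in 𝓝 t, atlC.rep (f s) ∈ atlC.O i :=
      hf.continuousAt ((atlC.chart i).open_source.mem_nhds hO)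
    filter_upwards [h2] with s hs
    exact ⟨atlC.σ_mem _ _, by rw [atlC.pt_σ_κ (atlC.rep_mem _) hs, atlC.pt_rep]⟩

lemma lift_tangent {f : ℂ → atlC.X} {t : ℂ} {r : ℂ → Fin 3 → ℂ} (h : IsLift f t r) :
    r t 0 ^ 2 * deriv r t 0 + r t 1 ^ 2 * deriv r t 1 + r t 2 ^ 2 * deriv r t 2 = 0 := by
  have hd : DifferentiableAt ℂ r t := h.1.differentiableAt (by simp)
  have hdi : ∀ i, HasDerivAt (fun s => r s i) (deriv r t i) t := by
    intro i
    exact hasDerivAt_pi.1 hd.hasDerivAt i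
  have h1 : HasDerivAt (fun s => r s 0 ^ 3 + r s 1 ^ 3 + r s 2 ^ 3)
      (3 * r t 0 ^ 2 * deriv r t 0 + 3 * r t 1 ^ 2 * deriv r t 1 + 3 * r t 2 ^ 2 * deriv r t 2) t := by
    have := (((hdi 0).fun_pow 3).fun_add ((hdi 1).fun_pow 3)).fun_add ((hdi 2).fun_pow 3)
    refine this.congr_deriv ?_
    push_cast
    ring
  have h2 : (fun s => r s 0 ^ 3 + r s 1 ^ 3 + r s 2 ^ 3) =ᶠ[𝓝 t] fun _ => 0 := by
    filter_upwards [h.2] with s hs
    exact hs.1.2
  have h3 := h1.unique ((hasDerivAt_const t (0 : ℂ)).congr_of_eventuallyEq h2)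
  linear_combination h3 / 3

/-- the value of the invariant form along `f` at `t` -/
def IsForm (f : ℂ → atlC.X) (t h : ℂ) : Prop :=
  ∀ r, IsLift f t r → ∀ i, cr (r t) (deriv r t) i = h * r t i ^ 2

lemma isForm_of_lift {f : ℂ → atlC.X} {t : ℂ} {r : ℂ → Fin 3 → ℂ} (hr : IsLift f t r) {h : ℂ}
    (hh : ∀ i, cr (r t) (deriv r t) i = h * r t i ^ 2) : IsForm f t h := by
  intro q hq
  have hrZ := hr.2.self_of_nhds.1
  obtain ⟨k, hk⟩ : ∃ k, r t k ≠ 0 := by
    by_contra hcon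
    push Not at hcon
    exact hrZ.1 (funext hcon)
  have hdr : DifferentiableAt ℂ r t := hr.1.differentiableAt (by simp)
  have hdq : DifferentiableAt ℂ q t := hq.1.differentiableAt (by simp)
  have hri : ∀ i, HasDerivAt (fun s => r s i) (deriv r t i) t :=
    fun i => hasDerivAt_pi.1 hdr.hasDerivAt i
  have hqi : ∀ i, HasDerivAt (fun s => q s i) (deriv q t i) t :=
    fun i => hasDerivAt_pi.1 hdq.hasDerivAt i
  set μ : ℂ → ℂ := fun s => q s k / r s k with hμ
  have hμd : HasDerivAt μ (deriv μ t) t := by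
    apply DifferentiableAt.hasDerivAt
    exact ((hqi k).differentiableAt).div ((hri k).differentiableAt) hk
  have hrk : ∀ᶠ s in 𝓝 t, r s k ≠ 0 := (hri k).continuousAt.eventually_ne hk
  have heq : ∀ᶠ s in 𝓝 t, ∀ i, q s i = μ s * r s i := by
    filter_upwards [hr.2, hq.2, hrk] with s h1 h2 h3 i
    have h4 : atlC.pt (r s) = atlC.pt (q s) := h1.2.trans h2.2.symm
    rw [atlC.pt_eq h1.1 h2.1] at h4
    obtain ⟨c, hc, h5⟩ := (relC_iff _ _).1 h4
    have h6 : ∀ i, q s i = c * r s i := fun i => by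
      have := congrFun h5 i
      simpa using this.symm
    have : μ s = c := by
      simp only [hμ, h6 k]
      field_simp
    rw [this]
    exact h6 i
  have hval : ∀ i, q t i = μ t * r t i := heq.self_of_nhds
  have hder : ∀ i, deriv q t i = deriv μ t * r t i + μ t * deriv r t i := by
    intro i
    have h1 : HasDerivAt (fun s => μ s * r s i) (deriv μ t * r t i + μ t * deriv r t i) t :=
      hμd.mul (hri i)
    have h2 : (fun s => q s i) =ᶠ[𝓝 t] fun s => μ s * r s i := by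
      filter_upwards [heq] with s hs
      exact hs i
    exact (hqi i).unique (h1.congr_of_eventuallyEq h2)
  intro i
  have h1 := hh i
  have h0' := hval 0
  have h1' := hval 1
  have h2' := hval 2
  have h3' := hder 0
  have h4' := hder 1
  have h5' := hder 2
  rw [hval i]
  have key : cr (q t) (deriv q t) i = μ t ^ 2 * cr (r t) (deriv r t) i := by
    fin_cases i
    · simp only [cr, Fin.zero_eta, Matrix.cons_val_zero]
      rw [h1', h2', h4', h5']
      ring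
    · simp only [cr, Fin.mk_one, Matrix.cons_val_one, Matrix.cons_val_zero]
      rw [h0', h2', h3', h5']
      ring
    · simp only [cr, Fin.reduceFinMk, Matrix.cons_val]
      rw [h0', h1', h3', h4']
      ring
  rw [key, h1]
  ring

lemma exists_isForm {f : ℂ → atlC.X} {t : ℂ}
    (hf : ContMDiffAt 𝓘(ℂ, ℂ) 𝓘(ℂ, Fin 1 → ℂ) ω f t) : ∃ h, IsForm f t h := by
  obtain ⟨r, hr⟩ := exists_isLift hf
  obtain ⟨h, hh⟩ := exists_par hr.2.self_of_nhds.1 (lift_tangent hr)
  exact ⟨h, isForm_of_lift hr hh⟩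

/-- the invariant form along `f` -/
def formOf {f : ℂ → atlC.X} (hf : ContMDiff 𝓘(ℂ, ℂ) 𝓘(ℂ, Fin 1 → ℂ) ω f) (t : ℂ) : ℂ :=
  (exists_isForm (hf t)).choose

lemma formOf_spec {f : ℂ → atlC.X} (hf : ContMDiff 𝓘(ℂ, ℂ) 𝓘(ℂ, Fin 1 → ℂ) ω f) (t : ℂ) :
    IsForm f t (formOf hf t) := (exists_isForm (hf t)).choose_spec

lemma IsForm.unique {f : ℂ → atlC.X} {t h h' : ℂ}
    (hf : ContMDiffAt 𝓘(ℂ, ℂ) 𝓘(ℂ, Fin 1 → ℂ) ω f t)
    (h1 : IsForm f t h) (h2 : IsForm f t h') : h = h' := by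
  obtain ⟨r, hr⟩ := exists_isLift hf
  have hrZ := hr.2.self_of_nhds.1
  obtain ⟨k, hk⟩ : ∃ k, r t k ≠ 0 := by
    by_contra hcon
    push Not at hcon
    exact hrZ.1 (funext hcon)
  have a := h1 r hr k
  have b := h2 r hr k
  rw [a] at b
  exact mul_right_cancel₀ (pow_ne_zero 2 hk) b

lemma IsLift.eventually {f : ℂ → atlC.X} {t : ℂ} {r : ℂ → Fin 3 → ℂ} (h : IsLift f t r) :
    ∀ᶠ s in 𝓝 t, IsLift f s r := by
  have h1 : ∀ᶠ s in 𝓝 t, ContDiffAt ℂ ω r s := h.1.eventually (by simp)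
  filter_upwards [h1, h.2.eventually_nhds] with s h2 h3
  exact ⟨h2, h3⟩

lemma differentiable_formOf {f : ℂ → atlC.X} (hf : ContMDiff 𝓘(ℂ, ℂ) 𝓘(ℂ, Fin 1 → ℂ) ω f) :
    Differentiable ℂ (formOf hf) := by
  intro t
  obtain ⟨r, hr⟩ := exists_isLift (hf t)
  have hrZ := hr.2.self_of_nhds.1
  obtain ⟨k, hk⟩ : ∃ k, r t k ≠ 0 := by
    by_contra hcon
    push Not at hcon
    exact hrZ.1 (funext hcon)
  have hdr : DifferentiableAt ℂ r t := hr.1.differentiableAt (by simp)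
  have hri : ∀ i, ContDiffAt ℂ ω (fun s => r s i) t := fun i => contDiffAt_pi.1 hr.1 i
  have hd1 : ContDiffAt ℂ ω (deriv r) t := by
    have h1 : AnalyticAt ℂ r t := by
      have := hr.1.analyticAt
      exact this
    exact (h1.deriv).contDiffAt
  have hdi : ∀ i, ContDiffAt ℂ ω (fun s => deriv r s i) t := fun i => contDiffAt_pi.1 hd1 i
  have hcr : DifferentiableAt ℂ (fun s => cr (r s) (deriv r s) k) t := by
    have a0 := (hri 0).differentiableAt (by simp)
    have a1 := (hri 1).differentiableAt (by simp)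
    have a2 := (hri 2).differentiableAt (by simp)
    have b0 := (hdi 0).differentiableAt (by simp)
    have b1 := (hdi 1).differentiableAt (by simp)
    have b2 := (hdi 2).differentiableAt (by simp)
    fin_cases k
    · exact (a1.mul b2).sub (a2.mul b1)
    · exact (a2.mul b0).sub (a0.mul b2)
    · exact (a0.mul b1).sub (a1.mul b0)
  have hk' : ∀ᶠ s in 𝓝 t, r s k ≠ 0 := (hri k).continuousAt.eventually_ne hk
  have h2 : DifferentiableAt ℂ (fun s => cr (r s) (deriv r s) k / r s k ^ 2) t := by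
    apply hcr.div
    · exact ((hri k).differentiableAt (by simp)).pow 2
    · exact pow_ne_zero 2 hk
  refine h2.congr_of_eventuallyEq ?_
  filter_upwards [hr.eventually, hk'] with s h3 h4
  have := formOf_spec hf s r h3 k
  rw [this]
  field_simp

lemma formOf_inv {f g : ℂ → atlC.X} (hf : ContMDiff 𝓘(ℂ, ℂ) 𝓘(ℂ, Fin 1 → ℂ) ω f)
    (hg : ContMDiff 𝓘(ℂ, ℂ) 𝓘(ℂ, Fin 1 → ℂ) ω g) (hfg : ∀ t : ℂ, t ≠ 0 → g t = f t⁻¹)
    {z : ℂ} (hz : z ≠ 0) : formOf hf z = -(formOf hg z⁻¹) * (z⁻¹) ^ 2 := by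
  obtain ⟨r, hr⟩ := exists_isLift (hg z⁻¹)
  have hinv : ContDiffAt ℂ ω (fun s : ℂ => s⁻¹) z := contDiffAt_inv ℂ hz
  have hl : IsLift f z (fun s => r s⁻¹) := by
    refine ⟨ContDiffAt.comp z (g := r) (f := fun s : ℂ => s⁻¹) hr.1 hinv, ?_⟩
    have h1 : ∀ᶠ s in 𝓝 z, r s⁻¹ ∈ ZC ∧ atlC.pt (r s⁻¹) = g s⁻¹ :=
      hinv.continuousAt.eventually hr.2
    filter_upwards [h1, eventually_ne_nhds hz] with s h2 h3
    refine ⟨h2.1, ?_⟩
    rw [h2.2, hfg _ (inv_ne_zero h3), inv_inv]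
  have hdr : DifferentiableAt ℂ r z⁻¹ := hr.1.differentiableAt (by simp)
  have hder : deriv (fun s => r s⁻¹) z = (-(z ^ 2)⁻¹) • deriv r z⁻¹ := by
    have h1 : HasDerivAt (fun s : ℂ => s⁻¹) (-(z ^ 2)⁻¹) z := hasDerivAt_inv hz
    exact (HasDerivAt.scomp z hdr.hasDerivAt h1).deriv
  have hform : IsForm f z (-(formOf hg z⁻¹) * (z⁻¹) ^ 2) := by
    apply isForm_of_lift hl
    intro i
    have h2 := formOf_spec hg z⁻¹ r hr i
    have h3 : cr (r z⁻¹) (deriv (fun s => r s⁻¹) z) i = (-(z ^ 2)⁻¹) * cr (r z⁻¹) (deriv r z⁻¹) i := by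
      rw [hder]
      fin_cases i
      · simp [cr]; ring
      · simp [cr]; ring
      · simp [cr]; ring
    rw [h3, h2]
    field_simp
  exact IsForm.unique (hf z) (formOf_spec hf z) hform

lemma formOf_eq_zero {f g : ℂ → atlC.X} (hf : ContMDiff 𝓘(ℂ, ℂ) 𝓘(ℂ, Fin 1 → ℂ) ω f)
    (hg : ContMDiff 𝓘(ℂ, ℂ) 𝓘(ℂ, Fin 1 → ℂ) ω g) (hfg : ∀ t : ℂ, t ≠ 0 → g t = f t⁻¹) (z : ℂ) :
    formOf hf z = 0 := by
  have h1 : Tendsto (formOf hf) (cocompact ℂ) (𝓝 0) := by
    have h2 : Tendsto (fun z : ℂ => z⁻¹) (cocompact ℂ) (𝓝 0) := by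
      rw [← Metric.cobounded_eq_cocompact (α := ℂ)]
      exact tendsto_inv₀_cobounded
    have h3 : Tendsto (fun z : ℂ => -(formOf hg z⁻¹) * (z⁻¹) ^ 2) (cocompact ℂ)
        (𝓝 (-(formOf hg 0) * 0 ^ 2)) := by
      apply Tendsto.mul
      · apply Tendsto.neg
        exact (differentiable_formOf hg).continuous.continuousAt.tendsto.comp h2
      · exact h2.pow 2
    rw [zero_pow two_ne_zero, mul_zero] at h3
    refine h3.congr' ?_
    have h4 : ∀ᶠ z : ℂ in cocompact ℂ, z ≠ 0 :=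
      (isCompact_singleton (x := (0 : ℂ))).compl_mem_cocompact
    filter_upwards [h4] with z hz
    exact (formOf_inv hf hg hfg hz).symm
  have h5 := (differentiable_formOf hf).eq_const_of_tendsto_cocompact h1
  rw [h5]
  rfl

lemma eventually_const {f g : ℂ → atlC.X} (hf : ContMDiff 𝓘(ℂ, ℂ) 𝓘(ℂ, Fin 1 → ℂ) ω f)
    (hg : ContMDiff 𝓘(ℂ, ℂ) 𝓘(ℂ, Fin 1 → ℂ) ω g) (hfg : ∀ t : ℂ, t ≠ 0 → g t = f t⁻¹) (t : ℂ) :
    ∀ᶠ s in 𝓝 t, f s = f t := by
  obtain ⟨r, hr⟩ := exists_isLift (hf t)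
  have hrZ := hr.2.self_of_nhds.1
  obtain ⟨k, hk⟩ : ∃ k, r t k ≠ 0 := by
    by_contra hcon
    push Not at hcon
    exact hrZ.1 (funext hcon)
  have hri : ∀ i, ContDiffAt ℂ ω (fun s => r s i) t := fun i => contDiffAt_pi.1 hr.1 i
  have hk' : ∀ᶠ s in 𝓝 t, r s k ≠ 0 := (hri k).continuousAt.eventually_ne hk
  obtain ⟨ε, hε, hball⟩ := Metric.eventually_nhds_iff_ball.1 (hr.eventually.and hk')
  have hconst : ∀ j, ∀ s ∈ Metric.ball t ε, r s j / r s k = r t j / r t k := by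
    intro j s hs
    have hd : ∀ x ∈ Metric.ball t ε, HasDerivAt (fun s => r s j / r s k) 0 x := by
      intro x hx
      obtain ⟨h1, h2⟩ := hball x hx
      have hdr : DifferentiableAt ℂ r x := h1.1.differentiableAt (by simp)
      have hdi : ∀ i, HasDerivAt (fun s => r s i) (deriv r x i) x :=
        fun i => hasDerivAt_pi.1 hdr.hasDerivAt i
      refine ((hdi j).fun_div (hdi k) h2).congr_deriv ?_
      have hz : ∀ i, cr (r x) (deriv r x) i = 0 := by
        intro i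
        rw [formOf_spec hf x r h1 i, formOf_eq_zero hf hg hfg, zero_mul]
      have z0 := hz 0
      have z1 := hz 1
      have z2 := hz 2
      simp only [cr, Matrix.cons_val_zero, Matrix.cons_val_one, Matrix.cons_val] at z0 z1 z2
      rw [div_eq_zero_iff]
      left
      fin_cases j <;> fin_cases k <;> simp only [Fin.zero_eta, Fin.mk_one, Fin.reduceFinMk] <;>
        first
        | ring1
        | linear_combination z0
        | linear_combination z1
        | linear_combination z2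
        | linear_combination -z0
        | linear_combination -z1
        | linear_combination -z2
    apply IsOpen.is_const_of_deriv_eq_zero (f := fun s => r s j / r s k) Metric.isOpen_ball
      (convex_ball t ε).isPreconnected
      (fun x hx => (hd x hx).differentiableAt.differentiableWithinAt)
      (fun x hx => (hd x hx).deriv) hs (Metric.mem_ball_self hε)
  filter_upwards [Metric.ball_mem_nhds t hε, hr.2, hk'] with s hs h1 h2
  rw [← h1.2, ← hr.2.self_of_nhds.2]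
  rw [atlC.pt_eq h1.1 hrZ, ]
  refine (relC_iff _ _).2 ⟨r t k / r s k, div_ne_zero hk h2, ?_⟩
  funext j
  have h3 := hconst j s hs
  simp only [Pi.smul_apply, smul_eq_mul]
  field_simp at h3 ⊢
  linear_combination h3

/-- rational curves in the Fermat cubic are constant -/
theorem rational_const {f g : ℂ → atlC.X} (hf : ContMDiff 𝓘(ℂ, ℂ) 𝓘(ℂ, Fin 1 → ℂ) ω f)
    (hg : ContMDiff 𝓘(ℂ, ℂ) 𝓘(ℂ, Fin 1 → ℂ) ω g) (hfg : ∀ t : ℂ, t ≠ 0 → g t = f t⁻¹)
    {x y : atlC.X} (hx : x ∈ range f ∪ range g) (hy : y ∈ range f ∪ range g) : x = y := by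
  have hgf : ∀ t : ℂ, t ≠ 0 → f t = g t⁻¹ := by
    intro t ht
    rw [hfg _ (inv_ne_zero ht), inv_inv]
  have cf : ∀ s t, f s = f t := by
    have : IsLocallyConstant f := (IsLocallyConstant.iff_eventually_eq f).2
      (eventually_const hf hg hfg)
    exact fun s t => this.apply_eq_of_preconnectedSpace s t
  have cg : ∀ s t, g s = g t := by
    have : IsLocallyConstant g := (IsLocallyConstant.iff_eventually_eq g).2
      (eventually_const hg hf hgf)
    exact fun s t => this.apply_eq_of_preconnectedSpace s t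
  have e1 : g 1 = f 1 := by
    have := hfg 1 one_ne_zero
    simpa using this
  have key : ∀ z ∈ range f ∪ range g, z = f 1 := by
    rintro z (⟨s, rfl⟩ | ⟨s, rfl⟩)
    · exact cf s 1
    · rw [cg s 1, e1]
  rw [key x hx, key y hy]

end Pool.Agent.Lib.MP_cc389e_ag
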