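import Pool.Agent.Lib.MP_cc389e_ag.Defs

/-!
Symmetric powers as spaces of homogeneous polynomial functions on the dual.
-/

open scoped Manifold ContDiff Topology
open Set Filter

noncomputable section

namespace Pool.Agent.Lib.MP_cc389e_ag

/-- `Sym^m T`, realised as the space of homogeneous polynomial functions of degree `m` on the
dual `T^*`: the span of the products of `m` vectors of `T`. -/
def symPow (m : ℕ) (T : Type) [TopologicalSpace T] [AddCommGroup T] [Module ℂ T] :
    Submodule ℂ ((T →L[ℂ] ℂ) → ℂ) :=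
  Submodule.span ℂ (Set.range fun (v : Fin m → T) (ξ : T →L[ℂ] ℂ) => ∏ i, ξ (v i))

variable {T : Type} [TopologicalSpace T] [AddCommGroup T] [Module ℂ T]
  {T' : Type} [TopologicalSpace T'] [AddCommGroup T'] [Module ℂ T']

lemma symPow_prod {m : ℕ} (v : Fin m → T) : (fun ξ : T →L[ℂ] ℂ => ∏ i, ξ (v i)) ∈ symPow m T :=
  Submodule.subset_span ⟨v, rfl⟩

lemma symPow_zero (c : ℂ) : (fun _ : T →L[ℂ] ℂ => c) ∈ symPow 0 T := by
  have h := (symPow 0 T).smul_mem c (symPow_prod (T := T) (m := 0) Fin.elim0)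
  refine Eq.mp ?_ h
  congr 1
  funext ξ
  simp

lemma symPow_one (v : T) : (fun ξ : T →L[ℂ] ℂ => ξ v) ∈ symPow 1 T := by
  have h := symPow_prod (T := T) (m := 1) (fun _ => v)
  refine Eq.mp ?_ h
  congr 1
  funext ξ
  simp

lemma symPow_mul {m n : ℕ} {p q : (T →L[ℂ] ℂ) → ℂ} (hp : p ∈ symPow m T) (hq : q ∈ symPow n T) :
    (fun ξ => p ξ * q ξ) ∈ symPow (m + n) T := by
  induction hp using Submodule.span_induction with
  | mem x hx =>
    obtain ⟨v, rfl⟩ := hx
    induction hq using Submodule.span_induction with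
    | mem y hy =>
      obtain ⟨w, rfl⟩ := hy
      have h := symPow_prod (T := T) (m := m + n) (Fin.append v w)
      refine Eq.mp ?_ h
      congr 1
      funext ξ
      rw [Fin.prod_univ_add]
      simp
    | zero =>
      have := (symPow (m + n) T).zero_mem
      refine Eq.mp ?_ this
      congr 1
      funext ξ
      simp
    | add y z _ _ hy hz =>
      have := (symPow (m + n) T).add_mem hy hz
      refine Eq.mp ?_ this
      congr 1
      funext ξ
      simp [mul_add]
    | smul a y _ hy =>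
      have := (symPow (m + n) T).smul_mem a hy
      refine Eq.mp ?_ this
      congr 1
      funext ξ
      simp only [Pi.smul_apply, smul_eq_mul]
      ring
  | zero =>
    have := (symPow (m + n) T).zero_mem
    refine Eq.mp ?_ this
    congr 1
    funext ξ
    simp
  | add y z _ _ hy hz =>
    have := (symPow (m + n) T).add_mem hy hz
    refine Eq.mp ?_ this
    congr 1
    funext ξ
    simp [add_mul]
  | smul a y _ hy =>
    have := (symPow (m + n) T).smul_mem a hy
    refine Eq.mp ?_ this
    congr 1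
    funext ξ
    simp only [Pi.smul_apply, smul_eq_mul]
    ring

lemma symPow_pow {m : ℕ} {p : (T →L[ℂ] ℂ) → ℂ} (hp : p ∈ symPow m T) (k : ℕ) :
    (fun ξ => p ξ ^ k) ∈ symPow (m * k) T := by
  induction k with
  | zero => simpa using symPow_zero (T := T) 1
  | succ k ih =>
    have := symPow_mul ih hp
    simpa only [pow_succ, Nat.mul_succ] using this

lemma symPow_comp {m : ℕ} (L : T →L[ℂ] T') {p : (T →L[ℂ] ℂ) → ℂ} (hp : p ∈ symPow m T) :
    (fun ξ : T' →L[ℂ] ℂ => p (ξ.comp L)) ∈ symPow m T' := by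
  induction hp using Submodule.span_induction with
  | mem x hx =>
    obtain ⟨v, rfl⟩ := hx
    exact symPow_prod (T := T') (fun i => L (v i))
  | zero => exact (symPow m T').zero_mem
  | add y z _ _ hy hz => exact (symPow m T').add_mem hy hz
  | smul a y _ hy => exact (symPow m T').smul_mem a hy

lemma symPow_sum {m : ℕ} {ι : Type*} (s : Finset ι) {f : ι → (T →L[ℂ] ℂ) → ℂ}
    (h : ∀ i ∈ s, f i ∈ symPow m T) : (fun ξ => ∑ i ∈ s, f i ξ) ∈ symPow m T := by
  have := (symPow m T).sum_mem h
  refine Eq.mp ?_ this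
  congr 1
  funext ξ
  simp

lemma symPow_const_mul {m : ℕ} (c : ℂ) {p : (T →L[ℂ] ℂ) → ℂ} (hp : p ∈ symPow m T) :
    (fun ξ => c * p ξ) ∈ symPow m T := (symPow m T).smul_mem c hp

lemma symPow_finset_prod {ι : Type*} (s : Finset ι) {f : ι → (T →L[ℂ] ℂ) → ℂ} {d : ι → ℕ}
    (h : ∀ i ∈ s, f i ∈ symPow (d i) T) : (fun ξ => ∏ i ∈ s, f i ξ) ∈ symPow (∑ i ∈ s, d i) T := by
  classical
  induction s using Finset.induction_on with
  | empty => simpa using symPow_zero (T := T) 1
  | insert a s ha ih =>
    simp only [Finset.prod_insert ha, Finset.sum_insert ha]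
    exact symPow_mul (h a (Finset.mem_insert_self a s))
      (ih fun i hi => h i (Finset.mem_insert_of_mem hi))

lemma symPow_mvPoly {m : ℕ} {ι : Type} {P : MvPolynomial ι ℂ} (hP : P.IsHomogeneous m)
    (e : ι → T) : (fun ξ : T →L[ℂ] ℂ => MvPolynomial.eval (fun i => ξ (e i)) P) ∈ symPow m T := by
  have h1 : (fun ξ : T →L[ℂ] ℂ => MvPolynomial.eval (fun i => ξ (e i)) P) =
      fun ξ => ∑ d ∈ P.support, P.coeff d * ∏ i ∈ d.support, ξ (e i) ^ d i := by
    funext ξ
    rw [MvPolynomial.eval_eq]
  rw [h1]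
  apply symPow_sum
  intro d hd
  apply symPow_const_mul
  have hdeg : ∑ i ∈ d.support, d i = m := by
    have := hP (MvPolynomial.mem_support_iff.1 hd)
    rw [← this]
    simp [Finsupp.weight_apply, Finsupp.sum]
  rw [← hdeg]
  refine symPow_finset_prod d.support (f := fun i ξ => ξ (e i) ^ d i) (d := fun i => d i) ?_
  intro i _
  have := symPow_pow (symPow_one (e i)) (d i)
  simpa using this

lemma exists_mvPoly {m : ℕ} {ι : Type} [Fintype ι] {e : ι → T} (he : ⊤ ≤ Submodule.span ℂ (range e))
    {p : (T →L[ℂ] ℂ) → ℂ} (hp : p ∈ symPow m T) :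
    ∃ P : MvPolynomial ι ℂ, P.IsHomogeneous m ∧
      ∀ ξ : T →L[ℂ] ℂ, p ξ = MvPolynomial.eval (fun i => ξ (e i)) P := by
  induction hp using Submodule.span_induction with
  | mem x hx =>
    obtain ⟨v, rfl⟩ := hx
    have hc : ∀ w : T, ∃ c : ι → ℂ, ∑ i, c i • e i = w := fun w => by
      have := he (Submodule.mem_top (x := w))
      exact (Submodule.mem_span_range_iff_exists_fun ℂ).1 this
    choose c hc using hc
    refine ⟨∏ j, ∑ i, MvPolynomial.C (c (v j) i) * MvPolynomial.X i, ?_, ?_⟩
    · have := MvPolynomial.IsHomogeneous.prod (Finset.univ : Finset (Fin m))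
        (fun j => ∑ i, MvPolynomial.C (c (v j) i) * MvPolynomial.X (R := ℂ) i) (fun _ => 1) (by
          intro j _
          apply MvPolynomial.IsHomogeneous.sum
          intro i _
          have h1 := (MvPolynomial.isHomogeneous_C ι (c (v j) i)).mul
            (MvPolynomial.isHomogeneous_X ℂ i)
          simpa using h1)
      simpa using this
    · intro ξ
      rw [map_prod]
      apply Finset.prod_congr rfl
      intro j _
      rw [map_sum]
      conv_lhs => rw [← hc (v j)]
      rw [map_sum]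
      apply Finset.sum_congr rfl
      intro i _
      simp
  | zero => exact ⟨0, MvPolynomial.isHomogeneous_zero _ _ _, fun ξ => by simp⟩
  | add y z _ _ hy hz =>
    obtain ⟨P, hP, h⟩ := hy
    obtain ⟨Q, hQ, h'⟩ := hz
    exact ⟨P + Q, hP.add hQ, fun ξ => by simp [h, h']⟩
  | smul a y _ hy =>
    obtain ⟨P, hP, h⟩ := hy
    refine ⟨MvPolynomial.C a * P, ?_, fun ξ => by simp [h]⟩
    have := (MvPolynomial.isHomogeneous_C ι a).mul hP
    simpa using this

lemma isSym_iff {m : ℕ} {p : (T →L[ℂ] ℂ) → ℂ} : IsSym m T p ↔ p ∈ symPow m T := by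
  constructor
  · rintro ⟨k, c, v, h⟩
    have h1 : p = fun ξ => ∑ j, c j * ∏ i, ξ (v j i) := funext h
    rw [h1]
    apply symPow_sum
    intro j _
    exact symPow_const_mul _ (symPow_prod _)
  · intro h
    induction h using Submodule.span_induction with
    | mem x hx =>
      obtain ⟨v, rfl⟩ := hx
      exact ⟨1, fun _ => 1, fun _ => v, fun ξ => by simp⟩
    | zero => exact ⟨0, Fin.elim0, Fin.elim0, fun ξ => by simp⟩
    | add y z _ _ hy hz =>
      obtain ⟨k, c, v, h⟩ := hy
      obtain ⟨k', c', v', h'⟩ := hz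
      refine ⟨k + k', Fin.append c c', Fin.append v v', fun ξ => ?_⟩
      rw [Fin.sum_univ_add, Pi.add_apply, h, h']
      simp
    | smul a y _ hy =>
      obtain ⟨k, c, v, h⟩ := hy
      refine ⟨k, fun j => a * c j, v, fun ξ => ?_⟩
      rw [Pi.smul_apply, h, smul_eq_mul, Finset.mul_sum]
      apply Finset.sum_congr rfl
      intro j _
      ring

end Pool.Agent.Lib.MP_cc389e_ag
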