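import Pool.Agent.Lib.MP_cc389e_ag.Tan
import Pool.Agent.Lib.MP_cc389e_ag.SymP

/-!
Sections of `Sym^m T_X ⊗ L` from equivariant functions on the multicone.
-/

open scoped Manifold ContDiff Topology
open Set Filter

noncomputable section

namespace Pool.Agent.Lib.MP_cc389e_ag

/-- the torus action as a linear map -/
def actL (l m n : ℂ) : V10 →L[ℂ] V10 :=
  LinearMap.toContinuousLinearMap
    { toFun := actX l m n
      map_add' := by
        intro z w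
        simp only [actX, Prod.fst_add, Prod.snd_add, smul_add, mul_add]
        rfl
      map_smul' := by
        intro c z
        simp only [actX, Prod.smul_fst, Prod.smul_snd, RingHom.id_apply, Prod.smul_mk, smul_eq_mul]
        refine Prod.ext ?_ (Prod.ext ?_ (Prod.ext ?_ ?_))
        · exact smul_comm _ _ _
        · exact smul_comm _ _ _
        · exact smul_comm _ _ _
        · dsimp only
          ring }

lemma actL_apply (l m n : ℂ) (z : V10) : actL l m n z = actX l m n z := rfl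

/-- `η` is a lift of the differential of `g` at the point `z` of the multicone -/
def Cov (g : atlX.X → ℂ) (z : V10) (η : V10 →L[ℂ] ℂ) : Prop :=
  ∀ γ w, IsCurve z γ w → HasDerivAt (fun τ => g (atlX.pt (γ τ))) (η w) 0

lemma Cov.agree {g : atlX.X → ℂ} {z : V10} {η η' : V10 →L[ℂ] ℂ} (h : Cov g z η) (h' : Cov g z η')
    (γ : ℂ → V10) (w : V10) (hγ : IsCurve z γ w) : η w = η' w :=
  (h γ w hγ).unique (h' γ w hγ)

lemma IsCurve.act {z : V10} {γ : ℂ → V10} {w : V10} (h : IsCurve z γ w) {l m n : ℂ}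
    (hl : l ≠ 0) (hm : m ≠ 0) (hn : n ≠ 0) :
    IsCurve (actX l m n z) (fun τ => actX l m n (γ τ)) (actX l m n w) := by
  obtain ⟨h1, h2, h3⟩ := h
  refine ⟨?_, ?_, ?_⟩
  · exact (actL l m n).hasFDerivAt.comp_hasDerivAt 0 h1
  · dsimp only
    rw [h2]
  · filter_upwards [h3] with τ hτ
    exact act_mem hl hm hn hτ

lemma Cov.act {g : atlX.X → ℂ} {z : V10} {η : V10 →L[ℂ] ℂ} {l m n : ℂ}
    (hl : l ≠ 0) (hm : m ≠ 0) (hn : n ≠ 0) (h : Cov g (actX l m n z) η) :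
    Cov g z (η.comp (actL l m n)) := by
  intro γ w hγ
  have h1 := h _ _ (hγ.act hl hm hn)
  refine h1.congr_of_eventuallyEq ?_
  filter_upwards [hγ.2.2] with τ hτ
  rw [ptX_act hτ hl hm hn]

/-- the covector at `z` induced by the differential of `g` in the chart `i` -/
def covOf (i : IX) (g : atlX.X → ℂ) (z : V10) : V10 →L[ℂ] ℂ :=
  (fderiv ℂ (fun u => g (atlX.pt (sliceX i u))) (coordX i z)).comp (fderiv ℂ (coordX i) z)

lemma contMDiffAt_pt_slice {i : IX} {u : Fin 5 → ℂ} (hu : u ∈ OmX i) :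
    ContMDiffAt 𝓘(ℂ, Fin 5 → ℂ) 𝓘(ℂ, Fin 5 → ℂ) ω (fun u => atlX.pt (sliceX i u)) u :=
  atlX.contMDiffAt_pt (contDiffAt_sliceX hu).contMDiffAt (Eventually.of_forall fun u => sliceX_mem i u)

lemma coord_mem_Om {i : IX} {z : V10} (hz : z ∈ ZX) (hO : z ∈ OX i) : coordX i z ∈ OmX i :=
  atlX.κ_Ω i ⟨z, hz⟩ hO

lemma pt_slice_coord {i : IX} {z : V10} (hz : z ∈ ZX) (hO : z ∈ OX i) :
    atlX.pt (sliceX i (coordX i z)) = atlX.pt z :=
  atlX.pt_σ_κ (i := i) hz hO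

lemma contDiffAt_slice_comp {i : IX} {g : atlX.X → ℂ} {z : V10} (hz : z ∈ ZX) (hO : z ∈ OX i)
    (hg : ContMDiffAt 𝓘(ℂ, Fin 5 → ℂ) 𝓘(ℂ, ℂ) ω g (atlX.pt z)) :
    ContDiffAt ℂ ω (fun u => g (atlX.pt (sliceX i u))) (coordX i z) := by
  have h1 := contMDiffAt_pt_slice (coord_mem_Om hz hO)
  rw [← pt_slice_coord hz hO] at hg
  exact (ContMDiffAt.comp (coordX i z) (g := g) (f := fun u => atlX.pt (sliceX i u)) hg h1).contDiffAt

lemma cov_covOf {i : IX} {g : atlX.X → ℂ} {z : V10} (hz : z ∈ ZX) (hO : z ∈ OX i)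
    (hg : ContMDiffAt 𝓘(ℂ, Fin 5 → ℂ) 𝓘(ℂ, ℂ) ω g (atlX.pt z)) : Cov g z (covOf i g z) := by
  intro γ w hγ
  have h1 := (contDiffAt_slice_comp hz hO hg).differentiableAt (by simp)
  have h2 := (contDiffAt_coordX hO).differentiableAt (by simp)
  have h3 : HasFDerivAt (fun z => g (atlX.pt (sliceX i (coordX i z)))) (covOf i g z) z :=
    HasFDerivAt.comp z (g := fun u => g (atlX.pt (sliceX i u))) (f := coordX i)
      h1.hasFDerivAt h2.hasFDerivAt
  obtain ⟨k1, k2, k3⟩ := hγ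
  rw [← k2] at h3
  have h4 := h3.comp_hasDerivAt 0 k1
  rw [k2] at h4
  refine h4.congr_of_eventuallyEq ?_
  have k4 : ∀ᶠ τ in 𝓝 0, γ τ ∈ OX i := by
    apply k1.continuousAt
    rw [k2]
    exact (isOpen_OX i).mem_nhds hO
  filter_upwards [k3, k4] with τ k5 k6
  simp only [Function.comp]
  rw [pt_slice_coord k5 k6]

/-- A function `F` on pairs (point of the multicone, covector) which is homogeneous of degree `m`
in the covector, holomorphic, only depends on the restriction of the covector to the tangent space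
and is equivariant of weight `χ`. -/
structure IsSymF (m : ℕ) (χ : ℂ → ℂ → ℂ → ℂ) (F : V10 → (V10 →L[ℂ] ℂ) → ℂ) : Prop where
  poly : ∀ z ∈ ZX, F z ∈ symPow m V10
  hol : ∀ z0 ∈ ZX, ∃ H : V10 × (V10 →L[ℂ] ℂ) → ℂ, (∀ η, ContDiffAt ℂ ω H (z0, η)) ∧
    ∀ᶠ z in 𝓝 z0, z ∈ ZX → ∀ η, F z η = H (z, η)
  inv : ∀ z ∈ ZX, ∀ (η : V10 →L[ℂ] ℂ) (a b : ℂ), F z (η + a • dF z + b • dPhi z) = F z η
  equi : ∀ z ∈ ZX, ∀ l m' n : ℂ, l ≠ 0 → m' ≠ 0 → n ≠ 0 → ∀ η,
    F (actX l m' n z) η = χ l m' n * F z (η.comp (actL l m' n))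

lemma IsSymF.cov_eq {m : ℕ} {χ : ℂ → ℂ → ℂ → ℂ} {F : V10 → (V10 →L[ℂ] ℂ) → ℂ}
    (hF : IsSymF m χ F) {g : atlX.X → ℂ} {z : V10} (hz : z ∈ ZX) {η η' : V10 →L[ℂ] ℂ}
    (h : Cov g z η) (h' : Cov g z η') : F z η = F z η' := by
  obtain ⟨a, b, hab⟩ := exists_combination hz (h.agree h')
  rw [hab, hF.inv z hz]

/-- the normalised representative -/
def nrm (x : atlX.X) : V10 := sliceX (atlX.idx x) (coordX (atlX.idx x) (atlX.rep x))

lemma nrm_mem (x : atlX.X) : nrm x ∈ ZX := sliceX_mem _ _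

lemma rep_mem_OX (x : atlX.X) : atlX.rep x ∈ OX (atlX.idx x) := atlX.idx_spec x

lemma pt_nrm (x : atlX.X) : atlX.pt (nrm x) = x := by
  unfold nrm
  rw [pt_slice_coord (atlX.rep_mem x) (rep_mem_OX x), atlX.pt_rep]

lemma coord_nrm (x : atlX.X) :
    coordX (atlX.idx x) (nrm x) = coordX (atlX.idx x) (atlX.rep x) := coord_slice _ _

lemma nrm_mem_OX (x : atlX.X) : nrm x ∈ OX (atlX.idx x) :=
  atlX.σ_O (atlX.idx x) _ (coord_mem_Om (atlX.rep_mem x) (rep_mem_OX x))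

/-- an index of a nonvanishing homogeneous coordinate -/
def kx (x : atlX.X) : Fin (107 + 1) :=
  (Function.ne_iff.1 (embX.s_ne (nrm x) (nrm_mem x))).choose

lemma kx_spec (x : atlX.X) : embX.s (nrm x) (kx x) ≠ 0 :=
  (Function.ne_iff.1 (embX.s_ne (nrm x) (nrm_mem x))).choose_spec

/-- the coefficient of a vector of the line with respect to the normalised generator -/
def coefx (x : atlX.X) (s : Fin (107 + 1) → ℂ) : ℂ := (embX.s (nrm x) (kx x))⁻¹ * s (kx x)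

lemma coefx_smul {x : atlX.X} {s : Fin (107 + 1) → ℂ} {c : ℂ}
    (h : s = c • embX.s (nrm x)) : coefx x s = c := by
  unfold coefx
  rw [h]
  have := kx_spec x
  simp only [Pi.smul_apply, smul_eq_mul]
  field_simp

lemma exists_coef {x : atlX.X} {s : Fin (107 + 1) → ℂ} (hs : s ∈ (embX.e x).submodule) {z : V10}
    (hz : z ∈ ZX) (h : atlX.pt z = x) : ∃ c : ℂ, s = c • embX.s z := by
  have h2 : (embX.e x).submodule = ℂ ∙ (embX.s z) := by
    rw [← h]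
    exact embX.submodule_pt hz
  have h1 : s ∈ (ℂ ∙ (embX.s z)) := h2.le hs
  rw [Submodule.mem_span_singleton] at h1
  obtain ⟨c, hc⟩ := h1
  exact ⟨c, hc.symm⟩

/-- the section associated to `F` -/
def secOf (F : V10 → (V10 →L[ℂ] ℂ) → ℂ) (x : atlX.X) (s : Fin (107 + 1) → ℂ)
    (ξ : TangentSpace 𝓘(ℂ, Fin 5 → ℂ) x →L[ℂ] ℂ) : ℂ :=
  coefx x s * F (nrm x) ((ξ : (Fin 5 → ℂ) →L[ℂ] ℂ).comp (fderiv ℂ (coordX (atlX.idx x)) (nrm x)))

/-- the local holomorphic lift in the chart `i` -/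
def liftX (i : IX) (x : atlX.X) : V10 := sliceX i (coordX i (atlX.rep x))

lemma pt_liftX {i : IX} {x : atlX.X} (h : atlX.rep x ∈ OX i) : atlX.pt (liftX i x) = x := by
  unfold liftX
  rw [pt_slice_coord (atlX.rep_mem x) h, atlX.pt_rep]

lemma liftX_mem (i : IX) (x : atlX.X) : liftX i x ∈ ZX := sliceX_mem _ _

lemma liftX_mem_OX {i : IX} {x : atlX.X} (h : atlX.rep x ∈ OX i) : liftX i x ∈ OX i :=
  atlX.σ_O i _ (coord_mem_Om (atlX.rep_mem x) h)

lemma coord_liftX (i : IX) (x : atlX.X) : coordX i (liftX i x) = coordX i (atlX.rep x) :=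
  coord_slice _ _

lemma contMDiffAt_coord_rep {i : IX} {x : atlX.X} (h : atlX.rep x ∈ OX i) :
    ContMDiffAt 𝓘(ℂ, Fin 5 → ℂ) 𝓘(ℂ, Fin 5 → ℂ) ω (fun x => coordX i (atlX.rep x)) x :=
  atlX.contMDiffAt_chart (i := i) h

lemma contMDiffAt_liftX {i : IX} {x : atlX.X} (h : atlX.rep x ∈ OX i) :
    ContMDiffAt 𝓘(ℂ, Fin 5 → ℂ) 𝓘(ℂ, V10) ω (liftX i) x := by
  have hu := coord_mem_Om (atlX.rep_mem x) h
  exact ContMDiffAt.comp x (g := sliceX i) (f := fun x => coordX i (atlX.rep x))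
    (contDiffAt_sliceX hu).contMDiffAt (contMDiffAt_coord_rep h)

/-- weight of the line bundle of the embedding -/
def chiA (l m n : ℂ) : ℂ := l ^ 4 * m ^ 2 * n

lemma embX_act (l m n : ℂ) (z : V10) : embX.s (actX l m n z) = chiA l m n • embX.s z := by
  funext k
  exact sX_act l m n z (eJ k)

lemma secOf_eq {m : ℕ} {F : V10 → (V10 →L[ℂ] ℂ) → ℂ} (hF : IsSymF m chiA F) {x : atlX.X}
    {g : atlX.X → ℂ} (hg : ContMDiffAt 𝓘(ℂ, Fin 5 → ℂ) 𝓘(ℂ, ℂ) ω g x) {s : Fin (107 + 1) → ℂ}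
    {z : V10} (hz : z ∈ ZX) (hpt : atlX.pt z = x) {i : IX} (hO : z ∈ OX i) {c : ℂ}
    (hc : s = c • embX.s z) :
    secOf F x s (mfderiv 𝓘(ℂ, Fin 5 → ℂ) 𝓘(ℂ, ℂ) g x) = c * F z (covOf i g z) := by
  obtain ⟨l, m', n, hl, hm, hn, hact⟩ : ∃ l m n : ℂ, l ≠ 0 ∧ m ≠ 0 ∧ n ≠ 0 ∧
      actX l m n (nrm x) = z := by
    rw [← ptX_eq (nrm_mem x) hz, pt_nrm, hpt]
  have h1 : (mfderiv 𝓘(ℂ, Fin 5 → ℂ) 𝓘(ℂ, ℂ) g x : (Fin 5 → ℂ) →L[ℂ] ℂ).comp
      (fderiv ℂ (coordX (atlX.idx x)) (nrm x)) = covOf (atlX.idx x) g (nrm x) := by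
    unfold covOf
    rw [coord_nrm]
    congr 1
    exact atlX.mfderiv_eq (hg.mdifferentiableAt (by simp))
  have h2 : coefx x s = c * chiA l m' n := by
    apply coefx_smul
    rw [hc, ← hact, embX_act, smul_smul]
  have h3 : Cov g (nrm x) (covOf (atlX.idx x) g (nrm x)) :=
    cov_covOf (nrm_mem x) (nrm_mem_OX x) (by rw [pt_nrm]; exact hg)
  have h4 : Cov g (nrm x) ((covOf i g z).comp (actL l m' n)) := by
    apply Cov.act hl hm hn
    rw [hact]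
    exact cov_covOf hz hO (by rw [hpt]; exact hg)
  have h5 := hF.equi (nrm x) (nrm_mem x) l m' n hl hm hn (covOf i g z)
  rw [hact] at h5
  have h6 := hF.cov_eq (nrm_mem x) h3 h4
  have h7 : F (nrm x) ((mfderiv 𝓘(ℂ, Fin 5 → ℂ) 𝓘(ℂ, ℂ) g x : (Fin 5 → ℂ) →L[ℂ] ℂ).comp
      (fderiv ℂ (coordX (atlX.idx x)) (nrm x))) = F (nrm x) (covOf (atlX.idx x) g (nrm x)) :=
    congrArg (F (nrm x)) h1
  refine (congrArg₂ (· * ·) h2 h7).trans ?_
  rw [h5, h6]
  ring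

theorem isSymSection_secOf {m : ℕ} {F : V10 → (V10 →L[ℂ] ℂ) → ℂ} (hF : IsSymF m chiA F) :
    IsSymSection (Fin 5 → ℂ) embX.e m (secOf F) := by
  refine ⟨?_, ?_⟩
  · intro x s _
    refine ⟨?_, ?_⟩
    · have h1 := symPow_const_mul (coefx x s) (symPow_comp (T := V10) (T' := Fin 5 → ℂ)
        (fderiv ℂ (coordX (atlX.idx x)) (nrm x)) (hF.poly (nrm x) (nrm_mem x)))
      exact isSym_iff.2 h1
    · intro c
      funext ξ
      have h1 : coefx x (c • s) = c * coefx x s := by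
        unfold coefx
        rw [Pi.smul_apply, smul_eq_mul]
        ring
      simp only [secOf, h1, Pi.smul_apply, smul_eq_mul]
      ring
  intro U s g hs hg x0 hx0
  apply ContMDiffAt.contMDiffWithinAt
  set i := atlX.idx x0 with hi
  have hO : atlX.rep x0 ∈ OX i := rep_mem_OX x0
  have hU : U ∈ 𝓝 x0 := hs.1.mem_nhds hx0
  obtain ⟨k, hk⟩ : ∃ k, embX.s (liftX i x0) k ≠ 0 :=
    Function.ne_iff.1 (embX.s_ne _ (liftX_mem i x0))
  have hlift := contMDiffAt_liftX hO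
  have hsl : ContMDiffAt 𝓘(ℂ, Fin 5 → ℂ) 𝓘(ℂ, Fin (107 + 1) → ℂ) ω (fun x => embX.s (liftX i x)) x0 :=
    ContMDiffAt.comp x0 (g := embX.s) (f := liftX i)
      (embX.s_an _ (liftX_mem i x0)).contMDiffAt hlift
  have hslk : ContMDiffAt 𝓘(ℂ, Fin 5 → ℂ) 𝓘(ℂ, ℂ) ω (fun x => embX.s (liftX i x) k) x0 :=
    ContMDiffAt.comp x0 (g := fun y : Fin (107 + 1) → ℂ => y k) (f := fun x => embX.s (liftX i x))
      (ContDiffAt.contMDiffAt (by fun_prop)) hsl
  have hsk : ContMDiffAt 𝓘(ℂ, Fin 5 → ℂ) 𝓘(ℂ, ℂ) ω (fun x => s x k) x0 :=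
    ContMDiffAt.comp x0 (g := fun y : Fin (107 + 1) → ℂ => y k) (f := s)
      (ContDiffAt.contMDiffAt (by fun_prop)) (hs.2.1.contMDiffAt hU)
  -- the coefficient
  have hcoef : ContMDiffAt 𝓘(ℂ, Fin 5 → ℂ) 𝓘(ℂ, ℂ) ω
      (fun x => s x k / embX.s (liftX i x) k) x0 := by
    have h1 : ContDiffAt ℂ ω (fun p : ℂ × ℂ => p.1 / p.2)
        (s x0 k, embX.s (liftX i x0) k) :=
      ContDiffAt.div (by fun_prop) (by fun_prop) hk
    exact ContMDiffAt.comp x0 (g := fun p : ℂ × ℂ => p.1 / p.2)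
      (f := fun x => (s x k, embX.s (liftX i x) k))
      h1.contMDiffAt (hsk.prodMk_space hslk)
  -- the value of `F`
  obtain ⟨H, hH, hHF⟩ := hF.hol (liftX i x0) (liftX_mem i x0)
  have hgx : ContMDiffAt 𝓘(ℂ, Fin 5 → ℂ) 𝓘(ℂ, ℂ) ω g x0 := hg.contMDiffAt hU
  have hcov : ContMDiffAt 𝓘(ℂ, Fin 5 → ℂ) 𝓘(ℂ, V10 →L[ℂ] ℂ) ω
      (fun x => covOf i g (liftX i x)) x0 := by
    have h1 : ContDiffAt ℂ ω (covOf i g) (liftX i x0) := by
      unfold covOf
      have h2 : ContDiffAt ℂ ω (coordX i) (liftX i x0) := contDiffAt_coordX (liftX_mem_OX hO)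
      have h3 : ContDiffAt ℂ ω (fderiv ℂ (coordX i)) (liftX i x0) := h2.fderiv_right (by simp)
      have h4 : ContDiffAt ℂ ω (fun u => g (atlX.pt (sliceX i u))) (coordX i (liftX i x0)) :=
        contDiffAt_slice_comp (liftX_mem i x0) (liftX_mem_OX hO) (by rw [pt_liftX hO]; exact hgx)
      have h5 : ContDiffAt ℂ ω (fderiv ℂ (fun u => g (atlX.pt (sliceX i u))))
          (coordX i (liftX i x0)) := h4.fderiv_right (by simp)
      have h6 : ContDiffAt ℂ ω (fun z => fderiv ℂ (fun u => g (atlX.pt (sliceX i u))) (coordX i z))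
          (liftX i x0) := h5.comp _ h2
      exact h6.clm_comp h3
    exact ContMDiffAt.comp x0 (g := covOf i g) (f := liftX i) h1.contMDiffAt hlift
  have hval : ContMDiffAt 𝓘(ℂ, Fin 5 → ℂ) 𝓘(ℂ, ℂ) ω
      (fun x => H (liftX i x, covOf i g (liftX i x))) x0 :=
    ContMDiffAt.comp x0 (g := H) (f := fun x => (liftX i x, covOf i g (liftX i x)))
      (hH _).contMDiffAt (hlift.prodMk_space hcov)
  have hprod : ContMDiffAt 𝓘(ℂ, Fin 5 → ℂ) 𝓘(ℂ, ℂ) ω
      (fun x => (s x k / embX.s (liftX i x) k) *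
        H (liftX i x, covOf i g (liftX i x))) x0 := hcoef.mul hval
  refine hprod.congr_of_eventuallyEq ?_
  have e1 : ∀ᶠ x in 𝓝 x0, atlX.rep x ∈ OX i := (atlX.chart i).open_source.mem_nhds hO
  have e2 : ∀ᶠ x in 𝓝 x0, embX.s (liftX i x) k ≠ 0 := hslk.continuousAt.eventually_ne hk
  have e3 := hlift.continuousAt.eventually hHF
  filter_upwards [e1, e2, e3, hU] with x k1 k2 k3 k4
  obtain ⟨c, hc⟩ := exists_coef (hs.2.2 x k4).1 (liftX_mem i x) (pt_liftX k1)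
  have h1 := secOf_eq hF (hg.contMDiffAt (hs.1.mem_nhds k4)) (liftX_mem i x) (pt_liftX k1)
    (liftX_mem_OX k1) hc
  refine h1.trans ?_
  rw [k3 (liftX_mem i x)]
  congr 1
  rw [hc]
  simp only [Pi.smul_apply, smul_eq_mul]
  field_simp

end Pool.Agent.Lib.MP_cc389e_ag
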