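import Pool.Agent.Lib.MP_cc389e_ag.Gen
import Pool.Agent.Lib.MP_cc389e_ag.EmbX

/-!
The tangent bundle of the total space is pseudo-effective.
-/

open scoped Manifold ContDiff Topology
open Set Filter

noncomputable section

namespace Pool.Agent.Lib.MP_cc389e_ag

lemma symPow_one_eq {T : Type} [TopologicalSpace T] [AddCommGroup T] [Module ℂ T]
    {p : (T →L[ℂ] ℂ) → ℂ} (hp : p ∈ symPow 1 T) : ∃ v : T, ∀ ξ : T →L[ℂ] ℂ, p ξ = ξ v := by
  induction hp using Submodule.span_induction with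
  | mem x hx =>
    obtain ⟨v, rfl⟩ := hx
    exact ⟨v 0, fun ξ => by simp⟩
  | zero => exact ⟨0, fun ξ => by simp⟩
  | add y z _ _ hy hz =>
    obtain ⟨v, hv⟩ := hy
    obtain ⟨w, hw⟩ := hz
    exact ⟨v + w, fun ξ => by simp [hv, hw]⟩
  | smul a y _ hy =>
    obtain ⟨v, hv⟩ := hy
    exact ⟨a • v, fun ξ => by simp [hv]⟩

section span

variable {c : ℕ → (Fin 3 → ℂ) → (Fin 3 → ℂ) → ℂ} {q1 q2 : ℕ → (Fin 3 → ℂ) → ℂ}

/-- the four fields -/
def fld : Fin 4 → V10 → V10 := ![fH1, fH2, fA1, fA2]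

lemma isSymF_fld (a : Fin 4) : IsSymF 1 (fun _ _ _ => 1) (fun z η => η (fld a z)) := by
  fin_cases a
  · exact isSymF_H1
  · exact isSymF_H2
  · exact isSymF_A1
  · exact isSymF_A2

/-- the main sections with the correct weight -/
def QQ (c : ℕ → (Fin 3 → ℂ) → (Fin 3 → ℂ) → ℂ) (q1 q2 : ℕ → (Fin 3 → ℂ) → ℂ) (j : ℕ) (z : V10)
    (η : V10 →L[ℂ] ℂ) : ℂ := Pj c q1 q2 j z η * (z.2.2.2 * z.1 0 ^ 3 * z.2.1 1)

lemma isSymF_QQ (hc : CData c) (hq : QData q1 q2) (j : ℕ) : IsSymF j chiA (QQ c q1 q2 j) := by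
  have h1 : IsSymF 0 (fun l m n => n * l ^ 3 * m)
      (fun (z : V10) (_ : V10 →L[ℂ] ℂ) => z.2.2.2 * z.1 0 ^ 3 * z.2.1 1) := by
    apply isSymF_fun
    · fun_prop
    · intro l m n z
      simp only [actX, Pi.smul_apply, smul_eq_mul]
      ring
  have h2 := (isSymF_Pj hc hq j).mul h1
  exact h2.weight (fun l k n _ _ _ => by unfold chiA; ring)

/-- The polynomial `P` in the vectors `ℓ` is the value of a section. -/
def Good (K : V10 →L[ℂ] (Fin 5 → ℂ)) (z : V10) (ℓ : Fin 5 → (Fin 5 → ℂ)) (m : ℕ)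
    (P : MvPolynomial (Fin 5) ℂ) : Prop :=
  ∃ F, IsSymF m chiA F ∧ ∀ ξ : (Fin 5 → ℂ) →L[ℂ] ℂ,
    F z (ξ.comp K) = MvPolynomial.eval (fun a => ξ (ℓ a)) P

variable {K : V10 →L[ℂ] (Fin 5 → ℂ)} {z : V10} {ℓ : Fin 5 → (Fin 5 → ℂ)}

lemma Good.add {m : ℕ} {P Q : MvPolynomial (Fin 5) ℂ} (hP : Good K z ℓ m P)
    (hQ : Good K z ℓ m Q) : Good K z ℓ m (P + Q) := by
  obtain ⟨F, hF, h⟩ := hP
  obtain ⟨F', hF', h'⟩ := hQ
  exact ⟨_, hF.add hF', fun ξ => by rw [h, h', map_add]⟩

lemma Good.smul {m : ℕ} {P : MvPolynomial (Fin 5) ℂ} (a : ℂ) (hP : Good K z ℓ m P) :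
    Good K z ℓ m (MvPolynomial.C a * P) := by
  obtain ⟨F, hF, h⟩ := hP
  exact ⟨_, hF.smul a, fun ξ => by rw [h, map_mul, MvPolynomial.eval_C]⟩

lemma Good.zero {m : ℕ} : Good K z ℓ m 0 := ⟨_, IsSymF.zero, fun ξ => by simp⟩

lemma Good.sum {m : ℕ} {ι : Type} {s : Finset ι} {f : ι → MvPolynomial (Fin 5) ℂ}
    (h : ∀ i ∈ s, Good K z ℓ m (f i)) : Good K z ℓ m (∑ i ∈ s, f i) := by
  classical
  induction s using Finset.induction_on with
  | empty => simpa using Good.zero
  | insert a s ha ih =>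
    rw [Finset.sum_insert ha]
    exact (h a (Finset.mem_insert_self a s)).add
      (ih fun i hi => h i (Finset.mem_insert_of_mem hi))

lemma Good.mulX {m : ℕ} {P : MvPolynomial (Fin 5) ℂ} (hP : Good K z ℓ m P) (a : Fin 4)
    (ha : K (fld a z) = ℓ a.castSucc) :
    Good K z ℓ (m + 1) (MvPolynomial.X a.castSucc * P) := by
  obtain ⟨F, hF, h⟩ := hP
  refine ⟨_, (hF.mul (isSymF_fld a)).weight (χ' := chiA) (fun l k n _ _ _ => by
    simp), fun ξ => ?_⟩
  rw [h, map_mul, MvPolynomial.eval_X, ContinuousLinearMap.comp_apply, ha]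
  ring

lemma eval_single {m : ℕ} {P : MvPolynomial (Fin 5) ℂ} (hP : P.IsHomogeneous m) :
    MvPolynomial.eval (Pi.single (Fin.last 4) 1 : Fin 5 → ℂ) P =
      P.coeff (Finsupp.single (Fin.last 4) m) := by
  rw [MvPolynomial.eval_eq]
  rw [Finset.sum_eq_single (Finsupp.single (Fin.last 4) m)]
  · have : ∏ i ∈ (Finsupp.single (Fin.last 4) m).support,
        (Pi.single (Fin.last 4) 1 : Fin 5 → ℂ) i ^ (Finsupp.single (Fin.last 4) m) i = 1 := by
      apply Finset.prod_eq_one
      intro i hi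
      have := Finsupp.support_single_subset hi
      rw [Finset.mem_singleton] at this
      rw [this]
      simp
    rw [this, mul_one]
  · intro d hd hne
    have hdeg := hP (MvPolynomial.mem_support_iff.1 hd)
    have hex : ∃ i, i ≠ Fin.last 4 ∧ d i ≠ 0 := by
      by_contra hcon
      push Not at hcon
      apply hne
      ext i
      by_cases hi : i = Fin.last 4
      · rw [hi, Finsupp.single_eq_same]
        have h2 : d = Finsupp.single (Fin.last 4) (d (Fin.last 4)) := by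
          ext k
          by_cases hk : k = Fin.last 4
          · rw [hk, Finsupp.single_eq_same]
          · rw [hcon k hk, Finsupp.single_eq_of_ne hk]
        rw [h2] at hdeg
        simpa [Finsupp.weight_apply] using hdeg
      · rw [hcon i hi, Finsupp.single_eq_of_ne hi]
    obtain ⟨i, hi, hdi⟩ := hex
    rw [Finset.prod_eq_zero (i := i) (Finsupp.mem_support_iff.2 hdi), mul_zero]
    rw [Pi.single_eq_of_ne hi, zero_pow hdi]
  · intro h
    rw [MvPolynomial.notMem_support_iff.1 h, zero_mul]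

lemma good_all (hF : ∀ a : Fin 4, K (fld a z) = ℓ a.castSucc)
    (hP : ∀ m, ∃ P : MvPolynomial (Fin 5) ℂ, P.IsHomogeneous m ∧ Good K z ℓ m P ∧
      P.coeff (Finsupp.single (Fin.last 4) m) ≠ 0) (m : ℕ) :
    ∀ s : Fin 5 →₀ ℕ, s.degree = m → Good K z ℓ m (MvPolynomial.monomial s 1) := by
  induction m with
  | zero =>
    intro s hs
    obtain ⟨P, h1, h2, h3⟩ := hP 0
    have hs0 : s = 0 := (Finsupp.degree_eq_zero_iff s).1 hs
    have hP0 : P = MvPolynomial.C (P.coeff 0) := by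
      have := MvPolynomial.totalDegree_eq_zero_iff_eq_C.1
        (Nat.le_zero.1 h1.totalDegree_le)
      exact this
    rw [Finsupp.single_zero] at h3
    have h4 := h2.smul (P.coeff 0)⁻¹
    rw [hP0, ← MvPolynomial.C_mul, MvPolynomial.coeff_C, if_pos rfl, inv_mul_cancel₀ h3] at h4
    rw [hs0]
    exact h4
  | succ m ih =>
    have key : ∀ s : Fin 5 →₀ ℕ, s.degree = m + 1 → s ≠ Finsupp.single (Fin.last 4) (m + 1) →
        Good K z ℓ (m + 1) (MvPolynomial.monomial s 1) := by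
      intro s hs hne
      have hex : ∃ i, i ≠ Fin.last 4 ∧ s i ≠ 0 := by
        by_contra hcon
        push Not at hcon
        apply hne
        have h2 : s = Finsupp.single (Fin.last 4) (s (Fin.last 4)) := by
          ext k
          by_cases hk : k = Fin.last 4
          · rw [hk, Finsupp.single_eq_same]
          · rw [hcon k hk, Finsupp.single_eq_of_ne hk]
        rw [h2, Finsupp.degree_single] at hs
        rw [h2, hs]
      obtain ⟨i, hi, hsi⟩ := hex
      obtain ⟨a, rfl⟩ := Fin.exists_castSucc_eq.2 hi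
      set s' : Fin 5 →₀ ℕ := s - Finsupp.single a.castSucc 1 with hs'
      have hle : Finsupp.single a.castSucc 1 ≤ s := by
        rw [Finsupp.single_le_iff]
        omega
      have hadd : s' + Finsupp.single a.castSucc 1 = s := tsub_add_cancel_of_le hle
      have hdeg : s'.degree = m := by
        have := congrArg Finsupp.degree hadd
        rw [map_add, Finsupp.degree_single, hs] at this
        omega
      have h1 := (ih s' hdeg).mulX a (hF a)
      have h2 : MvPolynomial.X a.castSucc * MvPolynomial.monomial s' (1 : ℂ) =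
          MvPolynomial.monomial s 1 := by
        rw [MvPolynomial.X, MvPolynomial.monomial_mul, one_mul, add_comm (Finsupp.single _ 1) s', hadd]
      rw [h2] at h1
      exact h1
    intro s hs
    by_cases hne : s = Finsupp.single (Fin.last 4) (m + 1)
    · obtain ⟨P, h1, h2, h3⟩ := hP (m + 1)
      rw [← hne] at h3
      have hsup : s ∈ P.support := MvPolynomial.mem_support_iff.2 h3
      have h4 : Good K z ℓ (m + 1)
          (∑ t ∈ P.support.erase s, MvPolynomial.C (-(P.coeff t)) * MvPolynomial.monomial t 1) := by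
        apply Good.sum
        intro t ht
        rw [Finset.mem_erase] at ht
        apply Good.smul
        apply key t
        · have := h1 (MvPolynomial.mem_support_iff.1 ht.2)
          rw [← this, Finsupp.degree_eq_weight_one]
          rfl
        · rw [← hne]
          exact ht.1
      have h5 := (h2.add h4).smul (P.coeff s)⁻¹
      have h6 : MvPolynomial.C (P.coeff s)⁻¹ * (P + ∑ t ∈ P.support.erase s,
          MvPolynomial.C (-(P.coeff t)) * MvPolynomial.monomial t 1) =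
          MvPolynomial.monomial s 1 := by
        have h7 : P = ∑ t ∈ P.support, MvPolynomial.C (P.coeff t) * MvPolynomial.monomial t 1 := by
          conv_lhs => rw [MvPolynomial.as_sum P]
          apply Finset.sum_congr rfl
          intro t _
          rw [MvPolynomial.C_mul_monomial, mul_one]
        have h8 : ∑ t ∈ P.support.erase s, MvPolynomial.C (-(P.coeff t)) *
            MvPolynomial.monomial t (1 : ℂ) = - ∑ t ∈ P.support.erase s,
            MvPolynomial.C (P.coeff t) * MvPolynomial.monomial t (1 : ℂ) := by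
          rw [← Finset.sum_neg_distrib]
          apply Finset.sum_congr rfl
          intro t _
          rw [MvPolynomial.C_neg]
          ring
        have h9 := Finset.add_sum_erase P.support
          (fun t => MvPolynomial.C (P.coeff t) * MvPolynomial.monomial t (1 : ℂ)) hsup
        rw [← h7] at h9
        rw [h8]
        have h10 : P + -∑ t ∈ P.support.erase s, MvPolynomial.C (P.coeff t) *
            MvPolynomial.monomial t (1 : ℂ) = MvPolynomial.C (P.coeff s) *
              MvPolynomial.monomial s 1 := by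
          rw [← sub_eq_add_neg, sub_eq_iff_eq_add]
          exact h9.symm
        rw [h10, ← mul_assoc, ← MvPolynomial.C_mul, inv_mul_cancel₀ h3, MvPolynomial.C_1, one_mul]
      rw [h6] at h5
      exact h5
    · exact key s hs hne

/-- generation at general points -/
lemma generic_span (hc : CData c) (hq : QData q1 q2) {i : IX} {u : Fin 5 → ℂ} (hu : u ∈ OmX i)
    {z : V10} (hzu : z = sliceX i u) (hG : Gen z) (m : ℕ) {p : ((Fin 5 → ℂ) →L[ℂ] ℂ) → ℂ}
    (hp : p ∈ symPow m (Fin 5 → ℂ)) :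
    ∃ F, IsSymF m chiA F ∧ ∀ ξ : (Fin 5 → ℂ) →L[ℂ] ℂ, F z (ξ.comp (fderiv ℂ (coordX i) z)) = p ξ := by
  have hz : z ∈ ZX := by rw [hzu]; exact sliceX_mem i u
  have hO : z ∈ OX i := by rw [hzu]; exact atlX.σ_O i u hu
  set K := fderiv ℂ (coordX i) z with hK
  obtain ⟨p1, hp1⟩ := symPow_one_eq ((isSymF_Pj hc hq 1).poly z hz)
  set ℓ : Fin 5 → (Fin 5 → ℂ) := Fin.snoc (n := 4) (α := fun _ => Fin 5 → ℂ)
    (fun a : Fin 4 => K (fld a z)) (K p1) with hℓ
  have hℓ1 : ∀ a : Fin 4, K (fld a z) = ℓ a.castSucc := fun a => by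
    rw [hℓ, Fin.snoc_castSucc]
  have hℓ2 : K p1 = ℓ (Fin.last 4) := by
    rw [hℓ, Fin.snoc_last]
  -- special covectors
  have hsp : ∀ ξ : (Fin 5 → ℂ) →L[ℂ] ℂ, (∀ a : Fin 4, ξ (ℓ a.castSucc) = 0) → ∀ j,
      Pj c q1 q2 j z (ξ.comp K) = z.1 0 * z.2.1 0 *
      (valD1 z (ξ.comp K) + valB1 z * ((al (ξ.comp K) 0 / z.1 0 ^ 3) *
        (z.1 0 * z.1 1 * z.1 2) ^ 2)) ^ j := by
    intro ξ hξ j
    have h3 : (ξ.comp K) (fA1 z) = 0 := by
      have := hξ 2
      rw [← hℓ1] at this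
      exact this
    have h4 : (ξ.comp K) (fA2 z) = 0 := by
      have := hξ 3
      rw [← hℓ1] at this
      exact this
    obtain ⟨k1, k2⟩ := special_of_kill hz hO hG (ξ := ξ) rfl h3 h4
    exact Pj_special hc hq hG.2.2.2.2.1 k1 k2 j
  have hspan : ⊤ ≤ Submodule.span ℂ (range ℓ) := by
    by_contra hcon
    have hlt : Submodule.span ℂ (range ℓ) < ⊤ := lt_top_iff_ne_top.2 fun h => hcon h.ge
    obtain ⟨f, hf, hfle⟩ := Submodule.exists_le_ker_of_lt_top _ hlt
    have hfl : ∀ a, f (ℓ a) = 0 := fun a => hfle (Submodule.subset_span ⟨a, rfl⟩)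
    set ξ : (Fin 5 → ℂ) →L[ℂ] ℂ := LinearMap.toContinuousLinearMap f with hξ
    have hξl : ∀ a, ξ (ℓ a) = 0 := hfl
    have h0 : ξ = 0 := by
      refine inj_key hu hzu hG (ξ := ξ) (η := ξ.comp K) rfl ?_ ?_ ?_ ?_ ?_
      · have := hξl (Fin.castSucc 0)
        rw [← hℓ1] at this
        exact this
      · have := hξl (Fin.castSucc 1)
        rw [← hℓ1] at this
        exact this
      · have := hξl (Fin.castSucc 2)
        rw [← hℓ1] at this
        exact this
      · have := hξl (Fin.castSucc 3)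
        rw [← hℓ1] at this
        exact this
      · have h1 := hsp ξ (fun a => hξl _) 1
        rw [hp1, ContinuousLinearMap.comp_apply, hℓ2, hξl, pow_one] at h1
        exact (mul_eq_zero.1 h1.symm).resolve_left (mul_ne_zero hG.1 hG.2.2.2.1)
    apply hf
    ext w
    have := congrArg (fun L : (Fin 5 → ℂ) →L[ℂ] ℂ => L (Pi.single w 1)) h0
    simpa [hξ] using this
  have hcard : Fintype.card (Fin 5) = Module.finrank ℂ (Fin 5 → ℂ) := by simp
  set B := basisOfTopLeSpanOfCardEqFinrank ℓ hspan hcard with hB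
  have hBl : ∀ a, B a = ℓ a := fun a => by rw [hB, coe_basisOfTopLeSpanOfCardEqFinrank]
  set ξ0 : (Fin 5 → ℂ) →L[ℂ] ℂ := LinearMap.toContinuousLinearMap (B.coord (Fin.last 4)) with hξ0
  have hξ0l : (fun a => ξ0 (ℓ a)) = (Pi.single (Fin.last 4) 1 : Fin 5 → ℂ) := by
    funext a
    rw [← hBl]
    change B.coord (Fin.last 4) (B a) = _
    rw [Module.Basis.coord_apply, Module.Basis.repr_self, Finsupp.single_apply, Pi.single_apply]
  have hP : ∀ m, ∃ P : MvPolynomial (Fin 5) ℂ, P.IsHomogeneous m ∧ Good K z ℓ m P ∧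
      P.coeff (Finsupp.single (Fin.last 4) m) ≠ 0 := by
    intro m
    have h1 := symPow_comp (T := V10) (T' := Fin 5 → ℂ) K ((isSymF_QQ hc hq m).poly z hz)
    obtain ⟨P, hPh, hPe⟩ := exists_mvPoly hspan h1
    refine ⟨P, hPh, ⟨_, isSymF_QQ hc hq m, hPe⟩, ?_⟩
    rw [← eval_single hPh, ← hξ0l, ← hPe ξ0]
    have hk : ∀ a : Fin 4, ξ0 (ℓ a.castSucc) = 0 := by
      intro a
      have := congrFun hξ0l a.castSucc
      rw [Pi.single_eq_of_ne (Fin.castSucc_lt_last a).ne] at this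
      exact this
    have h2 := hsp ξ0 hk 1
    have h3 : ξ0 (ℓ (Fin.last 4)) = 1 := by
      have := congrFun hξ0l (Fin.last 4)
      simpa using this
    rw [hp1, ContinuousLinearMap.comp_apply, hℓ2, h3, pow_one] at h2
    have h4 := hsp ξ0 hk m
    unfold QQ
    rw [h4]
    obtain ⟨g0, g1, g2, g3, g4, g5⟩ := hG
    refine mul_ne_zero (mul_ne_zero (mul_ne_zero g0 g3) (pow_ne_zero _ ?_))
      (mul_ne_zero (mul_ne_zero g5 (pow_ne_zero _ g0)) g4)
    intro h5
    rw [h5, mul_zero] at h2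
    exact one_ne_zero h2
  obtain ⟨P, hPh, hPe⟩ := exists_mvPoly hspan hp
  have hgood : Good K z ℓ m P := by
    rw [MvPolynomial.as_sum P]
    apply Good.sum
    intro t ht
    have h1 := (good_all hℓ1 hP m t (by
      have := hPh (MvPolynomial.mem_support_iff.1 ht)
      rw [← this, Finsupp.degree_eq_weight_one]
      rfl)).smul (P.coeff t)
    rw [MvPolynomial.C_mul_monomial, mul_one] at h1
    exact h1
  obtain ⟨F, hF, h⟩ := hgood
  exact ⟨F, hF, fun ξ => by rw [h, hPe]⟩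

/-- the general locus of the total space -/
def genX : Set atlX.X := {x | Gen (nrm x)}

lemma gen_act {l m n : ℂ} (hl : l ≠ 0) (hm : m ≠ 0) (hn : n ≠ 0) {z : V10} (h : Gen z) :
    Gen (actX l m n z) := by
  obtain ⟨g0, g1, g2, g3, g4, g5⟩ := h
  refine ⟨?_, ?_, ?_, ?_, ?_, ?_⟩ <;> simp only [actX, Pi.smul_apply, smul_eq_mul] <;>
    apply mul_ne_zero <;> assumption

lemma pt_mem_genX {z : V10} (hz : z ∈ ZX) : atlX.pt z ∈ genX ↔ Gen z := by
  obtain ⟨l, m, n, hl, hm, hn, h⟩ : ∃ l m n : ℂ, l ≠ 0 ∧ m ≠ 0 ∧ n ≠ 0 ∧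
      actX l m n (nrm (atlX.pt z)) = z := by
    rw [← ptX_eq (nrm_mem _) hz, pt_nrm]
  constructor
  · intro h1
    rw [← h]
    exact gen_act hl hm hn h1
  · intro h1
    have h2 : actX l⁻¹ m⁻¹ n⁻¹ z = nrm (atlX.pt z) := by
      rw [← h, act_act, inv_mul_cancel₀ hl, inv_mul_cancel₀ hm, inv_mul_cancel₀ hn, act_one, h]
    change Gen (nrm (atlX.pt z))
    rw [← h2]
    exact gen_act (inv_ne_zero hl) (inv_ne_zero hm) (inv_ne_zero hn) h1

lemma isOpen_genX : IsOpen genX := by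
  have h1 : IsOpen {z : V10 | Gen z} := by
    have e0 : IsOpen {z : V10 | z.1 0 ≠ 0} := isOpen_ne_fun (by fun_prop) (by fun_prop)
    have e1 : IsOpen {z : V10 | z.1 1 ≠ 0} := isOpen_ne_fun (by fun_prop) (by fun_prop)
    have e2 : IsOpen {z : V10 | z.1 2 ≠ 0} := isOpen_ne_fun (by fun_prop) (by fun_prop)
    have e3 : IsOpen {z : V10 | z.2.1 0 ≠ 0} := isOpen_ne_fun (by fun_prop) (by fun_prop)
    have e4 : IsOpen {z : V10 | z.2.1 1 ≠ 0} := isOpen_ne_fun (by fun_prop) (by fun_prop)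
    have e5 : IsOpen {z : V10 | z.2.2.2 ≠ 0} := isOpen_ne_fun (by fun_prop) (by fun_prop)
    exact e0.inter (e1.inter (e2.inter (e3.inter (e4.inter e5))))
  have h2 : genX = atlX.cls '' (Subtype.val ⁻¹' {z : V10 | Gen z}) := by
    ext x
    constructor
    · intro hx
      refine ⟨⟨nrm x, nrm_mem x⟩, hx, ?_⟩
      rw [← atlX.pt_of_mem (nrm_mem x), pt_nrm]
    · rintro ⟨z, hz, rfl⟩
      rw [← atlX.pt_of_mem z.2, pt_mem_genX z.2]
      exact hz
  rw [h2]
  exact atlX.isOpenMap_cls _ (h1.preimage continuous_subtype_val)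

lemma dense_genX : Dense genX := by
  intro x
  set i := atlX.idx x with hi
  have hO : atlX.rep x ∈ OX i := rep_mem_OX x
  set u := coordX i (atlX.rep x) with hu
  have huO : u ∈ OmX i := coord_mem_Om (atlX.rep_mem x) hO
  have hcont : ContinuousAt (fun u => atlX.pt (sliceX i u)) u :=
    (contMDiffAt_pt_slice huO).continuousAt
  have hx : atlX.pt (sliceX i u) = x := pt_nrm x
  have hdense : Dense {u' : Fin 5 → ℂ | ∀ k, u' k ≠ 0} := by
    have h1 : {u' : Fin 5 → ℂ | ∀ k, u' k ≠ 0} = Set.pi univ (fun _ => {0}ᶜ) := by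
      ext u'
      simp
    rw [h1]
    exact dense_pi univ fun _ _ => dense_compl_singleton 0
  rw [mem_closure_iff_nhds]
  intro N hN
  rw [← hx] at hN
  have h2 := hcont hN
  have h3 : (fun u => atlX.pt (sliceX i u)) ⁻¹' N ∩ OmX i ∈ 𝓝 u :=
    Filter.inter_mem h2 ((atlX.isOpen_Ω i).mem_nhds huO)
  obtain ⟨u', hu', hu'd⟩ := mem_closure_iff_nhds.1 (hdense u) _ h3
  refine ⟨atlX.pt (sliceX i u'), hu'.1, ?_⟩
  rw [pt_mem_genX (sliceX_mem i u')]
  have hbr : branch i.2.1.2.1 (u' 2) ≠ 0 := by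
    unfold branch
    exact mul_ne_zero i.2.1.2.2 (cbrt_ne_zero (Complex.slitPlane_ne_zero hu'.2))
  have hvperm : ∀ k, (sliceX i u').1 k ≠ 0 := by
    intro k
    obtain ⟨k', rfl⟩ := i.1.surjective k
    fin_cases k'
    · simp [sliceX, preslice]
    · simpa [sliceX, preslice] using hu'd 0
    · simpa [sliceX, preslice] using hu'd 1
  have hrperm : ∀ k, (sliceX i u').2.1 k ≠ 0 := by
    intro k
    obtain ⟨k', rfl⟩ := i.2.1.1.surjective k
    fin_cases k'
    · simp [sliceX, preslice]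
    · simpa [sliceX, preslice] using hbr
    · simpa [sliceX, preslice] using hu'd 2
  refine ⟨hvperm 0, hvperm 1, hvperm 2, hrperm 0, hrperm 1, ?_⟩
  rcases hb : i.2.2 with _ | _
  · simp [sliceX, preslice, hb]
  · simpa [sliceX, preslice, hb] using hu'd 4

/-- generic global generation -/
theorem generic_generation (hc : CData c) (hq : QData q1 q2) :
    GenericallyGenerated (Fin 5 → ℂ) embX.e := by
  intro m _
  refine ⟨genX, isOpen_genX, dense_genX, ?_⟩
  intro x hx s hs hs0 p hp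
  obtain ⟨a, ha⟩ := exists_coef hs (nrm_mem x) (pt_nrm x)
  have ha0 : a ≠ 0 := by
    rintro rfl
    exact hs0 (by rw [ha, zero_smul])
  have hp' : (fun ξ : (Fin 5 → ℂ) →L[ℂ] ℂ => a⁻¹ * p ξ) ∈ symPow m (Fin 5 → ℂ) :=
    symPow_const_mul a⁻¹ (isSym_iff.1 hp)
  obtain ⟨F, hF, hFe⟩ := generic_span hc hq (i := atlX.idx x)
    (u := coordX (atlX.idx x) (atlX.rep x)) (coord_mem_Om (atlX.rep_mem x) (rep_mem_OX x))
    (z := nrm x) rfl hx m hp'
  refine ⟨secOf F, isSymSection_secOf hF, ?_⟩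
  funext ξ
  have h1 : coefx x s = a := coefx_smul ha
  have h2 : secOf F x s ξ = a * (a⁻¹ * p ξ) := by
    unfold secOf
    rw [h1]
    congr 1
    exact hFe ξ
  rw [h2]
  field_simp

end span

end Pool.Agent.Lib.MP_cc389e_ag
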