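import Mathlib

/-!
Umbral evaluation of polynomials.
-/

open Polynomial

noncomputable section

namespace Pool.Agent.Lib.MP_cc389e_ag

/-- the linear functional sending `X ^ n` to `c n` -/
def umb (c : ℕ → ℂ) : ℂ[X] →ₗ[ℂ] ℂ := Polynomial.lsum fun n => LinearMap.mulRight ℂ (c n)

lemma umb_monomial (c : ℕ → ℂ) (n : ℕ) (a : ℂ) : umb c (monomial n a) = a * c n := by
  unfold umb
  rw [Polynomial.lsum_apply, Polynomial.sum_monomial_index]
  · simp
  · simp

lemma umb_C_mul_X_pow (c : ℕ → ℂ) (n : ℕ) (a : ℂ) : umb c (C a * X ^ n) = a * c n := by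
  rw [C_mul_X_pow_eq_monomial, umb_monomial]

lemma umb_C_mul (c : ℕ → ℂ) (a : ℂ) (p : ℂ[X]) : umb c (C a * p) = a * umb c p := by
  rw [← smul_eq_C_mul, map_smul, smul_eq_mul]

lemma umb_shift {c c' : ℕ → ℂ} {κ : ℂ}
    (h : ∀ n, c' n = ∑ l ∈ Finset.range (n + 1), (n.choose l : ℂ) * κ ^ (n - l) * c l) (p : ℂ[X]) :
    umb c' p = umb c (p.comp (X + C κ)) := by
  induction p using Polynomial.induction_on' with
  | add p q hp hq => rw [map_add, hp, hq, add_comp, map_add]
  | monomial n a =>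
    rw [umb_monomial, monomial_comp, umb_C_mul, h, add_pow, map_sum]
    congr 1
    apply Finset.sum_congr rfl
    intro l _
    have : (X : ℂ[X]) ^ l * C κ ^ (n - l) * ((n.choose l : ℕ) : ℂ[X]) =
        C ((n.choose l : ℂ) * κ ^ (n - l)) * X ^ l := by
      rw [C_mul, C_pow]
      simp only [map_natCast]
      ring
    rw [this, umb_C_mul_X_pow]

lemma umb_scale {c c' : ℕ → ℂ} {k t : ℂ} (h : ∀ n, c' n = k * t ^ n * c n) (p : ℂ[X]) :
    umb c' p = k * umb c (p.comp (C t * X)) := by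
  induction p using Polynomial.induction_on' with
  | add p q hp hq => rw [map_add, hp, hq, add_comp, map_add]; ring
  | monomial n a =>
    rw [umb_monomial, monomial_comp, umb_C_mul, h, mul_pow, ← C_pow, umb_C_mul_X_pow]
    ring

/-- `(A q + B)^j` with umbral `q` -/
def qpow (q : ℕ → ℂ) (j : ℕ) (A B : ℂ[X]) : ℂ[X] :=
  ∑ i ∈ Finset.range (j + 1), C ((j.choose i : ℂ) * q i) * A ^ i * B ^ (j - i)

lemma qpow_comp (q : ℕ → ℂ) (j : ℕ) (A B p : ℂ[X]) :
    (qpow q j A B).comp p = qpow q j (A.comp p) (B.comp p) := by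
  unfold qpow
  rw [← Polynomial.coe_compRingHom_apply, map_sum]
  apply Finset.sum_congr rfl
  intro i _
  simp only [Polynomial.coe_compRingHom_apply, mul_comp, pow_comp, C_comp]

lemma qpow_smul (q : ℕ → ℂ) (k : ℂ) (j : ℕ) (A B : ℂ[X]) :
    qpow (fun n => k * q n) j A B = C k * qpow q j A B := by
  unfold qpow
  rw [Finset.mul_sum]
  apply Finset.sum_congr rfl
  intro i _
  simp only [C_mul]
  ring

lemma qpow_shift {q q' : ℕ → ℂ} {κ : ℂ}
    (h : ∀ n, q' n = ∑ i ∈ Finset.range (n + 1), (n.choose i : ℂ) * κ ^ (n - i) * q i)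
    (j : ℕ) (A B : ℂ[X]) : qpow q' j A B = qpow q j A (B + C κ * A) := by
  unfold qpow
  simp only [h, Finset.mul_sum, map_sum, Finset.sum_mul]
  rw [Finset.sum_comm' (s' := fun i => Finset.Ico i (j + 1)) (t' := Finset.range (j + 1)) (by
    intro x y
    simp only [Finset.mem_range, Finset.mem_Ico]
    omega)]
  apply Finset.sum_congr rfl
  intro i hi
  have hij : i ≤ j := by
    rw [Finset.mem_range] at hi
    omega
  rw [Finset.sum_Ico_eq_sum_range, show j + 1 - i = j - i + 1 by omega, add_comm B, add_pow,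
    Finset.mul_sum]
  apply Finset.sum_congr rfl
  intro k hk
  have hk' : k ≤ j - i := by
    rw [Finset.mem_range] at hk
    omega
  have h1 : (j.choose (i + k) : ℂ) * ((i + k).choose i : ℂ) = (j.choose i : ℂ) * ((j - i).choose k : ℂ) := by
    have := Nat.choose_mul (n := j) (k := i + k) (s := i) (by omega)
    rw [show i + k - i = k by omega] at this
    exact_mod_cast this
  rw [show i + k - i = k by omega, show j - (i + k) = j - i - k by omega]
  have h2 : (((j - i).choose k : ℕ) : ℂ[X]) = C ((j - i).choose k : ℂ) := by simp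
  rw [h2, mul_pow, ← C_pow, pow_add]
  have h3 : C ((j.choose (i + k) : ℂ) * (((i + k).choose i : ℂ) * κ ^ k * q i)) =
      C ((j.choose i : ℂ) * q i) * C (κ ^ k) * C ((j - i).choose k : ℂ) := by
    rw [← C_mul, ← C_mul]
    congr 1
    linear_combination (κ ^ k * q i) * h1
  rw [h3]
  ring

/-- explicit value -/
lemma umb_pow_mul_pow (c : ℕ → ℂ) (R S D β : ℂ) (i k : ℕ) :
    umb c ((C R - C S * X) ^ i * (C D + C β * X) ^ k) =
      ∑ a ∈ Finset.range (i + 1), ∑ b ∈ Finset.range (k + 1),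
        ((i.choose a : ℂ) * (-S) ^ a * R ^ (i - a)) * ((k.choose b : ℂ) * β ^ b * D ^ (k - b))
          * c (a + b) := by
  have h1 : (C R - C S * X : ℂ[X]) ^ i = ∑ a ∈ Finset.range (i + 1),
      C ((i.choose a : ℂ) * (-S) ^ a * R ^ (i - a)) * X ^ a := by
    rw [show (C R - C S * X : ℂ[X]) = C (-S) * X + C R by rw [C_neg]; ring, add_pow]
    apply Finset.sum_congr rfl
    intro a _
    rw [mul_pow, C_mul, C_mul, C_pow, C_pow]
    simp only [map_natCast]
    ring
  have h2 : (C D + C β * X : ℂ[X]) ^ k = ∑ b ∈ Finset.range (k + 1),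
      C ((k.choose b : ℂ) * β ^ b * D ^ (k - b)) * X ^ b := by
    rw [add_comm, add_pow]
    apply Finset.sum_congr rfl
    intro a _
    rw [mul_pow, C_mul, C_mul, C_pow, C_pow]
    simp only [map_natCast]
    ring
  rw [h1, h2, Finset.sum_mul_sum, map_sum]
  apply Finset.sum_congr rfl
  intro a _
  rw [map_sum]
  apply Finset.sum_congr rfl
  intro b _
  have h3 : C ((i.choose a : ℂ) * (-S) ^ a * R ^ (i - a)) * (X : ℂ[X]) ^ a *
      (C ((k.choose b : ℂ) * β ^ b * D ^ (k - b)) * X ^ b) =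
      C (((i.choose a : ℂ) * (-S) ^ a * R ^ (i - a)) * ((k.choose b : ℂ) * β ^ b * D ^ (k - b)))
        * X ^ (a + b) := by
    simp only [C_mul, pow_add]
    ring
  rw [h3, umb_C_mul_X_pow]

/-- umbral value in both variables -/
def PP (c q : ℕ → ℂ) (R S D β : ℂ) (j : ℕ) : ℂ :=
  umb c (qpow q j (C R - C S * X) (C D + C β * X))

lemma PP_eq (c q : ℕ → ℂ) (R S D β : ℂ) (j : ℕ) :
    PP c q R S D β j = ∑ i ∈ Finset.range (j + 1), ((j.choose i : ℂ) * q i) *
      ∑ a ∈ Finset.range (i + 1), ∑ b ∈ Finset.range (j - i + 1),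
        ((i.choose a : ℂ) * (-S) ^ a * R ^ (i - a)) *
          (((j - i).choose b : ℂ) * β ^ b * D ^ (j - i - b)) * c (a + b) := by
  unfold PP qpow
  rw [map_sum]
  apply Finset.sum_congr rfl
  intro i _
  rw [mul_assoc, umb_C_mul, umb_pow_mul_pow]

/-- invariance under translations of `T` -/
lemma PP_shift {c c' : ℕ → ℂ} {κ : ℂ}
    (h : ∀ n, c' n = ∑ l ∈ Finset.range (n + 1), (n.choose l : ℂ) * κ ^ (n - l) * c l)
    (q : ℕ → ℂ) (R S D β : ℂ) (j : ℕ) :
    PP c' q (R + S * κ) S (D - β * κ) β j = PP c q R S D β j := by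
  unfold PP
  rw [umb_shift h, qpow_comp]
  congr 2
  · simp only [C_add, C_mul, sub_comp, add_comp, C_comp, mul_comp, X_comp]
    ring
  · simp only [C_sub, C_mul, sub_comp, add_comp, C_comp, mul_comp, X_comp]
    ring

/-- change of the second variable -/
lemma PP_change {q q' : ℕ → ℂ} {κ : ℂ}
    (h : ∀ n, q' n = ∑ i ∈ Finset.range (n + 1), (n.choose i : ℂ) * κ ^ (n - i) * q i)
    (c : ℕ → ℂ) (R S D β : ℂ) (j : ℕ) :
    PP c q' R S D β j = PP c q R S (D + κ * R) (β - κ * S) j := by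
  unfold PP
  rw [qpow_shift h]
  congr 2
  simp only [C_add, C_sub, C_mul]
  ring

/-- homogeneity -/
lemma PP_scale {c c' q q' : ℕ → ℂ} {k t s : ℂ} (hc : ∀ n, c' n = k * t ^ n * c n)
    (hq : ∀ n, q' n = s * q n) (R S D β : ℂ) (j : ℕ) :
    PP c' q' R S D β j = k * s * PP c q R (S * t) D (β * t) j := by
  unfold PP
  have hq' : q' = fun n => s * q n := funext hq
  have h1 : (C R - C S * X : ℂ[X]).comp (C t * X) = C R - C (S * t) * X := by
    simp only [C_mul, sub_comp, C_comp, mul_comp, X_comp]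
    ring
  have h2 : (C D + C β * X : ℂ[X]).comp (C t * X) = C D + C (β * t) * X := by
    simp only [C_mul, add_comp, C_comp, mul_comp, X_comp]
    ring
  rw [umb_scale hc, hq', qpow_smul, mul_comp, C_comp, umb_C_mul, qpow_comp, h1, h2]
  ring

end Pool.Agent.Lib.MP_cc389e_ag
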