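import Pool.Agent.Lib.MP_cc389e_ag.SecOf
import Pool.Agent.Lib.MP_cc389e_ag.Umb

/-!
The equivariant functions used to construct sections.
-/

open scoped Manifold ContDiff Topology
open Set Filter

noncomputable section

namespace Pool.Agent.Lib.MP_cc389e_ag

section closure

variable {m n : ℕ} {χ χ' : ℂ → ℂ → ℂ → ℂ} {F G : V10 → (V10 →L[ℂ] ℂ) → ℂ}

lemma IsSymF.mul (hF : IsSymF m χ F) (hG : IsSymF n χ' G) :
    IsSymF (m + n) (fun l k j => χ l k j * χ' l k j) (fun z η => F z η * G z η) where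
  poly := fun z hz => symPow_mul (hF.poly z hz) (hG.poly z hz)
  hol := by
    intro z0 hz0
    obtain ⟨H, h1, h2⟩ := hF.hol z0 hz0
    obtain ⟨H', h1', h2'⟩ := hG.hol z0 hz0
    refine ⟨fun p => H p * H' p, fun η => (h1 η).mul (h1' η), ?_⟩
    filter_upwards [h2, h2'] with z h3 h4 hz η
    rw [h3 hz, h4 hz]
  inv := fun z hz η a b => by rw [hF.inv z hz, hG.inv z hz]
  equi := fun z hz l m' n' hl hm hn η => by
    rw [hF.equi z hz l m' n' hl hm hn, hG.equi z hz l m' n' hl hm hn]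
    ring

lemma IsSymF.add (hF : IsSymF m χ F) (hG : IsSymF m χ G) :
    IsSymF m χ (fun z η => F z η + G z η) where
  poly := fun z hz => (symPow m V10).add_mem (hF.poly z hz) (hG.poly z hz)
  hol := by
    intro z0 hz0
    obtain ⟨H, h1, h2⟩ := hF.hol z0 hz0
    obtain ⟨H', h1', h2'⟩ := hG.hol z0 hz0
    refine ⟨fun p => H p + H' p, fun η => (h1 η).add (h1' η), ?_⟩
    filter_upwards [h2, h2'] with z h3 h4 hz η
    rw [h3 hz, h4 hz]
  inv := fun z hz η a b => by rw [hF.inv z hz, hG.inv z hz]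
  equi := fun z hz l m' n' hl hm hn η => by
    rw [hF.equi z hz l m' n' hl hm hn, hG.equi z hz l m' n' hl hm hn]
    ring

lemma IsSymF.smul (c : ℂ) (hF : IsSymF m χ F) : IsSymF m χ (fun z η => c * F z η) where
  poly := fun z hz => (symPow m V10).smul_mem c (hF.poly z hz)
  hol := by
    intro z0 hz0
    obtain ⟨H, h1, h2⟩ := hF.hol z0 hz0
    refine ⟨fun p => c * H p, fun η => contDiffAt_const.mul (h1 η), ?_⟩
    filter_upwards [h2] with z h3 hz η
    rw [h3 hz]
  inv := fun z hz η a b => by rw [hF.inv z hz]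
  equi := fun z hz l m' n' hl hm hn η => by
    rw [hF.equi z hz l m' n' hl hm hn]
    ring

lemma IsSymF.zero : IsSymF m χ (fun _ _ => 0) where
  poly := fun _ _ => (symPow m V10).zero_mem
  hol := fun z0 _ => ⟨fun _ => 0, fun _ => contDiffAt_const, Eventually.of_forall fun _ _ _ => rfl⟩
  inv := fun _ _ _ _ _ => rfl
  equi := fun _ _ _ _ _ _ _ _ _ => by simp

lemma IsSymF.weight (hF : IsSymF m χ F)
    (h : ∀ l k j : ℂ, l ≠ 0 → k ≠ 0 → j ≠ 0 → χ l k j = χ' l k j) : IsSymF m χ' F where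
  poly := hF.poly
  hol := hF.hol
  inv := hF.inv
  equi := fun z hz l m' n' hl hm hn η => by
    rw [hF.equi z hz l m' n' hl hm hn, h l m' n' hl hm hn]

end closure

/-- functions of the point -/
lemma isSymF_fun {χ : ℂ → ℂ → ℂ → ℂ} {f : V10 → ℂ} (hf : ContDiff ℂ ω f)
    (h : ∀ l m n z, f (actX l m n z) = χ l m n * f z) : IsSymF 0 χ (fun z _ => f z) where
  poly := fun z _ => symPow_zero (f z)
  hol := fun z0 _ => ⟨fun p => f p.1, fun η => by
    have h1 : ContDiff ℂ ω (fun p : V10 × (V10 →L[ℂ] ℂ) => f p.1) := hf.comp contDiff_fst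
    exact h1.contDiffAt, Eventually.of_forall fun _ _ _ => rfl⟩
  inv := fun _ _ _ _ _ => rfl
  equi := fun z _ l m n _ _ _ _ => h l m n z

/-- vector fields -/
lemma isSymF_vec {w : V10 → V10} (hw : ContDiff ℂ ω w) (h1 : ∀ z ∈ ZX, dF z (w z) = 0)
    (h2 : ∀ z ∈ ZX, dPhi z (w z) = 0)
    (h : ∀ l m n z, w (actX l m n z) = actX l m n (w z)) :
    IsSymF 1 (fun _ _ _ => 1) (fun z η => η (w z)) where
  poly := fun z _ => symPow_one (w z)
  hol := fun z0 _ => ⟨fun p => p.2 (w p.1), fun η => by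
    have h1 : ContDiff ℂ ω (fun p : V10 × (V10 →L[ℂ] ℂ) => p.2 (w p.1)) :=
      contDiff_snd.clm_apply (hw.comp contDiff_fst)
    exact h1.contDiffAt, Eventually.of_forall fun _ _ _ => rfl⟩
  inv := fun z hz η a b => by simp [h1 z hz, h2 z hz]
  equi := fun z _ l m n _ _ _ η => by
    rw [h, one_mul]
    rfl

/-- torus field -/
def fH1 (z : V10) : V10 :=
  (![z.1 0, -z.1 1, 0], 0, ![-(3 * z.2.2.1 0), 3 * z.2.2.1 1, 0], 0)

/-- torus field -/
def fH2 (z : V10) : V10 :=
  (![0, z.1 1, -z.1 2], 0, ![0, -(3 * z.2.2.1 1), 3 * z.2.2.1 2], 0)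

/-- field along the fibres of the projective bundle -/
def fA1 (z : V10) : V10 :=
  (0, 0, ![-(z.2.2.2 * z.2.1 1 * z.1 1 ^ 3), z.2.2.2 * z.2.1 1 * z.1 0 ^ 3, 0], 0)

/-- field along the fibres of the projective bundle -/
def fA2 (z : V10) : V10 :=
  (0, 0, ![0, -(z.2.2.2 * z.2.1 1 * z.1 2 ^ 3), z.2.2.2 * z.2.1 1 * z.1 1 ^ 3], 0)

lemma contDiff_vec3 {a b c : V10 → ℂ} (ha : ContDiff ℂ ω a) (hb : ContDiff ℂ ω b)
    (hc : ContDiff ℂ ω c) : ContDiff ℂ ω (fun z => (![a z, b z, c z] : Fin 3 → ℂ)) := by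
  rw [contDiff_pi]
  intro i
  fin_cases i
  · exact ha
  · exact hb
  · exact hc

lemma isSymF_H1 : IsSymF 1 (fun _ _ _ => 1) (fun z η => η (fH1 z)) := by
  apply isSymF_vec
  · unfold fH1
    refine ContDiff.prodMk (contDiff_vec3 ?_ ?_ ?_) (ContDiff.prodMk contDiff_const
      (ContDiff.prodMk (contDiff_vec3 ?_ ?_ ?_) contDiff_const)) <;> fun_prop
  · intro z _
    simp [dF_apply, fH1]
  · intro z _
    simp [dPhi_apply, fH1]
    ring
  · intro l m n z
    simp only [fH1, actX]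
    refine Prod.ext ?_ (Prod.ext ?_ (Prod.ext ?_ ?_))
    · funext i; fin_cases i <;> simp
    · simp
    · funext i; fin_cases i <;> simp <;> ring
    · simp

lemma isSymF_H2 : IsSymF 1 (fun _ _ _ => 1) (fun z η => η (fH2 z)) := by
  apply isSymF_vec
  · unfold fH2
    refine ContDiff.prodMk (contDiff_vec3 ?_ ?_ ?_) (ContDiff.prodMk contDiff_const
      (ContDiff.prodMk (contDiff_vec3 ?_ ?_ ?_) contDiff_const)) <;> fun_prop
  · intro z _
    simp [dF_apply, fH2]
  · intro z _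
    simp [dPhi_apply, fH2]
    ring
  · intro l m n z
    simp only [fH2, actX]
    refine Prod.ext ?_ (Prod.ext ?_ (Prod.ext ?_ ?_))
    · funext i; fin_cases i <;> simp
    · simp
    · funext i; fin_cases i <;> simp <;> ring
    · simp

lemma isSymF_A1 : IsSymF 1 (fun _ _ _ => 1) (fun z η => η (fA1 z)) := by
  apply isSymF_vec
  · unfold fA1
    refine ContDiff.prodMk contDiff_const (ContDiff.prodMk contDiff_const
      (ContDiff.prodMk (contDiff_vec3 ?_ ?_ ?_) contDiff_const)) <;> fun_prop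
  · intro z _
    simp [dF_apply, fA1]
  · intro z _
    simp [dPhi_apply, fA1]
    ring
  · intro l m n z
    simp only [fA1, actX]
    refine Prod.ext ?_ (Prod.ext ?_ (Prod.ext ?_ ?_))
    · simp
    · simp
    · funext i; fin_cases i <;> simp <;> ring
    · simp

lemma isSymF_A2 : IsSymF 1 (fun _ _ _ => 1) (fun z η => η (fA2 z)) := by
  apply isSymF_vec
  · unfold fA2
    refine ContDiff.prodMk contDiff_const (ContDiff.prodMk contDiff_const
      (ContDiff.prodMk (contDiff_vec3 ?_ ?_ ?_) contDiff_const)) <;> fun_prop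
  · intro z _
    simp [dF_apply, fA2]
  · intro z _
    simp [dPhi_apply, fA2]
    ring
  · intro l m n z
    simp only [fA2, actX]
    refine Prod.ext ?_ (Prod.ext ?_ (Prod.ext ?_ ?_))
    · simp
    · simp
    · funext i; fin_cases i <;> simp <;> ring
    · simp

/-- basis vectors -/
def eA (i : Fin 3) : V10 := (0, 0, Pi.single i 1, 0)
/-- basis vectors -/
def eR (i : Fin 3) : V10 := (0, Pi.single i 1, 0, 0)

/-- components of a covector -/
def al (η : V10 →L[ℂ] ℂ) (i : Fin 3) : ℂ := η (eA i)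
/-- components of a covector -/
def rh (η : V10 →L[ℂ] ℂ) (i : Fin 3) : ℂ := η (eR i)

/-- properties of the umbral polynomials on the plane -/
structure CData (c : ℕ → (Fin 3 → ℂ) → (Fin 3 → ℂ) → ℂ) : Prop where
  zero : ∀ v α, c 0 v α = v 0
  an : ∀ n, ContDiff ℂ ω (fun p : (Fin 3 → ℂ) × (Fin 3 → ℂ) => c n p.1 p.2)
  hom : ∀ n v α (a b : ℂ), c n (a • v) (b • α) = a ^ (3 * n + 1) * b ^ n * c n v α
  shift : ∀ n v α (κ : ℂ), c n v (fun i => α i + κ * v i ^ 3) =
      ∑ l ∈ Finset.range (n + 1),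
        (n.choose l : ℂ) * (κ * (v 0 * v 1 * v 2) ^ 2) ^ (n - l) * c l v α
  poly : ∀ n v, ∃ p : MvPolynomial (Fin 3) ℂ, p.IsHomogeneous n ∧
    ∀ α, c n v α = MvPolynomial.eval α p

/-- properties of the umbral sequences on the cubic -/
structure QData (q1 q2 : ℕ → (Fin 3 → ℂ) → ℂ) : Prop where
  zero1 : ∀ r, q1 0 r = r 0
  zero2 : ∀ r, q2 0 r = r 0
  an1 : ∀ n r, r 1 ≠ 0 → ContDiffAt ℂ ω (q1 n) r
  an2 : ∀ n r, r 2 ≠ 0 → ContDiffAt ℂ ω (q2 n) r
  hom1 : ∀ n (a : ℂ) r, a ≠ 0 → q1 n (a • r) = a * q1 n r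
  hom2 : ∀ n (a : ℂ) r, a ≠ 0 → q2 n (a • r) = a * q2 n r
  change : ∀ n r, r 0 ^ 3 + r 1 ^ 3 + r 2 ^ 3 = 0 → r 1 ≠ 0 → r 2 ≠ 0 →
      q2 n r = ∑ i ∈ Finset.range (n + 1),
        (n.choose i : ℂ) * (r 0 ^ 2 / (r 1 * r 2)) ^ (n - i) * q1 i r

/-- the contraction with the Euler field of the cubic -/
def valR (z : V10) (η : V10 →L[ℂ] ℂ) : ℂ := rh η 0 * z.2.1 0 + rh η 1 * z.2.1 1 + rh η 2 * z.2.1 2
/-- coefficient -/
def valS (z : V10) : ℂ := z.2.2.2 * z.2.1 0
/-- field on the first chart -/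
def valD1 (z : V10) (η : V10 →L[ℂ] ℂ) : ℂ :=
  (z.2.1 0 ^ 2 * rh η 2 - z.2.1 2 ^ 2 * rh η 0) / z.2.1 1
/-- coefficient -/
def valB1 (z : V10) : ℂ := z.2.2.2 * z.2.1 2 ^ 2 / z.2.1 1
/-- field on the second chart -/
def valD2 (z : V10) (η : V10 →L[ℂ] ℂ) : ℂ :=
  (z.2.1 1 ^ 2 * rh η 0 - z.2.1 0 ^ 2 * rh η 1) / z.2.1 2
/-- coefficient -/
def valB2 (z : V10) : ℂ := -(z.2.2.2 * z.2.1 1 ^ 2) / z.2.1 2

variable (c : ℕ → (Fin 3 → ℂ) → (Fin 3 → ℂ) → ℂ) (q1 q2 : ℕ → (Fin 3 → ℂ) → ℂ)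

/-- first chart -/
def Pj1 (j : ℕ) (z : V10) (η : V10 →L[ℂ] ℂ) : ℂ :=
  PP (fun n => c n z.1 (al η)) (fun n => q1 n z.2.1) (valR z η) (valS z) (valD1 z η) (valB1 z) j

/-- second chart -/
def Pj2 (j : ℕ) (z : V10) (η : V10 →L[ℂ] ℂ) : ℂ :=
  PP (fun n => c n z.1 (al η)) (fun n => q2 n z.2.1) (valR z η) (valS z) (valD2 z η) (valB2 z) j

open Classical in
/-- the main equivariant functions -/
def Pj (j : ℕ) (z : V10) (η : V10 →L[ℂ] ℂ) : ℂ :=
  if z.2.1 1 = 0 then Pj2 c q2 j z η else Pj1 c q1 j z η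

variable {c q1 q2}

lemma Pj1_eq_Pj2 (hq : QData q1 q2) {z : V10} (hz : z ∈ ZX) (h1 : z.2.1 1 ≠ 0) (h2 : z.2.1 2 ≠ 0)
    (j : ℕ) (η : V10 →L[ℂ] ℂ) : Pj2 c q2 j z η = Pj1 c q1 j z η := by
  unfold Pj1 Pj2
  rw [PP_change (fun n => hq.change n z.2.1 hz.2.1.2 h1 h2)]
  have e := hz.2.1.2
  congr 1
  · unfold valD1 valD2 valR
    field_simp
    linear_combination (rh η 0) * e
  · unfold valB1 valB2 valS
    field_simp
    linear_combination (-z.2.2.2) * e

lemma al_comp (l m n : ℂ) (η : V10 →L[ℂ] ℂ) : al (η.comp (actL l m n)) = (n * l ^ 3 * m) • al η := by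
  funext i
  simp only [al, ContinuousLinearMap.comp_apply, actL_apply, Pi.smul_apply, smul_eq_mul]
  have : actX l m n (eA i) = (n * l ^ 3 * m) • eA i := by
    simp only [actX, eA, Prod.smul_mk]
    refine Prod.ext ?_ (Prod.ext ?_ (Prod.ext ?_ ?_)) <;> simp
  rw [this, map_smul, smul_eq_mul]

lemma rh_comp (l m n : ℂ) (η : V10 →L[ℂ] ℂ) : rh (η.comp (actL l m n)) = m • rh η := by
  funext i
  simp only [rh, ContinuousLinearMap.comp_apply, actL_apply, Pi.smul_apply, smul_eq_mul]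
  have : actX l m n (eR i) = m • eR i := by
    simp only [actX, eR, Prod.smul_mk]
    refine Prod.ext ?_ (Prod.ext ?_ (Prod.ext ?_ ?_)) <;> simp
  rw [this, map_smul, smul_eq_mul]

lemma al_add (z : V10) (η : V10 →L[ℂ] ℂ) (a b : ℂ) :
    al (η + a • dF z + b • dPhi z) = fun i => al η i + b * z.1 i ^ 3 := by
  funext i
  fin_cases i <;> simp [al, eA, dF_apply, dPhi_apply]

lemma rh_add (z : V10) (η : V10 →L[ℂ] ℂ) (a b : ℂ) :
    rh (η + a • dF z + b • dPhi z) = ![rh η 0 + a * z.2.1 0 ^ 2 +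
      b * (z.2.2.2 * (z.1 0 * z.1 1 * z.1 2) ^ 2), rh η 1 + a * z.2.1 1 ^ 2,
      rh η 2 + a * z.2.1 2 ^ 2] := by
  funext i
  fin_cases i <;> simp [rh, eR, dF_apply, dPhi_apply]

lemma Pj1_inv (hc : CData c) {z : V10} (hz : z ∈ ZX) (j : ℕ) (η : V10 →L[ℂ] ℂ) (a b : ℂ)
    (h1 : z.2.1 1 ≠ 0) : Pj1 c q1 j z (η + a • dF z + b • dPhi z) = Pj1 c q1 j z η := by
  unfold Pj1
  have e := hz.2.1.2
  have hR : valR z (η + a • dF z + b • dPhi z) =
      valR z η + valS z * (b * (z.1 0 * z.1 1 * z.1 2) ^ 2) := by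
    unfold valR valS
    rw [rh_add]
    simp only [Matrix.cons_val_zero, Matrix.cons_val_one, Matrix.cons_val]
    linear_combination a * e
  have hD : valD1 z (η + a • dF z + b • dPhi z) =
      valD1 z η - valB1 z * (b * (z.1 0 * z.1 1 * z.1 2) ^ 2) := by
    unfold valD1 valB1
    rw [rh_add]
    simp only [Matrix.cons_val_zero, Matrix.cons_val]
    field_simp
    ring
  rw [al_add, hR, hD]
  exact PP_shift (fun n => hc.shift n z.1 (al η) b) _ _ _ _ _ _

lemma Pj2_inv (hc : CData c) {z : V10} (hz : z ∈ ZX) (j : ℕ) (η : V10 →L[ℂ] ℂ) (a b : ℂ)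
    (h1 : z.2.1 2 ≠ 0) : Pj2 c q2 j z (η + a • dF z + b • dPhi z) = Pj2 c q2 j z η := by
  unfold Pj2
  have e := hz.2.1.2
  have hR : valR z (η + a • dF z + b • dPhi z) =
      valR z η + valS z * (b * (z.1 0 * z.1 1 * z.1 2) ^ 2) := by
    unfold valR valS
    rw [rh_add]
    simp only [Matrix.cons_val_zero, Matrix.cons_val_one, Matrix.cons_val]
    linear_combination a * e
  have hD : valD2 z (η + a • dF z + b • dPhi z) =
      valD2 z η - valB2 z * (b * (z.1 0 * z.1 1 * z.1 2) ^ 2) := by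
    unfold valD2 valB2
    rw [rh_add]
    simp only [Matrix.cons_val_zero, Matrix.cons_val_one]
    field_simp
    ring
  rw [al_add, hR, hD]
  exact PP_shift (fun n => hc.shift n z.1 (al η) b) _ _ _ _ _ _

lemma c_act (hc : CData c) {l m n : ℂ} (hl : l ≠ 0) (hm : m ≠ 0) (hn : n ≠ 0) (v : Fin 3 → ℂ)
    (η : V10 →L[ℂ] ℂ) (k : ℕ) : c k (l • v) (al η) =
      l * (n * m)⁻¹ ^ k * c k v (al (η.comp (actL l m n))) := by
  rw [al_comp]
  have h1 := hc.hom k v (al η) l 1
  have h2 := hc.hom k v (al η) 1 (n * l ^ 3 * m)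
  rw [one_smul] at h1 h2
  rw [h1, h2]
  have h3 : (n * m)⁻¹ ^ k * (n * l ^ 3 * m) ^ k = l ^ (3 * k) := by
    rw [← mul_pow, pow_mul]
    congr 1
    field_simp
  rw [one_pow, one_pow, pow_succ]
  linear_combination (-(l * c k v (al η))) * h3

lemma Pj1_equi (hc : CData c) (hq : QData q1 q2) {z : V10} (j : ℕ) {l m n : ℂ}
    (hl : l ≠ 0) (hm : m ≠ 0) (hn : n ≠ 0) (η : V10 →L[ℂ] ℂ) (h1 : z.2.1 1 ≠ 0) :
    Pj1 c q1 j (actX l m n z) η = l * m * Pj1 c q1 j z (η.comp (actL l m n)) := by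
  have hs := PP_scale (c := fun k => c k z.1 (al (η.comp (actL l m n))))
    (c' := fun k => c k (actX l m n z).1 (al η)) (q := fun k => q1 k z.2.1)
    (q' := fun k => q1 k (actX l m n z).2.1) (k := l) (t := (n * m)⁻¹) (s := m)
    (fun k => c_act hc hl hm hn z.1 η k) (fun k => hq.hom1 k m z.2.1 hm)
    (valR (actX l m n z) η) (valS (actX l m n z)) (valD1 (actX l m n z) η)
    (valB1 (actX l m n z)) j
  unfold Pj1
  rw [hs]
  congr 2
  · unfold valR
    rw [rh_comp]
    simp only [actX, Pi.smul_apply, smul_eq_mul]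
    ring
  · unfold valS
    simp only [actX, Pi.smul_apply, smul_eq_mul]
    field_simp
  · unfold valD1
    rw [rh_comp]
    simp only [actX, Pi.smul_apply, smul_eq_mul]
    field_simp
  · unfold valB1
    simp only [actX, Pi.smul_apply, smul_eq_mul]
    field_simp

lemma Pj2_equi (hc : CData c) (hq : QData q1 q2) {z : V10} (j : ℕ) {l m n : ℂ}
    (hl : l ≠ 0) (hm : m ≠ 0) (hn : n ≠ 0) (η : V10 →L[ℂ] ℂ) (h1 : z.2.1 2 ≠ 0) :
    Pj2 c q2 j (actX l m n z) η = l * m * Pj2 c q2 j z (η.comp (actL l m n)) := by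
  have hs := PP_scale (c := fun k => c k z.1 (al (η.comp (actL l m n))))
    (c' := fun k => c k (actX l m n z).1 (al η)) (q := fun k => q2 k z.2.1)
    (q' := fun k => q2 k (actX l m n z).2.1) (k := l) (t := (n * m)⁻¹) (s := m)
    (fun k => c_act hc hl hm hn z.1 η k) (fun k => hq.hom2 k m z.2.1 hm)
    (valR (actX l m n z) η) (valS (actX l m n z)) (valD2 (actX l m n z) η)
    (valB2 (actX l m n z)) j
  unfold Pj2
  rw [hs]
  congr 2
  · unfold valR
    rw [rh_comp]
    simp only [actX, Pi.smul_apply, smul_eq_mul]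
    ring
  · unfold valS
    simp only [actX, Pi.smul_apply, smul_eq_mul]
    field_simp
  · unfold valD2
    rw [rh_comp]
    simp only [actX, Pi.smul_apply, smul_eq_mul]
    field_simp
  · unfold valB2
    simp only [actX, Pi.smul_apply, smul_eq_mul]
    field_simp

lemma symPow_R (z : V10) : (fun η => valR z η) ∈ symPow 1 V10 := by
  have h : (fun η : V10 →L[ℂ] ℂ => valR z η) = fun η =>
      (z.2.1 0 * η (eR 0) + z.2.1 1 * η (eR 1)) + z.2.1 2 * η (eR 2) := by
    funext η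
    unfold valR rh
    ring
  rw [h]
  exact (symPow 1 V10).add_mem ((symPow 1 V10).add_mem ((symPow 1 V10).smul_mem _ (symPow_one _))
    ((symPow 1 V10).smul_mem _ (symPow_one _))) ((symPow 1 V10).smul_mem _ (symPow_one _))

lemma symPow_D1 (z : V10) : (fun η => valD1 z η) ∈ symPow 1 V10 := by
  have h : (fun η : V10 →L[ℂ] ℂ => valD1 z η) = fun η =>
      (z.2.1 0 ^ 2 / z.2.1 1) * η (eR 2) + (-(z.2.1 2 ^ 2 / z.2.1 1)) * η (eR 0) := by
    funext η
    unfold valD1 rh
    ring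
  rw [h]
  exact (symPow 1 V10).add_mem ((symPow 1 V10).smul_mem _ (symPow_one _))
    ((symPow 1 V10).smul_mem _ (symPow_one _))

lemma symPow_D2 (z : V10) : (fun η => valD2 z η) ∈ symPow 1 V10 := by
  have h : (fun η : V10 →L[ℂ] ℂ => valD2 z η) = fun η =>
      (z.2.1 1 ^ 2 / z.2.1 2) * η (eR 0) + (-(z.2.1 0 ^ 2 / z.2.1 2)) * η (eR 1) := by
    funext η
    unfold valD2 rh
    ring
  rw [h]
  exact (symPow 1 V10).add_mem ((symPow 1 V10).smul_mem _ (symPow_one _))
    ((symPow 1 V10).smul_mem _ (symPow_one _))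

lemma symPow_c (hc : CData c) (n : ℕ) (v : Fin 3 → ℂ) :
    (fun η : V10 →L[ℂ] ℂ => c n v (al η)) ∈ symPow n V10 := by
  obtain ⟨p, hp, h⟩ := hc.poly n v
  have h1 := symPow_mvPoly hp eA
  refine Eq.mp ?_ h1
  congr 1
  funext η
  rw [h]
  rfl

lemma symPow_PP (hc : CData c) (v : Fin 3 → ℂ) (q : ℕ → ℂ) {R D : (V10 →L[ℂ] ℂ) → ℂ}
    (hR : R ∈ symPow 1 V10) (hD : D ∈ symPow 1 V10) (S β : ℂ) (j : ℕ) :
    (fun η => PP (fun n => c n v (al η)) q (R η) S (D η) β j) ∈ symPow j V10 := by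
  simp only [PP_eq]
  apply symPow_sum
  intro i hi
  apply symPow_const_mul
  apply symPow_sum
  intro a ha
  apply symPow_sum
  intro b hb
  rw [Finset.mem_range] at hi ha hb
  have e1 := symPow_const_mul ((i.choose a : ℂ) * (-S) ^ a) (symPow_pow hR (i - a))
  have e2 := symPow_const_mul (((j - i).choose b : ℂ) * β ^ b) (symPow_pow hD (j - i - b))
  have e3 := symPow_mul (symPow_mul e1 e2) (symPow_c hc (a + b) v)
  have e4 : 1 * (i - a) + 1 * (j - i - b) + (a + b) = j := by omega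
  rw [e4] at e3
  exact e3

lemma contDiffAt_PP {E : Type*} [NormedAddCommGroup E] [NormedSpace ℂ E] {x : E}
    {c q : ℕ → E → ℂ} {R S D β : E → ℂ} (hc : ∀ n, ContDiffAt ℂ ω (c n) x)
    (hq : ∀ n, ContDiffAt ℂ ω (q n) x) (hR : ContDiffAt ℂ ω R x) (hS : ContDiffAt ℂ ω S x)
    (hD : ContDiffAt ℂ ω D x) (hβ : ContDiffAt ℂ ω β x) (j : ℕ) :
    ContDiffAt ℂ ω (fun y => PP (fun n => c n y) (fun n => q n y) (R y) (S y) (D y) (β y) j) x := by
  simp only [PP_eq]
  apply ContDiffAt.sum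
  intro i _
  apply ContDiffAt.mul (contDiffAt_const.mul (hq i))
  apply ContDiffAt.sum
  intro a _
  apply ContDiffAt.sum
  intro b _
  exact (((contDiffAt_const.mul (hS.neg.pow a)).mul (hR.pow _)).mul
    ((contDiffAt_const.mul (hβ.pow b)).mul (hD.pow _))).mul (hc (a + b))

lemma contDiff_al : ContDiff ℂ ω (fun p : V10 × (V10 →L[ℂ] ℂ) => al p.2) := by
  rw [contDiff_pi]
  intro i
  unfold al
  fun_prop

lemma contDiff_rh (i : Fin 3) : ContDiff ℂ ω (fun p : V10 × (V10 →L[ℂ] ℂ) => rh p.2 i) := by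
  unfold rh
  fun_prop

lemma contDiff_R : ContDiff ℂ ω (fun p : V10 × (V10 →L[ℂ] ℂ) => valR p.1 p.2) := by
  unfold valR
  have h0 := contDiff_rh 0
  have h1 := contDiff_rh 1
  have h2 := contDiff_rh 2
  fun_prop

lemma isSymF_Pj (hc : CData c) (hq : QData q1 q2) (j : ℕ) :
    IsSymF j (fun l m _ => l * m) (Pj c q1 q2 j) where
  poly := by
    intro z _
    unfold Pj
    split_ifs with h
    · exact symPow_PP hc z.1 _ (symPow_R z) (symPow_D2 z) _ _ j
    · exact symPow_PP hc z.1 _ (symPow_R z) (symPow_D1 z) _ _ j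
  hol := by
    intro z0 hz0
    have h0 := contDiff_rh 0
    have h1 := contDiff_rh 1
    have h2 := contDiff_rh 2
    by_cases h : z0.2.1 1 = 0
    · have h' : z0.2.1 2 ≠ 0 := by
        intro h'
        have e := hz0.2.1.2
        rw [h, h'] at e
        have : z0.2.1 0 = 0 := by simpa using e
        apply hz0.2.1.1
        funext i
        fin_cases i <;> simp [this, h, h']
      refine ⟨fun p => Pj2 c q2 j p.1 p.2, ?_, ?_⟩
      · intro η
        unfold Pj2
        apply contDiffAt_PP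
        · intro n
          have e1 : ContDiff ℂ ω (fun p : V10 × (V10 →L[ℂ] ℂ) => (p.1.1, al p.2)) :=
            ContDiff.prodMk (by fun_prop) contDiff_al
          exact ((hc.an n).comp e1).contDiffAt
        · intro n
          have e1 : ContDiffAt ℂ ω (fun p : V10 × (V10 →L[ℂ] ℂ) => p.1.2.1) (z0, η) := by fun_prop
          exact ContDiffAt.comp (z0, η) (g := q2 n)
            (f := fun p : V10 × (V10 →L[ℂ] ℂ) => p.1.2.1) (hq.an2 n z0.2.1 h') e1
        · exact contDiff_R.contDiffAt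
        · unfold valS
          fun_prop
        · unfold valD2
          apply ContDiffAt.div
          · fun_prop
          · fun_prop
          · exact h'
        · unfold valB2
          apply ContDiffAt.div
          · fun_prop
          · fun_prop
          · exact h'
      · have e2 : ∀ᶠ z : V10 in 𝓝 z0, z.2.1 2 ≠ 0 := by
          have : ContinuousAt (fun z : V10 => z.2.1 2) z0 := by fun_prop
          exact this.eventually_ne h'
        filter_upwards [e2] with z k1 k2 η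
        unfold Pj
        split_ifs with k3
        · rfl
        · exact (Pj1_eq_Pj2 hq k2 k3 k1 j η).symm
    · refine ⟨fun p => Pj1 c q1 j p.1 p.2, ?_, ?_⟩
      · intro η
        unfold Pj1
        apply contDiffAt_PP
        · intro n
          have e1 : ContDiff ℂ ω (fun p : V10 × (V10 →L[ℂ] ℂ) => (p.1.1, al p.2)) :=
            ContDiff.prodMk (by fun_prop) contDiff_al
          exact ((hc.an n).comp e1).contDiffAt
        · intro n
          have e1 : ContDiffAt ℂ ω (fun p : V10 × (V10 →L[ℂ] ℂ) => p.1.2.1) (z0, η) := by fun_prop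
          exact ContDiffAt.comp (z0, η) (g := q1 n)
            (f := fun p : V10 × (V10 →L[ℂ] ℂ) => p.1.2.1) (hq.an1 n z0.2.1 h) e1
        · exact contDiff_R.contDiffAt
        · unfold valS
          fun_prop
        · unfold valD1
          apply ContDiffAt.div
          · fun_prop
          · fun_prop
          · exact h
        · unfold valB1
          apply ContDiffAt.div
          · fun_prop
          · fun_prop
          · exact h
      · have e2 : ∀ᶠ z : V10 in 𝓝 z0, z.2.1 1 ≠ 0 := by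
          have : ContinuousAt (fun z : V10 => z.2.1 1) z0 := by fun_prop
          exact this.eventually_ne h
        filter_upwards [e2] with z k1 k2 η
        unfold Pj
        rw [if_neg k1]
  inv := by
    intro z hz η a b
    unfold Pj
    split_ifs with h
    · have h' : z.2.1 2 ≠ 0 := by
        intro h'
        have e := hz.2.1.2
        rw [h, h'] at e
        have : z.2.1 0 = 0 := by simpa using e
        apply hz.2.1.1
        funext i
        fin_cases i <;> simp [this, h, h']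
      exact Pj2_inv hc hz j η a b h'
    · exact Pj1_inv hc hz j η a b h
  equi := by
    intro z hz l m n hl hm hn η
    have e : (actX l m n z).2.1 1 = m * z.2.1 1 := rfl
    unfold Pj
    rw [e]
    by_cases h : z.2.1 1 = 0
    · have h' : z.2.1 2 ≠ 0 := by
        intro h'
        have e := hz.2.1.2
        rw [h, h'] at e
        have : z.2.1 0 = 0 := by simpa using e
        apply hz.2.1.1
        funext i
        fin_cases i <;> simp [this, h, h']
      rw [if_pos (by rw [h, mul_zero]), if_pos h]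
      exact Pj2_equi hc hq j hl hm hn η h'
    · rw [if_neg (mul_ne_zero hm h), if_neg h]
      exact Pj1_equi hc hq j hl hm hn η h

end Pool.Agent.Lib.MP_cc389e_ag
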