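import Pool.Agent.Lib.MP_cc389e_ag.MRC

/-!
The tangent spaces of the punctured multicone.
-/

open scoped Manifold ContDiff Topology
open Set Filter

noncomputable section

namespace Pool.Agent.Lib.MP_cc389e_ag

/-- (one third of) the differential of the equation of the cubic -/
def dF (z : V10) : V10 →L[ℂ] ℂ :=
  LinearMap.toContinuousLinearMap
    { toFun := fun w => z.2.1 0 ^ 2 * w.2.1 0 + z.2.1 1 ^ 2 * w.2.1 1 + z.2.1 2 ^ 2 * w.2.1 2
      map_add' := by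
        intro w w'
        simp only [Prod.snd_add, Prod.fst_add, Pi.add_apply]
        ring
      map_smul' := by
        intro c w
        simp only [Prod.smul_snd, Prod.smul_fst, Pi.smul_apply, smul_eq_mul, RingHom.id_apply]
        ring }

/-- the differential of the defining equation -/
def dPhi (z : V10) : V10 →L[ℂ] ℂ :=
  LinearMap.toContinuousLinearMap
    { toFun := fun w =>
        (w.2.2.1 0 * z.1 0 ^ 3 + z.2.2.1 0 * (3 * z.1 0 ^ 2 * w.1 0))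
        + (w.2.2.1 1 * z.1 1 ^ 3 + z.2.2.1 1 * (3 * z.1 1 ^ 2 * w.1 1))
        + (w.2.2.1 2 * z.1 2 ^ 3 + z.2.2.1 2 * (3 * z.1 2 ^ 2 * w.1 2))
        + ((w.2.2.2 * z.2.1 0 + z.2.2.2 * w.2.1 0) * (z.1 0 * z.1 1 * z.1 2) ^ 2
          + z.2.2.2 * z.2.1 0 * (2 * (z.1 0 * z.1 1 * z.1 2) *
            ((w.1 0 * z.1 1 + z.1 0 * w.1 1) * z.1 2 + z.1 0 * z.1 1 * w.1 2)))
      map_add' := by
        intro w w'
        simp only [Prod.snd_add, Prod.fst_add, Pi.add_apply]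
        ring
      map_smul' := by
        intro c w
        simp only [Prod.smul_snd, Prod.smul_fst, Pi.smul_apply, smul_eq_mul, RingHom.id_apply]
        ring }

lemma dF_apply (z w : V10) :
    dF z w = z.2.1 0 ^ 2 * w.2.1 0 + z.2.1 1 ^ 2 * w.2.1 1 + z.2.1 2 ^ 2 * w.2.1 2 := rfl

lemma dPhi_apply (z w : V10) : dPhi z w =
        (w.2.2.1 0 * z.1 0 ^ 3 + z.2.2.1 0 * (3 * z.1 0 ^ 2 * w.1 0))
        + (w.2.2.1 1 * z.1 1 ^ 3 + z.2.2.1 1 * (3 * z.1 1 ^ 2 * w.1 1))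
        + (w.2.2.1 2 * z.1 2 ^ 3 + z.2.2.1 2 * (3 * z.1 2 ^ 2 * w.1 2))
        + ((w.2.2.2 * z.2.1 0 + z.2.2.2 * w.2.1 0) * (z.1 0 * z.1 1 * z.1 2) ^ 2
          + z.2.2.2 * z.2.1 0 * (2 * (z.1 0 * z.1 1 * z.1 2) *
            ((w.1 0 * z.1 1 + z.1 0 * w.1 1) * z.1 2 + z.1 0 * z.1 1 * w.1 2))) := rfl

/-- `w` is the velocity at `z` of a curve in the multicone -/
def IsCurve (z : V10) (γ : ℂ → V10) (w : V10) : Prop :=
  HasDerivAt γ w 0 ∧ γ 0 = z ∧ ∀ᶠ τ in 𝓝 0, γ τ ∈ ZX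

section comps

variable {γ : ℂ → V10} {w : V10} {t : ℂ}

lemma hasDerivAt_v (h : HasDerivAt γ w t) (i : Fin 3) :
    HasDerivAt (fun τ => (γ τ).1 i) (w.1 i) t := by
  have h1 := (ContinuousLinearMap.fst ℂ (Fin 3 → ℂ) ((Fin 3 → ℂ) × (Fin 3 → ℂ) × ℂ)).hasFDerivAt.comp_hasDerivAt t h
  exact hasDerivAt_pi.1 h1 i

lemma hasDerivAt_r (h : HasDerivAt γ w t) (i : Fin 3) :
    HasDerivAt (fun τ => (γ τ).2.1 i) (w.2.1 i) t := by
  have h1 := (ContinuousLinearMap.snd ℂ (Fin 3 → ℂ) ((Fin 3 → ℂ) × (Fin 3 → ℂ) × ℂ)).hasFDerivAt.comp_hasDerivAt t h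
  have h2 := (ContinuousLinearMap.fst ℂ (Fin 3 → ℂ) ((Fin 3 → ℂ) × ℂ)).hasFDerivAt.comp_hasDerivAt t h1
  exact hasDerivAt_pi.1 h2 i

lemma hasDerivAt_a (h : HasDerivAt γ w t) (i : Fin 3) :
    HasDerivAt (fun τ => (γ τ).2.2.1 i) (w.2.2.1 i) t := by
  have h1 := (ContinuousLinearMap.snd ℂ (Fin 3 → ℂ) ((Fin 3 → ℂ) × (Fin 3 → ℂ) × ℂ)).hasFDerivAt.comp_hasDerivAt t h
  have h2 := (ContinuousLinearMap.snd ℂ (Fin 3 → ℂ) ((Fin 3 → ℂ) × ℂ)).hasFDerivAt.comp_hasDerivAt t h1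
  have h3 := (ContinuousLinearMap.fst ℂ (Fin 3 → ℂ) ℂ).hasFDerivAt.comp_hasDerivAt t h2
  exact hasDerivAt_pi.1 h3 i

lemma hasDerivAt_d (h : HasDerivAt γ w t) :
    HasDerivAt (fun τ => (γ τ).2.2.2) (w.2.2.2) t := by
  have h1 := (ContinuousLinearMap.snd ℂ (Fin 3 → ℂ) ((Fin 3 → ℂ) × (Fin 3 → ℂ) × ℂ)).hasFDerivAt.comp_hasDerivAt t h
  have h2 := (ContinuousLinearMap.snd ℂ (Fin 3 → ℂ) ((Fin 3 → ℂ) × ℂ)).hasFDerivAt.comp_hasDerivAt t h1
  exact (ContinuousLinearMap.snd ℂ (Fin 3 → ℂ) ℂ).hasFDerivAt.comp_hasDerivAt t h2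

lemma hasDerivAt_Phi (h : HasDerivAt γ w t) :
    HasDerivAt (fun τ => Phi (γ τ)) (dPhi (γ t) w) t := by
  have hv := hasDerivAt_v h
  have hr := hasDerivAt_r h
  have ha := hasDerivAt_a h
  have hd := hasDerivAt_d h
  have h1 := (((ha 0).fun_mul ((hv 0).fun_pow 3)).fun_add ((ha 1).fun_mul ((hv 1).fun_pow 3))).fun_add
    ((ha 2).fun_mul ((hv 2).fun_pow 3))
  have h2 := (hd.fun_mul (hr 0)).fun_mul ((((hv 0).fun_mul (hv 1)).fun_mul (hv 2)).fun_pow 2)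
  refine (h1.fun_add h2).congr_deriv ?_
  rw [dPhi_apply]
  push_cast
  ring

lemma hasDerivAt_F (h : HasDerivAt γ w t) :
    HasDerivAt (fun τ => (γ τ).2.1 0 ^ 3 + (γ τ).2.1 1 ^ 3 + (γ τ).2.1 2 ^ 3)
      (3 * dF (γ t) w) t := by
  have hr := hasDerivAt_r h
  have h1 := (((hr 0).fun_pow 3).fun_add ((hr 1).fun_pow 3)).fun_add ((hr 2).fun_pow 3)
  refine h1.congr_deriv ?_
  rw [dF_apply]
  push_cast
  ring

end comps

lemma IsCurve.dF_eq {z : V10} {γ : ℂ → V10} {w : V10} (h : IsCurve z γ w) : dF z w = 0 := by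
  have h1 := hasDerivAt_F h.1
  have h2 : (fun τ => (γ τ).2.1 0 ^ 3 + (γ τ).2.1 1 ^ 3 + (γ τ).2.1 2 ^ 3) =ᶠ[𝓝 0] fun _ => 0 := by
    filter_upwards [h.2.2] with τ hτ
    exact hτ.2.1.2
  have h3 := h1.unique ((hasDerivAt_const (0 : ℂ) (0 : ℂ)).congr_of_eventuallyEq h2)
  rw [h.2.1] at h3
  linear_combination h3 / 3

lemma IsCurve.dPhi_eq {z : V10} {γ : ℂ → V10} {w : V10} (h : IsCurve z γ w) : dPhi z w = 0 := by
  have h1 := hasDerivAt_Phi h.1
  have h2 : (fun τ => Phi (γ τ)) =ᶠ[𝓝 0] fun _ => 0 := by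
    filter_upwards [h.2.2] with τ hτ
    exact hτ.2.2.2
  have h3 := h1.unique ((hasDerivAt_const (0 : ℂ) (0 : ℂ)).congr_of_eventuallyEq h2)
  rw [h.2.1] at h3
  exact h3

/-- solving the equation of the cubic for one coordinate -/
def solR (t : Equiv.Perm (Fin 3)) (k : ℂ) (r : Fin 3 → ℂ) : Fin 3 → ℂ :=
  place t (r (t 0)) (k * cbrt (-(r (t 0) ^ 3 + r (t 2) ^ 3) / k ^ 3)) (r (t 2))

/-- solving the second equation for one coordinate -/
def solA (s : Equiv.Perm (Fin 3)) (v r a : Fin 3 → ℂ) (d : ℂ) : Fin 3 → ℂ :=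
  place s (-(a (s 1) * v (s 1) ^ 3 + a (s 2) * v (s 2) ^ 3
      + d * r 0 * (v (s 0) * v (s 1) * v (s 2)) ^ 2) / v (s 0) ^ 3) (a (s 1)) (a (s 2))

/-- local retraction onto the multicone -/
def retr (s t : Equiv.Perm (Fin 3)) (k : ℂ) (z : V10) : V10 :=
  (z.1, solR t k z.2.1, solA s z.1 (solR t k z.2.1) z.2.2.1 z.2.2.2, z.2.2.2)

lemma retr_self {s t : Equiv.Perm (Fin 3)} {z : V10} (hz : z ∈ ZX) (hv : z.1 (s 0) ≠ 0)
    (hr : z.2.1 (t 1) ≠ 0) : retr s t (z.2.1 (t 1)) z = z := by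
  have h1 : solR t (z.2.1 (t 1)) z.2.1 = z.2.1 := by
    have h2 : -(z.2.1 (t 0) ^ 3 + z.2.1 (t 2) ^ 3) / z.2.1 (t 1) ^ 3 = 1 := by
      have := hz.2.1.2
      rw [sum_perm t] at this
      field_simp
      linear_combination -this
    have h3 : cbrt 1 = 1 := by
      have := cbrt_pow_of_mem one_mem_Sec
      simpa using this
    unfold solR
    rw [h2, h3, mul_one]
    apply ext_perm t <;> simp
  unfold retr
  rw [h1]
  refine Prod.ext rfl (Prod.ext rfl (Prod.ext ?_ rfl))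
  have h4 := a0_eq s hv hz.2.2.2
  unfold solA
  apply ext_perm s
  · simp only [place_zero]
    exact h4.symm
  · simp
  · simp

lemma solR_cubic (t : Equiv.Perm (Fin 3)) {k : ℂ} (hk : k ≠ 0) (r : Fin 3 → ℂ) :
    solR t k r 0 ^ 3 + solR t k r 1 ^ 3 + solR t k r 2 ^ 3 = 0 := by
  rw [sum_perm t]
  simp only [solR, place_zero, place_one, place_two]
  rw [mul_pow, cbrt_pow]
  field_simp
  ring

lemma Phi_retr (s t : Equiv.Perm (Fin 3)) (k : ℂ) {z : V10} (hv : z.1 (s 0) ≠ 0) :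
    Phi (retr s t k z) = 0 := by
  rw [Phi_perm s]
  simp only [retr, solA, place_zero, place_one, place_two]
  field_simp
  ring

lemma contDiffAt_retr {s t : Equiv.Perm (Fin 3)} {z : V10} (hz : z ∈ ZX) (hv : z.1 (s 0) ≠ 0)
    (hr : z.2.1 (t 1) ≠ 0) : ContDiffAt ℂ ω (retr s t (z.2.1 (t 1))) z := by
  have hR : ContDiffAt ℂ ω (fun z' : V10 => solR t (z.2.1 (t 1)) z'.2.1) z := by
    unfold solR
    apply contDiff_place
    · fun_prop
    · apply ContDiffAt.mul contDiffAt_const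
      have h1 : ContDiffAt ℂ ω (fun z' : V10 => -(z'.2.1 (t 0) ^ 3 + z'.2.1 (t 2) ^ 3)
          / z.2.1 (t 1) ^ 3) z := by
        apply ContDiffAt.div_const
        fun_prop
      have h2 : -(z.2.1 (t 0) ^ 3 + z.2.1 (t 2) ^ 3) / z.2.1 (t 1) ^ 3 = 1 := by
        have := hz.2.1.2
        rw [sum_perm t] at this
        field_simp
        linear_combination -this
      have h3 : ContDiffAt ℂ ω cbrt (-(z.2.1 (t 0) ^ 3 + z.2.1 (t 2) ^ 3) / z.2.1 (t 1) ^ 3) := by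
        rw [h2]
        exact contDiffAt_cbrt Complex.one_mem_slitPlane
      exact ContDiffAt.comp z (g := cbrt) h3 h1
    · fun_prop
  have hR0 : ContDiffAt ℂ ω (fun z' : V10 => solR t (z.2.1 (t 1)) z'.2.1 0) z :=
    contDiffAt_pi.1 hR 0
  unfold retr
  refine ContDiffAt.prodMk (by fun_prop) (ContDiffAt.prodMk hR (ContDiffAt.prodMk ?_ (by fun_prop)))
  unfold solA
  apply contDiff_place
  · apply ContDiffAt.div
    · apply ContDiffAt.neg
      apply ContDiffAt.add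
      · fun_prop
      · apply ContDiffAt.mul
        · exact ContDiffAt.mul (by fun_prop) hR0
        · fun_prop
    · fun_prop
    · exact pow_ne_zero _ hv
  · fun_prop
  · fun_prop

/-- vectors killed by the two differentials are velocities of curves -/
lemma exists_curve {z w : V10} (hz : z ∈ ZX) (h1 : dF z w = 0) (h2 : dPhi z w = 0) :
    ∃ γ, IsCurve z γ w := by
  obtain ⟨k, hk⟩ : ∃ k, z.1 k ≠ 0 := by
    by_contra hcon
    push Not at hcon
    exact hz.1 (funext hcon)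
  obtain ⟨l, hl⟩ : ∃ k, z.2.1 k ≠ 0 := by
    by_contra hcon
    push Not at hcon
    exact hz.2.1.1 (funext hcon)
  obtain ⟨s, hs0, -⟩ := exists_perm (k := k) (l := k + 1) (by
          fin_cases k <;> decide)
  obtain ⟨t, -, ht1⟩ := exists_perm (k := l + 1) (l := l) (by
          fin_cases l <;> decide)
  subst hs0
  subst ht1
  set R := retr s t (z.2.1 (t 1)) with hR
  set c : ℂ → V10 := fun τ => z + τ • w with hc
  have hc0 : c 0 = z := by simp [hc]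
  have hcd : HasDerivAt c w 0 := by
    have : HasDerivAt (fun τ : ℂ => z + τ • w) ((1 : ℂ) • w) 0 :=
      ((hasDerivAt_id (0 : ℂ)).smul_const w).const_add z
    rw [one_smul] at this
    exact this
  have hRd : DifferentiableAt ℂ R (c 0) := by
    rw [hc0]
    exact (contDiffAt_retr hz hk hl).differentiableAt (by simp)
  have hγ : HasDerivAt (fun τ => R (c τ)) (deriv (fun τ => R (c τ)) 0) 0 := by
    apply DifferentiableAt.hasDerivAt
    exact DifferentiableAt.comp (0 : ℂ) (g := R) (f := c) hRd hcd.differentiableAt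
  set w' := deriv (fun τ => R (c τ)) 0 with hw'
  have h0 : R (c 0) = z := by rw [hc0]; exact retr_self hz hk hl
  have hcurve : IsCurve z (fun τ => R (c τ)) w' := by
    refine ⟨hγ, h0, ?_⟩
    have hcont := hγ.continuousAt
    have e1 : ∀ᶠ τ in 𝓝 (0 : ℂ), (c τ).1 (s 0) ≠ 0 := by
      apply (hasDerivAt_v hcd (s 0)).continuousAt.eventually_ne
      rw [hc0]
      exact hk
    have e2 : ∀ᶠ τ in 𝓝 (0 : ℂ), (R (c τ)).2.1 ≠ 0 := by
      have : ContinuousAt (fun τ => (R (c τ)).2.1) 0 := hcont.snd.fst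
      apply this.eventually_ne
      simp only [h0]
      exact hz.2.1.1
    have e3 : ∀ᶠ τ in 𝓝 (0 : ℂ), (R (c τ)).2.2 ≠ 0 := by
      have : ContinuousAt (fun τ => (R (c τ)).2.2) 0 := hcont.snd.snd
      apply this.eventually_ne
      simp only [h0]
      intro h
      rcases hz.2.2.1 with h3 | h3
      · exact h3 (congrArg Prod.fst h)
      · exact h3 (congrArg Prod.snd h)
    filter_upwards [e1, e2, e3] with τ h3 h4 h5
    refine ⟨?_, ⟨h4, solR_cubic t hl _⟩, ?_, Phi_retr s t _ h3⟩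
    · intro h
      exact h3 (congrFun h (s 0))
    · by_contra hcon
      push Not at hcon
      exact h5 (Prod.ext hcon.1 hcon.2)
  have hv : ∀ i, w'.1 i = w.1 i := fun i => (hasDerivAt_v hγ i).unique (hasDerivAt_v hcd i)
  have hr0 : w'.2.1 (t 0) = w.2.1 (t 0) := by
    refine (hasDerivAt_r hγ (t 0)).unique ?_
    refine (hasDerivAt_r hcd (t 0)).congr_of_eventuallyEq (Eventually.of_forall fun τ => ?_)
    simp [hR, retr, solR]
  have hr2 : w'.2.1 (t 2) = w.2.1 (t 2) := by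
    refine (hasDerivAt_r hγ (t 2)).unique ?_
    refine (hasDerivAt_r hcd (t 2)).congr_of_eventuallyEq (Eventually.of_forall fun τ => ?_)
    simp [hR, retr, solR]
  have ha1 : w'.2.2.1 (s 1) = w.2.2.1 (s 1) := by
    refine (hasDerivAt_a hγ (s 1)).unique ?_
    refine (hasDerivAt_a hcd (s 1)).congr_of_eventuallyEq (Eventually.of_forall fun τ => ?_)
    simp [hR, retr, solA]
  have ha2 : w'.2.2.1 (s 2) = w.2.2.1 (s 2) := by
    refine (hasDerivAt_a hγ (s 2)).unique ?_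
    refine (hasDerivAt_a hcd (s 2)).congr_of_eventuallyEq (Eventually.of_forall fun τ => ?_)
    simp [hR, retr, solA]
  have hd : w'.2.2.2 = w.2.2.2 := by
    refine (hasDerivAt_d hγ).unique ?_
    exact (hasDerivAt_d hcd).congr_of_eventuallyEq (Eventually.of_forall fun τ => rfl)
  have k1 := hcurve.dF_eq
  have k2 := hcurve.dPhi_eq
  have hsumF : ∀ x : V10, dF z x = z.2.1 (t 0) ^ 2 * x.2.1 (t 0) + z.2.1 (t 1) ^ 2 * x.2.1 (t 1)
      + z.2.1 (t 2) ^ 2 * x.2.1 (t 2) := by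
    intro x
    have h1 : ∑ i, z.2.1 i ^ 2 * x.2.1 i = ∑ i, z.2.1 (t i) ^ 2 * x.2.1 (t i) :=
      (Equiv.sum_comp t (fun i => z.2.1 i ^ 2 * x.2.1 i)).symm
    simp only [Fin.sum_univ_three] at h1
    rw [dF_apply, h1]
  have hr1 : w'.2.1 (t 1) = w.2.1 (t 1) := by
    rw [hsumF, hr0, hr2] at k1
    rw [hsumF] at h1
    have h3 : z.2.1 (t 1) ^ 2 * (w'.2.1 (t 1) - w.2.1 (t 1)) = 0 := by
      linear_combination k1 - h1
    have h4 := (mul_eq_zero.1 h3).resolve_left (pow_ne_zero 2 hl)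
    linear_combination h4
  have hr : w'.2.1 = w.2.1 := ext_perm t hr0 hr1 hr2
  have hvv : w'.1 = w.1 := funext hv
  have hsumP : w'.2.2.1 0 * z.1 0 ^ 3 + w'.2.2.1 1 * z.1 1 ^ 3 + w'.2.2.1 2 * z.1 2 ^ 3
      = w.2.2.1 0 * z.1 0 ^ 3 + w.2.2.1 1 * z.1 1 ^ 3 + w.2.2.1 2 * z.1 2 ^ 3 := by
    rw [dPhi_apply] at k2 h2
    rw [hr, hvv, hd] at k2
    linear_combination k2 - h2
  have hperm : ∀ x : Fin 3 → ℂ, x 0 * z.1 0 ^ 3 + x 1 * z.1 1 ^ 3 + x 2 * z.1 2 ^ 3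
      = x (s 0) * z.1 (s 0) ^ 3 + x (s 1) * z.1 (s 1) ^ 3 + x (s 2) * z.1 (s 2) ^ 3 := by
    intro x
    have h1 : ∑ i, x i * z.1 i ^ 3 = ∑ i, x (s i) * z.1 (s i) ^ 3 :=
      (Equiv.sum_comp s (fun i => x i * z.1 i ^ 3)).symm
    simpa only [Fin.sum_univ_three] using h1
  rw [hperm, hperm, ha1, ha2] at hsumP
  have ha0 : w'.2.2.1 (s 0) = w.2.2.1 (s 0) := by
    have h3 : z.1 (s 0) ^ 3 * (w'.2.2.1 (s 0) - w.2.2.1 (s 0)) = 0 := by
      linear_combination hsumP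
    have h4 := (mul_eq_zero.1 h3).resolve_left (pow_ne_zero 3 hk)
    linear_combination h4
  have ha : w'.2.2.1 = w.2.2.1 := ext_perm s ha0 ha1 ha2
  have hww : w' = w := Prod.ext hvv (Prod.ext hr (Prod.ext ha hd))
  exact ⟨_, hww ▸ hcurve⟩

/-- covectors which agree on all velocities differ by a combination of the two differentials -/
lemma exists_combination {z : V10} (hz : z ∈ ZX) {η η' : V10 →L[ℂ] ℂ}
    (h : ∀ γ w, IsCurve z γ w → η w = η' w) : ∃ a b : ℂ, η' = η + a • dF z + b • dPhi z := by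
  have h1 : (⨅ i : Fin 2, LinearMap.ker ((![(dF z : V10 →ₗ[ℂ] ℂ), (dPhi z : V10 →ₗ[ℂ] ℂ)]) i)) ≤
      LinearMap.ker ((η' - η : V10 →L[ℂ] ℂ) : V10 →ₗ[ℂ] ℂ) := by
    intro w hw
    rw [Submodule.mem_iInf] at hw
    have h0 := hw 0
    have h1 := hw 1
    simp only [Matrix.cons_val_zero, Matrix.cons_val_one, LinearMap.mem_ker] at h0 h1
    obtain ⟨γ, hγ⟩ := exists_curve hz h0 h1
    have := h γ w hγ
    simp [this]
  have h2 := mem_span_of_iInf_ker_le_ker h1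
  rw [Submodule.mem_span_range_iff_exists_fun] at h2
  obtain ⟨c, hc⟩ := h2
  simp only [Fin.sum_univ_two, Matrix.cons_val_zero, Matrix.cons_val_one] at hc
  refine ⟨c 0, c 1, ?_⟩
  refine ContinuousLinearMap.ext fun w => ?_
  have := LinearMap.congr_fun hc w
  simp at this
  simp
  linear_combination -this

end Pool.Agent.Lib.MP_cc389e_ag
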